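import Pool.Agent.Work.MP_f0515e_an.Ev.Step
import Pool.Agent.Work.MP_f0515e_an.Sob
import Pool.Agent.Work.MP_f0515e_an.Final

-- merged part: Pool.Agent.Work.MP_f0515e_an.Ev.Iter
section
/-! Iteration and the limit map. -/

open Set Metric Filter Topology MeasureTheory Function BEv
open scoped ENNReal NNReal

noncomputable section
namespace BEe

variable {m : ℕ}

theorem iter_inv_id (y : V m) : invFun (id : V m → V m) y = y := LH.id'.inv_eq rfl

theorem exists_init {v : V m} (hv : v 0 ≠ 0) : ∃ s : St m, St.Ok v s ∧ St.Gam v s ∧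
    IsW s.Γ ∧ St.U v s ⊆ ball 0 (1 / 2) ∧ St.Fib v s 1 ∧ 0 < volume s.I ∧
    ∀ x, St.k v s x = rf v x := by
  have hv0 : 0 ≤ ‖v‖ := norm_nonneg v
  obtain ⟨σ, hσ, hσ1⟩ : ∃ σ : ℝ, 0 < σ ∧ σ * (‖v‖ + 1) = 1 / 16 :=
    ⟨1 / 16 / (‖v‖ + 1), by positivity, by field_simp⟩
  have ha0 : TP (fun y : V m => σ - ‖y‖) := (TP.const σ).sub TP.id'.norm_pi
  have ha : TP (fun y : V m => min σ (max (σ - ‖y‖) 0)) :=
    (TP.const σ).min (ha0.max (TP.const 0))
  let I : Set (V m) := {z | |ell v z| < min σ (max (σ - ‖pj v z‖) 0)}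
  have hI : IsOpen I :=
    isOpen_lt (tp_ell v).abs.continuous (ha.comp (tp_pj v)).continuous
  let s : St m := ⟨id, id, σ, fun y => σ - ‖y‖, I, id⟩
  have hU : St.U v s ⊆ ball 0 (1 / 2) := by
    intro z hz
    have h1 : 0 ≤ σ - ‖pj v z‖ := hz.1
    have h2 : |ell v z| ≤ 4 * σ := hz.2
    rw [mem_ball_zero_iff, ← pj_add_ell v z]
    have h3 := norm_add_le (pj v z) (ell v z • v)
    rw [norm_smul, Real.norm_eq_abs] at h3
    have h4 := mul_le_mul_of_nonneg_right h2 hv0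
    nlinarith
  refine ⟨s, ⟨hv, LH.id', LH.id', hσ, ha0, hI, isBounded_ball.subset hU, fun x hx => ?_⟩,
    fun _ _ => rfl, isW_id, hU, fun z hz t ht => ?_, hI.measure_pos _ ⟨0, ?_⟩, fun x => iter_inv_id _⟩
  · have h1 : |ell v x| < min σ (max (σ - ‖pj v x‖) 0) := hx
    refine ⟨rfl, ?_, h1.le⟩
    have h2 := (abs_nonneg _).trans_lt (h1.trans_le (min_le_right _ _))
    rcases lt_max_iff.1 h2 with h3 | h3
    · exact h3.le
    · exact absurd h3 (lt_irrefl _)
  · have h2 : |ell v z| ≤ 4 * σ := hz.2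
    have h3 : |t| ≤ 4 * σ := ht
    change ‖invFun id (pj v z + t • v) - z‖ ≤ 1
    have h4 : pj v z + t • v - z = (t - ell v z) • v := by
      rw [pj, sub_smul]
      abel
    rw [iter_inv_id, h4, norm_smul, Real.norm_eq_abs]
    have h5 := abs_sub t (ell v z)
    have h6 : |t - ell v z| ≤ 8 * σ := by linarith
    have h7 := mul_le_mul_of_nonneg_right h6 hv0
    nlinarith
  · change |ell v 0| < min σ (max (σ - ‖pj v 0‖) 0)
    have h1 : ell v 0 = 0 := by simp [ell]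
    have h2 : pj v 0 = 0 := by simp [pj, h1]
    rw [h1, h2, abs_zero, norm_zero, sub_zero]
    exact lt_min hσ (lt_max_of_lt_left hσ)

theorem iter_rec {X : Type} {P : ℕ → X → Prop} {R : ℕ → X → X → Prop} {x0 : X} (h0 : P 0 x0)
    (h : ∀ j x, P j x → ∃ y, P (j + 1) y ∧ R j x y) :
    ∃ f : ℕ → X, f 0 = x0 ∧ (∀ j, P j (f j)) ∧ ∀ j, R j (f j) (f (j + 1)) := by
  choose g hg using h
  let F : ∀ j, {x // P j x} := fun j =>
    Nat.rec ⟨x0, h0⟩ (fun j y => ⟨g j y.1 y.2, (hg j y.1 y.2).1⟩) j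
  exact ⟨fun j => (F j).1, rfl, fun j => (F j).2, fun j => (hg j (F j).1 (F j).2).2⟩

theorem iter_En_ne_top {u : V m → V m} (hu : TP u) (Z : Set (V m)) :
    En u (ball 0 1 \ Z) ≠ ⊤ := by
  obtain ⟨L, hL, h⟩ := hu.om_bound
  have h1 : En u (ball 0 1 \ Z) ≤ ∫⁻ _ in ball (0 : V m) 1, (1 + L) ^ (m + 1) := by
    refine (lintegral_mono_set sdiff_subset).trans (lintegral_mono fun x => ?_)
    have := (lip_le_om u one_pos x).trans (h 1 x)
    gcongr
  rw [setLIntegral_const] at h1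
  exact ne_top_of_le_ne_top (ENNReal.mul_ne_top
    (ENNReal.pow_ne_top (ENNReal.add_ne_top.2 ⟨ENNReal.one_ne_top, hL⟩)) measure_ball_ne_top) h1

theorem iter_bound {A d : ℕ → ℝ≥0∞} (h : ∀ j, A (j + 1) ≤ A j + d j) (j : ℕ) :
    A j ≤ A 0 + ∑' i, d i := by
  have h1 : ∀ j, A j ≤ A 0 + ∑ i ∈ Finset.range j, d i := by
    intro j
    induction j with
    | zero => simp
    | succ j ih =>
      rw [Finset.sum_range_succ, ← add_assoc]
      exact (h j).trans (by gcongr)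
  exact (h1 j).trans (by gcongr; exact ENNReal.sum_le_tsum _)

/-- The sequence of states. -/
theorem exists_seq (hm : 2 ≤ m) : ∃ (v : V m) (s : ℕ → St m), (∀ j, St.Ok v (s j)) ∧
    (∀ x, St.k v (s 0) x = rf v x) ∧ St.U v (s 0) ⊆ ball 0 (1 / 2) ∧
    (∀ x, 1 / 2 ≤ ‖x‖ → St.k v (s 1) x = St.k v (s 0) x) ∧
    (∀ j, St.U v (s (j + 1)) ⊆ (s j).I) ∧
    (∀ j x, x ∉ (s j).I → St.k v (s (j + 2)) x = St.k v (s (j + 1)) x) ∧
    (∀ j x, ‖St.k v (s (j + 1)) x - St.k v (s j) x‖ ≤ 3 * (1 / 2) ^ j) ∧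
    (∀ j, St.Fib v (s j) ((1 / 2) ^ j)) ∧
    (∑' j, volume ((s j).I \ (s (j + 1)).I)) < volume (s 0).I ∧
    ∃ M : ℝ≥0∞, M ≠ ⊤ ∧ ∀ j, En (St.u v (s j)) (ball 0 1 \ St.U v (s j)) ≤ M := by
  obtain ⟨C, hC, hstep⟩ := step hm
  obtain ⟨v, hv, hGP⟩ := exists_GP hm
  obtain ⟨s0, hok, hgam, hw, hU, hfib, hvol, hk⟩ := exists_init hv
  obtain ⟨δ, hδ, hδ1⟩ := ENNReal.exists_nnreal_pos_mul_lt
    (ENNReal.add_ne_top.2 ⟨hC, ENNReal.one_ne_top⟩) hvol.ne'
  obtain ⟨e, he, he1⟩ := ENNReal.exists_pos_sum_of_countable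
    (ε := δ) (ENNReal.coe_ne_zero.2 hδ.ne') ℕ
  obtain ⟨f, hf0, hP, hR⟩ := iter_rec (X := St m × Set (V m) × Set (V m))
    (P := fun j x => St.Ok v x.1 ∧ St.Gam v x.1 ∧ IsW x.1.Γ ∧
      St.Fib v x.1 ((1 / 2) ^ j) ∧ IsCompact x.2.1 ∧ IsOpen x.2.2 ∧ St.U v x.1 ⊆ x.2.2)
    (R := fun j x y => y.2.2 = x.1.I ∧ (∀ z, z ∉ x.2.2 → St.k v y.1 z = St.k v x.1 z) ∧
      (∀ z, ‖St.k v y.1 z - St.k v x.1 z‖ ≤ 3 * (1 / 2) ^ j) ∧
      St.Fold v y.1 ⊆ y.2.1 ∧ En (St.u v y.1) y.2.1 ≤ e j ∧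
      En (St.u v y.1) (St.U v y.1 \ y.1.I) ≤ C * En (St.u v x.1) x.2.1 + e j ∧
      volume (x.1.I \ y.1.I) ≤ C * En (St.u v x.1) x.2.1 + e j ∧
      (St.Fold v x.1 ⊆ x.2.1 → En (St.u v y.1) (ball 0 1 \ St.U v y.1) ≤
        En (St.u v x.1) (ball 0 1 \ St.U v x.1) + (C * En (St.u v x.1) (St.U v x.1 \ x.1.I) +
          C * En (St.u v x.1) x.2.1 + e j)))
    (x0 := (s0, ∅, ball 0 (1 / 2)))
    ⟨hok, hgam, hw, by rwa [pow_zero], isCompact_empty, isOpen_ball, hU⟩ (by
      rintro j ⟨s, Fo, W⟩ ⟨h1, h2, h3, h4, h5, h6, h7⟩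
      have hp : (0 : ℝ) < (1 / 2) ^ j := by positivity
      obtain ⟨s', Fo', g1, g2, g3, g4, g5, g6, g7, g8, g9, g10, g11, g12, g13⟩ :=
        hstep v hGP s h1 h2 h3 _ hp.le h4 Fo W h5 h6 h7 (e j) (ENNReal.coe_ne_zero.2 (he j).ne')
          ((1 / 2) ^ (j + 1)) (by positivity)
      refine ⟨(s', Fo', s.I), ⟨g1, g2, g3, g7, g8, h1.hI, g4⟩, rfl, g5, fun z => ?_, g9, g10,
        g11, g12, fun h => ?_⟩
      · refine (g6 z).trans ?_
        rw [pow_succ]
        linarith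
      · rw [← add_assoc, ← add_assoc]
        exact g13 h _ measurableSet_ball)
  set b : ℕ → ℝ≥0∞ := fun j => En (St.u v (f j).1) (f j).2.1 with hb
  set S : ℝ≥0∞ := ∑' j, (e j : ℝ≥0∞) with hS
  have hSt : S ≠ ⊤ := (he1.trans ENNReal.coe_lt_top).ne
  have hb1 : ∑' j, b (j + 1) ≤ S := ENNReal.tsum_le_tsum fun j => (hR j).2.2.2.2.1
  have hb0 : b 0 = 0 := by
    simp only [hb, hf0, En, Measure.restrict_empty, lintegral_zero_measure]
  have hb2 : ∑' j, b j ≤ S := by
    rw [tsum_eq_zero_add' ENNReal.summable, hb0, zero_add]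
    exact hb1
  have he2 : ∑' j, (e (j + 1) : ℝ≥0∞) ≤ S :=
    ENNReal.tsum_comp_le_tsum_of_injective (f := fun j : ℕ => j + 1) (add_left_injective 1)
      fun j => (e j : ℝ≥0∞)
  have hsum : ∑' j, (C * b j + e j) ≤ C * S + S := by
    rw [ENNReal.tsum_add, ENNReal.tsum_mul_left]
    gcongr
  refine ⟨v, fun j => (f j).1, fun j => (hP j).1, by simpa only [hf0] using hk,
    by simpa only [hf0] using hU, fun x hx => (hR 0).2.1 x ?_, fun j => ?_,
    fun j x hx => (hR (j + 1)).2.1 x (by rwa [(hR j).1]), fun j => (hR j).2.2.1,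
    fun j => (hP j).2.2.2.1, ?_, ?_⟩
  · rw [hf0]
    simpa using hx
  · rw [← (hR j).1]
    exact (hP (j + 1)).2.2.2.2.2.2
  · refine ((ENNReal.tsum_le_tsum fun j => (hR j).2.2.2.2.2.2.1).trans hsum).trans_lt ?_
    simp only [hf0]
    refine lt_of_le_of_lt ?_ hδ1
    rw [mul_comm (δ : ℝ≥0∞), add_mul, one_mul]
    have := he1.le
    gcongr
  · set A : ℕ → ℝ≥0∞ := fun j => En (St.u v (f j).1) (ball 0 1 \ St.U v (f j).1) with hA
    have hAt : ∀ j, A j ≠ ⊤ := fun j => iter_En_ne_top (St.tp_u (hP j).1) _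
    have h1 : ∀ j, A (j + 1 + 1) ≤ A (j + 1) + (C * (C * b j + e j) + C * b (j + 1) + e (j + 1)) :=
      fun j => ((hR (j + 1)).2.2.2.2.2.2.2 (hR j).2.2.2.1).trans (by
        have := (hR j).2.2.2.2.2.1
        gcongr)
    have h2 : ∑' j, (C * (C * b j + e j) + C * b (j + 1) + e (j + 1)) ≤
        C * (C * S + S) + C * S + S := by
      rw [ENNReal.tsum_add, ENNReal.tsum_add, ENNReal.tsum_mul_left, ENNReal.tsum_mul_left]
      gcongr
    refine ⟨A 0 + (A 1 + (C * (C * S + S) + C * S + S)), ?_, fun j => ?_⟩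
    · have := hAt 0
      have := hAt 1
      finiteness
    · rcases j with _ | j
      · exact le_self_add
      · exact ((iter_bound (A := fun j => A (j + 1)) h1 j).trans (by gcongr)).trans le_add_self

theorem exists_map (hm : 2 ≤ m) : ∃ (v : V m) (k : V m → V m) (E0 : Set (V m)), v 0 ≠ 0 ∧
    Continuous k ∧ Injective k ∧ IsClosed E0 ∧ E0 ⊆ ball 0 1 ∧ 0 < volume E0 ∧
    (∀ x ∈ E0, k x = x) ∧ (∀ x, 1 / 2 ≤ ‖x‖ → k x = rf v x) ∧
    (∀ t : ℝ, 0 < t → ∃ (kj : V m → V m) (L : ℝ≥0), LipschitzWith L kj ∧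
      ∀ x, k x = kj x ∨ (‖k x - x‖ < t ∧ ‖kj x - x‖ < t)) ∧
    ∫⁻ x in ball (0 : V m) 1 \ E0, lip k x ^ (m + 1) ≠ ⊤ := by
  obtain ⟨v, s, hok, hk0, hU0, hk1, hUI, hk2, hd, hfib, hvol, M, hM, hEn⟩ := exists_seq hm
  have hd' : ∀ x j, dist (St.k v (s j) x) (St.k v (s (j + 1)) x) ≤ 3 * (1 / 2) ^ j := fun x j => by
    rw [dist_comm, dist_eq_norm]
    exact hd j x
  have hhalf : (1 / 2 : ℝ) < 1 := by norm_num
  have hex : ∀ x, ∃ y, Tendsto (fun j => St.k v (s j) x) atTop (𝓝 y) := fun x =>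
    cauchySeq_tendsto_of_complete (cauchySeq_of_le_geometric _ _ hhalf (hd' x))
  choose k hk using hex
  have hkd : ∀ j x, ‖St.k v (s j) x - k x‖ ≤ 6 * (1 / 2) ^ j := fun j x => by
    have := dist_le_of_le_geometric_of_tendsto _ _ hhalf (hd' x) (hk x) j
    rw [dist_eq_norm] at this
    exact this.trans (le_of_eq (by ring))
  have hsmall : ∀ t : ℝ, 0 < t → ∀ᶠ j : ℕ in atTop, 7 * (1 / 2 : ℝ) ^ j < t := fun t ht => by
    have h1 := (tendsto_pow_atTop_nhds_zero_of_lt_one (by norm_num) hhalf).const_mul 7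
    rw [mul_zero] at h1
    exact h1.eventually (gt_mem_nhds ht)
  have hUa : Antitone fun j => St.U v (s j) :=
    antitone_nat_of_succ_le fun j => (hUI j).trans (St.I_subset_U (hok j))
  have hoff : ∀ j x, x ∉ St.U v (s j) → k x = St.k v (s (j + 1)) x := by
    intro j x hx
    have h1 : ∀ n, St.k v (s (n + j + 1)) x = St.k v (s (j + 1)) x := by
      intro n
      induction n with
      | zero => rw [zero_add]
      | succ n ih =>
        rw [← ih, show n + 1 + j + 1 = n + j + 2 by ring]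
        exact hk2 _ x fun h => hx (hUa (Nat.le_add_left j n) (St.I_subset_U (hok _) h))
    have h2 : Tendsto (fun n => St.k v (s (n + (j + 1))) x) atTop (𝓝 (k x)) :=
      (tendsto_add_atTop_iff_nat (f := fun n => St.k v (s n) x) (j + 1)).2 (hk x)
    refine tendsto_nhds_unique h2 ?_
    simp only [← add_assoc, h1]
    exact tendsto_const_nhds
  have hon : ∀ j, ∀ x ∈ St.U v (s j), ‖k x - x‖ ≤ 7 * (1 / 2) ^ j := fun j x hx => by
    have h1 := St.norm_k_sub_le (hok j) (hfib j) hx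
    have h2 := hkd j x
    have h3 := norm_sub_le_norm_sub_add_norm_sub (k x) (St.k v (s j) x) x
    rw [norm_sub_rev] at h2
    linarith
  have hE : ∀ x ∈ ⋂ j, St.U v (s j), k x = x := fun x hx => by
    rw [← sub_eq_zero, ← norm_le_zero_iff]
    refine le_of_forall_pos_le_add fun t ht => ?_
    obtain ⟨j, hj⟩ := (hsmall t ht).exists
    have := hon j x (mem_iInter.1 hx j)
    linarith
  have hmix : ∀ x ∈ ⋂ j, St.U v (s j), ∀ y, k x = k y → y ∈ ⋂ j, St.U v (s j) := by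
    intro x hx y hxy
    refine mem_iInter.2 fun j => by_contra fun hy => hy (hUa (Nat.le_succ j) ?_)
    refine St.mem_U_of_k (hok (j + 1)) ?_
    rw [← hoff j y hy, ← hxy, hE x hx]
    exact hUI _ (mem_iInter.1 hx (j + 2))
  have hcl : ∀ j, IsClosed (St.U v (s j)) := fun j => (St.isCompact_U (hok j)).isClosed
  refine ⟨v, k, ⋂ j, St.U v (s j), (hok 0).hv, ?_, fun x y hxy => ?_, isClosed_iInter hcl,
    ((iInter_subset _ 0).trans hU0).trans (ball_subset_ball hhalf.le), ?_, hE, fun x hx => ?_,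
    fun t ht => ?_, ?_⟩
  · refine TendstoUniformly.continuous (F := fun j => St.k v (s j)) (p := atTop) ?_
      (Frequently.of_forall fun j => (St.lh_k (hok j)).tp.continuous)
    refine Metric.tendstoUniformly_iff.2 fun t ht => (hsmall t ht).mono fun j hj x => ?_
    have h1 := hkd j x
    have h2 : (0 : ℝ) < (1 / 2) ^ j := by positivity
    rw [dist_comm, dist_eq_norm]
    linarith
  · by_cases hx : x ∈ ⋂ j, St.U v (s j)
    · rw [← hE x hx, hxy, hE y (hmix x hx y hxy)]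
    · have hy : y ∉ ⋂ j, St.U v (s j) := fun hy => hx (hmix y hy x hxy.symm)
      obtain ⟨i, hi⟩ := not_forall.1 (mt mem_iInter.2 hx)
      obtain ⟨j, hj⟩ := not_forall.1 (mt mem_iInter.2 hy)
      rw [hoff (max i j) x fun h => hi (hUa (le_max_left i j) h),
        hoff (max i j) y fun h => hj (hUa (le_max_right i j) h)] at hxy
      exact (St.lh_k (hok _)).inj hxy
  · refine pos_iff_ne_zero.2 fun h0 => hvol.not_ge ?_
    have h1 : (s 0).I ⊆ (⋂ j, St.U v (s j)) ∪ ⋃ j, (s j).I \ (s (j + 1)).I := by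
      intro x hx
      refine or_iff_not_imp_right.2 fun hn => mem_iInter.2 fun j => St.I_subset_U (hok j) ?_
      induction j with
      | zero => exact hx
      | succ j ih => exact by_contra fun h => hn (mem_iUnion.2 ⟨j, ih, h⟩)
    refine (measure_mono h1).trans ((measure_union_le _ _).trans ?_)
    rw [h0, zero_add]
    exact measure_iUnion_le _
  · rw [hoff 0 x fun h => (mem_ball_zero_iff.1 (hU0 h)).not_ge hx, hk1 x hx, hk0]
  · obtain ⟨j, hj⟩ := (hsmall t ht).exists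
    obtain ⟨L, hL⟩ := (St.lh_k (hok (j + 1))).tp.lip
    refine ⟨_, L, hL, fun x => ?_⟩
    by_cases hx : x ∈ St.U v (s j)
    · refine Or.inr ⟨(hon j x hx).trans_lt hj, ?_⟩
      have h1 := St.norm_k_sub_le (hok j) (hfib j) hx
      have h2 := hd j x
      have h3 := norm_sub_le_norm_sub_add_norm_sub (St.k v (s (j + 1)) x) (St.k v (s j) x) x
      have h4 : (0 : ℝ) < (1 / 2) ^ j := by positivity
      linarith
    · exact Or.inl (hoff j x hx)
  · rw [sdiff_iInter, setLIntegral_iUnion_of_directed _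
      (Monotone.directed_le fun i j h => sdiff_subset_sdiff_right (hUa h))]
    refine ne_top_of_le_ne_top hM (iSup_le fun j => le_trans ?_ (hEn (j + 1)))
    refine le_trans (setLIntegral_mono' (measurableSet_ball.diff (hcl j).measurableSet)
      fun x hx => ?_) (lintegral_mono_set (sdiff_subset_sdiff_right (hUa (Nat.le_succ j))))
    have h1 : k =ᶠ[𝓝 x] St.u v (s (j + 1)) := by
      filter_upwards [(hcl j).isOpen_compl.mem_nhds hx.2] with y hy
      rw [hoff j y hy, St.u_eq_k (hok _) fun h => hy (hUa (Nat.le_succ j) h)]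
    rw [lip_congr h1]
    gcongr
    exact le_add_self

end BEe
end
end

-- merged part: Pool.Agent.Work.MP_f0515e_an.Ev.Final
section
/-! Assembly. -/

open Set Metric Filter Topology MeasureTheory Function BEv
open scoped ENNReal NNReal

noncomputable section
namespace BEe

/-- The linear functional `ell v` as a continuous linear map. -/
def ellL {m : ℕ} (v : V m) : V m →L[ℝ] ℝ := (v 0)⁻¹ • ContinuousLinearMap.proj 0

theorem ellL_apply {m : ℕ} (v z : V m) : ellL v z = ell v z := by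
  simp [ellL, ell, div_eq_inv_mul]

/-- The reflection as a continuous linear map. -/
def rfL {m : ℕ} (v : V m) : V m →L[ℝ] V m :=
  ContinuousLinearMap.id ℝ (V m) + ((-2 : ℝ) • ellL v).smulRight v

theorem rfL_apply {m : ℕ} (v z : V m) : rfL v z = rf v z := by
  simp only [rfL, rf, ContinuousLinearMap.add_apply, ContinuousLinearMap.id_apply,
    ContinuousLinearMap.smulRight_apply, ContinuousLinearMap.smul_apply, ellL_apply, smul_eq_mul]
  rw [sub_eq_add_neg, ← neg_smul]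
  congr 2
  ring

theorem det_rfL {m : ℕ} {v : V m} (hv : v 0 ≠ 0) : (rfL v).det = -1 := by
  rw [rfL, det_id_add_smulRight]
  simp only [ContinuousLinearMap.smul_apply, ellL_apply, smul_eq_mul, ell]
  rw [div_self hv]
  norm_num

theorem main (m : ℕ) (hm : 2 ≤ m) (p : ℝ≥0∞) (hp1 : 1 ≤ p) (hpm : p ≤ ((m + 1 : ℕ) : ℝ≥0∞)) :
    ∃ (f : (Fin (2 * m + 2) → ℝ) → Fin (2 * m + 2) → ℝ)
      (D : (Fin (2 * m + 2) → ℝ) → (Fin (2 * m + 2) → ℝ) →L[ℝ] (Fin (2 * m + 2) → ℝ)),
      IsEmbedding (fun x : ball (0 : Fin (2 * m + 2) → ℝ) 1 => f x) ∧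
      MemW1p p (ball 0 1) f D ∧
      0 < volume {x ∈ ball (0 : Fin (2 * m + 2) → ℝ) 1 | 0 < (D x).det} ∧
      0 < volume {x ∈ ball (0 : Fin (2 * m + 2) → ℝ) 1 | (D x).det < 0} ∧
      ¬ Approximable IsDiffeo p (ball 0 1) f D ∧ ¬ Approximable IsPAHomeo p (ball 0 1) f D := by
  obtain ⟨v, k, E0, hv, hk, hinj, hE0, hEb, hEpos, hid, hrf, htr, hen⟩ := exists_map hm
  have hW : MemW1p ((m + 1 : ℕ) : ℝ≥0∞) (ball (0 : V m) 1) k (wD k) :=
    memW1p_of_trunc (by omega) hk hE0.measurableSet hid htr hen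
  have hfin : volume (ball (0 : V m) 1) ≠ ⊤ := measure_ball_lt_top.ne
  haveI : IsFiniteMeasure (volume.restrict (ball (0 : V m) 1)) :=
    isFiniteMeasure_restrict.2 hfin
  have hWp : MemW1p p (ball (0 : V m) 1) k (wD k) :=
    ⟨hW.1.mono_exponent hpm, hW.2.1.mono_exponent hpm, hW.2.2⟩
  have hemb : IsEmbedding (fun x : ball (0 : V m) 1 => k x) := by
    haveI : CompactSpace (closedBall (0 : V m) 1) :=
      isCompact_iff_compactSpace.1 (isCompact_closedBall _ _)
    have h1 : IsEmbedding (fun x : closedBall (0 : V m) 1 => k x) :=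
      ((hk.comp continuous_subtype_val).isClosedEmbedding
        (hinj.comp Subtype.val_injective)).isEmbedding
    exact h1.comp (IsEmbedding.inclusion (ball_subset_closedBall))
  have hpos : 0 < volume {x ∈ ball (0 : V m) 1 | 0 < (wD k x).det} := by
    refine lt_of_lt_of_le hEpos (measure_mono fun x hx => ⟨hEb hx, ?_⟩)
    simp only [wD, hid x hx, if_true]
    have : (ContinuousLinearMap.id ℝ (V m)).det = 1 := by
      simp [ContinuousLinearMap.det]
    rw [this]; exact one_pos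
  have hneg : 0 < volume {x ∈ ball (0 : V m) 1 | (wD k x).det < 0} := by
    have hO : IsOpen {x : V m | 1 / 2 < ‖x‖ ∧ ‖x‖ < 1 ∧ 0 < x 0} :=
      (isOpen_lt continuous_const continuous_norm).inter
        ((isOpen_lt continuous_norm continuous_const).inter
          (isOpen_lt continuous_const (continuous_apply 0)))
    have hne : {x : V m | 1 / 2 < ‖x‖ ∧ ‖x‖ < 1 ∧ 0 < x 0}.Nonempty := by
      refine ⟨fun _ => 3 / 4, ?_⟩
      have : ‖(fun _ => 3 / 4 : V m)‖ = 3 / 4 := by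
        rw [pi_norm_const]; norm_num
      simp only [mem_setOf_eq, this]
      norm_num
    refine lt_of_lt_of_le (hO.measure_pos volume hne) (measure_mono fun x hx => ⟨?_, ?_⟩)
    · simpa using hx.2.1
    · have hev : k =ᶠ[𝓝 x] rfL v := by
        filter_upwards [(isOpen_lt continuous_const continuous_norm).mem_nhds hx.1] with y hy
        rw [rfL_apply]; exact hrf y (le_of_lt hy)
      have hne : k x ≠ x := by
        rw [hrf x hx.1.le]
        intro h
        have h0 := congrFun h 0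
        simp only [rf, ell, Pi.sub_apply, Pi.smul_apply, smul_eq_mul] at h0
        have : 2 * (x 0 / v 0) * v 0 = 2 * x 0 := by field_simp
        have h2 := hx.2.2
        linarith
      simp only [wD, hne, if_false]
      rw [hev.fderiv_eq, ContinuousLinearMap.fderiv, det_rfL hv]
      norm_num
  refine ⟨k, wD k, hemb, hWp, hpos, hneg, ?_, ?_⟩
  · exact not_approximable hp1 measurableSet_ball hfin hWp.2.1
      (fun g Dg h1 h2 h3 => h1.sign isOpen_ball (convex_ball _ _).isPreconnected h2 h3) hpos hneg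
  · exact not_approximable hp1 measurableSet_ball hfin hWp.2.1
      (fun g Dg h1 h2 h3 => h1.sign isOpen_ball (convex_ball _ _) h2 h3) hpos hneg

end BEe
end
end
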