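import Pool.Agent.Work.MP_f0515e_an.Ev.PF2

-- merged part: Pool.Agent.Work.MP_f0515e_an.Ev.GP1
section
-- merged part: Pool.Agent.Work.MP_f0515e_an.Ev.Lines
section
/-! Lines of double points: normal form, coverings, separation.

Plan for `GP.norm`: discard the lines inside the diagonal (two parameters with equal components
force `l.1.1 = l.1.2` and `l.2.1 = l.2.2`, and such a line carries no double pair), and choose one
representative for every set `range l.pt` (a section of `l ↦ range l.pt` over the finite image).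
Two lines sharing two different points have the same range.
Plan for `cover`: on a line with `‖l.2.1‖ = P > 0` the parameters with `‖(l.pt s).1‖ ≤ R` satisfy
`|s| * P ≤ |R| + ‖l.1.1‖`; take the points with parameters `j * (t / P)`, `|j| ≤ (|R| + ‖l.1.1‖) / t + 1`
(`round`).  So `D.card ≤ C / t` for `t ≤ 1`, and `C * t ^ m ≤ C * t ≤ δ` for small `t`. -/

open Set Metric Filter Topology MeasureTheory Function BEv
open scoped ENNReal NNReal

noncomputable section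
namespace BEe

variable {m : ℕ}

/-- The lower (`true`) or upper (`false`) component. -/
def sd (b : Bool) (p : V m × V m) : V m := if b then p.1 else p.2

theorem sd_pt (b : Bool) (l : Ln m) (t : ℝ) : sd b (l.pt t) = sd b l.1 + t • sd b l.2 := by
  cases b <;> rfl

/-- Ordered pairs of points of the skeleton in `N` with the same projection. -/
def Rel (v : V m) (Γ : V m → V m) (N : Set (V m)) (p : V m × V m) : Prop :=
  p.1 ∈ N ∧ p.2 ∈ N ∧ mu p.1 = 0 ∧ mu p.2 = 0 ∧ pj v (Γ p.1) = pj v (Γ p.2) ∧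
    ell v (Γ p.1) ≤ ell v (Γ p.2)

theorem linesRange {l l' : Ln m} {t1 t2 s1 s2 : ℝ} (ht : t1 ≠ t2)
    (h1 : l.pt t1 = l'.pt s1) (h2 : l.pt t2 = l'.pt s2) : range l.pt ⊆ range l'.pt := by
  rintro _ ⟨t, rfl⟩
  have hd : (t1 - t2) • l.2 = (s1 - s2) • l'.2 := by
    have e1 : (t1 - t2) • l.2 = l.pt t1 - l.pt t2 := by
      simp only [Ln.pt, sub_smul]; abel
    have e2 : (s1 - s2) • l'.2 = l'.pt s1 - l'.pt s2 := by
      simp only [Ln.pt, sub_smul]; abel
    rw [e1, e2, h1, h2]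
  have hne : t1 - t2 ≠ 0 := sub_ne_zero.mpr ht
  have hd' : l.2 = ((s1 - s2) / (t1 - t2)) • l'.2 := by
    rw [div_eq_inv_mul, mul_smul, ← hd, smul_smul, inv_mul_cancel₀ hne, one_smul]
  refine ⟨s1 + (t - t1) * ((s1 - s2) / (t1 - t2)), ?_⟩
  have e3 : l.pt t = l.pt t1 + (t - t1) • l.2 := by
    simp only [Ln.pt, sub_smul]; abel
  rw [e3, h1, hd']
  simp only [Ln.pt, add_smul, smul_smul]
  abel

theorem linesInj {l : Ln m} (hl : l.2.1 ≠ 0) : Function.Injective l.pt := by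
  intro a b hab
  have h1 : (l.pt a).1 = (l.pt b).1 := by rw [hab]
  simp only [Ln.pt, Prod.fst_add, Prod.smul_fst, add_right_inj] at h1
  exact smul_left_injective ℝ hl h1

theorem linesDiag {l : Ln m} (hl : ¬ (l.1.1 = l.1.2 ∧ l.2.1 = l.2.2)) :
    {t : ℝ | (l.pt t).1 = (l.pt t).2}.Subsingleton := by
  intro a ha b hb
  by_contra hab
  apply hl
  simp only [Ln.pt, Prod.fst_add, Prod.smul_fst, Prod.snd_add, Prod.smul_snd, mem_ofPred_eq]
    at ha hb
  have hd : (a - b) • l.2.1 = (a - b) • l.2.2 := by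
    have e1 : (a - b) • l.2.1 = (l.1.1 + a • l.2.1) - (l.1.1 + b • l.2.1) := by
      rw [sub_smul]; abel
    have e2 : (a - b) • l.2.2 = (l.1.2 + a • l.2.2) - (l.1.2 + b • l.2.2) := by
      rw [sub_smul]; abel
    rw [e1, e2, ha, hb]
  have hd' : l.2.1 = l.2.2 := smul_right_injective _ (sub_ne_zero.mpr hab) hd
  refine ⟨?_, hd'⟩
  rw [hd'] at ha
  exact add_right_cancel ha

theorem GP.norm {v : V m} {Γ : V m → V m} (h : GP v Γ) (R : ℝ) : ∃ S : Finset (Ln m),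
    (∀ l ∈ S, l.2.1 ≠ 0 ∧ l.2.2 ≠ 0 ∧ {t : ℝ | (l.pt t).1 = (l.pt t).2}.Finite) ∧
    (∀ l ∈ S, ∀ l' ∈ S, l ≠ l' → {t : ℝ | ∃ t', l.pt t = l'.pt t'}.Finite) ∧
    ∀ x x', mu x = 0 → mu x' = 0 → ‖x‖ ≤ R → ‖x'‖ ≤ R → x ≠ x' → pj v (Γ x) = pj v (Γ x') →
      ∃ l ∈ S, ∃ t, l.pt t = (x, x') := by
  classical
  obtain ⟨S0, hS0, hcov⟩ := h.lines R
  set S1 : Finset (Ln m) := S0.filter (fun l => ¬ (l.1.1 = l.1.2 ∧ l.2.1 = l.2.2)) with hS1
  set f : Ln m → Set (V m × V m) := fun l => range l.pt with hf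
  set g : Set (V m × V m) → Ln m := Function.invFunOn f (S1 : Set (Ln m)) with hg
  have hgm : ∀ a ∈ S1, g (f a) ∈ S1 := fun a ha =>
    Finset.mem_coe.mp (Function.invFunOn_mem (f := f) ⟨a, Finset.mem_coe.mpr ha, rfl⟩)
  have hge : ∀ a ∈ S1, f (g (f a)) = f a := fun a ha =>
    Function.invFunOn_eq (f := f) ⟨a, Finset.mem_coe.mpr ha, rfl⟩
  refine ⟨S1.image (fun l => g (f l)), ?_, ?_, ?_⟩
  · intro l hl
    obtain ⟨a, ha, rfl⟩ := Finset.mem_image.mp hl
    have hm := Finset.mem_filter.mp (hgm a ha)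
    exact ⟨(hS0 _ hm.1).1, (hS0 _ hm.1).2, (linesDiag hm.2).finite⟩
  · intro l hl l' hl' hne
    obtain ⟨a, ha, rfl⟩ := Finset.mem_image.mp hl
    obtain ⟨a', ha', rfl⟩ := Finset.mem_image.mp hl'
    apply Set.Subsingleton.finite
    rintro t1 ⟨s1, h1⟩ t2 ⟨s2, h2⟩
    by_contra ht
    apply hne
    have hm := Finset.mem_filter.mp (hgm a ha)
    have hs : s1 ≠ s2 := by
      intro hs
      apply ht
      apply linesInj (hS0 _ hm.1).1
      rw [h1, h2, hs]
    have e : f (g (f a)) = f (g (f a')) :=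
      Subset.antisymm (linesRange ht h1 h2) (linesRange hs h1.symm h2.symm)
    rw [hge a ha, hge a' ha'] at e
    simp only [e]
  · intro x x' hx hx' hR hR' hne hp
    obtain ⟨l, hl, t, ht⟩ := hcov x x' hx hx' hR hR' hne hp
    have hl1 : l ∈ S1 := by
      refine Finset.mem_filter.mpr ⟨hl, ?_⟩
      rintro ⟨e1, e2⟩
      apply hne
      have a1 : (l.pt t).1 = x := by rw [ht]
      have a2 : (l.pt t).2 = x' := by rw [ht]
      rw [← a1, ← a2]
      simp only [Ln.pt, Prod.fst_add, Prod.smul_fst, Prod.snd_add, Prod.smul_snd, e1, e2]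
    have hmem : (x, x') ∈ f (g (f l)) := by
      rw [hge l hl1]; exact ⟨t, ht⟩
    obtain ⟨t', ht'⟩ := hmem
    exact ⟨g (f l), Finset.mem_image.mpr ⟨l, hl1, rfl⟩, t', ht'⟩

theorem cover (hm : 1 ≤ m) (S : Finset (Ln m)) (hS : ∀ l ∈ S, l.2.1 ≠ 0) (R : ℝ) {δ : ℝ}
    (hδ : 0 < δ) : ∃ t : ℝ, 0 < t ∧ t ≤ 1 / 4 ∧ ∃ D : Finset (V m),
      (D.card : ℝ) * t ^ (m + 1) ≤ δ ∧
      ∀ l ∈ S, ∀ s : ℝ, ‖(l.pt s).1‖ ≤ R → ∃ a ∈ D, ‖(l.pt s).1 - a‖ ≤ t / 2 := by
  classical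
  set C : ℝ := ∑ l ∈ S, (2 * (|R| + ‖l.1.1‖) + 5) with hC
  have hC0 : 0 ≤ C := Finset.sum_nonneg fun l _ => by positivity
  set t : ℝ := min (1 / 4) (δ / (C + 1)) with ht
  have ht0 : 0 < t := lt_min (by norm_num) (by positivity)
  have ht4 : t ≤ 1 / 4 := min_le_left _ _
  have htδ : t ≤ δ / (C + 1) := min_le_right _ _
  set N : Ln m → ℕ := fun l => ⌈(|R| + ‖l.1.1‖) / t⌉₊ + 1 with hN
  refine ⟨t, ht0, ht4, S.biUnion (fun l => (Finset.Icc (-(N l : ℤ)) (N l)).image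
    (fun j : ℤ => (l.pt ((j : ℝ) * (t / ‖l.2.1‖))).1)), ?_, ?_⟩
  · have hcard : ((S.biUnion (fun l => (Finset.Icc (-(N l : ℤ)) (N l)).image
        (fun j : ℤ => (l.pt ((j : ℝ) * (t / ‖l.2.1‖))).1))).card : ℝ) * t ≤ C := by
      have h1 : (S.biUnion (fun l => (Finset.Icc (-(N l : ℤ)) (N l)).image
          (fun j : ℤ => (l.pt ((j : ℝ) * (t / ‖l.2.1‖))).1))).card ≤
          ∑ l ∈ S, (2 * N l + 1) := by
        refine Finset.card_biUnion_le.trans (Finset.sum_le_sum fun l _ => ?_)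
        refine Finset.card_image_le.trans ?_
        rw [Int.card_Icc]
        omega
      have h2 : ((S.biUnion (fun l => (Finset.Icc (-(N l : ℤ)) (N l)).image
          (fun j : ℤ => (l.pt ((j : ℝ) * (t / ‖l.2.1‖))).1))).card : ℝ) ≤
          ∑ l ∈ S, (2 * (N l : ℝ) + 1) := by
        have := (Nat.cast_le (α := ℝ)).mpr h1
        push_cast at this
        exact this
      refine (mul_le_mul_of_nonneg_right h2 ht0.le).trans ?_
      rw [Finset.sum_mul]
      refine Finset.sum_le_sum fun l _ => ?_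
      have h3 : (⌈(|R| + ‖l.1.1‖) / t⌉₊ : ℝ) < (|R| + ‖l.1.1‖) / t + 1 :=
        Nat.ceil_lt_add_one (by positivity)
      have h4 : (N l : ℝ) ≤ (|R| + ‖l.1.1‖) / t + 2 := by
        simp only [hN]; push_cast; linarith only [h3]
      have h5 : (|R| + ‖l.1.1‖) / t * t = |R| + ‖l.1.1‖ := div_mul_cancel₀ _ ht0.ne'
      have h6 : (2 * (N l : ℝ) + 1) * t ≤ (2 * ((|R| + ‖l.1.1‖) / t + 2) + 1) * t :=
        mul_le_mul_of_nonneg_right (by linarith only [h4]) ht0.le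
      linarith only [ht0, ht4, h5, h6]
    have hpow : t ^ m ≤ t := by
      have := pow_le_pow_of_le_one ht0.le (by linarith only [ht0, ht4] : t ≤ 1) hm
      simpa using this
    have hCt : C * t ≤ δ := by
      have h7 : t * (C + 1) ≤ δ := (le_div_iff₀ (by positivity)).mp htδ
      linarith only [ht0, h7]
    calc _ = (_ * t) * t ^ m := by rw [pow_succ]; ring
      _ ≤ C * t := mul_le_mul hcard hpow (by positivity) hC0
      _ ≤ δ := hCt
  · intro l hl s hs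
    have hP : 0 < ‖l.2.1‖ := norm_pos_iff.mpr (hS l hl)
    set u : ℝ := s * ‖l.2.1‖ / t with hu
    have hsP : |s| * ‖l.2.1‖ ≤ |R| + ‖l.1.1‖ := by
      have e : s • l.2.1 = (l.pt s).1 - l.1.1 := by
        simp only [Ln.pt, Prod.fst_add, Prod.smul_fst]; abel
      have e2 : ‖s • l.2.1‖ = |s| * ‖l.2.1‖ := by rw [norm_smul, Real.norm_eq_abs]
      rw [← e2, e]
      exact (norm_sub_le _ _).trans (by linarith only [hs, le_abs_self R])
    have hua : |u| ≤ (|R| + ‖l.1.1‖) / t := by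
      rw [hu, abs_div, abs_mul, abs_of_pos hP, abs_of_pos ht0]
      exact div_le_div_of_nonneg_right hsP ht0.le
    have hr : |u - round u| ≤ 1 / 2 := abs_sub_round u
    have hceil : (|R| + ‖l.1.1‖) / t ≤ (⌈(|R| + ‖l.1.1‖) / t⌉₊ : ℝ) := Nat.le_ceil _
    have hNl : (N l : ℝ) = (⌈(|R| + ‖l.1.1‖) / t⌉₊ : ℝ) + 1 := by
      simp only [hN]; push_cast; ring
    have hb := abs_le.mp hua
    have hr' := abs_le.mp hr
    refine ⟨(l.pt (((round u : ℤ) : ℝ) * (t / ‖l.2.1‖))).1, ?_, ?_⟩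
    · refine Finset.mem_biUnion.mpr ⟨l, hl, Finset.mem_image.mpr ⟨round u, ?_, rfl⟩⟩
      refine Finset.mem_Icc.mpr ⟨?_, ?_⟩
      · have : ((-(N l : ℤ) : ℤ) : ℝ) ≤ (round u : ℝ) := by
          push_cast; linarith only [ht0, ht4, hceil, hNl, hb, hr']
        exact_mod_cast this
      · have : (round u : ℝ) ≤ (((N l : ℕ) : ℤ) : ℝ) := by
          push_cast; linarith only [ht0, ht4, hceil, hNl, hb, hr']
        exact_mod_cast this
    · have e : (l.pt s).1 - (l.pt (((round u : ℤ) : ℝ) * (t / ‖l.2.1‖))).1 =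
          ((u - round u) * (t / ‖l.2.1‖)) • l.2.1 := by
        have es : s = u * (t / ‖l.2.1‖) := by
          rw [hu]; field_simp
        simp only [Ln.pt, Prod.fst_add, Prod.smul_fst]
        rw [sub_mul, sub_smul, ← es]
        abel
      rw [e, norm_smul, Real.norm_eq_abs, abs_mul, abs_of_pos (div_pos ht0 hP), mul_assoc,
        div_mul_cancel₀ _ hP.ne']
      linarith only [ht0, hr, mul_nonneg_of_nonpos_of_nonpos (le_of_lt (Mathlib.Tactic.Linarith.sub_neg_of_lt ht0)) (Mathlib.Tactic.Linarith.sub_nonpos_of_le hr)]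

end BEe
end
end

-- merged part: Pool.Agent.Work.MP_f0515e_an.Ev.Tooth1
section
/-! One tooth: algebraic properties and bijectivity.

Plan.  For `0 ≤ r`: `r ≤ rho h N r ≤ 2 ^ N * r` (cases `r ≤ h / 2 ^ N`, where `Lam = 0`;
`h / 2 ^ N ≤ r ≤ h / 2`; `h / 2 ≤ r ≤ h`, where all terms of `Lam` except `j = 0` equal one, so
`rho = h - (h - r) / N`; `h ≤ r`, where `rho = r`).  `rho` is continuous, monotone, strictly
increasing on `[0, ∞)` (on `[h / 2 ^ (j + 1), h / 2 ^ j]`, `j < N`, the `j`-th term of `Lam` is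
strictly increasing; `meas2_shell`), `rho h N 0 = 0`.  For fixed `r ≥ 0` the function `tq h N r`
satisfies `tq r d' - tq r d ≥ d' - d` for `d ≤ d'` (every term has slope at least one),
`tq r 0 = 0` (the cap is `0`, all terms are nonnegative), `tq r r = rho r` (term `k = 0`; every term
and the cap are at least `rho r`).  So `s ↦ tq r (max s 0) - tq r (max (-s) 0)` is continuous, odd,
strictly increasing and maps `[-r, r]` onto `[-rho r, rho r]`.  Injective: equal images have equal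
norms, so equal `r`, then coordinatewise.  Surjective: choose `r` with `rho r = ‖z‖`, then each
coordinate by the intermediate value theorem, and check `‖y‖ = r`. -/

open Set Metric Filter Topology MeasureTheory Function BEv
open scoped ENNReal NNReal

noncomputable section
namespace BEe

variable {m : ℕ}

variable {h : ℝ} {N : ℕ}

theorem tp_rho (h : ℝ) (N : ℕ) : TP (rho h N) := by
  exact ((((TP.id'.const_mul _).div_const 2).min (TP.const _)).add
    ((tp_Lam h N).const_mul _)).add ((TP.id'.sub (TP.const h)).max (TP.const 0))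

theorem tooth1_tp {E : Type} [NormedAddCommGroup E] [NormedSpace ℝ E] (h : ℝ) (N : ℕ)
    {f g : E → ℝ} (hf : TP f) (hg : TP g) : TP fun x => tq h N (f x) (g x) :=
  TP.cmin (Finset.range N) (hg.const_mul _) fun _ _ => (hg.const_mul _).add
    ((((tp_rho h N).comp hf).sub (hf.const_mul _)).max (TP.const 0))

theorem tp_tooth (h : ℝ) (N : ℕ) : TP (tooth h N : V m → V m) := by
  exact TP.pi fun i =>
    (tooth1_tp h N TP.id'.norm_pi ((TP.id'.apply i).max (TP.const 0))).sub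
      (tooth1_tp h N TP.id'.norm_pi ((TP.id'.apply i).neg.max (TP.const 0)))

theorem tooth1_two (hN : 1 ≤ N) : (2 : ℝ) ≤ 2 ^ N := le_self_pow₀ one_le_two (by omega)

theorem tooth1_le (hh : 0 < h) {r : ℝ} (hr : r ≤ h) : rho h N r ≤ h := by
  have h1 := min_le_right (2 ^ N * r / 2) (h / 2)
  have h2 := mul_le_mul_of_nonneg_left (Lam_le_one h N r) (half_pos hh).le
  rw [rho, max_eq_right (sub_nonpos.2 hr)]
  linarith only [h1, h2]

theorem tooth1_self (hh : 0 < h) (hN : 1 ≤ N) {r : ℝ} (hr : h ≤ r) : rho h N r = r := by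
  have h1 := mul_le_mul_of_nonneg_right (tooth1_two hN) (hh.le.trans hr)
  rw [rho, min_eq_right (by linarith only [hh, hr, h1]), Lam_eq_one hh hN hr, max_eq_left (sub_nonneg.2 hr)]
  ring

theorem tooth1_div (hh : 0 < h) (N : ℕ) : h / 2 ^ N ≤ h :=
  div_le_self hh.le (one_le_pow₀ one_le_two)

theorem le_rho (hh : 0 < h) (hN : 1 ≤ N) {r : ℝ} (hr : 0 ≤ r) :
    r ≤ rho h N r ∧ rho h N r ≤ 2 ^ N * r := by
  have h1 := mul_le_mul_of_nonneg_right (tooth1_two hN) hr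
  rcases le_total h r with k | k
  · rw [tooth1_self hh hN k]
    exact ⟨le_rfl, by linarith only [hh, h1, k]⟩
  constructor
  · rw [rho, max_eq_right (sub_nonpos.2 k), add_zero]
    rcases le_total r (h / 2) with k1 | k1
    · have h2 := mul_nonneg (half_pos hh).le (Lam_nonneg h N r)
      have h3 : r ≤ min (2 ^ N * r / 2) (h / 2) := le_min (by linarith only [h1]) k1
      linarith only [h2, h3]
    · have hN0 : (0 : ℝ) < N := Nat.cast_pos.2 (by omega)
      have h2 : 2 * r / h - 1 ≤ Lam h N r := by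
        rw [Lam, le_div_iff₀ hN0]
        refine le_trans (le_of_eq ?_) (Finset.card_nsmul_le_sum (Finset.range N) _ (2 * r / h - 1)
          fun j _ => le_max_of_le_right (le_min ?_ ?_))
        · simp [mul_comm]
        · gcongr
          exact tooth1_two (by omega)
        · rw [sub_le_iff_le_add, div_le_iff₀ hh]
          linarith only [k]
      have h3 := mul_le_mul_of_nonneg_left h2 (half_pos hh).le
      have h4 : h / 2 * (2 * r / h - 1) = r - h / 2 := by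
        field_simp
      rw [min_eq_right (by linarith only [h1, k1])]
      linarith only [h3, h4]
  · rcases le_total r (h / 2 ^ N) with k1 | k1
    · have h2 := min_le_left (2 ^ N * r / 2) (h / 2)
      rw [rho, max_eq_right (sub_nonpos.2 k), Lam_eq_zero hh k1]
      linarith only [hr, h1, h2]
    · rw [div_le_iff₀ (by positivity)] at k1
      linarith [tooth1_le (N := N) hh k]

theorem rho_le (hh : 0 < h) {r : ℝ} (hr : r ≤ h) : rho h N r ≤ h := by
  exact tooth1_le hh hr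

theorem rho_eq_self (hh : 0 < h) (hN : 1 ≤ N) {r : ℝ} (hr : h ≤ r) : rho h N r = r := by
  exact tooth1_self hh hN hr

theorem rho_mid (hh : 0 < h) (hN : 1 ≤ N) (r : ℝ) :
    max (h / 2) (min (rho h N r) h) = h / 2 + h / 2 * Lam h N r := by
  rcases le_total h r with k | k
  · rw [tooth1_self hh hN k, min_eq_right k, Lam_eq_one hh hN k, max_eq_right (half_le_self hh.le)]
    ring
  rw [min_eq_left (tooth1_le hh k), rho, max_eq_right (sub_nonpos.2 k), add_zero]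
  rcases le_total r (h / 2 ^ N) with k1 | k1
  · rw [Lam_eq_zero hh k1, mul_zero, add_zero, add_zero, max_eq_left (min_le_right _ _)]
  · rw [div_le_iff₀ (by positivity)] at k1
    rw [min_eq_right (by linarith only [k1])]
    exact max_eq_right (le_add_of_nonneg_right (mul_nonneg (half_pos hh).le (Lam_nonneg h N r)))

theorem tooth1_shell {r : ℝ} (hr : r < h) : ∀ N : ℕ, h / 2 ^ N ≤ r →
    ∃ j < N, h / 2 ^ (j + 1) ≤ r ∧ r < h / 2 ^ j := by
  intro N
  induction N with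
  | zero => exact fun k => absurd (by simpa using k) hr.not_ge
  | succ N ih =>
    intro k
    by_cases k1 : h / 2 ^ N ≤ r
    · obtain ⟨j, h1, h2⟩ := ih k1
      exact ⟨j, by omega, h2⟩
    · exact ⟨N, by omega, k, not_le.1 k1⟩

theorem tooth1_mono (hh : 0 < h) (hN : 1 ≤ N) : StrictMono (rho h N) := by
  intro r r' hr
  have hN0 : (0 : ℝ) < N := Nat.cast_pos.2 (by omega)
  have h0 : (0 : ℝ) < 2 ^ N := by positivity
  have t : ∀ j : ℕ, max 0 (min (2 ^ (j + 1) * r / h - 1) 1) ≤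
      max 0 (min (2 ^ (j + 1) * r' / h - 1) 1) := fun j => by gcongr
  have h1 : min (2 ^ N * r / 2) (h / 2) ≤ min (2 ^ N * r' / 2) (h / 2) := by gcongr
  have h2 : h / 2 * Lam h N r ≤ h / 2 * Lam h N r' := by
    unfold Lam
    gcongr
  have h3 : max (r - h) 0 ≤ max (r' - h) 0 := by gcongr
  unfold rho
  rcases lt_or_ge r (h / 2 ^ N) with k | k
  · rw [lt_div_iff₀ h0] at k
    have h4 : min (2 ^ N * r / 2) (h / 2) < min (2 ^ N * r' / 2) (h / 2) :=
      (min_le_left _ _).trans_lt (lt_min (by gcongr) (by linarith only [k]))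
    linarith only [h2, h3, h4]
  rcases lt_or_ge r h with k1 | k1
  · obtain ⟨j, j1, j2, j3⟩ := tooth1_shell k1 N k
    have h4 : h / 2 * Lam h N r < h / 2 * Lam h N r' := by
      refine mul_lt_mul_of_pos_left (div_lt_div_of_pos_right (Finset.sum_lt_sum (fun i _ => t i)
        ⟨j, Finset.mem_range.2 j1, ?_⟩) hN0) (half_pos hh)
      rw [div_le_iff₀ (by positivity)] at j2
      rw [lt_div_iff₀ (by positivity)] at j3
      have j4 : 0 ≤ 2 ^ (j + 1) * r / h - 1 := by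
        rw [sub_nonneg, le_div_iff₀ hh]
        linarith only [j2]
      have j5 : 2 ^ (j + 1) * r / h - 1 < 1 := by
        rw [sub_lt_iff_lt_add, div_lt_iff₀ hh, pow_succ]
        linarith only [j3]
      rw [min_eq_left j5.le, max_eq_right j4]
      exact lt_max_of_lt_right (lt_min (by gcongr) j5)
    linarith only [h1, h3, h4]
  · have h4 : max (r - h) 0 < max (r' - h) 0 := by
      rw [max_eq_left (sub_nonneg.2 k1)]
      exact lt_max_of_lt_left (by linarith only [hr])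
    linarith only [h1, h2, h4]

theorem tooth1_slope (r : ℝ) {d d' : ℝ} (hd : d ≤ d') : tq h N r d + (d' - d) ≤ tq h N r d' := by
  have k : ∀ j : ℕ, d' - d ≤ 2 ^ j * (d' - d) := fun j =>
    le_mul_of_one_le_left (sub_nonneg.2 hd) (one_le_pow₀ one_le_two)
  refine le_cmin _ _ _ ?_ fun j hj => ?_
  · have : tq h N r d ≤ 2 ^ N * d := cmin_le_cap _ _ _
    linarith [k N]
  · have : tq h N r d ≤ 2 ^ j * d + max (rho h N r - 2 ^ j * r) 0 := cmin_le _ _ _ hj
    linarith [k j]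

theorem tooth1_zero (r : ℝ) : tq h N r 0 = 0 :=
  le_antisymm ((cmin_le_cap _ _ _).trans (mul_zero _).le)
    (le_cmin _ _ _ (mul_zero _).ge fun _ _ => add_nonneg (mul_zero _).ge (le_max_right _ _))

theorem tooth1_first (hN : 1 ≤ N) (r d : ℝ) : tq h N r d ≤ d + max (rho h N r - r) 0 := by
  have : tq h N r d ≤ 2 ^ 0 * d + max (rho h N r - 2 ^ 0 * r) 0 :=
    cmin_le _ _ _ (Finset.mem_range.2 hN)
  simpa using this

theorem tooth1_top (hh : 0 < h) (hN : 1 ≤ N) {r : ℝ} (hr : 0 ≤ r) : tq h N r r = rho h N r := by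
  obtain ⟨h1, h2⟩ := le_rho hh hN hr
  refine le_antisymm ((tooth1_first hN r r).trans (le_of_eq ?_)) (le_cmin _ _ _ h2 fun j _ => ?_)
  · rw [max_eq_left (sub_nonneg.2 h1), add_sub_cancel]
  · linarith only [le_max_left (rho h N r - 2 ^ j * r) 0]

/-- one coordinate of the tooth -/
def tooth1_g (h : ℝ) (N : ℕ) (r s : ℝ) : ℝ := tq h N r (max s 0) - tq h N r (max (-s) 0)

theorem tooth1_pos (r : ℝ) {s : ℝ} (hs : 0 ≤ s) : tooth1_g h N r s = tq h N r s := by
  rw [tooth1_g, max_eq_left hs, max_eq_right (neg_nonpos.2 hs), tooth1_zero, sub_zero]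

theorem tooth1_neg (r s : ℝ) : tooth1_g h N r (-s) = -tooth1_g h N r s := by
  rw [tooth1_g, tooth1_g, neg_neg, neg_sub]

theorem tooth1_abs (r s : ℝ) : |tooth1_g h N r s| = tq h N r |s| := by
  have k : ∀ s : ℝ, 0 ≤ s → |tooth1_g h N r s| = tq h N r s := fun s hs => by
    have := tooth1_slope (h := h) (N := N) r hs
    rw [tooth1_zero] at this
    rw [tooth1_pos r hs, abs_of_nonneg (by linarith)]
  rcases le_total 0 s with hs | hs
  · rw [k s hs, abs_of_nonneg hs]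
  · rw [abs_of_nonpos hs, ← k _ (neg_nonneg.2 hs), tooth1_neg, abs_neg]

theorem tooth1_gmono (r : ℝ) : StrictMono (tooth1_g h N r) := by
  intro s s' hs
  have h1 := tooth1_slope (h := h) (N := N) r (max_le_max_right 0 hs.le)
  have h2 := tooth1_slope (h := h) (N := N) r (max_le_max_right 0 (neg_le_neg hs.le))
  have h3 := max_zero_sub_max_neg_zero_eq_self s
  have h4 := max_zero_sub_max_neg_zero_eq_self s'
  unfold tooth1_g
  linarith

theorem tooth1_max (y : V m) : ∃ i, |y i| = ‖y‖ := by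
  obtain ⟨i, hi⟩ := Finite.exists_max fun i => |y i|
  exact ⟨i, le_antisymm (norm_le_pi_norm y i) ((pi_norm_le_iff_of_nonneg (abs_nonneg _)).2 hi)⟩

theorem tooth_eq_self (hh : 0 < h) (hN : 1 ≤ N) {y : V m} (hy : h ≤ ‖y‖) : tooth h N y = y := by
  have k : ∀ d : ℝ, 0 ≤ d → tq h N ‖y‖ d = d := fun d hd => by
    have h1 := tooth1_first (h := h) hN ‖y‖ d
    have h2 := tooth1_slope (h := h) (N := N) ‖y‖ hd
    rw [tooth1_self hh hN hy, sub_self, max_self, add_zero] at h1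
    rw [tooth1_zero] at h2
    linarith only [h2, h1]
  funext i
  rw [tooth, k _ (le_max_right _ _), k _ (le_max_right _ _), max_zero_sub_max_neg_zero_eq_self]

theorem tooth_apply_zero {y : V m} {i : Fin (2 * m + 2)} (hy : y i = 0) : tooth h N y i = 0 := by
  rw [tooth, hy, neg_zero, sub_self]

theorem norm_tooth (hh : 0 < h) (hN : 1 ≤ N) (y : V m) : ‖tooth h N y‖ = rho h N ‖y‖ := by
  have k : ∀ i, |tooth h N y i| = tq h N ‖y‖ |y i| := fun i => tooth1_abs _ _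
  obtain ⟨i, hi⟩ := tooth1_max y
  rw [← tooth1_top hh hN (norm_nonneg y)]
  refine le_antisymm ?_ ?_
  · obtain ⟨j, hj⟩ := tooth1_max (tooth h N y)
    have h1 : |y j| ≤ ‖y‖ := norm_le_pi_norm y j
    rw [← hj, k]
    linarith only [h1, tooth1_slope (h := h) (N := N) ‖y‖ h1]
  · have h1 : |tooth h N y i| ≤ ‖tooth h N y‖ := norm_le_pi_norm (tooth h N y) i
    rwa [k, hi] at h1

theorem bijective_tooth (hh : 0 < h) (hN : 1 ≤ N) : Bijective (tooth h N : V m → V m) := by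
  refine ⟨fun y y' e => ?_, fun z => ?_⟩
  · have h1 : ‖y‖ = ‖y'‖ := (tooth1_mono hh hN).injective (by
      rw [← norm_tooth hh hN, ← norm_tooth hh hN, e])
    funext i
    have h2 : tooth1_g h N ‖y‖ (y i) = tooth1_g h N ‖y'‖ (y' i) := congrFun e i
    rw [h1] at h2
    exact (tooth1_gmono _).injective h2
  · have h0 : rho h N 0 ≤ ‖z‖ := (le_rho hh hN le_rfl).2.trans (by simp)
    obtain ⟨r, ⟨r0, -⟩, hr⟩ := intermediate_value_Icc (norm_nonneg z)
      (tp_rho h N).continuous.continuousOn ⟨h0, (le_rho hh hN (norm_nonneg z)).1⟩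
    have hc : Continuous (tooth1_g h N r) :=
      ((tooth1_tp h N (TP.const r) (TP.id'.max (TP.const 0))).sub
        (tooth1_tp h N (TP.const r) (TP.id'.neg.max (TP.const 0)))).continuous
    have h1 : tooth1_g h N r r = ‖z‖ := by rw [tooth1_pos r r0, tooth1_top hh hN r0, hr]
    have k : ∀ i, ∃ s, |s| ≤ r ∧ tooth1_g h N r s = z i := fun i => by
      have h2 : |z i| ≤ ‖z‖ := norm_le_pi_norm z i
      obtain ⟨s, h3, h4⟩ := intermediate_value_Icc (neg_le_self r0) hc.continuousOn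
        (show z i ∈ Icc _ _ by rw [tooth1_neg, h1]; exact abs_le.1 h2)
      exact ⟨s, abs_le.2 h3, h4⟩
    choose y y1 y2 using k
    have h2 : ‖y‖ = r := by
      refine le_antisymm ((pi_norm_le_iff_of_nonneg r0).2 y1) ?_
      obtain ⟨i, hi⟩ := tooth1_max z
      have h3 := tooth1_slope (h := h) (N := N) r (y1 i)
      have h4 : |y i| ≤ ‖y‖ := norm_le_pi_norm y i
      rw [← tooth1_abs, y2, hi, tooth1_top hh hN r0, hr] at h3
      linarith only [h3, h4]
    refine ⟨y, funext fun i => ?_⟩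
    rw [← y2, ← h2]
    rfl

end BEe
end
end

-- merged part: Pool.Agent.Work.MP_f0515e_an.Ev.Tooth2
section
/-! Local Lipschitz bound for a tooth, level functions in a tooth, and families of teeth.

Plan for `ll_tooth`, `r = ‖y‖`.  If `r ≤ 2 * h / 2 ^ N` use global bounds: `rho` is
`3 * 2 ^ N`-Lipschitz (`per1b_term_lip`, or `ll_Lam` with `lam ≤ pb`), every term of `tq` is
`5 * 2 ^ N`-Lipschitz in `y`, and `2 ^ N ≤ 2 * pb` because `h * N ≤ 8`.  If `h < r` the tooth is the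
identity near `y`.  Otherwise take `K1 < N` with `h < 2 ^ K1 * r ≤ 2 * h`; near `y` one has
`rho r' ≤ 2 ^ K1 * r'`, so `tq h N r' d` is the minimum of `2 ^ K1 * d` and of the terms `k < K1`
(for `d ≥ 0`; compare `QQ_nested`), `2 ^ K1 ≤ 2 * h / r ≤ 2 * pb`, and `rho` has local Lipschitz
constant at most `0 + h / 2 * lam + 1` there (`ll_Lam`; the first summand of `rho` is locally
constant).  Use `LL.cmin`, `LL.max`, `LL.pi`, `LL.congr`.
Plan for `ll_cut`: both `med (3 - 5 * s / κ)` and `med (5 * s / κ - 2)` only depend on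
`max (h / 2) (min s h)`, which is `h / 2 + h / 2 * Lam h N ‖y - c‖` for `s = ‖tooth (y - c)‖`
(`norm_tooth`, `rho_mid`); `2 * M * (5 / κ) * (h / 2) ≤ 4 * M`. -/

open Set Metric Filter Topology MeasureTheory Function BEv
open scoped ENNReal NNReal

noncomputable section
namespace BEe

variable {m : ℕ}

theorem pb_nonneg {ρ : ℝ} (hρ : 0 < ρ) (N : ℕ) (t : ℝ) : 0 ≤ pb ρ N t := by
  have h : 0 ≤ max t (ρ / 2 ^ N) := le_max_of_le_right (by positivity)
  unfold pb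
  positivity

theorem lam_le_pb {ρ : ℝ} (hρ : 0 < ρ) (N : ℕ) (t : ℝ) : lam ρ N t ≤ pb ρ N t := by
  unfold lam
  split_ifs with h
  · rw [pb, max_eq_left h.1]
  · exact pb_nonneg hρ N t

theorem tooth2_pb {h r : ℝ} {N : ℕ} (hh : 0 < h) (hN : 1 ≤ N) (hhN : h * N ≤ 8) {a : ℝ}
    (ha : 0 ≤ a) (h1 : a * r ≤ h) (h2 : a ≤ 2 ^ N) : a ≤ pb h N r := by
  have hN0 : (0 : ℝ) < N := Nat.cast_pos.2 (by omega)
  have h0 : 0 < h / 2 ^ N := by positivity
  have h3 : a * max r (h / 2 ^ N) ≤ h := by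
    rw [mul_max_of_nonneg _ _ ha]
    refine max_le h1 ((mul_le_mul_of_nonneg_right h2 h0.le).trans (le_of_eq ?_))
    field_simp
  rw [pb, le_div_iff₀ (mul_pos hN0 (lt_max_of_lt_right h0))]
  linarith only [hhN, h3, mul_nonneg_of_nonpos_of_nonpos (Mathlib.Tactic.Linarith.sub_nonpos_of_le (Mathlib.Tactic.Linarith.natCast_nonneg ℝ N)) (Mathlib.Tactic.Linarith.sub_nonpos_of_le h3)]

theorem tooth2_K {h r : ℝ} {N : ℕ} (hh : 0 < h) (hN : 1 ≤ N) (hhN : h * N ≤ 8) :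
    ∃ K ≤ N, (2 : ℝ) ^ K ≤ 1 + 2 * pb h N r ∧ (K = N ∨ h < 2 ^ K * r) := by
  have h0 := pb_nonneg hh N r
  by_cases h1 : h < 2 ^ N * r
  · have h2 : ∃ K, h < 2 ^ K * r := ⟨N, h1⟩
    have h3 : Nat.find h2 ≤ N := Nat.find_le h1
    refine ⟨Nat.find h2, h3, ?_, Or.inr (Nat.find_spec h2)⟩
    rcases Nat.eq_zero_or_eq_succ_pred (Nat.find h2) with e | e
    · rw [e, pow_zero]
      linarith only [h0]
    · have h4 := not_lt.1 (Nat.find_min h2 (m := (Nat.find h2).pred) (by omega))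
      have h5 := tooth2_pb hh hN hhN (by positivity) h4
        (per1b_pow_le ((Nat.pred_le _).trans h3))
      rw [e, Nat.succ_eq_add_one, pow_succ]
      linarith only [h2, h5]
  · have h2 := tooth2_pb hh hN hhN (by positivity) (not_lt.1 h1) le_rfl
    exact ⟨N, le_rfl, by linarith, Or.inl rfl⟩

theorem tooth2_rho {h : ℝ} {N : ℕ} (hh : 0 < h) (h1 : h ≤ 1) (hN : 1 ≤ N) (hhN : h * N ≤ 8)
    (r : ℝ) : LL (rho h N) r (1 + 2 * pb h N r) := by
  have h0 := pb_nonneg hh N r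
  have a1 : LL (fun t : ℝ => min (2 ^ N * t / 2) (h / 2)) r (pb h N r) := by
    by_cases h2 : h < 2 ^ N * r
    · refine ((LL.const (h / 2) r).mono h0).congr ?_
      have h3 : Continuous fun t : ℝ => 2 ^ N * t := by fun_prop
      filter_upwards [h3.continuousAt.eventually (eventually_gt_nhds h2)] with t ht
      exact min_eq_right (by linarith only [ht])
    · have h3 := tooth2_pb hh hN hhN (by positivity) (not_lt.1 h2) le_rfl
      refine LL.min (((LL.id' r).const_mul (2 ^ N / 2)).congr (.of_forall fun t => by ring)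
        |>.mono ?_) ((LL.const _ r).mono h0)
      rw [abs_of_nonneg (by positivity)]
      linarith only [h0, h3]
  have a2 := (ll_Lam hh hN r).const_mul (h / 2)
  have a3 := ((LL.id' r).sub (LL.const h r)).max ((LL.const (0 : ℝ) r).mono (by norm_num))
  refine ((a1.add a2).add a3).mono ?_
  have h4 := lam_le_pb hh N r
  have h5 := lam_nonneg hh N r
  rw [abs_of_nonneg (by positivity)]
  linarith only [h0, hh, h4, h1, mul_nonneg_of_nonpos_of_nonpos (le_of_lt (Mathlib.Tactic.Linarith.sub_neg_of_lt hh)) (Mathlib.Tactic.Linarith.sub_nonpos_of_le h4), mul_nonneg_of_nonpos_of_nonpos (Mathlib.Tactic.Linarith.sub_nonpos_of_le h1) (Mathlib.Tactic.Linarith.sub_nonpos_of_le h0)]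

theorem tooth2_tq {h r d : ℝ} {N K : ℕ} (hK : K ≤ N) (hd : 0 ≤ d) (hr : 0 ≤ r)
    (h1 : rho h N r ≤ 2 ^ K * r) : tq h N r d =
      cmin (Finset.range K) (2 ^ K * d) (fun k => 2 ^ k * d + max (rho h N r - 2 ^ k * r) 0) := by
  have h2 := QQ_nested (cap := fun d => 2 ^ N * d) hK hd hr h1
  rwa [QQ, QQ, min_self, min_eq_right (mul_le_mul_of_nonneg_right (per1b_pow_le hK) hd)] at h2

theorem tooth2_norm {E : Type} [NormedAddCommGroup E] [NormedSpace ℝ E] (y : E) :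
    LL (fun z : E => ‖z‖) y 1 :=
  LL.of_forall (fun a b => by rw [one_mul]; exact abs_norm_sub_norm_le a b) y

theorem tooth2_half {h c : ℝ} {N K : ℕ} (hK : K ≤ N) {y : V m} (hc : 0 ≤ c)
    (h1 : LL (rho h N) ‖y‖ c) (h2 : ∀ᶠ z in 𝓝 y, rho h N ‖z‖ ≤ 2 ^ K * ‖z‖) {d : V m → ℝ}
    (hd : LL d y 1) : LL (fun z => tq h N ‖z‖ (max (d z) 0)) y (2 ^ K + c) := by
  have a1 := hd.max ((LL.const (0 : ℝ) y).mono zero_le_one)
  have a2 := h1.comp (f := fun z : V m => ‖z‖) (tooth2_norm y) hc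
  refine LL.congr (LL.cmin (Finset.range K) (M := fun z => 2 ^ K * max (d z) 0)
    (f := fun k z => 2 ^ k * max (d z) 0 + max (rho h N ‖z‖ - 2 ^ k * ‖z‖) 0) ?_ fun k hk => ?_)
    (h2.mono fun z hz => tooth2_tq hK (le_max_right _ _) (norm_nonneg z) hz)
  · refine (a1.const_mul _).mono ?_
    rw [abs_of_nonneg (by positivity)]
    linarith only [hc]
  · refine ((a1.const_mul (2 ^ k)).add ((a2.sub ((tooth2_norm y).const_mul (2 ^ k))).max
      ((LL.const (0 : ℝ) y).mono (by positivity)))).mono ?_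
    have h3 := per1b_pow_le (Nat.succ_le_of_lt (Finset.mem_range.1 hk))
    rw [pow_succ] at h3
    rw [abs_of_nonneg (by positivity)]
    linarith

theorem ll_tooth {h : ℝ} {N : ℕ} (hh : 0 < h) (h1 : h ≤ 1) (hN : 1 ≤ N) (hhN : h * N ≤ 8)
    (y : V m) : LL (tooth h N : V m → V m) y (32 * (1 + pb h N ‖y‖)) := by
  obtain ⟨K, hK, k1, k2⟩ := tooth2_K (r := ‖y‖) hh hN hhN
  have h0 := pb_nonneg hh N ‖y‖
  have h2 : ∀ᶠ z in 𝓝 y, rho h N ‖z‖ ≤ 2 ^ K * ‖z‖ := by
    rcases k2 with rfl | k2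
    · exact .of_forall fun z => (le_rho hh hN (norm_nonneg z)).2
    · have h3 : Continuous fun z : V m => 2 ^ K * ‖z‖ := by fun_prop
      filter_upwards [h3.continuousAt.eventually (eventually_gt_nhds k2)] with z hz
      rcases le_total ‖z‖ h with h4 | h4
      · exact (rho_le hh h4).trans hz.le
      · rw [rho_eq_self hh hN h4]
        exact le_mul_of_one_le_left (norm_nonneg z) (per1b_one_le K)
  have h3 := tooth2_rho hh h1 hN hhN ‖y‖
  refine LL.pi (by positivity) fun i => ?_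
  have a1 := (LL.id' y).apply i
  have a2 : LL (fun z : V m => -z i) y 1 :=
    ((a1.const_mul (-1)).congr (.of_forall fun z => (neg_one_mul _).symm)).mono (by simp)
  exact ((tooth2_half hK (by positivity) h3 h2 a1).sub
    (tooth2_half hK (by positivity) h3 h2 a2)).mono (by linarith only [k1, h0])

/-- Change of the level in a tooth on the lower (`true`) or upper (`false`) sheet. -/
def cut (b : Bool) (M κ w s : ℝ) : ℝ :=
  if b then clamp w (2 * M * med (3 - 5 * s / κ)) else w - clamp w (2 * M * med (5 * s / κ - 2))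

theorem tooth2_med0 (t : ℝ) : 0 ≤ med t := le_max_left _ _

theorem tooth2_tp {f : V m → ℝ} (hf : TP f) : TP fun z => med (f z) :=
  (TP.const 0).max (hf.min (TP.const 1))

theorem tooth2_ll {f : V m → ℝ} {y : V m} {c : ℝ} (hf : LL f y c) (hc : 0 ≤ c) :
    LL (fun z => med (f z)) y c :=
  ((LL.const 0 y).mono hc).max (hf.min ((LL.const 1 y).mono hc))

theorem tooth2_lo {t : ℝ} (h : t ≤ 0) : med t = 0 := max_eq_left ((min_le_left _ _).trans h)

theorem tooth2_hi {t : ℝ} (h : 1 ≤ t) : med t = 1 := by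
  rw [med, min_eq_right h, max_eq_right zero_le_one]

theorem tp_cut (b : Bool) (M κ : ℝ) {w s : V m → ℝ} (hw : TP w) (hs : TP s) :
    TP (fun z => cut b M κ (w z) (s z)) := by
  have h1 := (hs.const_mul 5).div_const κ
  cases b
  · exact hw.sub (hw.clamp ((tooth2_tp (h1.sub (TP.const 2))).const_mul (2 * M)))
  · exact hw.clamp ((tooth2_tp ((TP.const 3).sub h1)).const_mul (2 * M))

theorem cut_far (b : Bool) {M κ w s : ℝ} (hκ : 0 < κ) (hw : |w| ≤ 2 * M) (hs : 3 / 5 * κ ≤ s) :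
    cut b M κ w s = 0 := by
  have h1 : 3 ≤ 5 * s / κ := by
    rw [le_div_iff₀ hκ]
    linarith only [hs]
  cases b
  · rw [cut, if_neg Bool.false_ne_true, tooth2_hi (by linarith only [h1]), mul_one, clamp_eq_self hw, sub_self]
  · rw [cut, if_pos rfl, tooth2_lo (by linarith only [h1]), mul_zero, clamp_zero]

theorem cut_zero (b : Bool) {M : ℝ} (hM : 0 ≤ M) (κ s : ℝ) : cut b M κ 0 s = 0 := by
  have h1 : ∀ t, clamp 0 (2 * M * med t) = 0 := fun t => clamp_eq_self (by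
    have := tooth2_med0 t
    rw [abs_zero]
    positivity)
  rw [cut, h1, h1, sub_self, ite_self]

theorem cut_match {M κ κ' s s' : ℝ} (hM : 0 ≤ M) (hκ : 0 < κ) (hκ' : 0 < κ') (hs : s + s' = 1)
    (o u : ℝ) : o + cut true M κ (u - o) (s * κ) = u + cut false M κ' (o - u) (s' * κ') := by
  have h1 : 5 * (s * κ) / κ = 5 * s := by field_simp
  have h2 : 5 * (s' * κ') / κ' - 2 = 3 - 5 * s := by
    rw [← mul_assoc, mul_div_cancel_right₀ _ hκ'.ne']
    linarith only [hs]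
  rw [cut, cut, if_pos rfl, if_neg Bool.false_ne_true, h1, h2]
  have h3 : 0 ≤ 2 * M * med (3 - 5 * s) := mul_nonneg (by positivity) (tooth2_med0 _)
  generalize 2 * M * med (3 - 5 * s) = B at h3
  simp only [clamp, max_def, min_def]
  split_ifs <;> linarith

theorem tooth2_mid {κ h s : ℝ} (hh : 0 < h) (hκ1 : 3 / 5 * κ ≤ h) (hκ2 : h ≤ 4 / 5 * κ) :
    med (3 - 5 * s / κ) = med (3 - 5 / κ * max (h / 2) (min s h)) ∧
      med (5 * s / κ - 2) = med (5 / κ * max (h / 2) (min s h) - 2) := by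
  have hκ : 0 < κ := by linarith only [hh, hκ2]
  have h1 : ∀ t, t ≤ h / 2 → 5 / κ * t ≤ 2 := fun t ht => by
    rw [div_mul_eq_mul_div, div_le_iff₀ hκ]
    linarith only [hκ2, ht]
  have h2 : ∀ t, h ≤ t → 3 ≤ 5 / κ * t := fun t ht => by
    rw [div_mul_eq_mul_div, le_div_iff₀ hκ]
    linarith only [hκ1, ht]
  rw [← div_mul_eq_mul_div]
  rcases le_total s (h / 2) with h3 | h3
  · have h4 := h1 s h3
    have h5 := h1 _ le_rfl
    rw [max_eq_left ((min_le_left _ _).trans h3), tooth2_hi (t := 3 - _) (by linarith only [h4]),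
      tooth2_hi (t := 3 - _) (by linarith only [h5]), tooth2_lo (t := _ - 2) (by linarith only [h4]),
      tooth2_lo (t := _ - 2) (by linarith only [h5])]
    exact ⟨rfl, rfl⟩
  · rcases le_total s h with h4 | h4
    · rw [min_eq_left h4, max_eq_right h3]
      exact ⟨rfl, rfl⟩
    · have h5 := h2 s h4
      have h6 := h2 _ le_rfl
      rw [min_eq_right h4, max_eq_right (half_le_self hh.le), tooth2_lo (t := 3 - _) (by linarith only [h5]),
        tooth2_lo (t := 3 - _) (by linarith only [h6]), tooth2_hi (t := _ - 2) (by linarith only [h5]),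
        tooth2_hi (t := _ - 2) (by linarith only [h6])]
      exact ⟨rfl, rfl⟩

theorem ll_cut (b : Bool) {M κ h L : ℝ} {N : ℕ} (hM : 0 ≤ M) (hL : 0 ≤ L) (hh : 0 < h)
    (h1 : h ≤ 1) (hN : 1 ≤ N) (hhN : h * N ≤ 8) (hκ1 : 3 / 5 * κ ≤ h) (hκ2 : h ≤ 4 / 5 * κ)
    {w : V m → ℝ} (hw : ∀ x y, |w x - w y| ≤ L * ‖x - y‖) (c y : V m) :
    LL (fun z => cut b M κ (w (c + tooth h N (z - c))) ‖tooth h N (z - c)‖) y
      ((64 * L + 4 * M) * (1 + pb h N ‖y - c‖)) := by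
  have hκ : 0 < κ := by linarith only [hh, hκ2]
  have h0 := pb_nonneg hh N ‖y - c‖
  have l0 := lam_nonneg hh N ‖y - c‖
  have l1 := lam_le_pb hh N ‖y - c‖
  have a0 := (LL.id' y).sub (LL.const c y)
  have a1 := (LL.const c y).add
    ((ll_tooth hh h1 hN hhN (y - c)).comp (f := fun z => z - c) a0 (by positivity))
  have a2 : LL (fun z => w (c + tooth h N (z - c))) y (32 * L * (1 + pb h N ‖y - c‖)) :=
    ((LL.of_forall hw _).comp a1 hL).mono (le_of_eq (by ring))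
  have a3 := (tooth2_norm (y - c)).comp (f := fun z => z - c) a0 zero_le_one
  have a4 := ((LL.const (h / 2) y).add
    (((ll_Lam hh hN ‖y - c‖).comp (f := fun z => ‖z - c‖) a3 l0).const_mul (h / 2))).const_mul
      (5 / κ)
  have e : ∀ z : V m, max (h / 2) (min ‖tooth h N (z - c)‖ h) = h / 2 + h / 2 * Lam h N ‖z - c‖ :=
    fun z => by rw [norm_tooth hh hN, rho_mid hh hN]
  have a5 : LL (fun z => 5 / κ * max (h / 2) (min ‖tooth h N (z - c)‖ h)) y
      (2 * pb h N ‖y - c‖) := by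
    simp only [e]
    refine a4.mono ?_
    have h2 : 5 / κ * (h / 2) ≤ 2 := by
      rw [div_mul_eq_mul_div, div_le_iff₀ hκ]
      linarith only [hκ2]
    rw [abs_of_nonneg (by positivity), abs_of_nonneg (by positivity)]
    have h3 := mul_le_mul h2 l1 l0 zero_le_two
    linarith only [h3]
  have b1 : 32 * L * (1 + pb h N ‖y - c‖) ≤ (32 * L + 4 * M) * (1 + pb h N ‖y - c‖) :=
    mul_le_mul_of_nonneg_right (by linarith only [hM]) (by linarith only [h0])
  have b2 : |2 * M| * (2 * pb h N ‖y - c‖) ≤ (32 * L + 4 * M) * (1 + pb h N ‖y - c‖) := by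
    rw [abs_of_nonneg (by positivity)]
    linarith only [hM, hL, h0, mul_nonneg hL h0]
  cases b
  · have a6 := (tooth2_ll ((a5.sub (LL.const 2 y)).mono (add_zero _).le) (by positivity)).const_mul
      (2 * M)
    refine ((a2.sub ((a2.mono b1).clamp (a6.mono b2))).congr (.of_forall fun z => ?_)).mono
      (le_of_eq (by ring))
    simp only [cut, if_neg Bool.false_ne_true, (tooth2_mid hh hκ1 hκ2).2]
  · have a6 := (tooth2_ll (((LL.const 3 y).sub a5).mono (zero_add _).le) (by positivity)).const_mul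
      (2 * M)
    refine (((a2.mono b1).clamp (a6.mono b2)).congr (.of_forall fun z => ?_)).mono
      (mul_le_mul_of_nonneg_right (by linarith only [hL]) (by linarith only [h0]))
    simp only [cut, if_pos, (tooth2_mid hh hκ1 hκ2).1]

end BEe
end
end

-- merged part: Pool.Agent.Work.MP_f0515e_an.Ev.Comb1
section
/-! The teeth of the comb and the matching of the levels along the lines of double points.

Plan for `exists_swap`: take `i0` with `sd b l.2 i0 ≠ 0` and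
`θ z = sd (!b) l.1 + ((z i0 - sd b l.1 i0) / sd b l.2 i0) • sd (!b) l.2`; use `sd_pt`.
Plan for `comb_match`.  At `x = sd b (l.pt t)` the term `i` vanishes if
`3 / 5 * kap η i ≤ ‖x - ce η i‖` (`cut_far`); otherwise `i.1 = l`, `par i.2 = b` by `hex`, the level
difference is `cs (sd (!b) (l.pt t)) - cs x` and `‖x - ce η i‖ = |t - i.2 * η| / η * kap η i`.  If
both levels vanish use `cut_zero`.  If `Sel l t`, then `j0 = ⌊t / η⌋` and `j0 + 1` are both in `J`,
one is even and one is odd, only these terms survive (`Finset.sum_eq_single`), and `cut_match`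
applies. -/

open Set Metric Filter Topology MeasureTheory Function BEv
open scoped ENNReal NNReal

noncomputable section
namespace BEe

variable {m : ℕ}

def par (j : ℤ) : Bool := decide (Even j)

/-- Centre of a tooth. -/
def ce (η : ℝ) (i : Ln m × ℤ) : V m := sd (par i.2) (i.1.pt (i.2 * η))

/-- Spacing of the teeth along a sheet. -/
def kap (η : ℝ) (i : Ln m × ℤ) : ℝ := η * ‖sd (par i.2) i.1.2‖

/-- The modified level function. -/
def lev (η M : ℝ) (J : Finset (Ln m × ℤ)) (θ : Ln m → Bool → V m → V m) (cs : V m → ℝ)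
    (z : V m) : ℝ :=
  cs z + ∑ i ∈ J, cut (par i.2) M (kap η i) (cs (θ i.1 (par i.2) z) - cs z) ‖z - ce η i‖

theorem exists_swap (l : Ln m) (b : Bool) (h : sd b l.2 ≠ 0) :
    ∃ θ : V m → V m, TP θ ∧ ∀ t, θ (sd b (l.pt t)) = sd (!b) (l.pt t) := by
  obtain ⟨i0, hi⟩ := Function.ne_iff.1 h
  refine ⟨fun z => sd (!b) l.1 + ((z i0 - sd b l.1 i0) / sd b l.2 i0) • sd (!b) l.2,
    (TP.const _).add ((((TP.id'.apply i0).sub (TP.const _)).div_const _).smul_const _),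
    fun t => ?_⟩
  simp only [sd_pt, Pi.add_apply, Pi.smul_apply, smul_eq_mul, add_sub_cancel_left]
  rw [mul_div_cancel_right₀ t hi]

theorem comb1_pick (τ : ℝ) : ∃ j : Bool → ℤ, (∀ b, par (j b) = b ∧ |τ - j b| ≤ 1 ∧
    ∀ k, par k = b → k ≠ j b → 1 ≤ |τ - k|) ∧ |τ - j true| + |τ - j false| = 1 := by
  have h1 := Int.floor_le τ
  have h2 := Int.lt_floor_add_one τ
  generalize ⌊τ⌋ = n at h1 h2
  have h3 : ∀ k : ℤ, k ≠ n → k ≠ n + 1 → 1 ≤ |τ - k| := fun k k1 k2 => by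
    rcases (by omega : k + 1 ≤ n ∨ n + 2 ≤ k) with k3 | k3
    · have : (k : ℝ) + 1 ≤ n := by exact_mod_cast k3
      exact le_abs.2 (Or.inl (by linarith))
    · have : (n : ℝ) + 2 ≤ k := by exact_mod_cast k3
      exact le_abs.2 (Or.inr (by linarith))
  have h4 : par (n + 1) = !par n := by simp only [par, Int.even_add_one, decide_not]
  have h5 : |τ - n| = τ - n := abs_of_nonneg (by linarith)
  have h6 : |τ - (n + 1 : ℤ)| = n + 1 - τ := by
    rw [Int.cast_add, Int.cast_one, abs_of_nonpos (by linarith)]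
    ring
  refine ⟨fun b => if par n = b then n else n + 1, fun b => ?_, ?_⟩
  · dsimp only
    split_ifs with k
    · refine ⟨k, by linarith, fun i k1 k2 => h3 i k2 ?_⟩
      rintro rfl
      simp [h4, ← k] at k1
    · refine ⟨by rw [h4]; exact Bool.not_eq_iff.2 (by simpa using k), by linarith,
        fun i k1 k2 => h3 i ?_ k2⟩
      rintro rfl
      exact k k1
  · cases k : par n <;> simp only [Bool.false_eq_true, Bool.true_eq_false, if_true, if_false] <;>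
      linarith only [h5, h6]

theorem comb1_norm {η : ℝ} (hη : 0 < η) (l : Ln m) (τ : ℝ) (j : ℤ) :
    ‖sd (par j) (l.pt (τ * η)) - ce η (l, j)‖ = |τ - j| * kap η (l, j) := by
  rw [ce, kap, sd_pt, sd_pt, add_sub_add_left_eq_sub, ← sub_smul, norm_smul, ← sub_mul,
    Real.norm_eq_abs, abs_mul, abs_of_pos hη, mul_assoc]

theorem comb_match {η M : ℝ} (hη : 0 < η) {J : Finset (Ln m × ℤ)} {h : Ln m × ℤ → ℝ}
    {θ : Ln m → Bool → V m → V m} {cs : V m → ℝ} (hcs : ∀ z, |cs z| ≤ M) {l : Ln m}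
    (hl : ∀ b, sd b l.2 ≠ 0) (hθ : ∀ b t, θ l b (sd b (l.pt t)) = sd (!b) (l.pt t))
    (hJ : ∀ i ∈ J, 0 < kap η i ∧ 3 / 5 * kap η i ≤ h i) {t : ℝ}
    (hex : ∀ b, ∀ i ∈ J, ‖sd b (l.pt t) - ce η i‖ ≤ h i → i.1 = l ∧ par i.2 = b)
    (hsel : (∀ j : ℤ, |t - j * η| ≤ η → (l, j) ∈ J) ∨ (cs (l.pt t).1 = 0 ∧ cs (l.pt t).2 = 0)) :
    lev η M J θ cs (l.pt t).1 = lev η M J θ cs (l.pt t).2 := by
  obtain ⟨τ, rfl⟩ : ∃ τ, t = τ * η := ⟨t / η, (div_mul_cancel₀ t hη.ne').symm⟩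
  have hM : 0 ≤ M := (abs_nonneg _).trans (hcs 0)
  have hw : ∀ x y, |cs x - cs y| ≤ 2 * M := fun x y =>
    (abs_sub _ _).trans (by linarith [hcs x, hcs y])
  have hκ : ∀ b, 0 < η * ‖sd b l.2‖ := fun b => mul_pos hη (norm_pos_iff.2 (hl b))
  obtain ⟨T, hT⟩ : ∃ T : Bool → Ln m × ℤ → ℝ, ∀ b i, T b i = cut (par i.2) M (kap η i)
      (cs (θ i.1 (par i.2) (sd b (l.pt (τ * η)))) - cs (sd b (l.pt (τ * η))))
      ‖sd b (l.pt (τ * η)) - ce η i‖ := ⟨_, fun _ _ => rfl⟩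
  have h0 : ∀ b, lev η M J θ cs (sd b (l.pt (τ * η))) =
      cs (sd b (l.pt (τ * η))) + ∑ i ∈ J, T b i := fun b => by simp only [hT, lev]
  have h1 : ∀ b j, par j = b → T b (l, j) = cut b M (η * ‖sd b l.2‖)
      (cs (sd (!b) (l.pt (τ * η))) - cs (sd b (l.pt (τ * η)))) (|τ - j| * (η * ‖sd b l.2‖)) := by
    rintro _ j rfl
    rw [hT, comb1_norm hη, hθ]
    rfl
  have h2 : ∀ b, ∀ i ∈ J, T b i = 0 ∨ ∃ j, i = (l, j) ∧ par j = b := fun b i hi => by
    rcases le_or_gt ‖sd b (l.pt (τ * η)) - ce η i‖ (h i) with k | k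
    · exact Or.inr ⟨i.2, Prod.ext (hex b i hi k).1 rfl, (hex b i hi k).2⟩
    · exact Or.inl (hT b i ▸ cut_far _ (hJ i hi).1 (hw _ _) ((hJ i hi).2.trans k.le))
  refine (h0 true).trans (Eq.trans ?_ (h0 false).symm)
  rcases hsel with hs | hs
  · obtain ⟨j, j1, j2⟩ := comb1_pick τ
    have h3 : ∀ b, ∑ i ∈ J, T b i = T b (l, j b) := fun b => by
      refine Finset.sum_eq_single_of_mem _ (hs _ ?_) fun i hi k => ?_
      · rw [← sub_mul, abs_mul, abs_of_pos hη]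
        exact mul_le_of_le_one_left hη.le (j1 b).2.1
      · refine (h2 b i hi).elim id ?_
        rintro ⟨n, rfl, k1⟩
        rw [h1 b n k1]
        exact cut_far _ (hκ b) (hw _ _) (mul_le_mul_of_nonneg_right
          (le_trans (by norm_num) ((j1 b).2.2 n k1 fun k2 => k (by rw [k2]))) (hκ b).le)
    rw [h3, h3, h1 _ _ (j1 _).1, h1 _ _ (j1 _).1]
    exact cut_match hM (hκ _) (hκ _) j2 _ _
  · have h3 : ∀ b, cs (sd b (l.pt (τ * η))) = 0 := fun b => by
      cases b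
      exacts [hs.2, hs.1]
    have h4 : ∀ b, ∑ i ∈ J, T b i = 0 := fun b => Finset.sum_eq_zero fun i hi =>
      (h2 b i hi).elim id (by
        rintro ⟨n, rfl, k1⟩
        rw [h1 b n k1, h3, h3, sub_zero, cut_zero b hM])
    rw [h3, h3, h4, h4]

end BEe
end
end

-- merged part: Pool.Agent.Work.MP_f0515e_an.Ev.Rat
section
/-! Maps which keep the rational points.

Plan: `Rq` is closed under the field operations, `max`, `min`, `abs` (`max_choice`, `min_choice`,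
`abs_choice`), finite sums, `cmin` (`cmin_eq`), the sup norm (it is `0` or some `|x i|`; see
`accr_exists` or `pi_norm_le_iff_of_nonneg`), `round`.  Then unfold the definitions. -/

open Set Metric Filter Topology MeasureTheory Function BEv
open scoped ENNReal NNReal

noncomputable section
namespace BEe

variable {m : ℕ}

theorem rq_cast (r : ℚ) : Rq (r : ℝ) := ⟨r, rfl⟩

theorem rq_int (k : ℤ) : Rq (k : ℝ) := by
  exact ⟨k, (Rat.cast_intCast k).symm⟩

theorem rq_nat (k : ℕ) : Rq (k : ℝ) := by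
  exact ⟨k, (Rat.cast_natCast k).symm⟩

theorem rq_half_pow (j : ℕ) : Rq ((1 / 2 : ℝ) ^ j) := by
  exact ⟨(1 / 2) ^ j, by push_cast; rfl⟩

theorem Rq.inv {s : ℝ} (hs : Rq s) : Rq s⁻¹ := by
  obtain ⟨r, rfl⟩ := hs
  exact ⟨r⁻¹, (Rat.cast_inv r).symm⟩

theorem Rq.sub {s t : ℝ} (hs : Rq s) (ht : Rq t) : Rq (s - t) := by
  obtain ⟨r, rfl⟩ := hs
  obtain ⟨q, rfl⟩ := ht
  exact ⟨r - q, (Rat.cast_sub r q).symm⟩

theorem Rat_add {s t : ℝ} (hs : Rq s) (ht : Rq t) : Rq (s + t) := by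
  obtain ⟨r, rfl⟩ := hs
  obtain ⟨q, rfl⟩ := ht
  exact ⟨r + q, (Rat.cast_add r q).symm⟩

theorem Rat_mul {s t : ℝ} (hs : Rq s) (ht : Rq t) : Rq (s * t) := by
  obtain ⟨r, rfl⟩ := hs
  obtain ⟨q, rfl⟩ := ht
  exact ⟨r * q, (Rat.cast_mul r q).symm⟩

theorem Rat_neg {s : ℝ} (hs : Rq s) : Rq (-s) := by
  obtain ⟨r, rfl⟩ := hs
  exact ⟨-r, (Rat.cast_neg r).symm⟩

theorem Rat_div {s t : ℝ} (hs : Rq s) (ht : Rq t) : Rq (s / t) := by
  rw [div_eq_mul_inv]
  exact Rat_mul hs ht.inv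

theorem Rat_max {s t : ℝ} (hs : Rq s) (ht : Rq t) : Rq (max s t) := by
  rcases max_choice s t with h | h <;> rwa [h]

theorem Rat_min {s t : ℝ} (hs : Rq s) (ht : Rq t) : Rq (min s t) := by
  rcases min_choice s t with h | h <;> rwa [h]

theorem Rat_abs {s : ℝ} (hs : Rq s) : Rq |s| := Rat_max hs (Rat_neg hs)

theorem Rat_zero : Rq 0 := ⟨0, Rat.cast_zero.symm⟩

theorem Rat_one : Rq 1 := ⟨1, Rat.cast_one.symm⟩

theorem Rat_two : Rq 2 := ⟨2, by norm_num⟩

theorem Rat_half : Rq (1 / 2) := Rat_div Rat_one Rat_two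

theorem Rat_pow (k : ℕ) : Rq (2 ^ k) := ⟨2 ^ k, by push_cast; rfl⟩

theorem Rat_sum {κ : Type} (S : Finset κ) {f : κ → ℝ} (h : ∀ k ∈ S, Rq (f k)) :
    Rq (∑ k ∈ S, f k) :=
  Finset.sum_induction f Rq (fun _ _ => Rat_add) Rat_zero h

theorem Rat_cmin {κ : Type} {S : Finset κ} {M : ℝ} {f : κ → ℝ} (hM : Rq M)
    (h : ∀ k ∈ S, Rq (f k)) : Rq (cmin S M f) := by
  rcases cmin_eq S M f with e | ⟨k, hk, e⟩ <;> rw [e]
  exacts [hM, h k hk]

theorem Rat_vsub {x y : V m} (hx : RV x) (hy : RV y) : RV (x - y) := fun i => (hx i).sub (hy i)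

theorem rq_norm {x : V m} (hx : RV x) : Rq ‖x‖ := by
  rcases (norm_nonneg x).eq_or_lt with h | h
  · rw [← h]
    exact Rat_zero
  · obtain ⟨i, hi⟩ := accr_exists x h
    rw [le_antisymm hi (norm_le_pi_norm x i)]
    exact Rat_abs (hx i)

theorem rq_dcap {F : Finset (V m)} (hF : ∀ p ∈ F, RV p) {M : ℝ} (hM : Rq M) {x : V m}
    (hx : RV x) : Rq (dcap F M x) := by
  exact Rat_cmin hM fun p hp => rq_norm (Rat_vsub hx (hF p hp))

theorem exists_rv_near (x : V m) {δ : ℝ} (hδ : 0 < δ) : ∃ y : V m, RV y ∧ ‖y - x‖ < δ := by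
  choose r hr using fun i => exists_rat_near (x i) hδ
  refine ⟨fun i => r i, fun i => rq_cast _, (pi_norm_lt_iff hδ).2 fun i => ?_⟩
  rw [Pi.sub_apply, Real.norm_eq_abs, abs_sub_comm]
  exact hr i

theorem isW_id : IsW (id : V m → V m) := ⟨LH.id', fun _ h => h⟩

theorem IsW.comp {f g : V m → V m} (hf : IsW f) (hg : IsW g) : IsW (fun x => f (g x)) :=
  ⟨hf.1.comp hg.1, fun x hx => hf.2 _ (hg.2 x hx)⟩

theorem isW_smul {c : ℝ} (hc : Rq c) (h0 : c ≠ 0) : IsW (fun x : V m => c • x) := by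
  exact ⟨LH.smul h0, fun x hx i => Rat_mul hc (hx i)⟩

theorem Rat_dd {t : ℝ} (h : Rq t) : Rq (dd t) := Rat_abs (h.sub (rq_int _))

theorem Rat_oext {D : ℝ → ℝ} (hD : ∀ d, Rq d → Rq (D d)) {t : ℝ} (h : Rq t) : Rq (oext D t) := by
  refine Rat_add (rq_int _) ?_
  split_ifs
  exacts [hD _ (Rat_dd h), Rat_neg (hD _ (Rat_dd h))]

theorem Rat_mk (k : ℕ) {x : V m} (hx : RV x) : Rq (mk k x) := by
  refine Rat_cmin Rat_half fun S _ => rq_norm fun i => ?_
  unfold pr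
  split_ifs
  exacts [Rat_dd (hx i), Rat_zero]

theorem Rat_mix {c : ℝ} (hc : Rq c) {Φ : V m → V m} {x : V m} (hx : RV x) (h : RV (Φ x)) :
    RV (mix c Φ x) := fun i =>
  Rat_add (Rat_mul hc (hx i)) (Rat_mul (Rat_one.sub hc) (h i))

theorem Rat_Lam {h r : ℝ} (hh : Rq h) (N : ℕ) (hr : Rq r) : Rq (Lam h N r) :=
  Rat_div (Rat_sum _ fun _ _ => Rat_max Rat_zero
    (Rat_min ((Rat_div (Rat_mul (Rat_pow _) hr) hh).sub Rat_one) Rat_one)) (rq_nat N)

theorem Rat_rho {h r : ℝ} (hh : Rq h) (N : ℕ) (hr : Rq r) : Rq (rho h N r) :=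
  Rat_add (Rat_add (Rat_min (Rat_div (Rat_mul (Rat_pow N) hr) Rat_two) (Rat_div hh Rat_two))
    (Rat_mul (Rat_div hh Rat_two) (Rat_Lam hh N hr))) (Rat_max (hr.sub hh) Rat_zero)

theorem Rat_tq {h r d : ℝ} (hh : Rq h) (N : ℕ) (hr : Rq r) (hd : Rq d) : Rq (tq h N r d) :=
  Rat_cmin (Rat_mul (Rat_pow N) hd) fun k _ => Rat_add (Rat_mul (Rat_pow k) hd)
    (Rat_max ((Rat_rho hh N hr).sub (Rat_mul (Rat_pow k) hr)) Rat_zero)

theorem Rat_tooth {h : ℝ} (hh : Rq h) (N : ℕ) {y : V m} (hy : RV y) : RV (tooth h N y) := fun i =>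
  (Rat_tq hh N (rq_norm hy) (Rat_max (hy i) Rat_zero)).sub
    (Rat_tq hh N (rq_norm hy) (Rat_max (Rat_neg (hy i)) Rat_zero))

theorem rv_r0 (K : ℕ) {x : V m} (hx : RV x) : RV (r0 K x) := by
  have hb : Rq (be x) := Rat_mk _ (Rat_vsub hx fun _ => Rat_half)
  exact fun i => Rat_add Rat_half (Rat_oext (fun d hd => Rat_cmin
    (Rat_min Rat_half (Rat_mul (Rat_pow K) hd)) fun k _ => Rat_add (Rat_mul (Rat_pow k) hd)
      (Rat_max (Rat_half.sub (Rat_mul (Rat_pow k) hb)) Rat_zero)) ((hx i).sub Rat_half))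

theorem isW_gta (j K : ℕ) : IsW (gta (tj j) K : V m → V m) := by
  exact ⟨lh_gta (tj_pos j) (tj_le j) K, fun x hx => Rat_mix (rq_half_pow _) hx (rv_r0 K hx)⟩

theorem isW_gtl (j K : ℕ) {η : V m → ℝ} (ht : TP η) (hη : ∀ x y, |η x - η y| ≤ ‖x - y‖)
    (hr : ∀ x, RV x → Rq (η x)) : IsW (gtl (tj j) K η) := by
  exact ⟨lh_gtl (tj_pos j) (tj_le j) K ht hη, fun x hx => Rat_mix (rq_half_pow _) hx fun i =>
    Rat_max ((hx i).sub (hr x hx)) (Rat_min (rv_r0 K hx i) (Rat_add (hx i) (hr x hx)))⟩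

theorem rv_Es {ι : Type} [Fintype ι] {c : ι → V m} {h : ι → ℝ} (N : ι → ℕ) (hc : ∀ i, RV (c i))
    (hh : ∀ i, Rq (h i)) {x : V m} (hx : RV x) : RV (Es c h N x) := by
  intro i
  rw [Es, Pi.add_apply, Finset.sum_apply]
  exact Rat_add (hx i) (Rat_sum _ fun k _ =>
    Rat_vsub (Rat_tooth (hh k) (N k) (Rat_vsub hx (hc k))) (Rat_vsub hx (hc k)) i)

end BEe
end
end

-- merged part: Pool.Agent.Work.MP_f0515e_an.Ev.Comb1b
section
/-! Choice of the teeth of the comb.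

Plan for `comb_teeth`.  Let `P > 0` bound all `‖sd b l.2‖`, `l ∈ S`, and let `T` bound `|t|` for
`Sel l t` (from `hR` and `sd true l.2 ≠ 0`).  For `0 < η ≤ 1` let `J` be the set of `(l, j)` in
`S ×ˢ Icc (-J0) J0`, `J0 = ⌈T / η⌉ + 1`, for which some `t` has `Sel l t`, `|t - j * η| ≤ η`, and let
`h i` be a rational in `[3 / 5 * kap η i, 4 / 5 * kap η i]` (`exists_rat_btwn`).  Then
`J.card ≤ S.card * (2 * T + 5) / η` and `h i ^ m ≤ (η * P) ^ m ≤ (η * P) ^ 2` when `η * P ≤ 1`.  Take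
`η` so small that `4 * η * P ≤ ρ`, `η * P ≤ 1 / 8` and the sum is at most `e`.  The point
`sd (par j) (l.pt t)` of a selected parameter is within `kap η i` of the centre (`sd_pt`).
Separation: if `i.1 = i'.1` and the parities agree then `|i.2 - i'.2| ≥ 2` and the centres are at
distance at least `2 * kap`; otherwise the two selected points are more than `ρ` apart. -/

open Set Metric Filter Topology MeasureTheory Function BEv
open scoped ENNReal NNReal

noncomputable section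
namespace BEe

variable {m : ℕ}

theorem Comb1b_ce (η : ℝ) (i : Ln m × ℤ) (t : ℝ) :
    ce η i - sd (par i.2) (i.1.pt t) = (i.2 * η - t) • sd (par i.2) i.1.2 := by
  rw [ce, sd_pt, sd_pt, add_sub_add_left_eq_sub, sub_smul]

theorem Comb1b_par {j j' : ℤ} (h : par j = par j') (hn : j ≠ j') : (2 : ℝ) ≤ |(j : ℝ) - j'| := by
  have h1 : Even j ↔ Even j' := by simpa [par] using h
  rw [Int.even_iff, Int.even_iff] at h1
  have h2 : (2 : ℤ) ≤ |j - j'| := by
    rcases abs_cases (j - j') with k | k <;> omega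
  exact_mod_cast h2

theorem Comb1b_eta {P ρ c e : ℝ} (hP : 0 < P) (hρ : 0 < ρ) (hc : 0 ≤ c) (he : 0 < e) :
    ∃ η : ℝ, 0 < η ∧ η ≤ 1 ∧ 4 * (η * P) ≤ ρ ∧ η * P ≤ 1 / 8 ∧ c * η ≤ e := by
  refine ⟨min (min 1 (ρ / (4 * P))) (min (1 / (8 * P)) (e / (c + 1))), by positivity,
    (min_le_left _ _).trans (min_le_left _ _), ?_, ?_, ?_⟩
  · have := (le_div_iff₀ (by positivity)).1 ((min_le_left (min 1 (ρ / (4 * P)))
      (min (1 / (8 * P)) (e / (c + 1)))).trans (min_le_right _ _))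
    linarith only [this]
  · have := (le_div_iff₀ (by positivity)).1 ((min_le_right (min 1 (ρ / (4 * P)))
      (min (1 / (8 * P)) (e / (c + 1)))).trans (min_le_left _ _))
    linarith only [this]
  · have := (le_div_iff₀ (by positivity)).1 ((min_le_right (min 1 (ρ / (4 * P)))
      (min (1 / (8 * P)) (e / (c + 1)))).trans (min_le_right _ _))
    have h0 : 0 < min (min 1 (ρ / (4 * P))) (min (1 / (8 * P)) (e / (c + 1))) := by positivity
    linarith only [this, h0]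

theorem comb_teeth (hm : 2 ≤ m) (S : Finset (Ln m)) (hS : ∀ l ∈ S, ∀ b, sd b l.2 ≠ 0)
    {Sel Any : Ln m → ℝ → Prop} (hSA : ∀ l t, Sel l t → Any l t) {R : ℝ}
    (hR : ∀ l ∈ S, ∀ t, Sel l t → ‖(l.pt t).1‖ ≤ R) {ρ : ℝ} (hρ : 0 < ρ)
    (hsep : ∀ l ∈ S, ∀ t, Sel l t → ∀ b : Bool,
      (∀ l' ∈ S, ∀ t', Any l' t' → ∀ b',
        ‖sd b (l.pt t) - sd b' (l'.pt t')‖ ≤ ρ → l = l' ∧ b = b') ∧
      ∀ i (k : ℤ), |sd b (l.pt t) i - k| ≤ ρ → sd b l.2 i = 0 ∧ sd b l.1 i = k)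
    {e : ℝ} (he : 0 < e) :
    ∃ (η : ℝ) (J : Finset (Ln m × ℤ)) (h : Ln m × ℤ → ℝ), 0 < η ∧
      (∀ i ∈ J, i.1 ∈ S ∧ Rq (h i) ∧ 3 / 5 * kap η i ≤ h i ∧ h i ≤ 4 / 5 * kap η i ∧
        kap η i ≤ 1 / 8 ∧ ∃ t, Sel i.1 t ∧ ‖ce η i - sd (par i.2) (i.1.pt t)‖ ≤ kap η i) ∧
      (∀ i ∈ J, ∀ i' ∈ J, i ≠ i' → h i + h i' < ‖ce η i - ce η i'‖) ∧
      (∀ i ∈ J, ∀ w : V m, ‖w - ce η i‖ ≤ h i → ∀ l (k : ℤ), w l = k → ce η i l = k) ∧
      ∑ i ∈ J, h i ^ m ≤ e ∧
      (∀ l ∈ S, ∀ t, Sel l t → ∀ j : ℤ, |t - j * η| ≤ η → (l, j) ∈ J) ∧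
      (∀ l ∈ S, ∀ t, Any l t → ∀ b, ∀ i ∈ J, ‖sd b (l.pt t) - ce η i‖ ≤ h i →
        i.1 = l ∧ par i.2 = b) := by
  classical
  obtain ⟨P, hP, hP'⟩ : ∃ P : ℝ, 0 < P ∧ ∀ l ∈ S, ∀ b, ‖sd b l.2‖ ≤ P := by
    refine ⟨1 + ∑ l ∈ S, ‖l.2‖, by positivity, fun l hl b => ?_⟩
    have h1 := Finset.single_le_sum (f := fun l : Ln m => ‖l.2‖) (fun _ _ => norm_nonneg _) hl
    have h2 : ‖sd b l.2‖ ≤ ‖l.2‖ := by
      cases b
      · exact norm_snd_le _
      · exact norm_fst_le _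
    linarith only [h1, h2]
  obtain ⟨T, hT, hT'⟩ : ∃ T : ℝ, 0 ≤ T ∧ ∀ l ∈ S, ∀ t, Sel l t → |t| ≤ T := by
    refine ⟨∑ l ∈ S, |(R + ‖l.1.1‖) / ‖l.2.1‖|, by positivity, fun l hl t ht => ?_⟩
    refine le_trans ?_ ((le_abs_self _).trans (Finset.single_le_sum
      (f := fun l : Ln m => |(R + ‖l.1.1‖) / ‖l.2.1‖|) (fun _ _ => abs_nonneg _) hl))
    have h1 : (l.pt t).1 - l.1.1 = t • l.2.1 := add_sub_cancel_left _ _
    have h2 := norm_sub_le (l.pt t).1 l.1.1
    rw [h1, norm_smul, Real.norm_eq_abs] at h2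
    rw [le_div_iff₀ (norm_pos_iff.2 (show l.2.1 ≠ 0 from hS l hl true))]
    linarith only [h2, hR, hl, ht, hR l hl t ht]
  obtain ⟨η, η0, η1, η2, η3, η4⟩ := Comb1b_eta (c := S.card * (2 * T + 5) * P ^ 2) hP hρ
    (by positivity) he
  have k0 : ∀ i : Ln m × ℤ, ∃ r : ℝ, 0 < kap η i →
      Rq r ∧ 3 / 5 * kap η i ≤ r ∧ r ≤ 4 / 5 * kap η i := fun i => by
    by_cases h : 0 < kap η i
    · obtain ⟨r, r1, r2⟩ := exists_rat_btwn (show 3 / 5 * kap η i < 4 / 5 * kap η i by linarith only [h])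
      exact ⟨r, fun _ => ⟨rq_cast r, r1.le, r2.le⟩⟩
    · exact ⟨0, fun h' => absurd h' h⟩
  choose h hh using k0
  obtain ⟨N, hN⟩ : ∃ N : ℕ, N = ⌈T / η⌉₊ + 1 := ⟨_, rfl⟩
  obtain ⟨J, hJ⟩ : ∃ J : Finset (Ln m × ℤ), J = (S ×ˢ Finset.Icc (-(N : ℤ)) N).filter
    fun i => ∃ t, Sel i.1 t ∧ |t - i.2 * η| ≤ η := ⟨_, rfl⟩
  have a1 : ∀ i ∈ J, i.1 ∈ S ∧ 0 < kap η i ∧ kap η i ≤ η * P ∧
      ∃ t, Sel i.1 t ∧ ‖ce η i - sd (par i.2) (i.1.pt t)‖ ≤ kap η i := fun i hi => by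
    rw [hJ, Finset.mem_filter, Finset.mem_product] at hi
    obtain ⟨⟨h1, -⟩, t, h2, h3⟩ := hi
    refine ⟨h1, mul_pos η0 (norm_pos_iff.2 (hS _ h1 _)),
      mul_le_mul_of_nonneg_left (hP' _ h1 _) η0.le, t, h2, ?_⟩
    rw [Comb1b_ce, norm_smul, Real.norm_eq_abs, abs_sub_comm]
    exact mul_le_mul_of_nonneg_right h3 (norm_nonneg _)
  have a2 : ∀ i ∈ J, ∃ t, Sel i.1 t ∧ ‖ce η i - sd (par i.2) (i.1.pt t)‖ ≤ η * P ∧
      ∀ w : V m, ‖w - ce η i‖ ≤ h i → ‖sd (par i.2) (i.1.pt t) - w‖ ≤ ρ := fun i hi => by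
    obtain ⟨-, h1, h2, t, h3, h4⟩ := a1 i hi
    refine ⟨t, h3, h4.trans h2, fun w hw => ?_⟩
    have h5 := norm_sub_le_norm_sub_add_norm_sub w (ce η i) (sd (par i.2) (i.1.pt t))
    rw [norm_sub_rev]
    linarith only [η2, h1, h2, h4, hw, h5, hh, (hh i h1).2.2]
  refine ⟨η, J, h, η0, fun i hi => ?_, fun i hi i' hi' hn => ?_, fun i hi w hw l k hk => ?_, ?_,
    fun l hl t ht j hj => ?_, fun l hl t ht b i hi hw => ?_⟩
  · obtain ⟨h0, h1, h2, h3⟩ := a1 i hi
    exact ⟨h0, (hh i h1).1, (hh i h1).2.1, (hh i h1).2.2, h2.trans η3, h3⟩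
  · obtain ⟨h0, h1, h2, -⟩ := a1 i hi
    obtain ⟨h0', h1', h2', -⟩ := a1 i' hi'
    have b1 := (hh i h1).2.2
    have b2 := (hh i' h1').2.2
    by_cases hq : i.1 = i'.1 ∧ par i.2 = par i'.2
    · have b3 : kap η i' = kap η i := by rw [kap, kap, hq.1, hq.2]
      have b4 := Comb1b_par hq.2 fun r => hn (Prod.ext hq.1 r)
      have b5 : ‖ce η i - ce η i'‖ = |(i.2 : ℝ) - i'.2| * kap η i := by
        rw [ce.eq_1 η i', ← hq.1, ← hq.2, Comb1b_ce, norm_smul, Real.norm_eq_abs, ← sub_mul,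
          abs_mul, abs_of_pos η0, kap, mul_assoc]
      rw [b5]
      linarith only [b1, b2, b3, η3, h1, h2, b4, mul_nonneg_of_nonpos_of_nonpos (Mathlib.Tactic.Linarith.sub_nonpos_of_le η3) (le_of_lt (Mathlib.Tactic.Linarith.sub_neg_of_lt h1)), mul_pos_of_neg_of_neg (Mathlib.Tactic.Linarith.sub_neg_of_lt h1) (Mathlib.Tactic.Linarith.sub_neg_of_lt h1), mul_nonneg_of_nonpos_of_nonpos (le_of_lt (Mathlib.Tactic.Linarith.sub_neg_of_lt h1)) (Mathlib.Tactic.Linarith.sub_nonpos_of_le h2), mul_nonneg_of_nonpos_of_nonpos (le_of_lt (Mathlib.Tactic.Linarith.sub_neg_of_lt h1)) (Mathlib.Tactic.Linarith.sub_nonpos_of_le b4)]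
    · obtain ⟨t, t1, t2, -⟩ := a2 i hi
      obtain ⟨t', t1', t2', -⟩ := a2 i' hi'
      have b3 := not_le.1 fun r => hq ((hsep _ h0 t t1 _).1 _ h0' t' (hSA _ _ t1') _ r)
      have b4 := norm_sub_le_norm_sub_add_norm_sub (sd (par i.2) (i.1.pt t)) (ce η i)
        (sd (par i'.2) (i'.1.pt t'))
      have b5 := norm_sub_le_norm_sub_add_norm_sub (ce η i) (ce η i') (sd (par i'.2) (i'.1.pt t'))
      rw [norm_sub_rev] at t2
      linarith only [η2, h1, h2, h2', b1, b2, t2, t2', b3, b4, b5]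
  · obtain ⟨t, t1, -, t2⟩ := a2 i hi
    have b1 := (norm_le_pi_norm (sd (par i.2) (i.1.pt t) - w) l).trans (t2 w hw)
    rw [Pi.sub_apply, hk, Real.norm_eq_abs] at b1
    obtain ⟨b2, b3⟩ := (hsep _ (a1 i hi).1 t t1 _).2 l k b1
    rw [ce, sd_pt, Pi.add_apply, Pi.smul_apply, b2, b3, smul_zero, add_zero]
  · have b1 : ∀ i ∈ J, h i ^ m ≤ (η * P) ^ 2 := fun i hi => by
      obtain ⟨-, h1, h2, -⟩ := a1 i hi
      obtain ⟨-, h3, h4⟩ := hh i h1
      exact (pow_le_pow_left₀ (by linarith only [h1, h3]) (by linarith only [h1, h2, h4]) m).trans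
        (pow_le_pow_of_le_one (by positivity) (by linarith only [η3, h1, h2]) hm)
    have b2 : J.card ≤ S.card * (2 * N + 1) := by
      rw [hJ]
      refine (Finset.card_filter_le _ _).trans_eq ?_
      rw [Finset.card_product, Int.card_Icc]
      congr 1
      omega
    have b3 : (N : ℝ) * η ≤ T + 2 := by
      have c1 := Nat.ceil_lt_add_one (div_nonneg hT η0.le)
      have c2 : (N : ℝ) ≤ T / η + 2 := by
        rw [hN]
        push_cast
        linarith only [c1]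
      have c3 := mul_le_mul_of_nonneg_right c2 η0.le
      rw [add_mul, div_mul_cancel₀ _ η0.ne'] at c3
      linarith only [η1, c3]
    have b4 : (J.card : ℝ) ≤ S.card * (2 * N + 1) := by exact_mod_cast b2
    refine (Finset.sum_le_card_nsmul J _ _ b1).trans ?_
    rw [nsmul_eq_mul]
    calc (J.card : ℝ) * (η * P) ^ 2 ≤ S.card * (2 * N + 1) * (η * P) ^ 2 := by gcongr
      _ = S.card * (2 * (N * η) + η) * P ^ 2 * η := by ring
      _ ≤ S.card * (2 * T + 5) * P ^ 2 * η := by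
        have c1 : 2 * (N * η) + η ≤ 2 * T + 5 := by linarith only [η1, b3]
        gcongr
      _ ≤ e := η4
  · rw [hJ, Finset.mem_filter, Finset.mem_product, Finset.mem_Icc, ← abs_le]
    refine ⟨⟨hl, ?_⟩, t, ht, hj⟩
    have b1 : |(j : ℝ)| * η ≤ T + η := by
      have c1 := abs_sub_abs_le_abs_sub (j * η) t
      rw [abs_sub_comm, abs_mul, abs_of_pos η0] at c1
      linarith only [hj, c1, hT', hl, ht, hT' l hl t ht]
    have b2 : |(j : ℝ)| ≤ N := by
      have c1 := Nat.le_ceil (T / η)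
      have c2 : |(j : ℝ)| ≤ T / η + 1 := by
        rw [div_add_one η0.ne', le_div_iff₀ η0]
        exact b1
      rw [hN]
      push_cast
      linarith only [c1, c2]
    exact_mod_cast b2
  · obtain ⟨t', t1, -, t2⟩ := a2 i hi
    exact (hsep _ (a1 i hi).1 t' t1 _).1 l hl t ht b (t2 _ hw)

end BEe
end
end

-- merged part: Pool.Agent.Work.MP_f0515e_an.Ev.Tooth3
section
/-! Families of disjoint teeth.

Plan for `lh_Es`: `glue_bijective` with `f0 = id`, `fb = id`, blocks the closed balls, then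
`LH.of_supp`.  A point is in at most one of the closed balls
`closedBall (c i) (h i)`; use `Es_eq_tooth` there and `Es_eq_self` otherwise; `norm_tooth`, `rho_le`,
`tooth_apply_zero`, `mu_eq_zero_iff`. -/

open Set Metric Filter Topology MeasureTheory Function BEv
open scoped ENNReal NNReal

noncomputable section
namespace BEe

variable {m : ℕ}

section Family
variable {ι : Type} [Fintype ι] {c : ι → V m} {h : ι → ℝ} {N : ι → ℕ}

theorem tp_Es2 (c : ι → V m) (h : ι → ℝ) (N : ι → ℕ) :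
    TP (fun p : (ι → V m) × V m => Es (c + p.1) h N p.2) := by
  have h2 : TP (fun p : (ι → V m) × V m => p.2) := TP.id'.snd
  have h1 : ∀ i, TP (fun p : (ι → V m) × V m => p.2 - (c + p.1) i) := fun i => by
    have h3 : TP (fun p : (ι → V m) × V m => p.1 i) :=
      (TP.clm (ContinuousLinearMap.proj (R := ℝ) (φ := fun _ : ι => V m) i)).comp TP.id'.fst
    exact h2.sub ((TP.const (c i)).add h3)
  exact h2.add (TP.sum Finset.univ fun i _ => ((tp_tooth (h i) (N i)).comp (h1 i)).sub (h1 i))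

theorem tp_Es (c : ι → V m) (h : ι → ℝ) (N : ι → ℕ) : TP (Es c h N) := by
  have h1 : ∀ i, TP (fun y : V m => y - c i) := fun i => TP.id'.sub (TP.const (c i))
  exact TP.id'.add (TP.sum Finset.univ fun i _ => ((tp_tooth (h i) (N i)).comp (h1 i)).sub (h1 i))

theorem Es_eq_self (hh : ∀ i, 0 < h i) (hN : ∀ i, 1 ≤ N i) {y : V m}
    (hy : ∀ i, h i ≤ ‖y - c i‖) : Es c h N y = y := by
  unfold Es
  rw [Finset.sum_eq_zero fun i _ => by rw [tooth_eq_self (hh i) (hN i) (hy i), sub_self], add_zero]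

theorem Es_eq_tooth (hh : ∀ i, 0 < h i) (hN : ∀ i, 1 ≤ N i) {y : V m} {i : ι}
    (hy : ∀ j, j ≠ i → h j ≤ ‖y - c j‖) : Es c h N y = c i + tooth (h i) (N i) (y - c i) := by
  classical
  unfold Es
  rw [Finset.sum_eq_single i (fun j _ hj => by rw [tooth_eq_self (hh j) (hN j) (hy j hj), sub_self])
    (fun hi => absurd (Finset.mem_univ i) hi)]
  abel

omit [Fintype ι] in
theorem tooth3_far (hs : ∀ i j, i ≠ j → h i + h j < ‖c i - c j‖) {y : V m} {i : ι}
    (hi : ‖y - c i‖ ≤ h i) (j : ι) (hj : j ≠ i) : h j < ‖y - c j‖ := by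
  have h1 := hs i j hj.symm
  have h2 : ‖c i - c j‖ ≤ ‖y - c j‖ + ‖y - c i‖ := by
    have e : c i - c j = (y - c j) - (y - c i) := by abel
    rw [e]
    exact norm_sub_le _ _
  linarith

theorem lh_Es (hh : ∀ i, 0 < h i) (hN : ∀ i, 1 ≤ N i)
    (hs : ∀ i j, i ≠ j → h i + h j < ‖c i - c j‖) : LH (Es c h N) := by
  classical
  have hb : Bijective (Es c h N) := by
    refine glue_bijective (f0 := id) Finset.univ (fun i => {y | ‖y - c i‖ ≤ h i})
      (fun i y => c i + tooth (h i) (N i) (y - c i)) (fun _ => id) bijective_id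
      (fun i _ => ?_) (fun _ _ => bijective_id) (fun i _ j _ hij => ?_) (fun i _ x hx => ?_)
      (fun _ _ _ _ => rfl) (fun i _ x hx => ?_) (fun x hx => ?_)
    · exact (Equiv.addLeft (c i)).bijective.comp
        ((bijective_tooth (hh i) (hN i)).comp (Equiv.subRight (c i)).bijective)
    · exact Set.disjoint_left.2 fun x h1 h2 => not_le.2 (tooth3_far hs h1 j hij.symm) h2
    · exact Es_eq_tooth hh hN fun j hj => (tooth3_far hs hx j hj).le
    · change c i + tooth (h i) (N i) (x - c i) = x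
      rw [tooth_eq_self (hh i) (hN i) (not_le.1 hx).le, add_sub_cancel]
    · exact Es_eq_self hh hN fun i => (not_le.1 (hx i (Finset.mem_univ i))).le
  refine LH.of_supp (tp_Es c h N) hb (R := ∑ i, (‖c i‖ + h i)) fun x hx => ?_
  refine Es_eq_self hh hN fun i => ?_
  have h1 := Finset.single_le_sum (f := fun i => ‖c i‖ + h i)
    (fun j _ => add_nonneg (norm_nonneg _) (hh j).le) (Finset.mem_univ i)
  have h2 := norm_sub_norm_le x (c i)
  linarith

theorem norm_Es_sub_le (hh : ∀ i, 0 < h i) (hN : ∀ i, 1 ≤ N i)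
    (hs : ∀ i j, i ≠ j → h i + h j < ‖c i - c j‖) {H : ℝ} (hH0 : 0 ≤ H) (hH : ∀ i, h i ≤ H)
    (y : V m) : ‖Es c h N y - y‖ ≤ 2 * H := by
  by_cases hy : ∀ i, h i ≤ ‖y - c i‖
  · rw [Es_eq_self hh hN hy, sub_self, norm_zero]
    linarith
  · push Not at hy
    obtain ⟨i, hi⟩ := hy
    rw [Es_eq_tooth hh hN fun j hj => (tooth3_far hs hi.le j hj).le]
    have e : c i + tooth (h i) (N i) (y - c i) - y = tooth (h i) (N i) (y - c i) - (y - c i) := by
      abel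
    have h1 := norm_sub_le (tooth (h i) (N i) (y - c i)) (y - c i)
    have h2 := rho_le (N := N i) (hh i) hi.le
    rw [norm_tooth (hh i) (hN i)] at h1
    have h3 := hH i
    rw [e]
    linarith only [hi, h1, h2, h3]

theorem mu_Es (hh : ∀ i, 0 < h i) (hN : ∀ i, 1 ≤ N i)
    (hs : ∀ i j, i ≠ j → h i + h j < ‖c i - c j‖)
    (hX : ∀ i (w : V m), ‖w - c i‖ ≤ h i → ∀ l (k : ℤ), w l = k → c i l = k) {w : V m}
    (hw : mu w = 0) : mu (Es c h N w) = 0 := by
  by_cases hy : ∀ i, h i ≤ ‖w - c i‖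
  · rwa [Es_eq_self hh hN hy]
  · push Not at hy
    obtain ⟨i, hi⟩ := hy
    rw [Es_eq_tooth hh hN fun j hj => (tooth3_far hs hi.le j hj).le]
    obtain ⟨S, hS, h1⟩ := mu_eq_zero_iff.1 hw
    refine mu_eq_zero_iff.2 ⟨S, hS, fun l hl => ?_⟩
    obtain ⟨k, hk⟩ := h1 l hl
    have h2 := hX i w hi.le l k hk
    refine ⟨k, ?_⟩
    rw [Pi.add_apply, tooth_apply_zero (by rw [Pi.sub_apply, hk, h2, sub_self]), add_zero, h2]

end Family

end BEe
end
end

-- merged part: Pool.Agent.Work.MP_f0515e_an.Ev.GP1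
section
/-! The pieces of a map which keeps the rational points are rational.

Plan.  `countable_RatA`: the map `A ↦ (fun i => A.1 (Pi.single i 1), A.2)` is injective (a linear
map is determined on the standard basis) and sends the set into a countable set (functions from a
finite type into `range (Rat.cast)`; `Set.countable_pi`, `Set.countable_range`).
`IsW.pieces`: take the finite set `S0` of pieces on `closedBall 0 (R + 1)` (or `|R| + 1`), and keep
the pieces `A` for which the closed set `{x | Γ x = A.1 x + A.2}` has nonempty interior.  For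
`x ∈ closedBall 0 R` every small ball around `x` is covered by the finitely many closed sets, so one
of them has interior points in it (`isClosed`, `interior_union_isClosed_of_interior_empty`, or Baire
`nonempty_interior_of_iUnion_of_closed`, or: the union of the boundaries is null/nowhere dense); by
finiteness one piece works for arbitrarily small balls, so `x` lies in its closed set (compare the
proof of `pa2_inv` in `PA2.lean`).  On an open ball where `Γ = A`: `A.1` is injective since `Γ` is;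
pick a rational point `x0` of the ball (`exists_rv_near`) and a small positive rational `s`; then
`s • A.1 (Pi.single i 1) = Γ (x0 + s • Pi.single i 1) - Γ x0` is rational, and
`A.2 = Γ x0 - ∑ i, x0 i • A.1 (Pi.single i 1)`. -/

open Set Metric Filter Topology MeasureTheory Function BEv
open scoped ENNReal NNReal

noncomputable section
namespace BEe

variable {m : ℕ}

/-- Affine maps with rational coefficients. -/
def RatA (A : (V m →L[ℝ] V m) × V m) : Prop := (∀ i, RV (A.1 (Pi.single i 1))) ∧ RV A.2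

theorem countable_RatA (m : ℕ) : {A : (V m →L[ℝ] V m) × V m | RatA A}.Countable := by
  have h1 : {t : ℝ | Rq t}.Countable := (countable_range ((↑) : ℚ → ℝ)).mono fun t ⟨r, h⟩ =>
    mem_range.2 ⟨r, h.symm⟩
  have h2 : {x : V m | RV x}.Countable := countable_pi fun _ => h1
  refine ((countable_pi fun _ : Fin (2 * m + 2) => h2).prod h2).preimage
    (f := fun A : (V m →L[ℝ] V m) × V m => (fun i => A.1 (Pi.single i 1), A.2)) fun A B e => ?_
  obtain ⟨e1, e2⟩ := Prod.mk.inj e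
  refine Prod.ext (ContinuousLinearMap.coe_injective ((Pi.basisFun ℝ _).ext fun i => ?_)) e2
  simpa using congrFun e1 i

theorem GP1_iff {t : ℝ} : Rq t ↔ t ∈ (Rat.castHom ℝ).fieldRange :=
  exists_congr fun _ => eq_comm

theorem GP1_good {Γ : V m → V m} (h : IsW Γ) {A : (V m →L[ℝ] V m) × V m}
    (hA : (interior {x | Γ x = A.1 x + A.2}).Nonempty) : RatA A ∧ Injective A.1 := by
  obtain ⟨y, hy⟩ := hA
  obtain ⟨δ, h0, hδ⟩ := Metric.mem_nhds_iff.1 (mem_interior_iff_mem_nhds.1 hy)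
  have hb : ∀ x, ‖x - y‖ < δ → Γ x = A.1 x + A.2 := fun x hx => hδ (mem_ball_iff_norm.2 hx)
  constructor
  · obtain ⟨x, a1, a2⟩ := exists_rv_near y (half_pos h0)
    obtain ⟨s, s1, s2⟩ := exists_rat_btwn (half_pos h0)
    have e0 := hb x (by linarith only [a2, s1, s2])
    have b0 := fun j => GP1_iff.1 (h.2 x a1 j)
    have h1 : ∀ i, RV (A.1 (Pi.single i 1)) := fun i j => by
      have e1 := hb (x + (s : ℝ) • Pi.single i 1) (by
        rw [add_sub_right_comm]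
        refine (norm_add_le _ _).trans_lt ?_
        rw [norm_smul, Pi.norm_single, norm_one, mul_one, Real.norm_of_nonneg s1.le]
        linarith only [a2, s2])
      have b1 := GP1_iff.1 (h.2 (x + (s : ℝ) • Pi.single i 1) (fun l => GP1_iff.2 (add_mem
        (GP1_iff.1 (a1 l)) (mul_mem (GP1_iff.1 (rq_cast s)) (by
          rw [Pi.single_apply]
          split_ifs
          exacts [one_mem _, zero_mem _])))) j)
      have b2 := mul_mem (inv_mem (GP1_iff.1 (rq_cast s))) (sub_mem b1 (b0 j))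
      rw [e0, e1] at b2
      simpa [GP1_iff, s1.ne'] using b2
    refine ⟨h1, fun j => GP1_iff.2 ?_⟩
    have b3 := sub_mem (b0 j) (sum_mem fun i (_ : i ∈ Finset.univ) =>
      mul_mem (GP1_iff.1 (a1 i)) (GP1_iff.1 (h1 i j)))
    have e2 : A.1 x j = ∑ i, x i * A.1 (Pi.single i 1) j := by
      conv_lhs => rw [pi_eq_sum_univ' x]
      simp
    rwa [e0, Pi.add_apply, e2, add_sub_cancel_left] at b3
  · refine (injective_iff_map_eq_zero _).2 fun v hv => ?_
    have h1 : 0 < δ / (‖v‖ + 1) := by positivity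
    have e1 := hb (y + (δ / (‖v‖ + 1)) • v) (by
      rw [add_sub_cancel_left, norm_smul, Real.norm_of_nonneg h1.le, div_mul_eq_mul_div,
        div_lt_iff₀ (by positivity)]
      linarith)
    rw [map_add, map_smul, hv, smul_zero, add_zero, ← hb y (by simpa using h0)] at e1
    exact (smul_eq_zero.1 (add_eq_left.1 (h.1.1.1 e1))).resolve_left h1.ne'

theorem IsW.pieces {Γ : V m → V m} (h : IsW Γ) (R : ℝ) :
    ∃ S : Set ((V m →L[ℝ] V m) × V m), S.Finite ∧ (∀ A ∈ S, RatA A ∧ Injective A.1) ∧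
      ∀ x ∈ closedBall (0 : V m) R, ∃ A ∈ S, Γ x = A.1 x + A.2 := by
  obtain ⟨S, hS, h1⟩ := h.1.2.1.pa (R + 1)
  have cl : ∀ A : (V m →L[ℝ] V m) × V m, IsClosed {x | Γ x = A.1 x + A.2} := fun A =>
    isClosed_eq h.1.2.1.continuous (by fun_prop)
  have hd := dense_biInter_of_isOpen (S := {A ∈ S | ¬ (RatA A ∧ Injective A.1)})
    (fun A _ => (cl A).isOpen_compl) (hS.subset (sep_subset _ _)).countable fun A hA =>
      interior_eq_empty_iff_dense_compl.1
        (not_nonempty_iff_eq_empty.1 fun k => hA.2 (GP1_good h k))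
  have key : ball 0 (R + 1) ⊆ ⋃ A ∈ {A ∈ S | RatA A ∧ Injective A.1}, {x | Γ x = A.1 x + A.2} := by
    refine (hd.open_subset_closure_inter isOpen_ball).trans (closure_minimal (fun x hx => ?_)
      ((hS.subset (sep_subset _ _)).isClosed_biUnion fun A _ => cl A))
    obtain ⟨A, hA, e⟩ := h1 x (ball_subset_closedBall hx.1)
    exact mem_biUnion (x := A) ⟨hA, by_contra fun hn => mem_iInter₂.1 hx.2 A ⟨hA, hn⟩ e⟩ e
  refine ⟨_, hS.subset (sep_subset _ _), fun A hA => hA.2, fun x hx => ?_⟩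
  obtain ⟨A, hA, e⟩ := mem_iUnion₂.1 (key (closedBall_subset_ball (lt_add_one R) hx))
  exact ⟨A, hA, e⟩

end BEe
end
end
end

-- merged part: Pool.Agent.Work.MP_f0515e_an.Ev.Unit
section
-- merged part: Pool.Agent.Work.MP_f0515e_an.Ev.CoD
section
/-! Choice of the parameters of the coarse step. -/

open Set Metric Filter Topology MeasureTheory Function BEv
open scoped ENNReal NNReal

noncomputable section
namespace BEe
namespace CP

variable {m : ℕ} {v : V m} {s : St m}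

theorem cod_small {T : V m → V m} (hT : TP T) (v : V m) : ∃ e : ℝ, 0 < e ∧
    ∀ (y : V m) (t t' : ℝ), |t - t'| ≤ e → ‖T (y + t • v) - T (y + t' • v)‖ ≤ 1 := by
  obtain ⟨L, hL, h⟩ := hT.exists_bound
  have hv := norm_nonneg v
  refine ⟨1 / (L * (‖v‖ + 1)), by positivity, fun y t t' ht => (h _ _).trans ?_⟩
  rw [add_sub_add_left_eq_sub, ← sub_smul, norm_smul, Real.norm_eq_abs]
  rw [le_div_iff₀ (by positivity)] at ht
  linarith only [ht, hL, abs_nonneg (t - t'), mul_nonneg (abs_nonneg (t - t')) (zero_le_one.trans hL)]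

/-- A cut-off which is small on the projection of the double points. -/
theorem cod_chi (hm : 1 ≤ m) (hs : St.Ok v s) (hΓ : St.Gam v s) (hGP : GP v s.Γ) {δ : ℝ}
    (hδ : 0 < δ) : ∃ (χ : V m → ℝ) (Dc : Finset (V m)) (t : ℝ), TP χ ∧ 0 < t ∧ t ≤ 1 / 4 ∧
      (Dc.card : ℝ) * t ^ (m + 1) ≤ δ ∧
      (∀ x ∈ St.U v s, mu x = 0 → χ (pj v (s.G x)) ≤ 3 → ∃ a ∈ Dc, ‖x - a‖ ≤ t) ∧
      ∀ x ∈ St.U v s, ∀ x' ∈ St.U v s, mu x = 0 → mu x' = 0 → pj v (s.G x) = pj v (s.G x') →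
        1 ≤ χ (pj v (s.G x)) → x = x' := by
  obtain ⟨R, hR⟩ := hs.bdd.subset_closedBall (0 : V m)
  obtain ⟨S, hS, hl⟩ := hGP.lines R
  obtain ⟨t, ht0, ht1, Dc, hcard, hcov⟩ := cover hm S (fun l h => (hS l h).1) R hδ
  have hU := St.isCompact_U hs
  have hp : Continuous fun x => pj v (s.G x) := ((tp_pj v).comp hs.hG.tp).continuous
  set Db : Set (V m) := {x | x ∈ St.U v s ∧ mu x = 0 ∧
    ∃ x' ∈ St.U v s, mu x' = 0 ∧ x ≠ x' ∧ pj v (s.G x) = pj v (s.G x')} with hDb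
  have hX : IsCompact (St.U v s ∩ {x | mu x = 0}) :=
    hU.inter_right (isClosed_eq tp_mu.continuous continuous_const)
  have hcl : closure Db ⊆ St.U v s ∩ {x | mu x = 0} :=
    closure_minimal (fun x hx => ⟨hx.1, hx.2.1⟩) hX.isClosed
  have hc2 : closure Db ⊆ ⋃ a ∈ Dc, closedBall a (t / 2) := by
    refine closure_minimal ?_ (Dc.isCompact_biUnion fun a _ => isCompact_closedBall a _).isClosed
    rintro x ⟨h1, h2, x', h3, h4, h5, h6⟩
    obtain ⟨l, hl1, r, hr⟩ := hl x x' h2 h4 (mem_closedBall_zero_iff.1 (hR h1))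
      (mem_closedBall_zero_iff.1 (hR h3)) h5 (by rw [← hΓ x h1, ← hΓ x' h3, h6])
    obtain ⟨a, ha, h7⟩ := hcov l hl1 r (by rw [hr]; exact mem_closedBall_zero_iff.1 (hR h1))
    rw [hr] at h7
    exact mem_iUnion₂.2 ⟨a, ha, mem_closedBall_iff_norm.2 h7⟩
  have hE : IsCompact ((fun x => pj v (s.G x)) '' closure Db) :=
    (hX.of_isClosed_subset isClosed_closure hcl).image hp
  have hK : IsCompact ((fun x => pj v (s.G x)) ''
      ((St.U v s ∩ {x | mu x = 0}) \ ⋃ a ∈ Dc, ball a t)) :=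
    (hX.diff (isOpen_biUnion fun a _ => isOpen_ball)).image hp
  have hdis : (fun x => pj v (s.G x)) '' closure Db ⊆ ((fun x => pj v (s.G x)) ''
      ((St.U v s ∩ {x | mu x = 0}) \ ⋃ a ∈ Dc, ball a t))ᶜ := by
    rintro _ ⟨d, hd, rfl⟩ ⟨x, hx, hxd⟩
    have h1 : x ∈ closure Db := by
      by_cases e : x = d
      · rwa [e]
      · exact subset_closure ⟨hx.1.1, hx.1.2, d, (hcl hd).1, (hcl hd).2, e, hxd⟩
    obtain ⟨a, ha, h2⟩ := mem_iUnion₂.1 (hc2 h1)
    exact hx.2 (mem_iUnion₂.2 ⟨a, ha, closedBall_subset_ball (by linarith only [ht0]) h2⟩)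
  obtain ⟨w, hw, hth⟩ := hE.exists_cthickening_subset_open hK.isClosed.isOpen_compl hdis
  obtain ⟨T, hT, hTf, hTc⟩ := finite_cover_balls_of_compact hE (show 0 < w / 4 by linarith only [hw])
  refine ⟨fun y => dcap hTf.toFinset w y / (w / 4), Dc, t, (TP.dcap _ _).div_const _, ht0, ht1,
    hcard, fun x hx h0 h3 => ?_, fun x hx x' hx' h0 h0' he h1 => ?_⟩
  · rw [div_le_iff₀ (by linarith only [hw])] at h3
    obtain ⟨p, hp1, hp2⟩ := exists_of_dcap_lt (lt_of_le_of_lt h3 (by linarith only [hw]))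
    have h4 := hth (mem_cthickening_of_dist_le (pj v (s.G x)) p w _ (hT (hTf.mem_toFinset.1 hp1))
      (by rw [dist_eq_norm]; linarith only [hTf, hw, h3, hp2]))
    by_contra hn
    refine h4 ⟨x, ⟨⟨hx, h0⟩, fun h5 => hn ?_⟩, rfl⟩
    obtain ⟨a, ha, h6⟩ := mem_iUnion₂.1 h5
    exact ⟨a, ha, (mem_ball_iff_norm.1 h6).le⟩
  · by_contra hn
    obtain ⟨p, hp1, hp2⟩ := mem_iUnion₂.1
      (hTc ⟨x, subset_closure ⟨hx, h0, x', hx', h0', hn, he⟩, rfl⟩)
    have h2 := dcap_le w (pj v (s.G x)) (hTf.mem_toFinset.2 hp1)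
    rw [le_div_iff₀ (by linarith only [hw])] at h1
    linarith only [hTf, h1, h2, hp2, mem_ball_iff_norm.1 hp2]

theorem cod_DU (hs : St.Ok v s) : ∃ D : V m → ℝ, TP D ∧ (∀ x, 0 ≤ D x) ∧
    ∀ x, D x = 0 ↔ x ∈ St.U v s := by
  have tP : TP fun x => pj v (s.G x) := (tp_pj v).comp hs.hG.tp
  have tE : TP fun x => ell v (s.G x) := (tp_ell v).comp hs.hG.tp
  refine ⟨fun x => max (-s.a0 (pj v (s.G x))) 0 + max (|ell v (s.G x)| - 4 * s.σ) 0,
    ((hs.ha0.comp tP).neg.max (TP.const 0)).add ((tE.abs.sub (TP.const _)).max (TP.const 0)),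
    fun x => add_nonneg (le_max_right _ _) (le_max_right _ _), fun x => ?_⟩
  have a2 := le_max_right (-s.a0 (pj v (s.G x))) 0
  have a3 := le_max_right (|ell v (s.G x)| - 4 * s.σ) 0
  have a4 := le_max_left (-s.a0 (pj v (s.G x))) 0
  have a5 := le_max_left (|ell v (s.G x)| - 4 * s.σ) 0
  constructor
  · intro h
    simp only at h
    exact ⟨by linarith only [a3, a4, h], by linarith⟩
  · rintro ⟨h2, h3⟩
    simp only
    rw [max_eq_right (by linarith), max_eq_right (by linarith), add_zero]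

theorem exists_CP (hm : 1 ≤ m) (hs : St.Ok v s) (hΓ : St.Gam v s) (hGP : GP v s.Γ)
    (F1 F2 : Finset (V m)) (hF1 : ∀ p ∈ F1, closedBall p 20 ⊆ s.I) {δ : ℝ} (hδ : 0 < δ) :
    ∃ (P : CP m) (Dc : Finset (V m)) (t : ℝ), P.F1 = F1 ∧ P.F2 = F2 ∧ Ok v s P ∧ 0 < t ∧
      t ≤ 1 / 4 ∧ (Dc.card : ℝ) * t ^ (m + 1) ≤ δ ∧
      ∀ x ∈ St.U v s, mu x = 0 → P.chi (pj v (s.G x)) ≤ 3 → ∃ a ∈ Dc, ‖x - a‖ ≤ t := by
  obtain ⟨χ, Dc, t, hχ, ht0, ht1, hcard, hcov, hinj⟩ := cod_chi hm hs hΓ hGP hδ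
  obtain ⟨R, hR⟩ := hs.bdd.subset_closedBall (0 : V m)
  obtain ⟨T, htU, htf, htc⟩ := finite_cover_balls_of_compact (St.isCompact_U hs) one_pos
  obtain ⟨D, tD, hD0, hD⟩ := cod_DU hs
  have tP : TP fun x => pj v (s.G x) := (tp_pj v).comp hs.hG.tp
  have hz : ∀ x, mu x + D x + max (1 - χ (pj v (s.G x))) 0 = 0 ↔
      mu x = 0 ∧ x ∈ St.U v s ∧ 1 ≤ χ (pj v (s.G x)) := by
    intro x
    have a1 := mu_nonneg x
    have a2 := hD0 x
    have a3 := le_max_left (1 - χ (pj v (s.G x))) 0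
    have a4 := le_max_right (1 - χ (pj v (s.G x))) 0
    constructor
    · intro h
      exact ⟨by linarith only [a1, a2, a4, h], (hD x).1 (by linarith only [a2, a1, a4, h]), by linarith only [a1, a2, a3, h]⟩
    · rintro ⟨h1, h2, h3⟩
      rw [h1, (hD x).2 h2, max_eq_right (by linarith only [h3])]
      ring
  obtain ⟨φ, tφ, hφ⟩ := exists_ext tP (St.tp_f hs)
    ((tp_mu.add tD).add (((TP.const 1).sub (hχ.comp tP)).max (TP.const 0)))
    (fun x => add_nonneg (add_nonneg (mu_nonneg x) (hD0 x)) (le_max_right _ _)) R (by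
      intro x _ x' _ hx hx' hxx
      obtain ⟨b1, b2, b3⟩ := (hz x).1 hx
      obtain ⟨b4, b5, -⟩ := (hz x').1 hx'
      rw [hinj x b2 x' b5 b1 b4 hxx b3])
  obtain ⟨e1, he1, hG⟩ := cod_small hs.hG.tpi v
  obtain ⟨e2, he2, hH⟩ := cod_small hs.hH.tpi v
  refine ⟨⟨F1, F2, htf.toFinset, χ, fun y => clamp (φ y) (s.a y), e1 / 2, min e1 e2 / 16⟩, Dc, t,
    rfl, rfl, ⟨hF1, fun p hp => htU (htf.mem_toFinset.1 hp), fun x hx => ?_, hχ,
      tφ.clamp (St.tp_a hs), fun y => abs_clamp_le (St.a_nonneg hs y), fun x hx h0 h1 => ?_,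
      half_pos he1, div_pos (lt_min he1 he2) (by norm_num), fun y t t' h => hG y t t' (h.trans ?_),
      fun y t t' h => hH y t t' (h.trans ?_)⟩, ht0, ht1, hcard, hcov⟩
  · obtain ⟨p, hp, hxp⟩ := mem_iUnion₂.1 (htc hx)
    exact ⟨p, htf.mem_toFinset.2 hp, (mem_ball_iff_norm.1 hxp).le⟩
  · change clamp (φ (pj v (s.G x))) (s.a (pj v (s.G x))) = St.f v s x
    rw [hφ x (hR hx) ((hz x).2 ⟨h0, hx, h1⟩)]
    exact clamp_eq_self (St.abs_f_le hs x)
  · change 8 * (min e1 e2 / 16) + e1 / 2 ≤ e1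
    linarith only [min_le_left e1 e2]
  · change 16 * (min e1 e2 / 16) ≤ e2
    linarith only [min_le_right e1 e2]

end CP
end BEe
end
end

-- merged part: Pool.Agent.Work.MP_f0515e_an.Ev.Lines2
section
/-! Separation of the curves of double points.

Plan for `comb_geom`.  Take `S` from `GP.norm` with `N ⊆ closedBall 0 R`.  For `l ∈ S` the set
`Tb l` of bad parameters `t` consists of the `t` with `Rel` at `l.pt t` such that the two components
agree, or `l.pt t` lies on another line of `S`, or some coordinate `i` with `sd b l.2 i ≠ 0` of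
`sd b (l.pt t)` is an integer (bounded by `R`, so finitely many `t`).  `D0` = both components of
`l.pt t`, `t ∈ Tb l`.  `D = D0 ∪ partners`, where the partners of `d` are the `x` with `Rel d x` or
`Rel x d` (finite: at most one besides `d`, by `GP.triple`).  Then `D` is closed under taking
partners.  Fix `δ`.  `K l b` = the points `sd b (l.pt t)` with `Rel` and the `δ` condition, `K0 l b`
= the same without the `δ` condition.  Both are compact (continuous images of closed bounded sets of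
parameters; `Rel` is closed).  A point of `K l b` is not in `D` (otherwise its partner is too and
both `dcap` vanish), so its partner is different from it and `t ∉ Tb l`.  `K l b` and `K0 l' b'` are
disjoint for `(l, b) ≠ (l', b')`: a common point `x` has partners `x1 ≠ x` and `x2`; `x2 = x` puts
`x` in `D0`; otherwise `x1 = x2` by `GP.triple`; for `b ≠ b'` the levels `ell` agree, so `Γ x = Γ x1`
(`pj_add_ell`), impossible; for `b = b'` the pair lies on both lines, so `t ∈ Tb l`.  Disjoint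
compact sets are at positive distance; on `K l b` the continuous function `dd (x i)` is positive when
`sd b l.2 i ≠ 0`, and constant equal to `dd (sd b l.1 i)` otherwise (if that is zero, use `ρ < 1 / 2`
to identify the integer).  Finite minima of positive numbers, e.g. with `eventually_all_finset` along
`𝓝[>] 0`. -/

open Set Metric Filter Topology MeasureTheory Function BEv
open scoped ENNReal NNReal

noncomputable section
namespace BEe

variable {m : ℕ}

theorem lines2_pos {X : Type} [TopologicalSpace X] {K : Set X} (hK : IsCompact K) {f : X → ℝ}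
    (hf : Continuous f) (h : ∀ x ∈ K, 0 < f x) : ∀ᶠ ρ in 𝓝[>] (0 : ℝ), ∀ x ∈ K, ρ < f x := by
  obtain ⟨a, a0, ha⟩ := hK.exists_forall_le' hf.continuousOn h
  filter_upwards [mem_nhdsWithin_of_mem_nhds (Iio_mem_nhds a0)] with ρ hρ x hx
  exact lt_of_lt_of_le hρ (ha x hx)

theorem lines2_int (a : ℝ) : ∀ᶠ ρ in 𝓝[>] (0 : ℝ), ∀ k : ℤ, |a - k| ≤ ρ → a = k := by
  rcases (dd_nonneg a).eq_or_lt with h | h
  · obtain ⟨j, rfl⟩ := dd_eq_zero_iff.1 h.symm
    filter_upwards [mem_nhdsWithin_of_mem_nhds (Iio_mem_nhds one_pos)] with ρ hρ k hk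
    have h1 : |j - k| < 1 := by exact_mod_cast lt_of_le_of_lt hk hρ
    rw [sub_eq_zero.1 (Int.abs_lt_one_iff.1 h1)]
  · filter_upwards [mem_nhdsWithin_of_mem_nhds (Iio_mem_nhds h)] with ρ hρ k hk
    exact absurd ((dd_le a k).trans hk) (not_le.2 hρ)

theorem lines2_fib {v : V m} {Γ : V m → V m} (hGP : GP v Γ) (c : V m) :
    {x | mu x = 0 ∧ pj v (Γ x) = c}.Finite := by
  by_contra h
  obtain ⟨x, h1⟩ := Set.Infinite.nonempty h
  obtain ⟨y, h2, h3⟩ := Set.Infinite.exists_notMem_finite h (finite_singleton x)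
  obtain ⟨z, h4, h5⟩ := Set.Infinite.exists_notMem_finite h ((finite_singleton x).insert y)
  rcases hGP.triple x y z h1.1 h2.1 h4.1 (h1.2.trans h2.2.symm) (h1.2.trans h4.2.symm) with
    e | e | e
  · exact h3 e.symm
  · exact h5 (Or.inr e.symm)
  · exact h5 (Or.inl e.symm)

theorem lines2_cont (l : Ln m) : Continuous l.pt :=
  continuous_const.add (continuous_id.smul continuous_const)

theorem lines2_cont' (b : Bool) (l : Ln m) : Continuous fun t => sd b (l.pt t) := by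
  simp only [sd_pt]
  fun_prop

theorem lines2_cpt {v : V m} {Γ : V m → V m} (hΓ : LH Γ) {N : Set (V m)} (hN : IsCompact N)
    {l : Ln m} (hl : l.2.1 ≠ 0) : IsCompact {t | Rel v Γ N (l.pt t)} := by
  have c1 := continuous_fst.comp (lines2_cont l)
  have c2 := continuous_snd.comp (lines2_cont l)
  have c3 := hΓ.tp.continuous
  obtain ⟨R, hR⟩ := hN.isBounded.exists_norm_le
  refine Metric.isCompact_of_isClosed_isBounded
    ((hN.isClosed.preimage c1).inter ((hN.isClosed.preimage c2).inter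
      ((isClosed_eq (tp_mu.continuous.comp c1) continuous_const).inter
        ((isClosed_eq (tp_mu.continuous.comp c2) continuous_const).inter
          ((isClosed_eq ((tp_pj v).continuous.comp (c3.comp c1))
            ((tp_pj v).continuous.comp (c3.comp c2))).inter
              (isClosed_le ((tp_ell v).continuous.comp (c3.comp c1))
                ((tp_ell v).continuous.comp (c3.comp c2))))))))
    (isBounded_iff_forall_norm_le.2 ⟨(R + ‖l.1.1‖) / ‖l.2.1‖, fun t ht => ?_⟩)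
  have h1 : ‖l.1.1 + t • l.2.1‖ ≤ R := hR _ ht.1
  have h2 := norm_sub_le (l.1.1 + t • l.2.1) l.1.1
  rw [add_sub_cancel_left, norm_smul] at h2
  rw [le_div_iff₀ (norm_pos_iff.2 hl)]
  linarith

theorem lines2_fin (a c R : ℝ) (hc : c ≠ 0) :
    {t : ℝ | |a + t * c| ≤ R ∧ dd (a + t * c) = 0}.Finite := by
  refine ((finite_Icc (-⌈R⌉) ⌈R⌉).image fun k : ℤ => (k - a) / c).subset fun t ht => ?_
  obtain ⟨k, hk⟩ := dd_eq_zero_iff.1 ht.2
  have h1 : |k| ≤ ⌈R⌉ := by exact_mod_cast (hk ▸ ht.1).trans (Int.le_ceil R)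
  refine ⟨k, abs_le.1 h1, ?_⟩
  rw [div_eq_iff hc, ← hk, add_sub_cancel_left]

theorem lines2_eq {v : V m} {Γ : V m → V m} (hΓ : LH Γ) (hGP : GP v Γ) {N : Set (V m)}
    {p q : V m × V m} (hp : Rel v Γ N p) (hq : Rel v Γ N q) (p0 : p.1 ≠ p.2) (q0 : q.1 ≠ q.2)
    {b b' : Bool} (e : sd b p = sd b' q) : p = q ∧ b = b' := by
  have key : ∀ {p q : V m × V m}, Rel v Γ N p → Rel v Γ N q → p.1 ≠ p.2 → q.1 ≠ q.2 →
      p.1 ≠ q.2 := by
    intro p q ⟨_, _, p1, p2, p3, p4⟩ ⟨_, _, q1, _, q3, q4⟩ p0 q0 e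
    rcases hGP.triple p.1 p.2 q.1 p1 p2 q1 p3 (by rw [e, q3]) with h | h | h
    · exact p0 h
    · exact q0 (h.symm.trans e)
    · rw [← h, ← e] at q4
      refine p0 (hΓ.inj ?_)
      rw [← pj_add_ell v (Γ p.1), p3, le_antisymm p4 q4, pj_add_ell]
  cases b <;> cases b'
  · have e' : p.2 = q.2 := e
    rcases hGP.triple p.2 p.1 q.1 hp.2.2.2.1 hp.2.2.1 hq.2.2.1 hp.2.2.2.2.1.symm
      (by rw [e', hq.2.2.2.2.1]) with h | h | h
    · exact absurd h.symm p0
    · exact absurd (h.symm.trans e') q0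
    · exact ⟨Prod.ext h e', rfl⟩
  · exact absurd (show q.1 = p.2 from e.symm) (key hq hp q0 p0)
  · exact absurd (show p.1 = q.2 from e) (key hp hq p0 q0)
  · have e' : p.1 = q.1 := e
    rcases hGP.triple p.1 p.2 q.2 hp.2.2.1 hp.2.2.2.1 hq.2.2.2.1 hp.2.2.2.2.1
      (by rw [e', hq.2.2.2.2.1]) with h | h | h
    · exact absurd h p0
    · exact absurd (e'.symm.trans h) q0
    · exact ⟨Prod.ext e' h, rfl⟩

theorem lines2_sd {v : V m} {Γ : V m → V m} {N : Set (V m)} {p : V m × V m} (hp : Rel v Γ N p)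
    (b : Bool) : sd b p ∈ N ∧ pj v (Γ (sd b p)) = pj v (Γ p.1) := by
  cases b
  · exact ⟨hp.2.1, hp.2.2.2.2.1.symm⟩
  · exact ⟨hp.1, rfl⟩

theorem comb_geom {v : V m} {Γ : V m → V m} (hΓ : LH Γ) (hGP : GP v Γ) {N : Set (V m)}
    (hN : IsCompact N) : ∃ (S : Finset (Ln m)) (D : Finset (V m)),
      (∀ l ∈ S, ∀ b, sd b l.2 ≠ 0) ∧
      (∀ p, Rel v Γ N p → p.1 ≠ p.2 → ∃ l ∈ S, ∃ t, l.pt t = p) ∧
      ∀ δ : ℝ, 0 < δ → ∃ ρ : ℝ, 0 < ρ ∧ ∀ l ∈ S, ∀ t, Rel v Γ N (l.pt t) →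
        (δ ≤ dcap D 1 (l.pt t).1 ∨ δ ≤ dcap D 1 (l.pt t).2) → ∀ b : Bool,
          (∀ l' ∈ S, ∀ t', Rel v Γ N (l'.pt t') → ∀ b',
            ‖sd b (l.pt t) - sd b' (l'.pt t')‖ ≤ ρ → l = l' ∧ b = b') ∧
          ∀ i (k : ℤ), |sd b (l.pt t) i - k| ≤ ρ → sd b l.2 i = 0 ∧ sd b l.1 i = k := by
  obtain ⟨R, hR⟩ := hN.isBounded.exists_norm_le
  obtain ⟨S, s1, s2, s3⟩ := hGP.norm R
  obtain ⟨Tb, hTb⟩ : ∃ Tb : Ln m → Set ℝ, ∀ l, Tb l = {t | (l.pt t).1 = (l.pt t).2} ∪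
      ((⋃ l' ∈ S, ⋃ _ : l ≠ l', {t | ∃ t', l.pt t = l'.pt t'}) ∪
        ⋃ b, ⋃ i, ⋃ _ : sd b l.2 i ≠ 0, {t | |sd b l.1 i + t * sd b l.2 i| ≤ R ∧
          dd (sd b l.1 i + t * sd b l.2 i) = 0}) := ⟨_, fun _ => rfl⟩
  have f1 : ∀ l ∈ S, (Tb l).Finite := fun l hl => by
    rw [hTb]
    exact (s1 l hl).2.2.union ((S.finite_toSet.biUnion fun l' hl' => finite_iUnion (s2 l hl l' hl')).union
      (finite_iUnion fun b => finite_iUnion fun i => finite_iUnion fun h => lines2_fin _ _ _ h))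
  have f2 : (⋃ l ∈ S, ⋃ t ∈ Tb l, {x | mu x = 0 ∧ pj v (Γ x) = pj v (Γ (l.pt t).1)}).Finite :=
    S.finite_toSet.biUnion fun l hl => (f1 l hl).biUnion fun t _ => lines2_fib hGP _
  refine ⟨S, f2.toFinset, fun l hl b => ?_, fun p hp p0 => s3 p.1 p.2 hp.2.2.1 hp.2.2.2.1
    (hR _ hp.1) (hR _ hp.2.1) p0 hp.2.2.2.2.1, fun δ hδ => ?_⟩
  · cases b
    · exact (s1 l hl).2.1
    · exact (s1 l hl).1
  generalize hD : f2.toFinset = D
  have d1 : ∀ p, Rel v Γ N p → (δ ≤ dcap D 1 p.1 ∨ δ ≤ dcap D 1 p.2) → ∀ l ∈ S, ∀ t,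
      pj v (Γ p.1) = pj v (Γ (l.pt t).1) → t ∉ Tb l := by
    intro p hp h l hl t e ht
    have k : ∀ x, mu x = 0 → pj v (Γ x) = pj v (Γ (l.pt t).1) → ¬ δ ≤ dcap D 1 x := by
      intro x x1 x2
      have := dcap_le 1 x (show x ∈ D from hD ▸ f2.mem_toFinset.2
        (mem_iUnion₂.2 ⟨l, hl, mem_iUnion₂.2 ⟨t, ht, x1, x2⟩⟩))
      rw [sub_self, norm_zero] at this
      linarith
    exact h.elim (k _ hp.2.2.1 e) (k _ hp.2.2.2.1 (hp.2.2.2.2.1.symm.trans e))
  have c1 : ∀ l ∈ S, IsCompact {t | Rel v Γ N (l.pt t)} := fun l hl => lines2_cpt hΓ hN (s1 l hl).1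
  have c2 : ∀ l ∈ S, IsCompact ({t | Rel v Γ N (l.pt t)} ∩
      {t | δ ≤ dcap D 1 (l.pt t).1 ∨ δ ≤ dcap D 1 (l.pt t).2}) := fun l hl =>
    (c1 l hl).inter_right ((isClosed_le continuous_const ((TP.dcap D 1).continuous.comp
      (continuous_fst.comp (lines2_cont l)))).union (isClosed_le continuous_const
        ((TP.dcap D 1).continuous.comp (continuous_snd.comp (lines2_cont l)))))
  have main : ∀ᶠ ρ in 𝓝[>] (0 : ℝ), ∀ l ∈ S, ∀ b : Bool,
      (∀ l' ∈ S, ∀ b', ∀ t, Rel v Γ N (l.pt t) →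
        (δ ≤ dcap D 1 (l.pt t).1 ∨ δ ≤ dcap D 1 (l.pt t).2) → ∀ t', Rel v Γ N (l'.pt t') →
          ‖sd b (l.pt t) - sd b' (l'.pt t')‖ ≤ ρ → l = l' ∧ b = b') ∧
      ∀ i t, Rel v Γ N (l.pt t) → (δ ≤ dcap D 1 (l.pt t).1 ∨ δ ≤ dcap D 1 (l.pt t).2) →
        ∀ k : ℤ, |sd b (l.pt t) i - k| ≤ ρ → sd b l.2 i = 0 ∧ sd b l.1 i = k := by
    refine (eventually_all_finset S).2 fun l hl => eventually_all.2 fun b =>
      ((eventually_all_finset S).2 fun l' hl' => eventually_all.2 fun b' => ?_).and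
        (eventually_all.2 fun i => ?_)
    · by_cases h : l = l' ∧ b = b'
      · exact .of_forall fun _ _ _ _ _ _ _ => h
      refine (lines2_pos ((c2 l hl).prod (c1 l' hl'))
        (f := fun p => ‖sd b (l.pt p.1) - sd b' (l'.pt p.2)‖)
        (((lines2_cont' b l).comp continuous_fst).sub
          ((lines2_cont' b' l').comp continuous_snd)).norm fun p hp =>
            norm_pos_iff.2 (sub_ne_zero.2 fun e => h ?_)).mono
        fun ρ hρ t h1 h2 t' h3 h4 => absurd h4 (not_le.2 (hρ (t, t') ⟨⟨h1, h2⟩, h3⟩))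
      have k1 := d1 _ hp.1.1 hp.1.2 l hl p.1 rfl
      have k2 := d1 _ hp.1.1 hp.1.2 l' hl' p.2
        (by rw [← (lines2_sd hp.1.1 b).2, e, (lines2_sd hp.2 b').2])
      rw [hTb] at k1 k2
      obtain ⟨k3, k4⟩ := lines2_eq hΓ hGP hp.1.1 hp.2 (fun k => k1 (Or.inl k))
        (fun k => k2 (Or.inl k)) e
      exact ⟨by_contra fun k => k1 (Or.inr (Or.inl
        (mem_iUnion₂.2 ⟨l', hl', mem_iUnion.2 ⟨k, p.2, k3⟩⟩))), k4⟩
    · by_cases h : sd b l.2 i = 0
      · refine (lines2_int (sd b l.1 i)).mono fun ρ hρ t _ _ k hk => ⟨h, hρ k ?_⟩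
        rwa [sd_pt, Pi.add_apply, Pi.smul_apply, h, smul_zero, add_zero] at hk
      refine (lines2_pos (c2 l hl) (f := fun t => dd (sd b (l.pt t) i))
        (tp_dd.continuous.comp ((continuous_apply i).comp (lines2_cont' b l)))
        fun t ht => (dd_nonneg _).lt_of_ne fun e => ?_).mono
          fun ρ hρ t h1 h2 k hk => absurd ((dd_le _ k).trans hk) (not_le.2 (hρ t ⟨h1, h2⟩))
      have k1 := d1 _ ht.1 ht.2 l hl t rfl
      have k2 := (norm_le_pi_norm _ i).trans (hR _ (lines2_sd ht.1 b).1)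
      rw [hTb] at k1
      rw [sd_pt] at e k2
      exact k1 (Or.inr (Or.inr (mem_iUnion.2 ⟨b, mem_iUnion₂.2 ⟨i, h, k2, e.symm⟩⟩)))
  obtain ⟨ρ, h1, h2⟩ := (main.and self_mem_nhdsWithin).exists
  exact ⟨ρ, h2, fun l hl t k1 k2 b => ⟨fun l' hl' t' k3 b' => (h1 l hl b).1 l' hl' b' t k1 k2 t' k3,
    fun i => (h1 l hl b).2 i t k1 k2⟩⟩

end BEe
end
end

-- merged part: Pool.Agent.Work.MP_f0515e_an.Ev.Comb2
section
/-! The comb: a level function which agrees at double points and is cheap after the teeth.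

Plan.  Let `q = m + 1`.  Take `M ≥ 0` with `|c| ≤ M` on `N`, `Lc` from `hc.exists_bound`, `R` with
`N ⊆ closedBall 0 R`, `S`, `D` from `comb_geom`, `C` from `pfw_le`, and a real `e0 > 0` with
`ofReal e0 + ofReal e0 ≤ ε`.
Spikes: `A1 = A * (2 + Lc + M)`; choose `0 < ρ ≤ 1 / 4` and `Ns ≥ 1` with
`A1 ^ q * D.card * C * (ρ ^ q + 1 / Ns ^ m) ≤ e0`.  Put
`cs z = clamp (c z) (M * Lam ρ Ns (dcap D 1 z))`: `TP`, `|cs| ≤ M`, `cs z = 0` if
`dcap D 1 z ≤ ρ / 2 ^ Ns =: δ` (`Lam_eq_zero`), `cs z = clamp (c z) M` if `ρ ≤ dcap D 1 z`, and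
`LL cs w (Lc + M * lam ρ Ns (dcap D 1 w))` (as `BEv.P2.unitd_ll_ft`).
Choose `θ l b` by `exists_swap` (for `l ∈ S`; `id` otherwise), `Ls` a Lipschitz constant of `cs`
and `L` a common Lipschitz constant of the finitely many `z ↦ cs (θ l b z) - cs z`.
`A2 = 32 + 32 * Ls + 64 * L + 4 * M`.  Apply `comb_teeth` with `Any l t = Rel v Γ N (l.pt t)`,
`Sel l t = Any l t ∧ (δ ≤ dcap D 1 (l.pt t).1 ∨ δ ≤ dcap D 1 (l.pt t).2)`, the `ρ` of `comb_geom`
for `δ`, and `e` with `(A * (1 + A2)) ^ q * C * 2 * e ≤ e0`.  Index type: the subtype of `J`;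
`p i = ce η i`, `n i = ⌈1 / h i⌉₊` (so `h i * n i ≤ 2`, `1 / n i ^ m ≤ h i ^ m`, `h i ^ q ≤ h i ^ m`),
`ft = lev η M J θ cs`,
`Bad K x = ofReal A1 ^ q * ∑ a ∈ D, PFw K a ρ Ns x + ofReal (A * (1 + A2)) ^ q * ∑ i, PFw K (p i) (h i) (n i) x`.
Matching: for `x ≠ x'` order the pair by `ell v (Γ ·)` to get `Rel`, take the line and apply
`comb_match` (if `Sel` fails both `dcap` are below `δ`, so both levels vanish).  `mu_Es`.
Dichotomy at `w`.  (a) `‖w - p i‖ ≤ h i` for some `i`: by strict separation, for `y` near `w` and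
`j ≠ i` one has `h j < ‖y - p j‖` and, by continuity of `Es` and `‖Es w - p i‖ ≤ h i`
(`Es_eq_tooth`, `norm_tooth`, `rho_le`), also `h j < ‖Es y - p j‖`; so near `w`
`Es y = p i + tooth (y - p i)` and `ft (Es y) = cs (Es y) + cut ..` (only the term `i`; `cut_far`);
`ll_tooth`, `ll_cut` give `b = A2 * (1 + pb (h i) (n i) ‖w - p i‖)`, and
`A * (1 + b) ≤ A * (1 + A2) * (1 + pb)`.  (b) otherwise near `w` `Es = id` and `ft = cs`; if
`ρ < dcap D 1 w` the first alternative holds; else `dcap D 1 w = ‖w - a‖` for some `a ∈ D`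
(`exists_of_dcap_lt`), `b = 1 + Lc + M * pb ρ Ns ‖w - a‖` (`lam_le_pb`) and
`A * (1 + b) ≤ A1 * (1 + pb)`. -/

open Set Metric Filter Topology MeasureTheory Function BEv
open scoped ENNReal NNReal

noncomputable section
namespace BEe

variable {m : ℕ}

theorem comb2_ceil {h : ℝ} (h0 : 0 < h) (h1 : h ≤ 1) (m : ℕ) :
    1 ≤ ⌈1 / h⌉₊ ∧ h * (⌈1 / h⌉₊ : ℕ) ≤ 8 ∧
      h ^ (m + 1) + 1 / ((⌈1 / h⌉₊ : ℕ) : ℝ) ^ m ≤ 2 * h ^ m := by
  have a1 : 0 < 1 / h := by positivity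
  have a2 := Nat.le_ceil (1 / h)
  have a3 := Nat.ceil_lt_add_one a1.le
  refine ⟨Nat.ceil_pos.2 a1, ?_, ?_⟩
  · have a4 := mul_le_mul_of_nonneg_left a3.le h0.le
    rw [mul_add, mul_one_div_cancel h0.ne'] at a4
    linarith only [h1, a4]
  · have a4 : 1 / ((⌈1 / h⌉₊ : ℕ) : ℝ) ≤ h := (one_div_le h0 (a1.trans_le a2)).1 a2
    have a5 : h ^ (m + 1) ≤ h ^ m := pow_le_pow_of_le_one h0.le h1 (Nat.le_succ m)
    have a6 := pow_le_pow_left₀ (by positivity) a4 m
    rw [one_div_pow] at a6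
    linarith only [a5, a6]

theorem comb2_wt {K N : ℕ} {a w x : V m} {ρ B y : ℝ} (hK : dl K < be x) (hw : r0 K x = w)
    (ha : ‖w - a‖ ≤ ρ) (hB : 0 ≤ B) (hy : y ≤ B * (1 + pb ρ N ‖w - a‖)) :
    ENNReal.ofReal y ^ (m + 1) * wt x ≤ ENNReal.ofReal B ^ (m + 1) * PFw K a ρ N x := by
  subst hw
  rw [PFw, indicator_of_mem (show x ∈ {x : V m | dl K < be x ∧ ‖r0 K x - a‖ ≤ ρ} from ⟨hK, ha⟩),
    ← mul_assoc, ← mul_pow, ← ENNReal.ofReal_mul hB]
  gcongr

theorem comb2_int {κ : Type} (s : Finset κ) (K : ℕ) (a : κ → V m) (ρ g : κ → ℝ) (N : κ → ℕ)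
    {C B e : ℝ} (hC : 0 ≤ C) (hB : 0 ≤ B) (hg : ∀ i ∈ s, 0 ≤ g i)
    (hP : ∀ i ∈ s, ∫⁻ x, PFw K (a i) (ρ i) (N i) x ≤ ENNReal.ofReal (C * g i))
    (he : B ^ (m + 1) * C * ∑ i ∈ s, g i ≤ e) :
    ∫⁻ x, ENNReal.ofReal B ^ (m + 1) * ∑ i ∈ s, PFw K (a i) (ρ i) (N i) x ≤ ENNReal.ofReal e := by
  rw [lintegral_const_mul _ (Finset.measurable_sum _ fun i _ => measurable_PFw _ _ _ _),
    lintegral_finsetSum _ fun i _ => measurable_PFw _ _ _ _]
  refine le_trans (mul_le_mul_right (Finset.sum_le_sum hP) _) ?_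
  rw [← ENNReal.ofReal_sum_of_nonneg fun i hi => mul_nonneg hC (hg i hi), ← ENNReal.ofReal_pow hB,
    ← ENNReal.ofReal_mul (by positivity), ← Finset.mul_sum, ← mul_assoc]
  exact ENNReal.ofReal_le_ofReal he

theorem comb2_cs {c : V m → ℝ} (hc : TP c) (D : Finset (V m)) {Lc M ρ : ℝ} {N : ℕ} (hM : 0 ≤ M)
    (hL0 : 0 ≤ Lc) (hL : ∀ x y, ‖c x - c y‖ ≤ Lc * ‖x - y‖) (hρ : 0 < ρ) (hN : 1 ≤ N) :
    ∃ cs : V m → ℝ, TP cs ∧ (∀ z, |cs z| ≤ M) ∧ (∀ z, dcap D 1 z ≤ ρ / 2 ^ N → cs z = 0) ∧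
      (∀ z, ρ ≤ dcap D 1 z → |c z| ≤ M → cs z = c z) ∧
      ∀ w, LL cs w (Lc + M * pb ρ N (dcap D 1 w)) := by
  refine ⟨fun z => clamp (c z) (M * Lam ρ N (dcap D 1 z)),
    hc.clamp (((tp_Lam ρ N).comp (TP.dcap D 1)).const_mul M), fun z => ?_, fun z hz => ?_,
    fun z hz hz' => ?_, fun w => ?_⟩
  · exact (abs_clamp_le (mul_nonneg hM (Lam_nonneg _ _ _))).trans
      (mul_le_of_le_one_right hM (Lam_le_one _ _ _))
  · simp only [Lam_eq_zero hρ hz, mul_zero, clamp_zero]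
  · simp only [Lam_eq_one hρ hN hz, mul_one, clamp_eq_self hz']
  · have h1 : LL (dcap D 1) w 1 := LL.of_forall (fun y z => by
      rw [one_mul]
      exact abs_dcap_sub_le D 1 y z) w
    have h2 := lam_nonneg hρ N (dcap D 1 w)
    have h3 := ((ll_Lam hρ hN (dcap D 1 w)).comp h1 h2).const_mul M
    rw [abs_of_nonneg hM, mul_one] at h3
    have h4 := mul_nonneg hM (pb_nonneg hρ N (dcap D 1 w))
    have h5 := mul_le_mul_of_nonneg_left (lam_le_pb hρ N (dcap D 1 w)) hM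
    exact ((LL.of_forall hL w).mono (by linarith)).clamp (h3.mono (by linarith))

section Local
variable {η M Ls L : ℝ} {J : Finset (Ln m × ℤ)} {h : Ln m × ℤ → ℝ} {n : Ln m × ℤ → ℕ}
  {θ : Ln m → Bool → V m → V m} {cs : V m → ℝ}

theorem comb2_far (hcs : ∀ z, |cs z| ≤ M) {i : Ln m × ℤ} (h0 : 0 < h i)
    (h1 : 3 / 5 * kap η i ≤ h i) (h2 : h i ≤ 4 / 5 * kap η i) {z : V m}
    (hz : h i < ‖z - ce η i‖) :
    cut (par i.2) M (kap η i) (cs (θ i.1 (par i.2) z) - cs z) ‖z - ce η i‖ = 0 :=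
  cut_far _ (by linarith only [h0, h2]) ((abs_sub _ _).trans
    (by linarith only [hcs, hcs z, hcs (θ i.1 (par i.2) z)])) (h1.trans hz.le)

theorem comb2_out (hcs : ∀ z, |cs z| ≤ M)
    (hJ : ∀ i ∈ J, 0 < h i ∧ 3 / 5 * kap η i ≤ h i ∧ h i ≤ 4 / 5 * kap η i ∧ 1 ≤ n i) {w : V m}
    (hw : ∀ i ∈ J, h i < ‖w - ce η i‖) :
    ∀ᶠ z in 𝓝 w, Es (fun i : J => ce η i.1) (fun i => h i) (fun i => n i) z = z ∧
      lev η M J θ cs z = cs z := by
  have h1 : ∀ᶠ z in 𝓝 w, ∀ i ∈ J, h i < ‖z - ce η i‖ :=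
    (eventually_all_finset J).2 fun i hi =>
      (continuous_const.continuousAt (x := w)).eventually_lt (by fun_prop) (hw i hi)
  filter_upwards [h1] with z hz
  refine ⟨Es_eq_self (ι := J) (fun i => (hJ i i.2).1) (fun i => (hJ i i.2).2.2.2)
    fun i => (hz i i.2).le, ?_⟩
  rw [lev, Finset.sum_eq_zero fun i hi =>
    comb2_far hcs (hJ i hi).1 (hJ i hi).2.1 (hJ i hi).2.2.1 (hz i hi), add_zero]

theorem comb2_in (hcs : ∀ z, |cs z| ≤ M) (hLs : 0 ≤ Ls) (hL : 0 ≤ L)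
    (ls : ∀ x y, ‖cs x - cs y‖ ≤ Ls * ‖x - y‖)
    (hJ : ∀ i ∈ J, 0 < h i ∧ 3 / 5 * kap η i ≤ h i ∧ h i ≤ 4 / 5 * kap η i ∧ 1 ≤ n i)
    (hs : ∀ i ∈ J, ∀ i' ∈ J, i ≠ i' → h i + h i' < ‖ce η i - ce η i'‖) {i : Ln m × ℤ} (hi : i ∈ J)
    (h1 : h i ≤ 1) (hn : h i * n i ≤ 8)
    (ll : ∀ x y, |cs (θ i.1 (par i.2) x) - cs x - (cs (θ i.1 (par i.2) y) - cs y)| ≤ L * ‖x - y‖)
    {w : V m} (hw : ‖w - ce η i‖ ≤ h i) :
    LL (Es (fun i : J => ce η i.1) (fun i => h i) (fun i => n i)) w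
        ((32 + 32 * Ls + 64 * L + 4 * M) * (1 + pb (h i) (n i) ‖w - ce η i‖)) ∧
      LL (fun z => lev η M J θ cs (Es (fun i : J => ce η i.1) (fun i => h i) (fun i => n i) z)) w
        ((32 + 32 * Ls + 64 * L + 4 * M) * (1 + pb (h i) (n i) ‖w - ce η i‖)) := by
  have hM : 0 ≤ M := (abs_nonneg _).trans (hcs 0)
  obtain ⟨h0, k1, k2, k3⟩ := hJ i hi
  have hE := (tp_Es (fun i : J => ce η i.1) (fun i => h i) (fun i => n i)).continuous
  have hs' : ∀ i j : J, i ≠ j → h i + h j < ‖ce η i.1 - ce η j.1‖ := fun i j hij =>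
    hs i i.2 j j.2 fun e => hij (Subtype.ext e)
  have e1 : ∀ y : V m, (∀ j : J, j ≠ ⟨i, hi⟩ → h j < ‖y - ce η j.1‖) →
      Es (fun i : J => ce η i.1) (fun i => h i) (fun i => n i) y =
        ce η i + tooth (h i) (n i) (y - ce η i) := fun y hy =>
    Es_eq_tooth (ι := J) (i := ⟨i, hi⟩) (fun i => (hJ i i.2).1) (fun i => (hJ i i.2).2.2.2)
      fun j hj => (hy j hj).le
  have f1 := tooth3_far (c := fun i : J => ce η i.1) (h := fun i => h i) hs' (i := ⟨i, hi⟩) hw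
  have f2 := tooth3_far (c := fun i : J => ce η i.1) (h := fun i => h i) hs' (i := ⟨i, hi⟩)
    (y := Es (fun i : J => ce η i.1) (fun i => h i) (fun i => n i) w) (by
      rw [e1 w f1, add_sub_cancel_left, norm_tooth h0 k3]
      exact rho_le h0 hw)
  generalize Es (fun i : J => ce η i.1) (fun i => h i) (fun i => n i) = E at hE e1 f2 ⊢
  have g1 : ∀ᶠ y in 𝓝 w, ∀ j : J, j ≠ ⟨i, hi⟩ → h j < ‖y - ce η j.1‖ :=
    eventually_all.2 fun j => eventually_imp_distrib_left.2 fun hj =>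
      (continuous_const.continuousAt (x := w)).eventually_lt (by fun_prop) (f1 j hj)
  have g2 : ∀ᶠ y in 𝓝 w, ∀ j : J, j ≠ ⟨i, hi⟩ → h j < ‖E y - ce η j.1‖ :=
    eventually_all.2 fun j => eventually_imp_distrib_left.2 fun hj =>
      (continuous_const.continuousAt (x := w)).eventually_lt (by fun_prop) (f2 j hj)
  have p0 := pb_nonneg h0 (n i) ‖w - ce η i‖
  have t0 : LL (fun y : V m => y - ce η i) w 1 := by
    simpa using (LL.id' w).sub (LL.const (ce η i) w)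
  have t1 : LL (fun y => ce η i + tooth (h i) (n i) (y - ce η i)) w
      (32 * (1 + pb (h i) (n i) ‖w - ce η i‖)) := by
    simpa using (LL.const (ce η i) w).add
      (LL.comp (f := fun y : V m => y - ce η i) (ll_tooth h0 h1 k3 hn (w - ce η i)) t0
        (by positivity))
  have t2 := (LL.comp (f := fun y => ce η i + tooth (h i) (n i) (y - ce η i))
    (LL.of_forall ls _) t1 hLs).add
    (ll_cut (par i.2) hM hL h0 h1 k3 hn k1 k2 (w := fun z => cs (θ i.1 (par i.2) z) - cs z) ll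
      (ce η i) w)
  refine ⟨(t1.congr (g1.mono e1)).mono ?_, (t2.congr ?_).mono ?_⟩
  · exact mul_le_mul_of_nonneg_right (by linarith only [hLs, hL, hM]) (by linarith only [p0])
  · filter_upwards [g1, g2] with y a1 a2
    rw [lev, Finset.sum_eq_single_of_mem i hi fun j hj hji =>
      comb2_far hcs (hJ j hj).1 (hJ j hj).2.1 (hJ j hj).2.2.1
        (a2 ⟨j, hj⟩ fun e => hji (congrArg Subtype.val e)), e1 y a1, add_sub_cancel_left]
  · linarith only [p0]

end Local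

theorem comb (hm : 2 ≤ m) {v : V m} {Γ : V m → V m} (hΓ : LH Γ) (hGP : GP v Γ) {N : Set (V m)}
    (hN : IsCompact N) {c : V m → ℝ} (hc : TP c) {A : ℝ} (hA : 0 ≤ A) {ε : ℝ≥0∞} (hε : ε ≠ 0) :
    ∃ (ι : Type) (_ : Fintype ι) (p : ι → V m) (h : ι → ℝ) (n : ι → ℕ) (ft : V m → ℝ)
      (Bad : ℕ → V m → ℝ≥0∞),
      (∀ i, Rq (h i) ∧ 0 < h i ∧ h i ≤ 1 / 8 ∧ 1 ≤ n i ∧ ∃ x ∈ N, ‖p i - x‖ ≤ 1 / 8) ∧
      (∀ i j, i ≠ j → h i + h j < ‖p i - p j‖) ∧ TP ft ∧
      (∀ x ∈ N, ∀ x' ∈ N, mu x = 0 → mu x' = 0 → pj v (Γ x) = pj v (Γ x') → ft x = ft x') ∧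
      (∀ w, mu w = 0 → mu (Es p h n w) = 0) ∧
      (∀ K, Measurable (Bad K)) ∧ (∀ K, ∫⁻ x, Bad K x ≤ ε) ∧
      ∀ w, (∀ᶠ z in 𝓝 w, Es p h n z = z ∧ (z ∈ N → ft z = c z)) ∨
        ∃ b : ℝ, 0 ≤ b ∧ LL (Es p h n) w b ∧ LL (fun z => ft (Es p h n z)) w b ∧
          ∀ K x, dl K < be x → r0 K x = w →
            ENNReal.ofReal (A * (1 + b)) ^ (m + 1) * wt x ≤ Bad K x := by
  obtain ⟨M, hM, hcM⟩ : ∃ M : ℝ, 0 ≤ M ∧ ∀ z ∈ N, |c z| ≤ M := by
    obtain ⟨M, hM⟩ := hN.exists_bound_of_continuousOn hc.continuous.continuousOn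
    exact ⟨|M|, abs_nonneg _, fun z hz => (hM z hz).trans (le_abs_self _)⟩
  obtain ⟨Lc, hLc, hL⟩ := hc.exists_bound
  obtain ⟨R, hR⟩ := hN.isBounded.exists_norm_le
  obtain ⟨S, D, hS, hcov, hgeo⟩ := comb_geom hΓ hGP hN
  obtain ⟨C, hC, hPF⟩ := pfw_le m
  obtain ⟨e0, he0, hε0⟩ : ∃ e0 : ℝ, 0 < e0 ∧ ENNReal.ofReal e0 + ENNReal.ofReal e0 ≤ ε := by
    obtain ⟨r, r0, r1, r2⟩ := ENNReal.lt_iff_exists_real_btwn.1 (pos_iff_ne_zero.2 hε)
    have r3 := half_pos (ENNReal.ofReal_pos.1 r1)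
    refine ⟨r / 2, r3, ?_⟩
    rw [← ENNReal.ofReal_add r3.le r3.le, add_halves]
    exact r2.le
  obtain ⟨A1, hA1⟩ : ∃ A1, A1 = A * (2 + Lc + M) := ⟨_, rfl⟩
  have a1 : 0 ≤ A1 := hA1 ▸ mul_nonneg hA (by linarith only [hM, hLc])
  obtain ⟨ρ, ρ0, -, -, ρ1, ρ2⟩ := Comb1b_eta (P := 1) (ρ := 1)
    (c := A1 ^ (m + 1) * C * D.card * 2) one_pos one_pos (by positivity) he0
  rw [mul_one] at ρ1
  obtain ⟨n1, -, n2⟩ := comb2_ceil ρ0 (by linarith only [ρ0, ρ1]) m
  generalize ⌈1 / ρ⌉₊ = Ns at n1 n2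
  obtain ⟨cs, tcs, c1, c2, c3, c4⟩ := comb2_cs hc D hM (by linarith only [hLc, ρ0, ρ1]) hL ρ0 n1
  have k0 : ∀ (l : Ln m) (b : Bool), ∃ θ : V m → V m, TP θ ∧
      (l ∈ S → ∀ t, θ (sd b (l.pt t)) = sd (!b) (l.pt t)) := fun l b => by
    by_cases hl : l ∈ S
    · obtain ⟨θ, h1, h2⟩ := exists_swap l b (hS l hl b)
      exact ⟨θ, h1, fun _ => h2⟩
    · exact ⟨_, TP.id', fun h => absurd h hl⟩
  choose θ tθ hθ using k0
  obtain ⟨Ls, hLs, ls⟩ := tcs.exists_bound
  obtain ⟨L, hL0, ll⟩ : ∃ L : ℝ, 0 ≤ L ∧ ∀ l ∈ S, ∀ b x y,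
      |cs (θ l b x) - cs x - (cs (θ l b y) - cs y)| ≤ L * ‖x - y‖ := by
    choose Lf h1 h2 using fun l b => ((tcs.comp (tθ l b)).sub tcs).exists_bound
    have h3 : ∀ l ∈ S, 0 ≤ Lf l true + Lf l false := fun l _ => by
      linarith only [ρ0, ρ1, h1, h1 l true, h1 l false]
    refine ⟨∑ l ∈ S, (Lf l true + Lf l false), Finset.sum_nonneg h3, fun l hl b x y =>
      (h2 l b x y).trans (mul_le_mul_of_nonneg_right
        (le_trans ?_ (Finset.single_le_sum h3 hl)) (norm_nonneg _))⟩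
    cases b <;> linarith only [ρ0, ρ1, h1, h1 l true, h1 l false]
  obtain ⟨A2, hA2⟩ : ∃ A2, A2 = 32 + 32 * Ls + 64 * L + 4 * M := ⟨_, rfl⟩
  have a2 : 0 ≤ A2 := by rw [hA2]; linarith only [hM, ρ0, ρ1, hLs, hL0]
  have a3 : 0 ≤ A * (1 + A2) := by positivity
  obtain ⟨ρ', ρ3, ρ4⟩ := hgeo (ρ / 2 ^ Ns) (by positivity)
  obtain ⟨e, e1, -, -, -, e2⟩ := Comb1b_eta (P := 1) (ρ := 1)
    (c := (A * (1 + A2)) ^ (m + 1) * C * 2) one_pos one_pos (by positivity) he0
  obtain ⟨η, J, h, η0, j1, j2, j3, j4, j5, j6⟩ := comb_teeth hm S hS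
    (Sel := fun l t => Rel v Γ N (l.pt t) ∧
      (ρ / 2 ^ Ns ≤ dcap D 1 (l.pt t).1 ∨ ρ / 2 ^ Ns ≤ dcap D 1 (l.pt t).2))
    (Any := fun l t => Rel v Γ N (l.pt t)) (fun _ _ h => h.1) (R := R)
    (fun l _ t ht => hR _ ht.1.1) ρ3 (fun l hl t ht => ρ4 l hl t ht.1 ht.2) e1
  have κ0 : ∀ i ∈ J, 0 < kap η i := fun i hi =>
    mul_pos η0 (norm_pos_iff.2 (hS _ (j1 i hi).1 _))
  have h0 : ∀ i ∈ J, 0 < h i ∧ h i ≤ 1 / 8 := fun i hi => by
    obtain ⟨-, -, b1, b2, b3, -⟩ := j1 i hi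
    constructor <;> linarith only [b1, κ0, hi, ρ0, ρ1, b2, b3, κ0 i hi]
  obtain ⟨n, hn⟩ : ∃ n : Ln m × ℤ → ℕ, ∀ i ∈ J, 1 ≤ n i ∧ h i * n i ≤ 8 ∧
      h i ^ (m + 1) + 1 / (n i : ℝ) ^ m ≤ 2 * h i ^ m :=
    ⟨fun i => ⌈1 / h i⌉₊, fun i hi => comb2_ceil (h0 i hi).1 (by linarith only [ρ0, ρ1, h0, hi, (h0 i hi).2]) m⟩
  have hJ : ∀ i ∈ J, 0 < h i ∧ 3 / 5 * kap η i ≤ h i ∧ h i ≤ 4 / 5 * kap η i ∧ 1 ≤ n i :=
    fun i hi => ⟨(h0 i hi).1, (j1 i hi).2.2.1, (j1 i hi).2.2.2.1, (hn i hi).1⟩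
  have hs : ∀ i j : J, i ≠ j → h i + h j < ‖ce η i.1 - ce η j.1‖ := fun i j hij =>
    j2 i i.2 j j.2 fun e => hij (Subtype.ext e)
  have mt : ∀ x ∈ N, ∀ x' ∈ N, mu x = 0 → mu x' = 0 → pj v (Γ x) = pj v (Γ x') →
      ell v (Γ x) ≤ ell v (Γ x') → lev η M J θ cs x = lev η M J θ cs x' := by
    intro x hx x' hx' b1 b2 b3 b4
    by_cases b5 : x = x'
    · rw [b5]
    have b6 : Rel v Γ N (x, x') := ⟨hx, hx', b1, b2, b3, b4⟩
    obtain ⟨l, hl, t, ht⟩ := hcov _ b6 b5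
    rw [← ht] at b6
    have b7 := comb_match (t := t) η0 c1 (hS l hl) (fun b => hθ l b hl)
      (fun i hi => ⟨κ0 i hi, (hJ i hi).2.1⟩) (j6 l hl t b6) (by
        by_cases b8 : ρ / 2 ^ Ns ≤ dcap D 1 (l.pt t).1 ∨ ρ / 2 ^ Ns ≤ dcap D 1 (l.pt t).2
        · exact Or.inl (j5 l hl t ⟨b6, b8⟩)
        · rw [not_or, not_le, not_le] at b8
          exact Or.inr ⟨c2 _ b8.1.le, c2 _ b8.2.le⟩)
    rwa [ht] at b7
  have m1 : ∀ K, Measurable fun x : V m =>
      ENNReal.ofReal A1 ^ (m + 1) * ∑ a ∈ D, PFw K a ρ Ns x := fun K =>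
    (Finset.measurable_sum _ fun i _ => measurable_PFw _ _ _ _).const_mul _
  refine ⟨J, inferInstance, fun i => ce η i.1, fun i => h i, fun i => n i, lev η M J θ cs,
    fun K x => ENNReal.ofReal A1 ^ (m + 1) * ∑ a ∈ D, PFw K a ρ Ns x +
      ENNReal.ofReal (A * (1 + A2)) ^ (m + 1) * ∑ i ∈ J, PFw K (ce η i) (h i) (n i) x,
    fun i => ?_, hs, ?_, fun x hx x' hx' b1 b2 b3 => ?_, fun w hw => ?_, fun K => ?_, fun K => ?_,
    fun w => ?_⟩
  · obtain ⟨-, b1, -, -, b2, t, b3, b4⟩ := j1 i i.2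
    exact ⟨b1, (h0 i i.2).1, (h0 i i.2).2, (hn i i.2).1, _, (lines2_sd b3.1 _).1, b4.trans b2⟩
  · exact tcs.add (TP.sum J fun i _ => tp_cut _ _ _ ((tcs.comp (tθ _ _)).sub tcs)
      (TP.id'.sub (TP.const _)).norm_pi)
  · rcases le_total (ell v (Γ x)) (ell v (Γ x')) with b4 | b4
    exacts [mt x hx x' hx' b1 b2 b3 b4, (mt x' hx' x hx b2 b1 b3.symm b4).symm]
  · exact mu_Es (ι := J) (fun i => (hJ i i.2).1) (fun i => (hn i i.2).1) hs (fun i => j3 i i.2) hw
  · exact (m1 K).add ((Finset.measurable_sum _ fun i _ => measurable_PFw _ _ _ _).const_mul _)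
  · rw [lintegral_add_left (m1 K)]
    refine le_trans (add_le_add ?_ ?_) hε0
    · refine comb2_int D K (fun a => a) (fun _ => ρ) (fun _ => 2 * ρ) (fun _ => Ns) hC a1
        (fun _ _ => by positivity) (fun a _ => (hPF K a ρ Ns ρ0 (by linarith only [ρ0, ρ1]) n1).trans
          (ENNReal.ofReal_le_ofReal (mul_le_mul_of_nonneg_left ?_ hC))) ?_
      · have b1 : ρ ^ m ≤ ρ := pow_le_of_le_one ρ0.le (by linarith only [ρ0, ρ1]) (by omega)
        linarith only [n2, b1]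
      · rw [Finset.sum_const, nsmul_eq_mul]
        linarith only [ρ2]
    · refine comb2_int J K (fun i => ce η i) h (fun i => 2 * h i ^ m) n hC a3
        (fun i hi => mul_nonneg zero_le_two (pow_nonneg (h0 i hi).1.le _)) (fun i hi =>
          (hPF K _ _ _ (h0 i hi).1 (by linarith only [ρ0, ρ1, h0, hi, (h0 i hi).2]) (hn i hi).1).trans
          (ENNReal.ofReal_le_ofReal (mul_le_mul_of_nonneg_left (hn i hi).2.2 hC))) ?_
      rw [← Finset.mul_sum, ← mul_assoc]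
      exact (mul_le_mul_of_nonneg_left j4 (by positivity)).trans e2
  by_cases hw : ∃ i ∈ J, ‖w - ce η i‖ ≤ h i
  · obtain ⟨i, hi, hw⟩ := hw
    obtain ⟨b1, b2⟩ := comb2_in c1 (by linarith only [ρ0, ρ1, hLs]) hL0 ls hJ j2 hi (by linarith only [ρ0, ρ1, h0, hi, (h0 i hi).2])
      (hn i hi).2.1 (ll _ (j1 i hi).1 _) hw
    rw [← hA2] at b1 b2
    have p0 := pb_nonneg (h0 i hi).1 (n i) ‖w - ce η i‖
    refine Or.inr ⟨_, by positivity, b1, b2, fun K x b3 b4 => le_trans ?_ le_add_self⟩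
    refine (comb2_wt (N := n i) b3 b4 hw a3 ?_).trans (mul_le_mul_right (Finset.single_le_sum
      (f := fun i => PFw K (ce η i) (h i) (n i) x) (fun _ _ => zero_le) hi) _)
    rw [mul_assoc]
    exact mul_le_mul_of_nonneg_left (by linarith only [p0]) hA
  have b1 := comb2_out (θ := θ) c1 hJ (w := w) fun i hi => not_le.1 fun k => hw ⟨i, hi, k⟩
  rcases lt_or_ge ρ (dcap D 1 w) with b2 | b2
  · refine Or.inl ?_
    filter_upwards [b1, (continuous_const.continuousAt (x := w)).eventually_lt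
      (TP.dcap D 1).continuous.continuousAt b2] with z b3 b4
    exact ⟨b3.1, fun hz => b3.2.trans (c3 z b4.le (hcM z hz))⟩
  · obtain ⟨a, ha, b3⟩ := exists_of_dcap_lt (b2.trans_lt (by linarith only [ρ0, ρ1] : ρ < 1))
    have b4 := c4 w
    rw [b3] at b2 b4
    have p0 := pb_nonneg ρ0 Ns ‖w - a‖
    have p1 := mul_nonneg hM p0
    refine Or.inr ⟨1 + Lc + M * pb ρ Ns ‖w - a‖, by linarith only [hLc, ρ0, ρ1, p1],
      ((LL.id' w).congr (b1.mono fun z hz => hz.1)).mono (by linarith only [hLc, ρ0, ρ1, p1]),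
      (b4.congr (b1.mono fun z hz => by simp only [hz.1, hz.2])).mono (by linarith only [ρ0, ρ1]),
      fun K x b5 b6 => le_trans ?_ le_self_add⟩
    refine (comb2_wt (N := Ns) b5 b6 b2 a1 ?_).trans (mul_le_mul_right (Finset.single_le_sum
      (f := fun a => PFw K a ρ Ns x) (fun _ _ => zero_le) ha) _)
    rw [hA1, mul_assoc]
    exact mul_le_mul_of_nonneg_left (by linarith only [hM, p0, hLc, mul_nonneg_of_nonpos_of_nonpos (Mathlib.Tactic.Linarith.sub_nonpos_of_le hLc) (Mathlib.Tactic.Linarith.sub_nonpos_of_le p0)]) hA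

end BEe
end
end

-- merged part: Pool.Agent.Work.MP_f0515e_an.Ev.Fine1
section
/-! The fine lemma at unit mesh.

Plan.  `N = {D = 0}` is compact, `u x = Φ (x, c x)`, `C = C0 * 9 ^ (m + 1)` with `C0` from
`lintegral_mul_wt_le`.  Let `LΦ ≥ 1` be a Lipschitz constant of `Φ` (`exists_bound`), apply `comb`
with `A = 2 * LΦ + 1` and `ε / 2`.  `φ` comes from `exists_ext` for `P`, `ft` and the distance
function `mu + D` on a ball containing `N`: `φ (P x) = ft x` for `x ∈ N`, `mu x = 0`.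
`F` = the finite set of the integer points `fun i => round (x i)`, `x ∈ N` (within `1 / 2` of `x`),
`η = 5 - dcap F 5`, `g j = gtl (tj j) (Kj m j) η` (`isW_gtl`, `rq_dcap`),
`Z = {x | ∃ a ∈ F, ‖x - a‖ ≤ 5}` (compact).  Choose `d j : ι → V m` with `p i + d j i` rational and
`‖d j‖ ≤ (1 / 2) ^ j` (`exists_rv_near`); for large `j` the balls around `p + d j` are still strictly
separated and `‖d j‖ ≤ 1 / 8`.  `q j = Es (p + d j) h n ∘ g j` (`lh_Es`, `rv_Es`, `IsW.comp`,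
`norm_Es_sub_le`, `norm_gtl_sub_le`; off `Z` both maps fix the point: `gtl_eq_self`, `Es_eq_self`).
Let `T (e, y) = Φ (Es (p + e) h n y, φ (P (Es (p + e) h n y)))`, a `TP` map on `(ι → V m) × V m`
(`tp_Es2`), so that the map to estimate is `W j x = T (d j, g j x)`.  Apply `contr` with `Y = Z`,
`Z j = univ`, `G j x = (9 * (1 + om u 2 x)) ^ (m + 1) * wt x + Bad (Kj m j) x`.  Domination and core
bound: `T` is Lipschitz, `LL.prod` of a constant and `ll_gtl_be`, `ll_gtl_core`.  Pointwise, for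
`x` with `0 < be x` satisfying `TP.ae_tangential` for `T` and `r y = (0, r0 K1 y)`, all `K1`:
if `3 < dcap F 5 x`, then for `y` near `x` the point `g j y` is away from `N` and from the teeth, so
`W j y = u (g j y)` (hypothesis on `D x ≠ 0`), use `ll_om`, `pow_le_om`.  Otherwise `g j = gta` near
`x`; take `K1` with `dl K1 < be x`; for `y` near `x`, `w = Es p h n (r0 K1 y)` is in the skeleton
(`mu_r0`), and `T (0, r0 K1 y) = Φ (w, ft w)` (if `D w = 0` by the extension property, otherwise both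
sides are `Φ (w, c w)`).  The tangential lemma with `ll_gta_sub_r0`, `tendsto_gta` and `d j → 0`
gives eventually `LL (W j) x (k + 1)` for every local bound `k` of `y ↦ T (0, r0 K1 y)` (see `htan`
in `CoC.lean` or `BEv.P2.pointwise`).  Dichotomy of `comb` at `r0 K1 x`: in the first case
`T (0, r0 K1 y) = u (r0 K1 y)` near `x`, `k = om * (2 / be x)`; in the second
`k = LΦ * b * (2 / be x)`, `2 + k ≤ A * (1 + b) / be x`, `pow_le_wt`, `r0_nested`, `dl_anti`.
Finally `lintegral_mul_wt_le` with `Z ∩ A` and `cthickening 7 N ∩ cthickening 1 A`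
(`om u 2 x ≤ om u 3 y` for `‖x - y‖ < 1`, `om_mono`; see `BEv.unitg_main`). -/

open Set Metric Filter Topology MeasureTheory Function BEv
open scoped ENNReal NNReal

noncomputable section
namespace BEe

variable {m : ℕ}

theorem fine1_net {N : Set (V m)} (hN : IsCompact N) : ∃ F : Finset (V m), (∀ a ∈ F, RV a) ∧
    (∀ a ∈ F, ∃ x ∈ N, ‖a - x‖ ≤ 1 / 2) ∧ ∀ x ∈ N, ∃ a ∈ F, ‖x - a‖ ≤ 1 / 2 := by
  classical
  choose r hr hr' using fun x : V m => exists_rv_near x (show (0 : ℝ) < 1 / 2 by norm_num)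
  obtain ⟨t, ht, hc⟩ := hN.elim_nhds_subcover (fun x => ball (r x) (1 / 2)) fun x _ =>
    isOpen_ball.mem_nhds (mem_ball_iff_norm'.2 (hr' x))
  refine ⟨t.image r, fun a ha => ?_, fun a ha => ?_, fun x hx => ?_⟩
  · obtain ⟨x, -, rfl⟩ := Finset.mem_image.1 ha
    exact hr x
  · obtain ⟨x, hx, rfl⟩ := Finset.mem_image.1 ha
    exact ⟨x, ht x hx, (hr' x).le⟩
  · obtain ⟨z, hz, k⟩ := mem_iUnion₂.1 (hc hx)
    exact ⟨r z, Finset.mem_image_of_mem r hz, (mem_ball_iff_norm.1 k).le⟩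

theorem fine1_far {ι : Type} [Fintype ι] {p e : ι → V m} {h : ι → ℝ} {n : ι → ℕ} {N : Set (V m)}
    (h1 : ∀ i, Rq (h i) ∧ 0 < h i ∧ h i ≤ 1 / 8 ∧ 1 ≤ n i ∧ ∃ x ∈ N, ‖p i - x‖ ≤ 1 / 8)
    (he : ‖e‖ ≤ 1 / 16) {F : Finset (V m)} (hF : ∀ x ∈ N, ∃ a ∈ F, ‖x - a‖ ≤ 1 / 2) {y : V m}
    (hy : ∀ a ∈ F, 2 ≤ ‖y - a‖) : Es (p + e) h n y = y ∧ y ∉ N := by
  refine ⟨Es_eq_self (fun i => (h1 i).2.1) (fun i => (h1 i).2.2.2.1) fun i => ?_, fun k => ?_⟩
  · obtain ⟨-, -, k1, -, x, hx, k2⟩ := h1 i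
    obtain ⟨a, ha, k3⟩ := hF x hx
    have k4 := norm_le_pi_norm e i
    have k5 : y - a = (y - (p + e) i) + e i + (p i - x) + (x - a) := by
      rw [Pi.add_apply]
      abel
    have k6 := hy a ha
    rw [k5] at k6
    linarith only [he, k1, k2, k3, k4, k6, norm_add₃_le (a := y - (p + e) i + e i) (b := p i - x) (c := x - a),
      norm_add_le (y - (p + e) i) (e i)]
  · obtain ⟨a, ha, k3⟩ := hF y k
    linarith only [k3, hy, ha, hy a ha]

theorem fine1_pt {ι : Type} [Fintype ι] {p : ι → V m} {h : ι → ℝ} {n : ι → ℕ} {ft c D φ : V m → ℝ}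
    {Bad : ℕ → V m → ℝ≥0∞} {Φ : V m × ℝ → V m} {P : V m → V m} {L : ℝ} (Q : CP m)
    {d : ℕ → ι → V m} (hu : TP fun x => Φ (x, c x)) (hL1 : 1 ≤ L)
    (hL : ∀ x y, ‖Φ x - Φ y‖ ≤ L * ‖x - y‖) (hD : ∀ x t, D x ≠ 0 → Φ (x, t) = Φ (x, c x))
    (hT : TP fun z : (ι → V m) × V m =>
      Φ (Es (p + z.1) h n z.2, φ (P (Es (p + z.1) h n z.2))))
    (hφ : ∀ x, D x = 0 → mu x = 0 → φ (P x) = ft x)
    (h1 : ∀ i, Rq (h i) ∧ 0 < h i ∧ h i ≤ 1 / 8 ∧ 1 ≤ n i ∧ ∃ x ∈ {x | D x = 0}, ‖p i - x‖ ≤ 1 / 8)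
    (hF : ∀ x ∈ {x | D x = 0}, ∃ a ∈ Q.FU, ‖x - a‖ ≤ 1 / 2) (hd : ∀ j, ‖d j‖ ≤ tj j)
    (h2 : ∀ w, mu w = 0 → mu (Es p h n w) = 0)
    (h3 : ∀ w, (∀ᶠ z in 𝓝 w, Es p h n z = z ∧ (z ∈ {x | D x = 0} → ft z = c z)) ∨
      ∃ b : ℝ, 0 ≤ b ∧ LL (Es p h n) w b ∧ LL (fun z => ft (Es p h n z)) w b ∧
        ∀ K x, dl K < be x → r0 K x = w →
          ENNReal.ofReal ((2 * L + 1) * (1 + b)) ^ (m + 1) * wt x ≤ Bad K x) :
    ∀ᵐ x, ∀ᶠ j in atTop, (1 + lip (fun y => Φ (Es (p + d j) h n (Q.gB j y),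
      φ (P (Es (p + d j) h n (Q.gB j y))))) x) ^ (m + 1) ≤
        (9 * (1 + om (fun x => Φ (x, c x)) 2 x)) ^ (m + 1) * wt x + Bad (Kj m j) x := by
  filter_upwards [ae_be_pos, ae_all_iff.2 fun K1 => TP.ae_tangential hT
    ((TP.const (0 : ι → V m)).prod (tp_r0 (m := m) K1))] with x hb hTa
  have hbh := be_le_half x
  have hw : 0 ≤ (om (fun x => Φ (x, c x)) 2 x).toReal := ENNReal.toReal_nonneg
  by_cases hfar : 3 < dcap Q.FU 5 x
  · refine Eventually.of_forall fun j => le_add_right ?_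
    have e1 : ‖Q.gB j x - x‖ < 2 := by linarith only [hb, hbh, Q.norm_gB_sub_le j x]
    refine pow_le_om hu hb (((ll_om hu e1).comp (Q.ll_gB j hb) hw).congr ?_) (by positivity) ?_
    · filter_upwards [(TP.dcap Q.FU 5).continuous.continuousAt.eventually (lt_mem_nhds hfar)]
        with y hy
      obtain ⟨k1, k2⟩ := fine1_far h1 ((hd j).trans (tj_le j)) hF (y := Q.gB j y) fun a ha => by
        have k3 := Q.norm_gB_sub_le j y
        rw [norm_sub_rev] at k3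
        linarith only [hb, hbh, hy, k3, ha, dcap_le 5 y ha, norm_sub_le_norm_sub_add_norm_sub y (Q.gB j y) a]
      rw [k1]
      exact hD _ _ k2
    · rw [le_div_iff₀ hb]
      field_simp
      linarith
  have hnear : ∀ᶠ y in 𝓝 x, ∀ j, Q.gB j y = gta (tj j) (Kj m j) y := by
    filter_upwards [(TP.dcap Q.FU 5).continuous.continuousAt.eventually
      (gt_mem_nhds (show dcap Q.FU 5 x < 4 by linarith [not_lt.1 hfar]))] with y hy j
    exact Q.gB_eq j hy.le
  obtain ⟨K1, hK1⟩ := exists_dl_lt hb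
  have hlim : Tendsto (fun j => Q.gB j x) atTop (𝓝 (r0 K1 x)) :=
    (tendsto_gta hK1.le).congr fun j => (hnear.self_of_nhds j).symm
  have hx0 := norm_r0_sub_le K1 x
  have hrr := ll_r0_be K1 hb
  have e1 : ∀ᶠ y in 𝓝 x, Φ (Es (p + 0) h n (r0 K1 y), φ (P (Es (p + 0) h n (r0 K1 y)))) =
      Φ (Es p h n (r0 K1 y), ft (Es p h n (r0 K1 y))) := by
    filter_upwards [tp_be.continuous.continuousAt.eventually (lt_mem_nhds hK1)] with y hy
    rw [add_zero]
    by_cases k : D (Es p h n (r0 K1 y)) = 0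
    · rw [hφ _ k (h2 _ (mu_r0 hy.le))]
    · rw [hD _ _ k, hD _ (ft _) k]
  have htan : ∀ᶠ j in atTop, ∀ k,
      LL (fun y => Φ (Es p h n (r0 K1 y), ft (Es p h n (r0 K1 y)))) x k →
      LL (fun y => Φ (Es (p + d j) h n (Q.gB j y), φ (P (Es (p + d j) h n (Q.gB j y))))) x
        (k + 1) := by
    obtain ⟨L', hL', e, he, hTa⟩ := hTa K1
    have hc' : 0 < 1 / (L' + 1) := by positivity
    filter_upwards [ll_gta_sub_r0 hK1 hc', hlim.eventually (ball_mem_nhds _ he),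
      tendsto_tj.eventually (gt_mem_nhds he)] with j e2 e3 e4 k hk
    refine (hTa (fun y => (d j, Q.gB j y)) k (1 / (L' + 1)) (hk.congr e1)
      (((LL.const (d j - 0) x).mono hc'.le).prod
        (e2.congr (hnear.mono fun y hy => by simp only [hy]))) ?_).mono ?_
    · rw [Prod.mk_sub_mk, Prod.norm_mk, sub_zero]
      exact max_lt ((hd j).trans_lt e4) (mem_ball_iff_norm.1 e3)
    · rw [mul_one_div, add_le_add_iff_left, div_le_one (by positivity)]
      linarith only [hb, hbh]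
  rcases h3 (r0 K1 x) with k | ⟨b, hb0, l1, l2, l3⟩
  · filter_upwards [htan] with j k1
    refine le_add_right (pow_le_om hu hb (k1 _ (((ll_om hu (show ‖r0 K1 x - x‖ < 2 by
      linarith only [hb, hbh, hx0])).comp hrr hw).congr ?_)) (by positivity) ?_)
    · filter_upwards [(tp_r0 K1).continuous.continuousAt.eventually k] with y hy
      rw [hy.1]
      by_cases k' : D (r0 K1 y) = 0
      · rw [hy.2 k']
      · exact hD _ _ k'
    · rw [le_div_iff₀ hb]
      field_simp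
      linarith only [hb, hbh, hw]
  · filter_upwards [htan, eventually_le_Kj m K1] with j k1 hj
    have l4 := ((LL.of_forall hL _).comp (l1.prod l2) (by linarith only [hL1, hb, hbh])).comp hrr (by positivity)
    refine le_add_left ((pow_le_wt hb (k1 _ l4) (by positivity) ?_).trans
      (l3 _ x ((dl_anti hj).trans_lt hK1) (r0_nested hj hK1.le)))
    rw [le_div_iff₀ hb]
    field_simp
    linarith only [hL1, hb, hbh, hb0]

theorem fine1 (hm : 2 ≤ m) : ∃ C : ℝ≥0∞, C ≠ ⊤ ∧ ∀ (v : V m) (Γ : V m → V m), LH Γ → GP v Γ →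
    ∀ (Φ : V m × ℝ → V m) (c : V m → ℝ) (P : V m → V m) (D : V m → ℝ), TP Φ → TP c → TP P →
    TP D → (∀ x, 0 ≤ D x) → Bornology.IsBounded {x | D x = 0} →
    (∀ x t, D x ≠ 0 → Φ (x, t) = Φ (x, c x)) → (∀ x, D x = 0 → P x = pj v (Γ x)) →
    ∀ ε : ℝ≥0∞, ε ≠ 0 → ∃ (φ : V m → ℝ) (q : V m → V m) (Z : Set (V m)), TP φ ∧ IsW q ∧
      IsClosed Z ∧ {x | D x = 0} ⊆ Z ∧ Z ⊆ cthickening 6 {x | D x = 0} ∧
      (∀ x, x ∉ Z → q x = x) ∧ (∀ x, ‖q x - x‖ ≤ 1) ∧
      ∀ A : Set (V m), MeasurableSet A → En (fun x => Φ (q x, φ (P (q x)))) (Z ∩ A) ≤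
        C * (∫⁻ y in cthickening 7 {x | D x = 0} ∩ cthickening 1 A,
          (1 + om (fun x => Φ (x, c x)) 3 y) ^ (m + 1)) + ε := by
  obtain ⟨C, hC, hCw⟩ := lintegral_mul_wt_le m
  have h9 : (9 : ℝ≥0∞) ^ (m + 1) ≠ ⊤ := ENNReal.pow_ne_top (by norm_num)
  refine ⟨C * 9 ^ (m + 1), ENNReal.mul_ne_top hC h9, ?_⟩
  intro v Γ hΓ hGP Φ c P D hΦ hc hP hD hD0 hb hoff hon ε hε
  have hN : IsCompact {x | D x = 0} :=
    isCompact_of_isClosed_isBounded (isClosed_eq hD.continuous continuous_const) hb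
  have hε2 : ε / 2 ≠ 0 := ENNReal.div_ne_zero.2 ⟨hε, by norm_num⟩
  obtain ⟨L, hL1, hL⟩ := hΦ.exists_bound
  obtain ⟨ι, _, p, h, n, ft, Bad, c1, c2, c3, c4, c5, c6, c7, c8⟩ :=
    comb hm hΓ hGP hN hc (A := 2 * L + 1) (by linarith only [hL1]) hε2
  obtain ⟨R, hR⟩ := hb.subset_closedBall (0 : V m)
  obtain ⟨φ, hφ, hφ'⟩ := exists_ext hP c3 (tp_mu.add hD)
    (fun x => add_nonneg (mu_nonneg x) (hD0 x)) R fun x _ x' _ k k' e => by
      have a1 := (add_eq_zero_iff_of_nonneg (mu_nonneg x) (hD0 x)).1 k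
      have a2 := (add_eq_zero_iff_of_nonneg (mu_nonneg x') (hD0 x')).1 k'
      exact c4 x a1.2 x' a2.2 a1.1 a2.1 (by rw [← hon x a1.2, ← hon x' a2.2, e])
  obtain ⟨F, f1, f2, f3⟩ := fine1_net hN
  obtain ⟨Q, rfl⟩ : ∃ Q : CP m, Q.FU = F := ⟨⟨∅, ∅, F, 0, 0, 0, 0⟩, rfl⟩
  choose r hr hr' using fun j i => exists_rv_near (p i) (tj_pos j)
  obtain ⟨d, hd, hd'⟩ : ∃ d : ℕ → ι → V m, (∀ j, ‖d j‖ ≤ tj j) ∧ ∀ j i, RV ((p + d j) i) :=
    ⟨fun j i => r j i - p i, fun j => (pi_norm_le_iff_of_nonneg (tj_pos j).le).2 fun i =>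
      (hr' j i).le, fun j i => by simpa using hr j i⟩
  have hu : TP fun x => Φ (x, c x) := hΦ.comp (TP.id'.prod hc)
  have hT : TP fun z : (ι → V m) × V m =>
      Φ (Es (p + z.1) h n z.2, φ (P (Es (p + z.1) h n z.2))) :=
    hΦ.comp ((tp_Es2 p h n).prod (hφ.comp (hP.comp (tp_Es2 p h n))))
  have hpt := fine1_pt Q hu hL1 hL hoff hT
    (fun x k k' => hφ' x (hR k) (by rw [k, k', add_zero])) c1 f3 hd c5 c8
  obtain ⟨LT, hLT, hLT'⟩ := hT.exists_bound
  have hZ : IsCompact {x | ∃ a ∈ Q.FU, ‖x - a‖ ≤ 5} := by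
    have e : {x | ∃ a ∈ Q.FU, ‖x - a‖ ≤ 5} = ⋃ a ∈ Q.FU, closedBall a 5 := by
      ext x
      simp only [mem_ofPred_eq, mem_iUnion, mem_closedBall_iff_norm, exists_prop]
    rw [e]
    exact Q.FU.isCompact_biUnion fun a _ => isCompact_closedBall a 5
  have hZN : {x | ∃ a ∈ Q.FU, ‖x - a‖ ≤ 5} ⊆ cthickening 6 {x | D x = 0} := by
    rintro x ⟨a, ha, k⟩
    obtain ⟨z, hz, k'⟩ := f2 a ha
    refine mem_cthickening_of_dist_le x z _ _ hz ?_
    rw [dist_eq_norm]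
    linarith only [k, k', norm_sub_le_norm_sub_add_norm_sub x a z]
  have hm1 : Measurable fun x => (9 * (1 + om (fun x => Φ (x, c x)) 2 x)) ^ (m + 1) * wt x :=
    ((((measurable_om _ _).const_add _).const_mul _).pow_const _).mul measurable_wt
  have hll : ∀ j x k, 0 ≤ k → LL (Q.gB j) x k → LL (fun y => Φ (Es (p + d j) h n (Q.gB j y),
      φ (P (Es (p + d j) h n (Q.gB j y))))) x (LT * k) := fun j x k k0 k1 =>
    LL.comp (f := fun y => (d j, Q.gB j y)) (LL.of_forall hLT' _)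
      (((LL.const (d j) x).mono k0).prod k1) (by linarith)
  have hcon := contr (W := fun j y => Φ (Es (p + d j) h n (Q.gB j y),
      φ (P (Es (p + d j) h n (Q.gB j y)))))
    (G := fun j x => (9 * (1 + om (fun x => Φ (x, c x)) 2 x)) ^ (m + 1) * wt x + Bad (Kj m j) x)
    (Z := fun _ => univ) (C := 2 * LT) hZ.measurableSet hZ.isBounded
    (fun _ => MeasurableSet.univ) (fun j => hm1.add (c6 (Kj m j))) (by linarith)
    (Eventually.of_forall fun j x _ k => by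
      have k0 := (dl_pos _).trans k
      exact (hll j x _ (by positivity) (Q.ll_gB j k0)).mono (le_of_eq (by ring)))
    (Eventually.of_forall fun j x _ => by
      refine (hll j x _ (by positivity)
        (ll_gtl_core (tj_pos j) (tj_le j) Q.abs_etaB_sub_le (Kj m j) x)).mono ?_
      have k1 : 0 ≤ 2 * LT * 2 ^ Kj m j := by positivity
      rw [pow_succ]
      linarith only [k1, per1b_one_le j, mul_nonneg_of_nonpos_of_nonpos (Mathlib.Tactic.Linarith.sub_nonpos_of_le k1) (Mathlib.Tactic.Linarith.sub_nonpos_of_le (per1b_one_le j))])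
    (hpt.mono fun x hx _ => hx.mono fun j hj _ => hj) hε2
  have hsep : ∀ᶠ j in atTop, ∀ i i', i ≠ i' → h i + h i' < ‖(p + d j) i - (p + d j) i'‖ := by
    refine eventually_all.2 fun i => eventually_all.2 fun i' => ?_
    by_cases k : i = i'
    · exact Eventually.of_forall fun _ k' => absurd k k'
    filter_upwards [tendsto_tj.eventually (gt_mem_nhds
      (half_pos (sub_pos.2 (c2 i i' k))))] with j hj _
    have k5 : p i - p i' = ((p + d j) i - (p + d j) i') + d j i' + -d j i := by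
      rw [Pi.add_apply, Pi.add_apply]
      abel
    have k6 := norm_add₃_le (a := (p + d j) i - (p + d j) i') (b := d j i') (c := -d j i)
    rw [← k5, norm_neg] at k6
    linarith only [hj, k6, hd, norm_le_pi_norm (d j) i, norm_le_pi_norm (d j) i', hd j]
  obtain ⟨j, j1, j2⟩ := (hcon.and hsep).exists
  have p1 := fun i => (c1 i).2.1
  have p2 := fun i => (c1 i).2.2.2.1
  refine ⟨φ, fun x => Es (p + d j) h n (Q.gB j x), _, hφ,
    IsW.comp ⟨lh_Es p1 p2 j2, fun x hx => rv_Es n (hd' j) (fun i => (c1 i).1) hx⟩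
      (isW_gtl j _ Q.tp_etaB Q.abs_etaB_sub_le fun x hx =>
        Rq.sub (rq_nat 5) (rq_dcap f1 (rq_nat 5) hx)), hZ.isClosed, fun x hx => ?_, hZN,
    fun x hx => ?_, fun x => ?_, fun A hA => ?_⟩
  · obtain ⟨a, ha, k⟩ := f3 x hx
    exact ⟨a, ha, by linarith only [k]⟩
  · have k : ∀ a ∈ Q.FU, 5 ≤ ‖x - a‖ := fun a ha => (not_le.1 fun k => hx ⟨a, ha, k⟩).le
    simp only [Q.gB_eq_self j k]
    exact (fine1_far c1 ((hd j).trans (tj_le j)) f3 fun a ha => by linarith [k a ha]).1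
  · have k1 := norm_Es_sub_le p1 p2 j2 (by norm_num) (fun i => (c1 i).2.2.1) (Q.gB j x)
    linarith only [k1, Q.norm_gB_sub_le j x,
      norm_sub_le_norm_sub_add_norm_sub (Es (p + d j) h n (Q.gB j x)) (Q.gB j x) x]
  · have k := j1 A hA
    rw [inter_univ, lintegral_add_left hm1, add_assoc] at k
    refine k.trans (add_le_add ?_ ((add_le_add ((setLIntegral_le_lintegral _ _).trans (c7 _))
      le_rfl).trans (ENNReal.add_halves ε).le))
    rw [mul_assoc, ← lintegral_const_mul' _ _ h9]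
    refine hCw _ _ (fun x => (9 * (1 + om (fun x => Φ (x, c x)) 2 x)) ^ (m + 1)) _
      (hZ.measurableSet.inter hA)
      (isClosed_cthickening.measurableSet.inter isClosed_cthickening.measurableSet)
      fun x hx y hxy => ⟨⟨?_, ?_⟩, ?_⟩
    · obtain ⟨a, ha, k1⟩ := hx.1
      obtain ⟨z, hz, k'⟩ := f2 a ha
      refine mem_cthickening_of_dist_le y z _ _ hz ?_
      rw [norm_sub_rev] at hxy
      rw [dist_eq_norm]
      linarith only [hxy, k1, k', norm_sub_le_norm_sub_add_norm_sub x a z, norm_sub_le_norm_sub_add_norm_sub y x z]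
    · refine mem_cthickening_of_dist_le y x _ _ hx.2 ?_
      rw [dist_comm, dist_eq_norm]
      exact hxy.le
    · have k1 : om (fun x => Φ (x, c x)) 2 x ≤ om (fun x => Φ (x, c x)) 3 y :=
        om_mono _ (ball_subset_ball' (by rw [dist_eq_norm]; linarith))
      rw [← mul_pow]
      gcongr

end BEe
end
end

-- merged part: Pool.Agent.Work.MP_f0515e_an.Ev.Fine
section
/-! The fine lemma at a small mesh.

Plan.  Same constant `C` as in `fine1`.  Take `e ≠ 0` with `(C + 1) * e ≤ ε`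
(`ENNReal.exists_nnreal_pos_mul_lt`), `r1` from `exists_fat_inter` for `u x = Φ (x, c x)`, the
compact set `N = {D = 0}` and `e`, and `s = (1 / 2) ^ j` with `7 * s ≤ r1`, `7 * s ≤ r`, `s ≤ 1`.
Apply `fine1` to `Γ (s • ·)` (`IsW.comp`, `isW_smul`, `rq_half_pow`),
`Φ1 (x, t) = s⁻¹ • Φ (s • x, t)`, `c (s • ·)`, `P (s • ·)`, `D (s • ·)`; put
`q x = s • q1 (s⁻¹ • x)`, `Z = {x | s⁻¹ • x ∈ Z1}`, same `φ`.  Scale the integrals with
`lintegral_scale`, `lip_scale`, `om_scale`, `om_mono` as in `BEv.step_En_sc`, `BEv.step_om_sc`,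
`BEv.step_cth` of `Step.lean` (for the noncompact set `A` use `cthickening` through `infEDist` or
`mem_cthickening_of_dist_le` after passing to `thickening`: `cthickening 1 A1 ⊆ thickening 2 A1`,
`mem_thickening_iff`). -/

open Set Metric Filter Topology MeasureTheory Function BEv
open scoped ENNReal NNReal

noncomputable section
namespace BEe

variable {m : ℕ}

theorem fine_cth {c : ℝ} (hc : 0 < c) {A : Set (V m)} {r R : ℝ} (hr : r < 8) (h : c * 8 ≤ R)
    {x : V m} (hx : x ∈ cthickening r {y : V m | c • y ∈ A}) : c • x ∈ cthickening R A := by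
  obtain ⟨y, hy, hxy⟩ := mem_thickening_iff.1 (cthickening_subset_thickening' (by norm_num) hr _ hx)
  refine mem_cthickening_of_dist_le _ (c • y) _ _ hy ?_
  rw [dist_smul₀, Real.norm_of_nonneg hc.le]
  exact (mul_le_mul_of_nonneg_left hxy.le hc.le).trans h

theorem fine_mesh {b : ℝ} (hb : 0 < b) : ∀ᶠ j : ℕ in atTop, (1 / 2 : ℝ) ^ j * 8 ≤ b := by
  have h : Tendsto (fun j : ℕ => (1 / 2 : ℝ) ^ j * 8) atTop (𝓝 (0 * 8)) :=
    (tendsto_pow_atTop_nhds_zero_of_lt_one (by norm_num) (by norm_num)).mul_const 8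
  rw [zero_mul] at h
  exact h.eventually (eventually_le_nhds hb)

theorem fine (hm : 2 ≤ m) : ∃ C : ℝ≥0∞, C ≠ ⊤ ∧ ∀ (v : V m), (∀ Γ, IsW Γ → GP v Γ) →
    ∀ Γ : V m → V m, IsW Γ →
    ∀ (Φ : V m × ℝ → V m) (c : V m → ℝ) (P : V m → V m) (D : V m → ℝ), TP Φ → TP c → TP P →
    TP D → (∀ x, 0 ≤ D x) → Bornology.IsBounded {x | D x = 0} →
    (∀ x t, D x ≠ 0 → Φ (x, t) = Φ (x, c x)) → (∀ x, D x = 0 → P x = pj v (Γ x)) →
    ∀ ε : ℝ≥0∞, ε ≠ 0 → ∀ r : ℝ, 0 < r →
    ∃ (φ : V m → ℝ) (q : V m → V m) (Z : Set (V m)), TP φ ∧ IsW q ∧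
      IsClosed Z ∧ {x | D x = 0} ⊆ Z ∧ Z ⊆ cthickening r {x | D x = 0} ∧
      (∀ x, x ∉ Z → q x = x) ∧ (∀ x, ‖q x - x‖ ≤ r) ∧
      ∀ A : Set (V m), MeasurableSet A → En (fun x => Φ (q x, φ (P (q x)))) (Z ∩ A) ≤
        C * En (fun x => Φ (x, c x)) ({x | D x = 0} ∩ cthickening r A) + ε := by
  obtain ⟨C, hC, h1⟩ := fine1 hm
  refine ⟨C, hC, fun v hGP Γ hΓ Φ c P D hΦ hc hP hD hD0 hb hΦc hPΓ ε hε r hr => ?_⟩
  obtain ⟨e, he0, he⟩ : ∃ e : ℝ≥0∞, e ≠ 0 ∧ (C + 1) * e ≤ ε := by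
    obtain ⟨e, he0, he⟩ := ENNReal.exists_nnreal_pos_mul_lt
      (ENNReal.add_ne_top.2 ⟨hC, ENNReal.one_ne_top⟩) hε
    exact ⟨e, ENNReal.coe_ne_zero.2 he0.ne', by rw [mul_comm]; exact he.le⟩
  have hN : IsCompact {x | D x = 0} :=
    Metric.isCompact_of_isClosed_isBounded (isClosed_eq hD.continuous continuous_const) hb
  obtain ⟨r1, hr1, hfat⟩ := exists_fat_inter (hΦ.comp (TP.id'.prod hc)) hN he0
  obtain ⟨j, j1, j2, j3⟩ := ((fine_mesh hr1).and ((fine_mesh hr).and (fine_mesh one_pos))).exists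
  have hq := rq_half_pow j
  have hs : 0 < (1 / 2 : ℝ) ^ j := by positivity
  generalize (1 / 2 : ℝ) ^ j = s at j1 j2 j3 hq hs
  have hW := hΓ.comp (isW_smul hq hs.ne')
  have ts : TP fun x : V m => s • x := TP.id'.const_smul s
  obtain ⟨φ, q, Z, tφ, wq, cZ, z1, z2, q1, q2, hE⟩ := h1 v _ hW.1 (hGP _ hW)
    (fun p => s⁻¹ • Φ (s • p.1, p.2)) (fun x => c (s • x)) (fun x => P (s • x))
    (fun x => D (s • x))
    ((hΦ.comp ((TP.id'.fst.const_smul s).prod TP.id'.snd)).const_smul s⁻¹) (hc.comp ts)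
    (hP.comp ts) (hD.comp ts) (fun x => hD0 _)
    ((Homeomorph.smulOfNeZero s hs.ne').isCompact_preimage.2 hN).isBounded
    (fun x t h => congrArg _ (hΦc _ t h)) (fun x h => hPΓ _ h) e he0
  have cZ' : IsClosed {x : V m | s⁻¹ • x ∈ Z} := cZ.preimage (continuous_const_smul s⁻¹)
  refine ⟨φ, fun x => s • q (s⁻¹ • x), {x | s⁻¹ • x ∈ Z}, tφ,
    (isW_smul hq hs.ne').comp (wq.comp (isW_smul hq.inv (inv_pos.2 hs).ne')), cZ',
    fun x hx => z1 ?_, fun x hx => ?_, fun x hx => ?_, fun x => ?_, fun A hA => ?_⟩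
  · exact (congrArg D (smul_inv_smul₀ hs.ne' x)).trans hx
  · have := fine_cth (A := {x | D x = 0}) hs (by norm_num) j2 (z2 hx)
    rwa [smul_inv_smul₀ hs.ne'] at this
  · exact (congrArg _ (q1 _ hx)).trans (smul_inv_smul₀ hs.ne' x)
  · have := mul_le_mul_of_nonneg_left (q2 (s⁻¹ • x)) hs.le
    rw [← Real.norm_of_nonneg hs.le, ← norm_smul, smul_sub, Real.norm_of_nonneg hs.le,
      smul_inv_smul₀ hs.ne'] at this
    linarith only [j2, hs, this]
  obtain ⟨κ, hκ⟩ : ∃ κ : ℝ≥0∞, κ = ENNReal.ofReal (s ^ (2 * m + 2)) := ⟨_, rfl⟩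
  have hκ1 : κ ≤ 1 := hκ ▸ ENNReal.ofReal_le_one.2 (pow_le_one₀ hs.le (by linarith))
  have e1 : En (fun x => Φ (s • q (s⁻¹ • x), φ (P (s • q (s⁻¹ • x)))))
      ({x | s⁻¹ • x ∈ Z} ∩ A) =
      κ * En (fun x => s⁻¹ • Φ (s • q x, φ (P (s • q x)))) (Z ∩ {x | s • x ∈ A}) := by
    unfold En
    rw [lintegral_scale hs _ (cZ'.measurableSet.inter hA), hκ]
    simp only [← lip_scale _ hs, mem_inter_iff, mem_ofPred_eq, inv_smul_smul₀ hs.ne']
    rfl
  have e2 : κ * ∫⁻ y in cthickening 7 {x | D (s • x) = 0} ∩ cthickening 1 {x | s • x ∈ A},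
      (1 + om (fun x => s⁻¹ • Φ (s • x, c (s • x))) 3 y) ^ (m + 1) ≤
      En (fun x => Φ (x, c x)) ({x | D x = 0} ∩ cthickening r A) + e := by
    refine le_trans ?_ (hfat _ isClosed_cthickening.measurableSet)
    rw [lintegral_scale hs _ (Z := cthickening r1 _ ∩ _)
      (isClosed_cthickening.measurableSet.inter isClosed_cthickening.measurableSet), ← hκ]
    refine mul_le_mul_right ((lintegral_mono_set fun x hx => ?_).trans
      (lintegral_mono fun x => ?_)) κ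
    · exact ⟨fine_cth (A := {x | D x = 0}) hs (by norm_num) j1 hx.1,
        fine_cth hs (by norm_num) j2 hx.2⟩
    · rw [om_scale (fun x => Φ (x, c x)) hs]
      exact pow_le_pow_left' (add_le_add le_rfl
        (om_mono _ (ball_subset_ball (by linarith only [j1, hs])))) _
  rw [e1]
  refine (mul_le_mul_right (hE _ (hA.preimage ts.continuous.measurable)) κ).trans ?_
  rw [mul_add, mul_left_comm]
  refine (add_le_add (mul_le_mul_right e2 C) (mul_le_of_le_one_left' hκ1)).trans ?_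
  rw [mul_add, add_assoc, ← add_one_mul]
  exact add_le_add le_rfl he

end BEe
end
end

-- merged part: Pool.Agent.Work.MP_f0515e_an.Ev.Unit
section
/-! The unit step. -/

open Set Metric Filter Topology MeasureTheory Function BEv
open scoped ENNReal NNReal

noncomputable section
namespace BEe

variable {m : ℕ}

theorem unitg_open (F : Finset (V m)) (r : ℝ) : IsOpen {y : V m | ∃ p ∈ F, ‖y - p‖ < r} := by
  have e : {y : V m | ∃ p ∈ F, ‖y - p‖ < r} = ⋃ p ∈ F, ball p r := by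
    ext y; simp [mem_ball, dist_eq_norm]
  rw [e]
  exact isOpen_biUnion fun p _ => isOpen_ball

theorem unitg_compact (F : Finset (V m)) (r : ℝ) : IsCompact {y : V m | ∃ p ∈ F, ‖y - p‖ ≤ r} := by
  have e : {y : V m | ∃ p ∈ F, ‖y - p‖ ≤ r} = ⋃ p ∈ F, closedBall p r := by
    ext y; simp [mem_closedBall, dist_eq_norm]
  rw [e]
  exact F.isCompact_biUnion fun p _ => isCompact_closedBall p r

theorem unitg_shal (F1 F2 : Finset (V m)) : MeasurableSet (Shal F1 F2) := by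
  have e : Shal F1 F2 = {y : V m | ∃ p ∈ F1, ‖y - p‖ ≤ 3}ᶜ ∪ {y : V m | ∃ p ∈ F2, ‖y - p‖ < 9} := by
    ext y; simp [Shal]
  rw [e]
  exact (unitg_compact F1 3).isClosed.measurableSet.compl.union (unitg_open F2 9).measurableSet

theorem unitg_main {C : ℝ≥0∞} (hC : ∀ (Z Z' : Set (V m)) (F F' : V m → ℝ≥0∞), MeasurableSet Z →
      MeasurableSet Z' → (∀ x ∈ Z, ∀ y, ‖x - y‖ < 1 → y ∈ Z' ∧ F x ≤ F' y) →
      ∫⁻ x in Z, F x * wt x ≤ C * ∫⁻ y in Z', F' y) (v : V m) (s : St m) (P : CP m)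
    {Y W : Set (V m)} {F' : V m → ℝ≥0∞} (hY : MeasurableSet Y) (hW : MeasurableSet W)
    (h : ∀ x ∈ Y, ∀ y, ‖x - y‖ < 1 → y ∈ W ∧ (9 * (1 + om (St.u v s) 2 x)) ^ (m + 1) ≤ F' y) :
    ∫⁻ x in Y, CP.Main v s P x ≤ C * ∫⁻ y in W ∩ Shal P.F1 P.F2, F' y := by
  have hS : MeasurableSet {x | P.th x ≤ 8} :=
    (isClosed_le P.tp_th.continuous continuous_const).measurableSet
  unfold CP.Main
  rw [lintegral_indicator hS, Measure.restrict_restrict hS]
  exact hC _ _ (fun x => (9 * (1 + om (St.u v s) 2 x)) ^ (m + 1)) F' (hS.inter hY)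
    (hW.inter (unitg_shal _ _)) fun x hx y hxy =>
      ⟨⟨(h x hx.2 y hxy).1, CP.cases_of_th_le hx.1 hxy⟩, (h x hx.2 y hxy).2⟩

theorem step_En_mono (f : V m → V m) {Z Z' : Set (V m)} (h : Z ⊆ Z') : En f Z ≤ En f Z' :=
  lintegral_mono_set h

theorem step_En_union (f : V m → V m) {Z A B : Set (V m)} (h : Z ⊆ A ∪ B) :
    En f Z ≤ En f A + En f B :=
  (lintegral_mono_set h).trans (lintegral_union_le _ _ _)

theorem step_En_congr {f g : V m → V m} {O Z : Set (V m)} (hO : IsOpen O) (hZ : MeasurableSet Z)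
    (hZO : Z ⊆ O) (h : ∀ y ∈ O, f y = g y) : En f Z = En g Z := by
  refine setLIntegral_congr_fun hZ fun x hx => ?_
  have h1 : f =ᶠ[𝓝 x] g := eventually_of_mem (hO.mem_nhds (hZO hx)) h
  simp only [lip_congr h1]

theorem unit_step (hm : 2 ≤ m) : ∃ C : ℝ≥0∞, C ≠ ⊤ ∧ ∀ v : V m, (∀ Γ, IsW Γ → GP v Γ) →
    ∀ s : St m, St.Ok v s → St.Gam v s → IsW s.Γ →
    ∀ F1 F2 : Finset (V m), (∀ p ∈ F1, closedBall p 20 ⊆ s.I) →
    ∀ η L : ℝ, 0 ≤ η → St.Fib v s η → 0 ≤ L →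
    (∀ x y, ‖St.k v s x - St.k v s y‖ ≤ L * ‖x - y‖) → ∀ ε : ℝ≥0∞, ε ≠ 0 →
    ∃ (s' : St m) (Fo : Set (V m)), St.Ok v s' ∧ St.Gam v s' ∧ IsW s'.Γ ∧
      (∀ x ∈ St.U v s', ∃ p ∈ F1, ‖x - p‖ ≤ 12) ∧
      (∀ x, (∀ y ∈ St.U v s, 5 ≤ ‖x - y‖) →
        St.k v s' x = St.k v s x ∧ St.u v s' x = St.u v s x) ∧
      (∀ x, ‖St.k v s' x - St.k v s x‖ ≤ 2 * η + L + 1) ∧ St.Fib v s' 3 ∧ IsCompact Fo ∧
      St.Fold v s' ⊆ Fo ∧ En (St.u v s') Fo ≤ ε ∧
      En (St.u v s') ({x | ∃ p ∈ F1, ‖x - p‖ ≤ 12} \ s'.I) ≤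
        C * volume ({y | ∃ p ∈ F1, ‖y - p‖ < 13} ∩ Shal F1 F2) + ε ∧
      ((∀ x ∈ St.Fold v s, mu x = 0 → ∃ p ∈ F2, ‖St.u v s x - p‖ ≤ 1) →
        En (St.u v s') (cthickening 6 (St.U v s) \ s'.I) ≤
          C * (∫⁻ y in cthickening 7 (St.U v s) ∩ Shal F1 F2, (1 + om (St.u v s) 3 y) ^ (m + 1)) + ε) :=
  by
  obtain ⟨C, hC, hCw⟩ := lintegral_mul_wt_le m
  obtain ⟨Cf, hCf, hfine⟩ := fine hm
  obtain ⟨Cp, hCp, hpf⟩ := pf0_le m
  have h18 : (18 : ℝ≥0∞) ^ (m + 1) ≠ ⊤ := ENNReal.pow_ne_top (by norm_num)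
  refine ⟨C * 18 ^ (m + 1), ENNReal.mul_ne_top hC h18, ?_⟩
  intro v hGP s hs hΓ hW F1 F2 hF1 η L hη0 hη hL0 hL ε hε
  obtain ⟨e, he, hee⟩ : ∃ e : ℝ≥0, 0 < e ∧ Cf * (e + e) + e + e ≤ ε := by
    obtain ⟨e, he0, he⟩ := ENNReal.exists_nnreal_pos_mul_lt (a := Cf * 2 + 2) (by finiteness) hε
    exact ⟨e, he0, le_trans (le_of_eq (by ring)) he.le⟩
  have he' : (e : ℝ≥0∞) ≠ 0 := ENNReal.coe_ne_zero.2 he.ne'
  obtain ⟨Lu, hLu, hu⟩ := (St.tp_u hs).exists_bound
  obtain ⟨P, Dc, t, rfl, rfl, hP, ht0, ht1, hcard, hcov⟩ := CP.exists_CP (by omega) hs hΓ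
    (hGP _ hW) F1 F2 hF1 (δ := e / ((4 * Lu) ^ (m + 1) * (Cp + 1))) (by positivity)
  have hBad : ∀ K, ENNReal.ofReal (4 * Lu) ^ (m + 1) * (∑ a ∈ Dc, ∫⁻ x, PF0 K a t x) ≤ e := by
    intro K
    refine (mul_le_mul_right (Finset.sum_le_card_nsmul _ _ _ fun a _ => hpf K a t ht0.le ht1)
      _).trans ?_
    rw [nsmul_eq_mul, ← ENNReal.ofReal_natCast, ← ENNReal.ofReal_pow (by linarith only [hLu, ht0, ht1]),
      ← ENNReal.ofReal_mul (by positivity), ← ENNReal.ofReal_mul (by positivity),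
      ← ENNReal.ofReal_coe_nnreal]
    refine ENNReal.ofReal_le_ofReal ?_
    rw [le_div_iff₀ (by positivity)] at hcard
    refine le_trans ?_ hcard
    have : 0 ≤ (4 * Lu) ^ (m + 1) * (Dc.card * t ^ (m + 1)) := by positivity
    linarith only [this]
  have hZI : ∀ x, (∃ p ∈ P.F1, ‖x - p‖ ≤ 20) → x ∈ s.I := by
    rintro x ⟨p, hp, hx⟩
    exact hF1 p hp (by rwa [mem_closedBall, dist_eq_norm])
  have hProt : CP.Prot v s P {x | ∃ p ∈ P.F1, ‖x - p‖ ≤ 14} := by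
    rintro x ⟨p, hp, hx⟩ - hI
    exact (hI (hZI x ⟨p, hp, by linarith only [ht0, ht1, hx]⟩)).elim
  have hY : ∀ r, MeasurableSet {x : V m | ∃ p ∈ P.F1, ‖x - p‖ ≤ r} := fun r =>
    (unitg_compact P.F1 r).isClosed.measurableSet
  have htri : ∀ x y p : V m, ‖y - p‖ ≤ ‖x - y‖ + ‖x - p‖ := fun x y p => by
    have := norm_sub_le_norm_sub_add_norm_sub y x p
    rwa [norm_sub_rev y x] at this
  have hin := fun (r : ℝ) (hr : r ≤ 13) => CP.integrated hs hP hLu hu hcov (unitg_compact P.F1 14)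
    hProt (hY r) (by
      rintro x ⟨p, hp, hx⟩ y hy
      rw [mem_closedBall, dist_comm, dist_eq_norm] at hy
      exact ⟨p, hp, by linarith only [hr, hx, hy, htri, htri x y p]⟩) he'
  have hMin : ∫⁻ x in {x : V m | ∃ p ∈ P.F1, ‖x - p‖ ≤ 12}, CP.Main v s P x ≤
      C * 18 ^ (m + 1) * volume ({y | ∃ p ∈ P.F1, ‖y - p‖ < 13} ∩ Shal P.F1 P.F2) := by
    refine (unitg_main hCw v s P (F' := fun _ => 18 ^ (m + 1)) (hY 12)
      (unitg_open P.F1 13).measurableSet ?_).trans_eq (by rw [setLIntegral_const, mul_assoc])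
    rintro x ⟨p, hp, hx⟩ y hxy
    refine ⟨⟨p, hp, by linarith only [hx, hxy, htri, htri x y p]⟩, ?_⟩
    have hu : ∀ z ∈ ball x 2, St.u v s z = z := fun z hz => by
      rw [mem_ball, dist_comm, dist_eq_norm] at hz
      exact St.u_eq_self hs (hZI z ⟨p, hp, by linarith only [ht0, ht1, hx, hz, htri, htri x z p]⟩)
    have h1 : om (St.u v s) 2 x ≤ 1 := by
      have := om_le (f := St.u v s) (r := 2) (c := 1) (x := x) fun y hy z hz => by
        rw [hu y hy, hu z hz, one_mul]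
      simpa using this
    calc (9 * (1 + om (St.u v s) 2 x)) ^ (m + 1) ≤ (9 * (1 + 1)) ^ (m + 1) := by gcongr
      _ = 18 ^ (m + 1) := by norm_num
  have hball : ∀ x ∈ cthickening 6 (St.U v s), closedBall x 1 ⊆ cthickening 7 (St.U v s) := by
    intro x hx
    refine (closedBall_subset_cthickening hx 1).trans ?_
    have := cthickening_cthickening_subset (s := St.U v s) (zero_le_one' ℝ) (by norm_num : (0 : ℝ) ≤ 6)
    rwa [show (1 : ℝ) + 6 = 7 by norm_num] at this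
  have hMout : ∫⁻ x in cthickening 6 (St.U v s), CP.Main v s P x ≤ C * 18 ^ (m + 1) *
      ∫⁻ y in cthickening 7 (St.U v s) ∩ Shal P.F1 P.F2, (1 + om (St.u v s) 3 y) ^ (m + 1) := by
    refine (unitg_main hCw v s P (F' := fun y => 18 ^ (m + 1) * (1 + om (St.u v s) 3 y) ^ (m + 1))
      isClosed_cthickening.measurableSet isClosed_cthickening.measurableSet
      ?_).trans_eq (by rw [lintegral_const_mul' _ _ h18, mul_assoc])
    intro x hx y hxy
    refine ⟨hball x hx (by rw [mem_closedBall, dist_comm, dist_eq_norm]; exact hxy.le), ?_⟩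
    have h1 : om (St.u v s) 2 x ≤ om (St.u v s) 3 y := om_mono _ (ball_subset_ball' (by
      rw [dist_eq_norm]; linarith only [hxy]))
    rw [← mul_pow]
    gcongr
    norm_num
  have hout : ∀ᶠ j in atTop,
      (∀ x ∈ St.Fold v s, mu x = 0 → ∃ p ∈ P.F2, ‖St.u v s x - p‖ ≤ 1) →
        En (CP.us v s P j) (cthickening 6 (St.U v s) \ CP.Is v s P j) ≤
          (∫⁻ x in cthickening 6 (St.U v s), CP.Main v s P x) + e ∧
        En (CP.us v s P j) (cthickening 6 (St.U v s) ∩ CP.Nz v s P j) ≤ e + e := by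
    by_cases hpr : ∀ x ∈ St.Fold v s, mu x = 0 → ∃ p ∈ P.F2, ‖St.u v s x - p‖ ≤ 1
    · have hProt' : CP.Prot v s P (cthickening 7 (St.U v s)) := by
        intro x _ hx hI
        by_cases hu : St.u v s x ∈ s.I
        · obtain ⟨p, hp, h1⟩ := hpr x ⟨hI, hu⟩ hx
          exact (P.th_le_of_mem _ hp).trans h1
        · rw [CP.th_eq_zero hP hu]; exact zero_le_one
      exact (CP.integrated hs hP hLu hu hcov (St.isCompact_U hs).cthickening hProt'
        isClosed_cthickening.measurableSet hball he').mono fun j hj _ =>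
          ⟨hj.1, hj.2.2.trans (add_le_add (hBad _) le_rfl)⟩
    · exact Eventually.of_forall fun j h => (hpr h).elim
  obtain ⟨j, ⟨⟨k1, k2, -⟩, -, -, k3⟩, k4⟩ :=
    (((hin 12 (by norm_num)).and (hin 13 le_rfl)).and hout).exists
  replace k3 := k3.trans (add_le_add (hBad _) le_rfl)
  obtain ⟨D, tD, hD0, hD⟩ := CP.cod_DU hs
  have tg := (P.lh_gB j).tp
  have tP : TP fun x => pj v (s.G (P.gB j x)) := (tp_pj v).comp (hs.hG.tp.comp tg)
  have hN : {x | D (P.gB j x) + max (P.chi (pj v (s.G (P.gB j x))) - 3) 0 = 0} =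
      CP.Nz v s P j := by
    ext x
    have a1 := hD0 (P.gB j x)
    have a2 := le_max_left (P.chi (pj v (s.G (P.gB j x))) - 3) 0
    have a3 := le_max_right (P.chi (pj v (s.G (P.gB j x))) - 3) 0
    constructor
    · intro h
      have h' : D (P.gB j x) + max (P.chi (pj v (s.G (P.gB j x))) - 3) 0 = 0 := h
      exact ⟨(hD _).1 (by linarith only [a1, a3, h']), by linarith only [a1, a2, h']⟩
    · rintro ⟨h1, h2⟩
      change D (P.gB j x) + max (P.chi (pj v (s.G (P.gB j x))) - 3) 0 = 0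
      rw [(hD _).2 h1, max_eq_right (by linarith only [h2]), add_zero]
  have hNU : CP.Nz v s P j ⊆ cthickening 6 (St.U v s) := fun x hx =>
    mem_cthickening_of_dist_le x _ 6 _ hx.1 (by
      rw [dist_comm, dist_eq_norm]
      linarith only [ht0, ht1, P.norm_gB_sub_le j x])
  obtain ⟨φ, q, Z, tφ, hq, hZc, hNZ, hZN, hoff, hmv, hE⟩ := hfine v hGP _
    (hW.comp (isW_gta j (Kj m j))) (CP.Phi v s P j) (fun x => St.f v s (P.gB j x)) _ _
    (CP.tp_Phi hs hP j) ((St.tp_f hs).comp tg) tP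
    ((tD.comp tg).add (((hP.tchi.comp tP).sub (TP.const 3)).max (TP.const 0)))
    (fun x => add_nonneg (hD0 _) (le_max_right _ _))
    (by
      rw [hN]
      exact (St.isCompact_U hs).cthickening.isBounded.subset hNU)
    (fun x t hx => CP.Phi_off hs hP (fun h => hx (by rwa [← hN] at h)) t)
    (fun x hx => by
      have h1 : x ∈ CP.Nz v s P j := by
        rw [← hN]
        exact hx
      rw [hΓ _ h1.1, CP.gB_eq_of_mem hP j h1.1 (by
        rw [norm_sub_rev]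
        linarith only [ht0, ht1, P.norm_gB_sub_le j x])]) e he' (1 / 2) (by norm_num)
  rw [hN] at hNZ hZN
  simp only [hN] at hE
  have hF : CP.FOk v s P j φ q Z := ⟨tφ, hq.1, hZc, hNZ, fun x hx => by
    obtain ⟨x', h1, h2⟩ := mem_thickening_iff.1
      (cthickening_subset_thickening' one_pos (by norm_num) _ (hZN hx))
    exact ⟨x', h1, by rw [← dist_eq_norm]; exact h2.le⟩, hoff, hmv⟩
  have hu' : St.u v (CP.new v s P j φ q Z) =
      fun x => CP.Phi v s P j (q x, φ (pj v (s.G (P.gB j (q x))))) := funext (CP.u_new hs hP hF)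
  have hsplit : ∀ Y A W : Set (V m), MeasurableSet Y → MeasurableSet A → W ⊆ (Z ∩ Y) ∪ (A \ Z) →
      En (CP.us v s P j) (CP.Nz v s P j ∩ cthickening (1 / 2) Y) ≤ e + e →
      En (St.u v (CP.new v s P j φ q Z)) W ≤ Cf * (e + e) + e + En (CP.us v s P j) A := by
    intro Y A W hYm hAm hsub hle
    refine (step_En_union _ hsub).trans (add_le_add ?_ ?_)
    · rw [hu']
      exact (hE Y hYm).trans (add_le_add (mul_le_mul_right hle _) le_rfl)
    · rw [step_En_congr (g := CP.us v s P j) hZc.isOpen_compl (hAm.diff hZc.measurableSet)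
        (fun x hx => hx.2) fun y hy => CP.u_new_off hs hP hF hy]
      exact step_En_mono _ sdiff_subset
  have hfin : ∀ A B : ℝ≥0∞, A ≤ B → Cf * (e + e) + e + (A + e) ≤ B + ε := fun A B h => by
    calc Cf * (e + e) + e + (A + e) = A + (Cf * (e + e) + e + e) := by ring
      _ ≤ B + ε := add_le_add h hee
  have h12 : En (CP.us v s P j)
      (CP.Nz v s P j ∩ cthickening (1 / 2) {x | ∃ p ∈ P.F1, ‖x - p‖ ≤ 12}) ≤ e + e := by
    refine (step_En_mono _ fun x hx => ?_).trans k3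
    obtain ⟨x', ⟨p, hp, h1⟩, h2⟩ := mem_thickening_iff.1
      (cthickening_subset_thickening' one_pos (by norm_num) _ hx.2)
    rw [dist_comm, dist_eq_norm] at h2
    exact ⟨⟨p, hp, by linarith only [h2, h1, htri, htri x' x p]⟩, hx.1⟩
  have hIs := (CP.isOpen_Is hs hP j).measurableSet
  have hI' : ∀ Y : Set (V m), Y \ (CP.new v s P j φ q Z).I ⊆ (Z ∩ Y) ∪ ((Y \ CP.Is v s P j) \ Z) := by
    intro Y x hx
    by_cases h : x ∈ Z
    · exact Or.inl ⟨h, hx.1⟩
    · exact Or.inr ⟨⟨hx.1, fun h' => hx.2 ⟨h', h⟩⟩, h⟩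
  refine ⟨CP.new v s P j φ q Z, (CP.Fos v s P j ∪ Z) ∩ {x | ∃ p ∈ P.F1, ‖x - p‖ ≤ 12},
    CP.ok_new hs hP hF, CP.gam_new hs hΓ hP, (hW.comp (isW_gta j (Kj m j))).comp hq,
    fun x hx => CP.U_new_subset hs hP hF hx, fun x hx => CP.new_off hs hP hF hx,
    CP.norm_k_new_sub hs hP hF hη0 hη hL0 hL, CP.fib_new hs hP hF,
    (unitg_compact P.F1 12).inter_left ((CP.isClosed_Fos hs hP j).union hZc),
    fun z hz => CP.Fold_new_subset hs hP hF hz, ?_, ?_, fun h => ?_⟩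
  · refine (hsplit _ _ _ (hY 12) ((hY 12).inter (CP.isClosed_Fos hs hP j).measurableSet)
      (fun x hx => ?_) h12).trans ((add_le_add le_rfl k2).trans hee)
    by_cases h : x ∈ Z
    · exact Or.inl ⟨h, hx.2⟩
    · exact Or.inr ⟨⟨hx.2, hx.1.resolve_right h⟩, h⟩
  · exact (hsplit _ _ _ (hY 12) ((hY 12).diff hIs) (hI' _) h12).trans
      ((add_le_add le_rfl k1).trans (hfin _ _ hMin))
  · refine (hsplit _ _ _ isClosed_cthickening.measurableSet
      (isClosed_cthickening.measurableSet.diff hIs) (hI' _) ?_).trans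
      ((add_le_add le_rfl (k4 h).1).trans (hfin _ _ hMout))
    exact (step_En_mono _ fun x hx => mem_inter (hNU hx.1) hx.1).trans (k4 h).2

end BEe
end
end
end

-- merged part: Pool.Agent.Work.MP_f0515e_an.Ev.GP3
section
-- merged part: Pool.Agent.Work.MP_f0515e_an.Ev.GP2
section
/-! Linear algebra of double and triple points in a generic direction.

`null_range`: `ContDiff.dimH_range_le`, `measure_zero_of_dimH_lt` (or
`hausdorffMeasure_of_dimH_lt`) and `hausdorffMeasure_pi_real`.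

Plan for `gp_pair`.  Put `W = U ⊔ U'`.  `Bad` is the union of those among `U`, `U'`, `W`,
`W ⊔ span {δ}` which are proper subspaces (`Measure.addHaar_submodule`).  Let `v ∉ Bad`.  If
`W ⊔ span {δ} ≠ ⊤` there is no solution (then take any nonzero `p ∈ U`, `p' ∈ U'`).  Otherwise
consider the subspace `Kv = {(w, w') ∈ U × U' | w - w' ∈ span {v}}`, the kernel of the map
`U × U' → V ⧸ span {v}` (or count dimensions by hand): this map is onto because `W ⊔ span {v} = ⊤`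
(either `W = ⊤`, or `finrank W = 2 m + 1` and `v ∉ W`), so `finrank Kv = 1`.  A generator
`(p, p')` has `p ≠ 0` and `p' ≠ 0`: if `p = 0` then `p' ≠ 0` is a nonzero multiple of `v` in `U'`.
Two solutions differ by an element of `Kv`. -/

open Set Metric Filter Topology MeasureTheory Function BEv
open scoped ENNReal NNReal

noncomputable section
namespace BEe

variable {m : ℕ}

theorem null_range {P : Type} [NormedAddCommGroup P] [NormedSpace ℝ P] [FiniteDimensional ℝ P]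
    {F : P → V m} (hF : ContDiff ℝ 1 F) (h : Module.finrank ℝ P < 2 * m + 2) :
    volume (range F) = 0 := by
  have h1 : dimH (range F) < ((2 * m + 2 : ℕ) : ℝ≥0) := by
    refine lt_of_le_of_lt hF.dimH_range_le ?_
    exact_mod_cast h
  have h2 := hausdorffMeasure_of_dimH_lt h1
  rw [← hausdorffMeasure_pi_real (ι := Fin (2 * m + 2)), Fintype.card_fin]
  exact h2

theorem gp2_null (S : Submodule ℝ (V m)) :
    ∃ B : Set (V m), volume B = 0 ∧ (S ≠ ⊤ → ∀ v, v ∉ B → v ∉ S) := by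
  by_cases h : S = ⊤
  · exact ⟨∅, measure_empty, fun h' => absurd h h'⟩
  · exact ⟨S, Measure.addHaar_submodule volume S h, fun _ _ hv => hv⟩

theorem gp2_dim : Module.finrank ℝ (V m) = 2 * m + 2 := by
  simp [V]

theorem gp2_ne_top {U : Submodule ℝ (V m)} (hU : Module.finrank ℝ U = m + 1) : U ≠ ⊤ := by
  intro h
  rw [h, finrank_top, gp2_dim] at hU
  omega

theorem gp2_ne {U : Submodule ℝ (V m)} (hU : Module.finrank ℝ U = m + 1) :
    ∃ p ∈ U, p ≠ 0 := by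
  refine Submodule.exists_mem_ne_zero_of_ne_bot fun h => ?_
  rw [h, finrank_bot] at hU
  omega

/-- The map `(w, w', c) ↦ w - w' - c v`. -/
def gp2L (U U' : Submodule ℝ (V m)) (v : V m) : (U × U') × ℝ →ₗ[ℝ] V m where
  toFun x := x.1.1 - x.1.2 - x.2 • v
  map_add' x y := by
    simp only [Prod.fst_add, Prod.snd_add, Submodule.coe_add, add_smul]
    abel
  map_smul' c x := by
    simp only [Prod.smul_fst, Prod.smul_snd, Submodule.coe_smul, smul_eq_mul, RingHom.id_apply,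
      smul_sub, mul_smul]

theorem gp2L_apply (U U' : Submodule ℝ (V m)) (v : V m) (x : (U × U') × ℝ) :
    gp2L U U' v x = x.1.1 - x.1.2 - x.2 • v := rfl

theorem gp2_ker (U U' : Submodule ℝ (V m)) (hU : Module.finrank ℝ U = m + 1)
    (hU' : Module.finrank ℝ U' = m + 1) (δ v : V m) (h : U ⊔ U' ⊔ Submodule.span ℝ {δ} = ⊤)
    (hv : U ⊔ U' ≠ ⊤ → v ∉ U ⊔ U') : Module.finrank ℝ (LinearMap.ker (gp2L U U' v)) = 1 := by
  have h1 : U ⊔ U' ≤ LinearMap.range (gp2L U U' v) := by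
    refine sup_le (fun w hw => ⟨((⟨w, hw⟩, 0), 0), ?_⟩) fun w hw => ⟨((0, -⟨w, hw⟩), 0), ?_⟩
    · simp [gp2L_apply]
    · simp [gp2L_apply]
  have h2 : v ∈ LinearMap.range (gp2L U U' v) := ⟨((0, 0), -1), by simp [gp2L_apply]⟩
  have h3 : Module.finrank ℝ (LinearMap.range (gp2L U U' v)) = 2 * m + 2 := by
    by_cases ht : U ⊔ U' = ⊤
    · rw [ht, top_le_iff] at h1
      rw [h1, finrank_top, gp2_dim]
    · have h4 : U ⊔ U' < LinearMap.range (gp2L U U' v) :=
        lt_of_le_of_ne h1 fun e => hv ht (e ▸ h2)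
      have h5 := Submodule.finrank_lt_finrank_of_lt h4
      have h6 := Submodule.finrank_add_le_finrank_add_finrank (U ⊔ U') (Submodule.span ℝ {δ})
      rw [h, finrank_top, gp2_dim] at h6
      have h7 : Module.finrank ℝ (Submodule.span ℝ ({δ} : Set (V m))) ≤ 1 :=
        (finrank_span_le_card ({δ} : Set (V m))).trans (by simp)
      have h8 := Submodule.finrank_le (LinearMap.range (gp2L U U' v))
      rw [gp2_dim] at h8
      omega
  have h4 := LinearMap.finrank_range_add_finrank_ker (gp2L U U' v)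
  rw [h3, Module.finrank_prod, Module.finrank_prod, hU, hU', Module.finrank_self] at h4
  omega

theorem gp2_one {E : Type} [AddCommGroup E] [Module ℝ E] (K : Submodule ℝ E)
    (h : Module.finrank ℝ K = 1) : ∃ k ∈ K, k ≠ 0 ∧ ∀ w ∈ K, ∃ c : ℝ, c • k = w := by
  obtain ⟨k, hk, hg⟩ := finrank_eq_one_iff'.mp h
  refine ⟨k, k.2, fun e => hk (Subtype.ext e), fun w hw => ?_⟩
  obtain ⟨c, hc⟩ := hg ⟨w, hw⟩
  exact ⟨c, congrArg Subtype.val hc⟩

theorem gp2_gen (U U' : Submodule ℝ (V m)) (v : V m) (hv : v ∉ U) (hv' : v ∉ U')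
    (h : Module.finrank ℝ (LinearMap.ker (gp2L U U' v)) = 1) :
    ∃ p ∈ U, ∃ p' ∈ U', p ≠ 0 ∧ p' ≠ 0 ∧ ∀ w ∈ U, ∀ w' ∈ U', ∀ c : ℝ, w - w' = c • v →
      ∃ t : ℝ, w = t • p ∧ w' = t • p' := by
  obtain ⟨⟨⟨p, p'⟩, c0⟩, hk, hk0, hg⟩ := gp2_one (E := (U × U') × ℝ) _ h
  have e : (p : V m) - p' = c0 • v := sub_eq_zero.mp hk
  have hc : (p : V m) = 0 ∨ (p' : V m) = 0 → False := by
    intro hp
    have hc0 : c0 = 0 := by
      by_contra hc0
      rcases hp with hp | hp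
      · rw [hp, zero_sub] at e
        exact hv' ((U'.smul_mem_iff hc0).mp (e ▸ U'.neg_mem p'.2))
      · rw [hp, sub_zero] at e
        exact hv ((U.smul_mem_iff hc0).mp (e ▸ p.2))
    rw [hc0, zero_smul, sub_eq_zero] at e
    have h1 : (p : V m) = 0 := hp.elim id fun h => e.trans h
    have h2 : (p' : V m) = 0 := e.symm.trans h1
    exact hk0 (Prod.ext (Prod.ext (Subtype.ext h1) (Subtype.ext h2)) hc0)
  refine ⟨p, p.2, p', p'.2, fun h => hc (Or.inl h), fun h => hc (Or.inr h),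
    fun w hw w' hw' c hw2 => ?_⟩
  obtain ⟨t, ht⟩ := hg ((⟨w, hw⟩, ⟨w', hw'⟩), c) (sub_eq_zero.mpr hw2)
  have h1 := congrArg (fun x : (U × U') × ℝ => (x.1.1 : V m)) ht
  have h2 := congrArg (fun x : (U × U') × ℝ => (x.1.2 : V m)) ht
  exact ⟨t, h1.symm, h2.symm⟩

theorem gp_pair (U U' : Submodule ℝ (V m)) (hU : Module.finrank ℝ U = m + 1)
    (hU' : Module.finrank ℝ U' = m + 1) (δ : V m) :
    ∃ Bad : Set (V m), volume Bad = 0 ∧ ∀ v, v ∉ Bad → ∃ a p a' p' : V m,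
      a ∈ U ∧ p ∈ U ∧ a' ∈ U' ∧ p' ∈ U' ∧ p ≠ 0 ∧ p' ≠ 0 ∧
      ∀ w ∈ U, ∀ w' ∈ U', ∀ c : ℝ, c ≠ 0 → δ + w - w' = c • v →
        ∃ t : ℝ, w = a + t • p ∧ w' = a' + t • p' := by
  obtain ⟨B1, n1, h1⟩ := gp2_null U
  obtain ⟨B2, n2, h2⟩ := gp2_null U'
  obtain ⟨B3, n3, h3⟩ := gp2_null (U ⊔ U')
  obtain ⟨B4, n4, h4⟩ := gp2_null (U ⊔ U' ⊔ Submodule.span ℝ {δ})
  refine ⟨B1 ∪ B2 ∪ B3 ∪ B4,
    measure_union_null (measure_union_null (measure_union_null n1 n2) n3) n4, fun v hv => ?_⟩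
  simp only [mem_union, not_or] at hv
  obtain ⟨⟨⟨v1, v2⟩, v3⟩, v4⟩ := hv
  by_cases ht : U ⊔ U' ⊔ Submodule.span ℝ {δ} = ⊤
  · obtain ⟨p, hp, p', hp', p0, p0', hg⟩ := gp2_gen U U' v (h1 (gp2_ne_top hU) v v1)
      (h2 (gp2_ne_top hU') v v2) (gp2_ker U U' hU hU' δ v ht fun h => h3 h v v3)
    by_cases hs : ∃ a ∈ U, ∃ a' ∈ U', ∃ c0 : ℝ, δ + a - a' = c0 • v
    · obtain ⟨a, ha, a', ha', c0, e0⟩ := hs
      refine ⟨a, p, a', p', ha, hp, ha', hp', p0, p0', fun w hw w' hw' c _ e => ?_⟩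
      obtain ⟨t, t1, t2⟩ := hg (w - a) (U.sub_mem hw ha) (w' - a') (U'.sub_mem hw' ha') (c - c0)
        (by
          rw [sub_smul, ← e, ← e0]
          abel)
      exact ⟨t, by rw [← t1]; abel, by rw [← t2]; abel⟩
    · exact ⟨0, p, 0, p', U.zero_mem, hp, U'.zero_mem, hp', p0, p0',
        fun w hw w' hw' c _ e => absurd ⟨w, hw, w', hw', c, e⟩ hs⟩
  · obtain ⟨p, hp, p0⟩ := gp2_ne hU
    obtain ⟨p', hp', p0'⟩ := gp2_ne hU'
    refine ⟨0, p, 0, p', U.zero_mem, hp, U'.zero_mem, hp', p0, p0', fun w hw w' hw' c hc e => ?_⟩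
    refine absurd ((Submodule.smul_mem_iff _ hc).mp ?_) (h4 ht v v4)
    rw [← e]
    exact Submodule.sub_mem _ (Submodule.add_mem _
      (Submodule.mem_sup_right (Submodule.mem_span_singleton_self δ))
      (Submodule.mem_sup_left (Submodule.mem_sup_left hw)))
      (Submodule.mem_sup_left (Submodule.mem_sup_right hw'))

end BEe
end
end

-- merged part: Pool.Agent.Work.MP_f0515e_an.Ev.GP2b
section
/-! No triple points in a generic direction.

Plan for `gp_triple`.  With `κ = c' / c ∉ {0, 1}` a solution satisfies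
`(1 - κ) • w + κ • w' - w'' = κ • δ - δ'` and `v = c⁻¹ • (δ + w - w')`.  Put `W3 = U ⊔ U' ⊔ U''` and
let `L : U × U' × U'' → V`, `L (a, a', a'') = a + a' - a''`, with range `W3`.
Case `W3 = ⊤`: `finrank (ker L) = m + 1`; take a linear right inverse `σ` of `L`
(`LinearMap.exists_rightInverse_of_surjective`).  Then
`((1 - κ) • w, κ • w', w'') = σ (κ • δ - δ') + k`, `k ∈ ker L`, so `v` lies in the range of the
polynomial map `(u, κ, k) ↦ u • ((κ * (1 - κ)) • δ + κ • z.1 - (1 - κ) • z.2.1)`,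
`z = σ (κ • δ - δ') + k`, defined on `ℝ × ℝ × ker L` of dimension `m + 3 < 2 m + 2`
(`u = 1 / (c * κ * (1 - κ))`).
Case `W3 ⊔ span {δ} ≠ ⊤`: `v` lies in this proper subspace.
Remaining case: `finrank W3 = 2 m + 1`, `δ ∉ W3`, so `κ` is determined by `κ • δ - δ' ∈ W3`; for
this `κ0` fix one `z0` with `L z0 = κ0 • δ - δ'`; `finrank (ker L) = m + 2` and `v` lies in the
range of `(u, k) ↦ u • ((κ0 * (1 - κ0)) • δ + κ0 • z.1 - (1 - κ0) • z.2.1)`, `z = z0 + k`, on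
`ℝ × ker L` of dimension `m + 3`. -/

open Set Metric Filter Topology MeasureTheory Function BEv
open scoped ENNReal NNReal

noncomputable section
namespace BEe

variable {m : ℕ}

/-- The linear relation between the ratio and the three points. -/
def gp2b_M (U U' U'' : Submodule ℝ (V m)) (δ : V m) : (ℝ × U × U' × U'') →ₗ[ℝ] V m where
  toFun y := (y.2.1 : V m) + (y.2.2.1 : V m) - (y.2.2.2 : V m) - y.1 • δ
  map_add' y z := by
    simp only [Prod.fst_add, Prod.snd_add, Submodule.coe_add, add_smul]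
    abel
  map_smul' t y := by
    simp only [Prod.smul_fst, Prod.smul_snd, Submodule.coe_smul, smul_eq_mul, RingHom.id_apply,
      smul_sub, smul_add, mul_smul]

theorem gp2b_M_apply (U U' U'' : Submodule ℝ (V m)) (δ : V m) (y : ℝ × U × U' × U'') :
    gp2b_M U U' U'' δ y = (y.2.1 : V m) + (y.2.2.1 : V m) - (y.2.2.2 : V m) - y.1 • δ := rfl

theorem gp2b_cd_val {P : Type} [NormedAddCommGroup P] [NormedSpace ℝ P] (K : Submodule ℝ P) :
    ContDiff ℝ 1 fun k : K => (k : P) := K.subtypeL.contDiff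

/-- The direction attached to a solution of the relation. -/
def gp2b_G (U U' U'' : Submodule ℝ (V m)) (δ : V m) (p : ℝ × ℝ × U × U' × U'') : V m :=
  p.1 • ((p.2.1 * (1 - p.2.1)) • δ + p.2.1 • (p.2.2.1 : V m) - (1 - p.2.1) • (p.2.2.2.1 : V m))

theorem gp2b_G_cd (U U' U'' : Submodule ℝ (V m)) (δ : V m) :
    ContDiff ℝ 1 (gp2b_G U U' U'' δ) := by
  have h1 : ContDiff ℝ 1 fun p : ℝ × ℝ × U × U' × U'' => (p.2.2.1 : V m) :=
    U.subtypeL.contDiff.comp contDiff_snd.snd.fst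
  have h2 : ContDiff ℝ 1 fun p : ℝ × ℝ × U × U' × U'' => (p.2.2.2.1 : V m) :=
    U'.subtypeL.contDiff.comp contDiff_snd.snd.snd.fst
  have h3 : ContDiff ℝ 1 fun p : ℝ × ℝ × U × U' × U'' => p.2.1 := contDiff_snd.fst
  have h4 : ContDiff ℝ 1 fun p : ℝ × ℝ × U × U' × U'' => 1 - p.2.1 := contDiff_const.sub h3
  exact contDiff_fst.smul ((((h3.mul h4).smul contDiff_const).add (h3.smul h1)).sub (h4.smul h2))

theorem gp_triple (hm : 2 ≤ m) (U U' U'' : Submodule ℝ (V m)) (hU : Module.finrank ℝ U = m + 1)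
    (hU' : Module.finrank ℝ U' = m + 1) (hU'' : Module.finrank ℝ U'' = m + 1) (δ δ' : V m) :
    ∃ Bad : Set (V m), volume Bad = 0 ∧ ∀ v, v ∉ Bad → ∀ w ∈ U, ∀ w' ∈ U', ∀ w'' ∈ U'',
      ∀ c c' : ℝ, c ≠ 0 → c' ≠ 0 → c ≠ c' → δ + w - w' = c • v → δ' + w - w'' = c' • v →
        False := by
  by_cases hM : LinearMap.range (gp2b_M U U' U'' δ) = ⊤
  · obtain ⟨y0, hy0⟩ : -δ' ∈ LinearMap.range (gp2b_M U U' U'' δ) := hM ▸ Submodule.mem_top
    have hk : Module.finrank ℝ (LinearMap.ker (gp2b_M U U' U'' δ)) = m + 2 := by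
      have h := LinearMap.finrank_range_add_finrank_ker (gp2b_M U U' U'' δ)
      rw [hM, finrank_top, Module.finrank_prod, Module.finrank_prod, Module.finrank_prod, hU, hU',
        hU'', Module.finrank_self, Module.finrank_fin_fun] at h
      omega
    have hF0 : ContDiff ℝ 1 fun k : LinearMap.ker (gp2b_M U U' U'' δ) =>
        (k : ℝ × U × U' × U'') := gp2b_cd_val _
    have hF1 : ContDiff ℝ 1 fun p : ℝ × LinearMap.ker (gp2b_M U U' U'' δ) =>
        (p.1, y0 + (p.2 : ℝ × U × U' × U'')) :=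
      contDiff_fst.prodMk (contDiff_const.add (hF0.comp contDiff_snd))
    have hF : ContDiff ℝ 1 fun p : ℝ × LinearMap.ker (gp2b_M U U' U'' δ) =>
        gp2b_G U U' U'' δ (p.1, y0 + (p.2 : ℝ × U × U' × U'')) :=
      (gp2b_G_cd U U' U'' δ).comp hF1
    refine ⟨_, null_range hF (by rw [Module.finrank_prod, hk, Module.finrank_self]; omega), ?_⟩
    intro v hv w hw w' hw' w'' hw'' c c' hc hc' hcc e1 e2
    apply hv
    have hκ : 1 - c' / c ≠ 0 := by
      rw [sub_ne_zero]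
      intro h
      exact hcc (by field_simp at h; exact h)
    have hκ0 : c' / c ≠ 0 := div_ne_zero hc' hc
    have e3 : δ' + w - w'' = (c' / c) • (δ + w - w') := by
      rw [e1, e2, smul_smul, div_mul_cancel₀ _ hc]
    let y : ℝ × U × U' × U'' := (c' / c, ⟨(1 - c' / c) • w, U.smul_mem _ hw⟩,
      ⟨(c' / c) • w', U'.smul_mem _ hw'⟩, ⟨w'', hw''⟩)
    have hy : y - y0 ∈ LinearMap.ker (gp2b_M U U' U'' δ) := by
      rw [LinearMap.mem_ker, map_sub, hy0, gp2b_M_apply]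
      change (1 - c' / c) • w + (c' / c) • w' - w'' - (c' / c) • δ - -δ' = 0
      have e4 : (1 - c' / c) • w + (c' / c) • w' - w'' - (c' / c) • δ - -δ' =
          (δ' + w - w'') - (c' / c) • (δ + w - w') := by module
      rw [e4, e3, sub_self]
    refine ⟨((c * (c' / c * (1 - c' / c)))⁻¹, ⟨y - y0, hy⟩), ?_⟩
    change gp2b_G U U' U'' δ ((c * (c' / c * (1 - c' / c)))⁻¹, y0 + (y - y0)) = v
    rw [add_sub_cancel]
    change (c * (c' / c * (1 - c' / c)))⁻¹ • ((c' / c * (1 - c' / c)) • δ +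
      (c' / c) • ((1 - c' / c) • w) - (1 - c' / c) • ((c' / c) • w')) = v
    have e5 : (c' / c * (1 - c' / c)) • δ + (c' / c) • ((1 - c' / c) • w) -
        (1 - c' / c) • ((c' / c) • w') = (c' / c * (1 - c' / c)) • (δ + w - w') := by module
    rw [e5, e1, smul_smul, smul_smul, mul_assoc, mul_comm _ c,
      inv_mul_cancel₀ (mul_ne_zero hc (mul_ne_zero hκ0 hκ)), one_smul]
  · refine ⟨_, Measure.addHaar_submodule volume _ hM, ?_⟩
    intro v hv w hw w' hw' w'' _ c c' hc _ _ e1 _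
    apply hv
    refine ⟨(-c⁻¹, ⟨c⁻¹ • w, U.smul_mem _ hw⟩, ⟨-c⁻¹ • w', U'.smul_mem _ hw'⟩, 0), ?_⟩
    rw [gp2b_M_apply]
    change c⁻¹ • w + -c⁻¹ • w' - 0 - -c⁻¹ • δ = v
    have e4 : c⁻¹ • w + -c⁻¹ • w' - 0 - -c⁻¹ • δ = c⁻¹ • (δ + w - w') := by module
    rw [e4, e1, smul_smul, inv_mul_cancel₀ hc, one_smul]

end BEe
end
end

-- merged part: Pool.Agent.Work.MP_f0515e_an.Ev.GP3
section
/-! A direction which is generic for all maps keeping the rational points.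

Plan.  A face datum is a triple `(A, T, z)`: an injective rational affine map `A` (`RatA`),
`T : Finset (Fin (2 * m + 2))` with `T.card = m + 1`, `z : Fin (2 * m + 2) → ℤ`.  There are
countably many (`countable_RatA`).  To it attach the coordinate subspace `VT T` (vectors vanishing
off `T`; `finrank = m + 1`, e.g. the span of the linearly independent `Pi.single i 1`, `i ∈ T`, or
the range of the extension by zero from `T → ℝ`), `U = (VT T).map A.1` (`finrank = m + 1` by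
injectivity) and `f = A.1 z + A.2`.  Choose (`choose`) the null sets of `gp_pair`
(`δ = f - f'`) for all pairs and of `gp_triple` (`δ = f - f'`, `δ' = f - f''`) for all triples of
face data, add the hyperplane `v 0 = 0`, and take `v` outside the countable union (null, while
`univ` has positive measure; see `BEv.genpos_avoid`).  A point `x` with `mu x = 0`, `‖x‖ ≤ R` is
`z + y` with `z i = round (x i)` (bounded by `R + 1`, so finitely many `z`), `y ∈ VT T`, where `T`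
is the complement of the set `S` of `mu_eq_zero_iff`; to get `y i = 0` off `T` use
`round (k : ℝ) = k`.  With the piece `A` of `IsW.pieces` at `x`, `Γ x = f + A.1 y`.  If
`pj v (Γ x) = pj v (Γ x')` then `Γ x - Γ x' = c • v` with `c = ell v (Γ x) - ell v (Γ x')`, and
`c ≠ 0` for `x ≠ x'` as `Γ` is injective.  The line of `gp_pair` is pulled back by the injective maps
`A.1`, `A'.1` (write `a = A.1 a0`, `p = A.1 p0`, base point `(z + a0, z' + a0')`).  For triples take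
`R` larger than the three norms; `c ≠ c'` because `x' ≠ x''`. -/

open Set Metric Filter Topology MeasureTheory Function BEv
open scoped ENNReal NNReal

noncomputable section
namespace BEe

variable {m : ℕ}

/-- Face data. -/
def gp3_FD (m : ℕ) : Set (((V m →L[ℝ] V m) × V m) × Finset (Fin (2 * m + 2)) ×
    (Fin (2 * m + 2) → ℤ)) :=
  {d | RatA d.1 ∧ Injective d.1.1 ∧ d.2.1.card = m + 1}

theorem gp3_countable (m : ℕ) : (gp3_FD m).Countable :=
  ((countable_RatA m).prod (countable_univ (α := Finset (Fin (2 * m + 2)) ×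
    (Fin (2 * m + 2) → ℤ)))).mono fun _ hd => mk_mem_prod hd.1 (mem_univ _)

def gp3_cast (z : Fin (2 * m + 2) → ℤ) : V m := fun i => (z i : ℝ)

def gp3_VT (T : Finset (Fin (2 * m + 2))) : Submodule ℝ (V m) := Pi.spanSubset ℝ (T : Set _)

def gp3_U (d : gp3_FD m) : Submodule ℝ (V m) :=
  (gp3_VT d.1.2.1).map (d.1.1.1 : V m →ₗ[ℝ] V m)

def gp3_f (d : gp3_FD m) : V m := d.1.1.1 (gp3_cast d.1.2.2) + d.1.1.2

theorem gp3_finrank (d : gp3_FD m) : Module.finrank ℝ (gp3_U d) = m + 1 := by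
  have h := (Submodule.equivMapOfInjective (d.1.1.1 : V m →ₗ[ℝ] V m) d.2.2.1
    (gp3_VT d.1.2.1)).finrank_eq
  rw [gp3_U, ← h, gp3_VT, Pi.dim_spanSubset, ncard_coe_finset, d.2.2.2]

/-- The finitely many face data which describe the skeleton in a ball. -/
theorem gp3_faces {Γ : V m → V m} (h : IsW Γ) (R : ℝ) :
    ∃ D : Set (gp3_FD m), D.Finite ∧ ∀ x, mu x = 0 → ‖x‖ ≤ R → ∃ d ∈ D, ∃ y ∈ gp3_VT d.1.2.1,
      x = gp3_cast d.1.2.2 + y ∧ Γ x = gp3_f d + d.1.1.1 y := by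
  obtain ⟨S, hS, hA, hx⟩ := h.pieces R
  have hZ : (Set.pi univ fun _ : Fin (2 * m + 2) => Icc (-⌈R + 1⌉) ⌈R + 1⌉).Finite :=
    Finite.pi fun _ => finite_Icc _ _
  have hF := (hS.prod ((finite_univ (α := Finset (Fin (2 * m + 2)))).prod hZ)).preimage
    (f := (Subtype.val : gp3_FD m → _)) Subtype.val_injective.injOn
  refine ⟨_, hF, fun x h0 hR => ?_⟩
  obtain ⟨A, hAS, hAx⟩ := hx x (mem_closedBall_zero_iff.2 hR)
  obtain ⟨T, hT, hTx⟩ := mu_eq_zero_iff.1 h0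
  have hc : Tᶜ.card = m + 1 := by
    rw [Finset.card_compl, hT, Fintype.card_fin]
    omega
  refine ⟨⟨(A, Tᶜ, fun i => round (x i)), (hA A hAS).1, (hA A hAS).2, hc⟩,
    ⟨hAS, mem_univ _, fun i _ => ?_⟩, x - gp3_cast fun i => round (x i), ?_, ?_, ?_⟩
  · have h1 := abs_le.1 (abs_sub_round (x i))
    have h2 := abs_le.1 ((norm_le_pi_norm x i).trans hR)
    have h3 := Int.le_ceil (R + 1)
    constructor
    · have : ((-⌈R + 1⌉ : ℤ) : ℝ) ≤ (round (x i) : ℝ) := by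
        push_cast
        linarith only [h1, h2, h3, h1.2, h2.1]
      exact_mod_cast this
    · have : (round (x i) : ℝ) ≤ ((⌈R + 1⌉ : ℤ) : ℝ) := by linarith only [h1, h2, h3, h1.1, h2.2]
      exact_mod_cast this
  · refine Pi.mem_spanSubset_iff.2 fun i hi => ?_
    have hi' : i ∈ T := by simpa using hi
    obtain ⟨k, hk⟩ := hTx i hi'
    simp [gp3_cast, hk]
  · simp
  · simp only [gp3_f, map_sub, hAx]
    abel

theorem gp3_sub {v a b : V m} (h : pj v a = pj v b) : a - b = (ell v a - ell v b) • v := by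
  have h1 : a - b = pj v a - pj v b + (ell v a - ell v b) • v := by
    simp only [pj, sub_smul]
    abel
  rw [h1, h, sub_self, zero_add]

theorem exists_GP (hm : 2 ≤ m) : ∃ v : V m, v 0 ≠ 0 ∧ ∀ Γ : V m → V m, IsW Γ → GP v Γ := by
  have : Countable (gp3_FD m) := (gp3_countable m).to_subtype
  choose B2 hB2 hP using fun p : gp3_FD m × gp3_FD m =>
    gp_pair (gp3_U p.1) (gp3_U p.2) (gp3_finrank _) (gp3_finrank _) (gp3_f p.1 - gp3_f p.2)
  choose B3 hB3 hT using fun p : gp3_FD m × gp3_FD m × gp3_FD m =>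
    gp_triple hm (gp3_U p.1) (gp3_U p.2.1) (gp3_U p.2.2) (gp3_finrank _) (gp3_finrank _)
      (gp3_finrank _) (gp3_f p.1 - gp3_f p.2.1) (gp3_f p.1 - gp3_f p.2.2)
  have hK : volume ((LinearMap.ker (LinearMap.proj 0 : V m →ₗ[ℝ] ℝ) : Submodule ℝ (V m)) :
      Set (V m)) = 0 := by
    refine Measure.addHaar_submodule volume _ fun h => ?_
    have h1 : (fun _ => 1 : V m) ∈ LinearMap.ker (LinearMap.proj 0 : V m →ₗ[ℝ] ℝ) := by
      rw [h]
      trivial
    simp at h1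
  have h0 := measure_union_null hK
    (measure_union_null (measure_iUnion_null hB2) (measure_iUnion_null hB3))
  obtain ⟨v, hv⟩ : ∃ v : V m, v ∉ ((LinearMap.ker (LinearMap.proj 0 : V m →ₗ[ℝ] ℝ) :
      Submodule ℝ (V m)) : Set (V m)) ∪ ((⋃ p, B2 p) ∪ ⋃ p, B3 p) := by
    rw [← ne_univ_iff_exists_notMem]
    intro h
    rw [h] at h0
    exact (isOpen_univ.measure_pos volume univ_nonempty).ne' h0
  simp only [mem_union, mem_iUnion, not_or, not_exists] at hv
  obtain ⟨hv0, hv2, hv3⟩ := hv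
  refine ⟨v, fun h => hv0 (by simpa using h), fun Γ hΓ => ?_⟩
  have hinj : Injective Γ := hΓ.1.1.injective
  have hne : ∀ {x x' : V m}, x ≠ x' → pj v (Γ x) = pj v (Γ x') →
      ell v (Γ x) - ell v (Γ x') ≠ 0 := fun hx hp hc => by
    have h1 := gp3_sub hp
    rw [hc, zero_smul, sub_eq_zero] at h1
    exact hx (hinj h1)
  constructor
  · intro R
    classical
    obtain ⟨D, hD, hx⟩ := gp3_faces hΓ R
    have hL : ∀ p : gp3_FD m × gp3_FD m, ∃ l : Ln m, (l.2.1 ≠ 0 ∧ l.2.2 ≠ 0) ∧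
        ∀ y ∈ gp3_VT p.1.1.2.1, ∀ y' ∈ gp3_VT p.2.1.2.1, ∀ c : ℝ, c ≠ 0 →
          gp3_f p.1 - gp3_f p.2 + p.1.1.1.1 y - p.2.1.1.1 y' = c • v →
          ∃ t, l.pt t = (gp3_cast p.1.1.2.2 + y, gp3_cast p.2.1.2.2 + y') := by
      intro p
      obtain ⟨a, q, a', q', ⟨a0, -, rfl⟩, ⟨q0, -, rfl⟩, ⟨a0', -, rfl⟩, ⟨q0', -, rfl⟩, hq, hq', h⟩ :=
        hP p v (hv2 p)
      refine ⟨((gp3_cast p.1.1.2.2 + a0, gp3_cast p.2.1.2.2 + a0'), (q0, q0')),
        ⟨fun e => hq (by simp only at e; rw [e, map_zero]),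
          fun e => hq' (by simp only at e; rw [e, map_zero])⟩, fun y hy y' hy' c hc he => ?_⟩
      obtain ⟨t, h1, h2⟩ := h _ (Submodule.mem_map_of_mem hy) _ (Submodule.mem_map_of_mem hy')
        c hc he
      rw [← map_smul, ← map_add] at h1 h2
      have h3 : y = a0 + t • q0 := p.1.2.2.1 h1
      have h4 : y' = a0' + t • q0' := p.2.2.2.1 h2
      refine ⟨t, ?_⟩
      rw [h3, h4]
      simp only [Ln.pt, Prod.smul_mk, Prod.mk_add_mk, add_assoc]
    choose l hl hl' using hL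
    refine ⟨((hD.prod hD).image l).toFinset, fun l' h => ?_, fun x x' h0 h0' hR hR' hx' hp => ?_⟩
    · obtain ⟨p, -, rfl⟩ := (Finite.mem_toFinset _).1 h
      exact hl p
    · obtain ⟨d, hd, y, hy, e1, e2⟩ := hx x h0 hR
      obtain ⟨d', hd', y', hy', e1', e2'⟩ := hx x' h0' hR'
      obtain ⟨t, ht⟩ := hl' (d, d') y hy y' hy' _ (hne hx' hp) (by
        rw [← gp3_sub hp, e2, e2']
        abel)
      exact ⟨l (d, d'), (Finite.mem_toFinset _).2 (mem_image_of_mem _ ⟨hd, hd'⟩), t,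
        by rw [ht, ← e1, ← e1']⟩
  · intro x x' x'' h0 h0' h0'' hp hp'
    by_contra hn
    simp only [not_or] at hn
    obtain ⟨n1, n2, n3⟩ := hn
    obtain ⟨D, -, hx⟩ := gp3_faces hΓ (max ‖x‖ (max ‖x'‖ ‖x''‖))
    obtain ⟨d, -, y, hy, -, e2⟩ := hx x h0 (le_max_left _ _)
    obtain ⟨d', -, y', hy', -, e2'⟩ := hx x' h0' ((le_max_left _ _).trans (le_max_right _ _))
    obtain ⟨d'', -, y'', hy'', -, e2''⟩ :=
      hx x'' h0'' ((le_max_right _ _).trans (le_max_right _ _))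
    refine hT (d, d', d'') v (hv3 _) _ (Submodule.mem_map_of_mem hy) _
      (Submodule.mem_map_of_mem hy') _ (Submodule.mem_map_of_mem hy'') _ _ (hne n1 hp)
      (hne n2 hp') (fun e => hne n3 (hp.symm.trans hp') (by linarith only [e])) ?_ ?_
    · rw [← gp3_sub hp, e2, e2']
      simp only [ContinuousLinearMap.coe_coe]
      abel
    · rw [← gp3_sub hp', e2, e2'']
      simp only [ContinuousLinearMap.coe_coe]
      abel

end BEe
end
end
end
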