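import Pool.Agent.Work.MP_f0515e_an.UnitG

-- merged part: Pool.Agent.Work.MP_f0515e_an.Ev.Per
section
/-! Order statistics of the distances to the integers and the contraction maps. -/

open Set Metric Filter Topology MeasureTheory Function BEv
open scoped ENNReal NNReal

noncomputable section
namespace BEe

variable {m : ℕ} {τ : ℝ} {K : ℕ}

theorem norm_pr_le_iff {T : Finset (Fin (2 * m + 2))} {x : V m} {c : ℝ} (hc : 0 ≤ c) :
    ‖pr T x‖ ≤ c ↔ ∀ i ∈ T, |x i| ≤ c := by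
  rw [pi_norm_le_iff_of_nonneg hc]
  refine forall_congr' fun i => ?_
  unfold pr
  by_cases h : i ∈ T <;> simp [h, hc]

theorem norm_pr_le (T : Finset (Fin (2 * m + 2))) (x : V m) : ‖pr T x‖ ≤ ‖x‖ :=
  (norm_pr_le_iff (norm_nonneg _)).2 fun i _ => norm_le_pi_norm x i

theorem pr_sub (T : Finset (Fin (2 * m + 2))) (x y : V m) : pr T (x - y) = pr T x - pr T y := by
  funext i
  simp only [pr, Pi.sub_apply]
  split_ifs
  · rfl
  · rw [sub_zero]

theorem tp_pr {E : Type} [NormedAddCommGroup E] [NormedSpace ℝ E] {f : E → V m} (hf : TP f)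
    (T : Finset (Fin (2 * m + 2))) : TP (fun x => pr T (f x)) := by
  refine TP.pi fun i => ?_
  unfold pr
  split_ifs
  · exact hf.apply i
  · exact TP.const _

theorem per_pr (T : Finset (Fin (2 * m + 2))) (x y : V m) : |‖pr T x‖ - ‖pr T y‖| ≤ ‖x - y‖ := by
  refine (abs_norm_sub_norm_le _ _).trans ?_
  rw [← pr_sub]
  exact norm_pr_le _ _

theorem mk_nonneg (k : ℕ) (x : V m) : 0 ≤ mk k x :=
  le_cmin _ _ _ (by norm_num) fun _ _ => norm_nonneg _

theorem mk_le_half (k : ℕ) (x : V m) : mk k x ≤ 1 / 2 :=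
  cmin_le_cap _ _ _

theorem mk_le_iff {k : ℕ} (hk : k ≤ 2 * m + 2) {x : V m} {t : ℝ} (ht : 0 ≤ t) :
    mk k x ≤ t ↔ ∃ S : Finset (Fin (2 * m + 2)), S.card = k ∧ ∀ i ∈ S, dd (x i) ≤ t := by
  constructor
  · intro h
    rcases cmin_eq (Finset.powersetCard k Finset.univ) (1 / 2)
      (fun S => ‖pr S (fun i => dd (x i))‖) with h1 | ⟨S, hS, h1⟩
    · obtain ⟨S, -, hS⟩ := Finset.exists_subset_card_eq
        (s := (Finset.univ : Finset (Fin (2 * m + 2)))) (n := k) (by simpa using hk)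
      exact ⟨S, hS, fun i _ => (dd_le_half _).trans (h1.symm.le.trans h)⟩
    · refine ⟨S, (Finset.mem_powersetCard.1 hS).2, fun i hi => ?_⟩
      exact (le_abs_self _).trans ((norm_pr_le_iff ht).1 (h1.symm.le.trans h) i hi)
  · rintro ⟨S, hS, h⟩
    refine (cmin_le _ _ _ (Finset.mem_powersetCard.2 ⟨Finset.subset_univ _, hS⟩)).trans ?_
    exact (norm_pr_le_iff ht).2 fun i hi => by
      rw [abs_of_nonneg (dd_nonneg _)]
      exact h i hi

/-- Fewer than `k` coordinates are strictly closer to the integers than `mk k`. -/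
theorem card_lt_mk {k : ℕ} (hk0 : 1 ≤ k) (hk : k ≤ 2 * m + 2) (x : V m) :
    (Finset.univ.filter fun i => dd (x i) < mk k x).card < k := by
  by_contra h
  obtain ⟨S, h2, hS⟩ := Finset.exists_subset_card_eq (n := k) (not_lt.1 h)
  obtain ⟨i, hi, h3⟩ := S.exists_max_image (fun i => dd (x i)) (Finset.card_pos.1 (by omega))
  exact absurd ((mk_le_iff hk (dd_nonneg _)).2 ⟨S, hS, h3⟩)
    (not_le.2 (Finset.mem_filter.1 (h2 hi)).2)

theorem abs_mk_sub_le (k : ℕ) (x y : V m) : |mk k x - mk k y| ≤ ‖x - y‖ := by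
  refine abs_cmin_sub_le _ _ _ (by simp) fun S _ => (per_pr S _ _).trans ?_
  exact (pi_norm_le_iff_of_nonneg (norm_nonneg _)).2 fun i =>
    (abs_dd_sub_le _ _).trans (norm_le_pi_norm (x - y) i)

theorem tp_mk (k : ℕ) : TP (mk k : V m → ℝ) :=
  TP.cmin _ (TP.const _) fun S _ =>
    (tp_pr (TP.pi (f := fun (x : V m) i => dd (x i)) fun i => tp_dd.comp (TP.id'.apply i))
      S).norm_pi

theorem mu_nonneg (x : V m) : 0 ≤ mu x := mk_nonneg _ x

theorem mu_le_iff {x : V m} {t : ℝ} (ht : 0 ≤ t) :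
    mu x ≤ t ↔ ∃ S : Finset (Fin (2 * m + 2)), S.card = m + 1 ∧ ∀ i ∈ S, dd (x i) ≤ t :=
  mk_le_iff (by omega) ht

/-- Points of the skeleton have at least `m + 1` integer coordinates. -/
theorem mu_eq_zero_iff {x : V m} :
    mu x = 0 ↔ ∃ S : Finset (Fin (2 * m + 2)), S.card = m + 1 ∧ ∀ i ∈ S, ∃ k : ℤ, x i = k := by
  rw [← (mu_nonneg x).ge_iff_eq', mu_le_iff le_rfl]
  refine exists_congr fun S => and_congr_right fun _ => forall₂_congr fun i _ => ?_
  rw [(dd_nonneg _).ge_iff_eq', dd_eq_zero_iff]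

theorem abs_mu_sub_le (x y : V m) : |mu x - mu y| ≤ ‖x - y‖ := abs_mk_sub_le _ x y

theorem tp_mu : TP (mu : V m → ℝ) := tp_mk _

theorem be_nonneg (x : V m) : 0 ≤ be x := mk_nonneg _ _

theorem be_le_half (x : V m) : be x ≤ 1 / 2 := mk_le_half _ _

theorem be_le_iff {x : V m} {t : ℝ} (ht : 0 ≤ t) :
    be x ≤ t ↔ ∃ S : Finset (Fin (2 * m + 2)), S.card = m + 2 ∧ ∀ i ∈ S, dd (x i - 1 / 2) ≤ t :=
  mk_le_iff (by omega) ht

theorem card_lt_be (x : V m) :
    (Finset.univ.filter fun i => dd (x i - 1 / 2) < be x).card ≤ m + 1 :=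
  Nat.lt_succ_iff.1 (card_lt_mk (k := m + 2) (by omega) (by omega) (x - hlf))

/-- At least `m + 1` coordinates are at distance at least `be` from the half integers. -/
theorem exists_ge_be (x : V m) :
    ∃ S : Finset (Fin (2 * m + 2)), S.card = m + 1 ∧ ∀ i ∈ S, be x ≤ dd (x i - 1 / 2) := by
  have h1 := card_lt_be x
  obtain ⟨S, h2, hS⟩ := Finset.exists_subset_card_eq
    (s := (Finset.univ.filter fun i => dd (x i - 1 / 2) < be x)ᶜ) (n := m + 1) (by
      rw [Finset.card_compl, Fintype.card_fin]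
      omega)
  exact ⟨S, hS, fun i hi => by simpa using h2 hi⟩

theorem abs_be_sub_le (x y : V m) : |be x - be y| ≤ ‖x - y‖ :=
  (abs_mk_sub_le _ (x - hlf) (y - hlf)).trans_eq (congrArg _ (sub_sub_sub_cancel_right x y hlf))

theorem tp_be : TP (be : V m → ℝ) :=
  (tp_mk _).comp (TP.id'.sub (TP.const hlf))

theorem r0_apply (K : ℕ) (x : V m) (i : Fin (2 * m + 2)) :
    r0 K x i = 1 / 2 + oext (per2b_psi K (be x)) (x i - 1 / 2) := rfl

theorem per_lip_i (K : ℕ) (x y : V m) (i : Fin (2 * m + 2)) :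
    |r0 K x i - r0 K y i| ≤ 2 ^ (K + 1) * ‖x - y‖ := by
  have hc := per2_cap1
  have h1 := oext_lip (adm_QQ hc K (be x)) (per1b_one_le K)
    (fun d d' _ _ _ _ => per1b_lip_d hc K (be x) d d') (x i - 1 / 2) (y i - 1 / 2)
  have h2 := (abs_oext_sub_oext (QQ (fun _ => 1 / 2) (1 / 2) K (be x))
    (QQ (fun _ => 1 / 2) (1 / 2) K (be y)) (y i - 1 / 2)).trans_le (per1b_lip_c _ _ K _ _ _)
  have h3 : |x i - 1 / 2 - (y i - 1 / 2)| ≤ ‖x - y‖ := by
    rw [sub_sub_sub_cancel_right]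
    exact norm_le_pi_norm (x - y) i
  have h4 := abs_be_sub_le x y
  have h5 : (0 : ℝ) ≤ 2 ^ K := by positivity
  have h6 := mul_le_mul_of_nonneg_left h3 h5
  have h7 := mul_le_mul_of_nonneg_left h4 h5
  have h8 := abs_sub_le (oext (QQ (fun _ => 1 / 2) (1 / 2) K (be x)) (x i - 1 / 2))
    (oext (QQ (fun _ => 1 / 2) (1 / 2) K (be x)) (y i - 1 / 2))
    (oext (QQ (fun _ => 1 / 2) (1 / 2) K (be y)) (y i - 1 / 2))
  simp only [r0, add_sub_add_left_eq_sub]
  rw [pow_succ]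
  linarith only [h1, h2, h6, h7, h8]

theorem accr_r0 (K : ℕ) : Accr (r0 K : V m → V m) := by
  intro x y i hi
  have hc := per2_cap1
  have h1 := (abs_be_sub_le x y).trans hi
  have h2 := oext_mono (adm_QQ hc K (be x)) (adm_QQ hc K (be y)) (s := x i - 1 / 2)
    (t := y i - 1 / 2) (by linarith only [hi, norm_nonneg (x - y)])
    (fun d d' _ _ hd => per1b_mono hc K (h1.trans (by linarith)))
    fun d d' _ _ hd => per1b_mono hc K (by
      rw [abs_sub_comm]
      exact h1.trans (by linarith))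
  simp only [r0]
  linarith only [h2]

theorem r0_lip (K : ℕ) (x y : V m) : ‖r0 K x - r0 K y‖ ≤ 2 ^ (K + 1) * ‖x - y‖ :=
  (pi_norm_le_iff_of_nonneg (by positivity)).2 fun i => per_lip_i K x y i

theorem tp_r0 (K : ℕ) : TP (r0 K : V m → V m) := by
  refine TP.pi fun i => (TP.const _).add ?_
  have hi : TP (fun x : V m => x i - 1 / 2) := (TP.id'.apply i).sub (TP.const _)
  have hd : TP (fun x : V m => dd (x i - 1 / 2)) := tp_dd.comp hi
  refine tp_oext (D := fun x : V m => QQ (fun _ => 1 / 2) (1 / 2) K (be x)) hi ?_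
    ⟨2 ^ (K + 1), ?_⟩
  · exact TP.cmin (Finset.range K)
      (f := fun k (x : V m) => 2 ^ k * dd (x i - 1 / 2) + max (1 / 2 - 2 ^ k * be x) 0)
      ((TP.const _).min (hd.const_mul _)) fun k _ =>
      (hd.const_mul _).add (((TP.const _).sub (tp_be.const_mul _)).max (TP.const 0))
  · refine LipschitzWith.of_dist_le_mul fun x y => ?_
    rw [Real.dist_eq, dist_eq_norm]
    have h := per_lip_i K x y i
    simp only [r0, add_sub_add_left_eq_sub] at h
    exact_mod_cast h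

theorem abs_r0_sub_le (K : ℕ) (x : V m) (i : Fin (2 * m + 2)) : |r0 K x i - x i| ≤ 1 / 2 := by
  have h1 := abs_oext_sub (QQ (fun _ => 1 / 2) (1 / 2) K (be x)) (x i - 1 / 2)
  have h2 := le_QQ per2_cap1 K (be x) (dd_nonneg (x i - 1 / 2)) (dd_le_half _)
  have h3 := dd_nonneg (x i - 1 / 2)
  have h4 : r0 K x i - x i =
      oext (QQ (fun _ => 1 / 2) (1 / 2) K (be x)) (x i - 1 / 2) - (x i - 1 / 2) := by
    simp only [r0]
    ring
  rw [h4, h1, abs_le]
  constructor <;> linarith only [h2, h3, h2.1, h2.2]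

theorem norm_r0_sub_le (K : ℕ) (x : V m) : ‖r0 K x - x‖ ≤ 1 / 2 :=
  (pi_norm_le_iff_of_nonneg (by norm_num)).2 fun i => abs_r0_sub_le K x i

theorem ll_r0 (K : ℕ) (x : V m) : LL (r0 K : V m → V m) x (2 ^ (K + 1)) :=
  LL.of_forall (r0_lip K) x

theorem r0_nested {K1 : ℕ} (hK : K1 ≤ K) {x : V m} (hx : dl K1 ≤ be x) :
    r0 K x = r0 K1 x := by
  have h : (1 / 2 : ℝ) ≤ 2 ^ K1 * be x := by
    rw [← per2_dl_mul K1]
    exact mul_le_mul_of_nonneg_left hx (by positivity)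
  funext i
  simp only [r0]
  rw [oext_congr (QQ_nested hK (dd_nonneg _) (be_nonneg _) h)]

theorem ll_r0_be (K : ℕ) {x : V m} (hx : 0 < be x) :
    LL (r0 K : V m → V m) x (2 / be x) := by
  have hex : ∃ n : ℕ, dl n < be x := by
    obtain ⟨n, hn⟩ := pow_unbounded_of_one_lt (1 / be x) (one_lt_two (α := ℝ))
    refine ⟨n, ?_⟩
    rw [div_lt_iff₀ hx] at hn
    rw [dl, div_lt_iff₀ (by positivity), pow_succ]
    linarith only [hn]
  classical
  have hK1 := Nat.find_spec hex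
  have hb : (2 : ℝ) ^ (Nat.find hex + 1) ≤ 2 / be x := by
    rw [le_div_iff₀ hx]
    rcases hn : Nat.find hex with _ | j
    · have := be_le_half x
      norm_num
      linarith only [hx, this]
    · have h1 := not_lt.1 (Nat.find_min hex (show j < Nat.find hex by omega))
      have h2 := per2_dl_mul j
      have h3 := mul_le_mul_of_nonneg_left h1 (show (0 : ℝ) ≤ 2 ^ j by positivity)
      rw [pow_succ, pow_succ]
      linarith only [h2, h3]
  generalize Nat.find hex = K1 at hK1 hb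
  have hev : ∀ᶠ y in 𝓝 x, dl K1 < be y :=
    tp_be.continuous.continuousAt.eventually (lt_mem_nhds hK1)
  rcases le_total K K1 with e | e
  · exact (ll_r0 K x).mono ((per1b_pow_le (Nat.succ_le_succ e)).trans hb)
  · exact ((ll_r0 K1 x).mono hb).congr (hev.mono fun y hy => r0_nested e hy.le)

/-- Off the core the retraction lands in the skeleton. -/
theorem mu_r0 {x : V m} (hx : dl K ≤ be x) : mu (r0 K x) = 0 := by
  obtain ⟨S, hS, h⟩ := exists_ge_be x
  refine mu_eq_zero_iff.2 ⟨S, hS, fun i hi => dd_eq_zero_iff.1 ?_⟩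
  have h1 : dd (r0 K x i - 1 / 2) = 1 / 2 := by
    rw [r0_apply, add_sub_cancel_left, dd_oext (per2b_adm K _)]
    exact per2_QQ_half hx (h i hi) (dd_le_half _)
  rw [dd_sub_half] at h1
  linarith only [h1]

theorem tj_pos (j : ℕ) : 0 < tj j := by
  unfold tj
  positivity

theorem tj_le (j : ℕ) : tj j ≤ 1 / 16 := by
  have : (1 / 2 : ℝ) ^ j ≤ 1 := pow_le_one₀ (by norm_num) (by norm_num)
  rw [tj, pow_add]
  linarith only [this]

theorem tendsto_tj : Tendsto tj atTop (𝓝 0) :=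
  (tendsto_pow_atTop_nhds_zero_of_lt_one (r := (1 / 2 : ℝ)) (by norm_num) (by norm_num)).comp
    (tendsto_add_atTop_nat 4)

theorem eventually_le_Kj (m K1 : ℕ) : ∀ᶠ j in atTop, K1 ≤ Kj m j :=
  (eventually_ge_atTop K1).mono fun j hj => hj.trans (Nat.le_mul_of_pos_left j (by omega))

theorem dl_anti {K1 : ℕ} (h : K1 ≤ K) : dl K ≤ dl K1 :=
  one_div_le_one_div_of_le (by positivity) (pow_le_pow_right₀ one_le_two (by omega))

theorem exists_dl_lt {b : ℝ} (hb : 0 < b) : ∃ K, dl K < b := by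
  obtain ⟨K, hK⟩ := exists_pow_lt_of_lt_one hb (show (1 / 2 : ℝ) < 1 by norm_num)
  refine ⟨K, lt_of_le_of_lt ?_ hK⟩
  rw [dl, one_div_pow]
  exact one_div_le_one_div_of_le (by positivity) (pow_le_pow_right₀ one_le_two (by omega))

theorem lh_gta (h0 : 0 < τ) (h1 : τ ≤ 1 / 16) (K : ℕ) : LH (gta τ K : V m → V m) :=
  Accr.lh (accr_r0 K) (tp_r0 K) h0 (by linarith only [h0, h1])

theorem gta_sub_r0 (τ : ℝ) (K : ℕ) (x : V m) : gta τ K x - r0 K x = τ • (x - r0 K x) := by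
  simp only [gta, mix]
  module

theorem norm_gta_sub_r0 (h0 : 0 < τ) (K : ℕ) (x : V m) : ‖gta τ K x - r0 K x‖ ≤ τ / 2 := by
  rw [gta_sub_r0, norm_smul, Real.norm_of_nonneg h0.le, norm_sub_rev]
  have := norm_r0_sub_le K x
  linarith only [h0, this, mul_nonneg_of_nonpos_of_nonpos (le_of_lt (Mathlib.Tactic.Linarith.sub_neg_of_lt h0)) (Mathlib.Tactic.Linarith.sub_nonpos_of_le this)]

theorem mu_gta_le (h0 : 0 < τ) {x : V m} (hx : dl K ≤ be x) : mu (gta τ K x) ≤ τ / 2 := by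
  have h1 := (abs_le.1 ((abs_mu_sub_le (gta τ K x) (r0 K x)).trans (norm_gta_sub_r0 h0 K x))).2
  rw [mu_r0 hx] at h1
  linarith

theorem norm_gta_sub_le (h0 : 0 < τ) (h1 : τ ≤ 1 / 16) (K : ℕ) (x : V m) :
    ‖gta τ K x - x‖ ≤ 1 / 2 := by
  refine (pi_norm_le_iff_of_nonneg (by norm_num)).2 (fun i => ?_)
  have h2 : gta τ K x i - x i = (1 - τ) * (r0 K x i - x i) := mix_sub τ x i
  have h3 := abs_r0_sub_le K x i
  rw [Pi.sub_apply, Real.norm_eq_abs, h2, abs_mul, abs_of_nonneg (by linarith : 0 ≤ 1 - τ)]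
  have h4 := abs_nonneg (r0 K x i - x i)
  linarith only [h3, h0, h4, mul_nonneg_of_nonpos_of_nonpos (le_of_lt (Mathlib.Tactic.Linarith.sub_neg_of_lt h0)) (Mathlib.Tactic.Linarith.sub_nonpos_of_le h4)]

/-- The contractions converge to the retraction. -/
theorem tendsto_gta {K1 : ℕ} {x : V m} (hx : dl K1 ≤ be x) :
    Tendsto (fun j => gta (tj j) (Kj m j) x) atTop (𝓝 (r0 K1 x)) := by
  rw [tendsto_iff_norm_sub_tendsto_zero]
  refine squeeze_zero' (Eventually.of_forall fun _ => norm_nonneg _)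
    ((eventually_le_Kj m K1).mono fun j hj => ?_) tendsto_tj
  rw [← r0_nested hj hx]
  linarith only [norm_gta_sub_r0 (tj_pos j) (Kj m j) x, tj_pos j]

theorem ll_gta_sub_r0 {K1 : ℕ} {x : V m} (hx : dl K1 < be x) {c : ℝ} (hc : 0 < c) :
    ∀ᶠ j in atTop, LL (fun y => gta (tj j) (Kj m j) y - r0 K1 y) x c := by
  have hb := (dl_pos K1).trans hx
  have h1 : Tendsto (fun j => tj j * (1 + 2 / be x)) atTop (𝓝 (0 * (1 + 2 / be x))) :=
    tendsto_tj.mul_const _
  rw [zero_mul] at h1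
  filter_upwards [eventually_le_Kj m K1, h1.eventually (eventually_le_nhds hc)] with j hj hj'
  have h2 := ((LL.id' x).sub (ll_r0_be K1 hb)).const_smul (tj j)
  rw [abs_of_pos (tj_pos j)] at h2
  refine (h2.mono hj').congr ?_
  filter_upwards [tp_be.continuous.continuousAt.eventually (lt_mem_nhds hx)] with y hy
  rw [← r0_nested hj hy.le, gta_sub_r0]

section Loc
variable {η : V m → ℝ}

theorem lh_gtl (h0 : 0 < τ) (h1 : τ ≤ 1 / 16) (K : ℕ) (ht : TP η)
    (hη : ∀ x y, |η x - η y| ≤ ‖x - y‖) : LH (gtl τ K η) :=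
  ((accr_r0 K).loc hη).lh ((tp_r0 K).loc ht) h0 (by linarith only [h0, h1])

theorem gtl_eq {x : V m} (hx : 1 / 2 ≤ η x) : gtl τ K η x = gta τ K x := by
  unfold gtl gta mix
  rw [loc_eq_of_le fun i => (abs_r0_sub_le K x i).trans hx]

theorem gtl_eq_self {x : V m} (hx : η x = 0) : gtl τ K η x = x := by
  unfold gtl mix
  rw [loc_eq_self hx, ← add_smul]
  simp

theorem norm_gtl_sub_le (h0 : 0 < τ) (h1 : τ ≤ 1 / 16) {x : V m} (hx : 0 ≤ η x) :
    ‖gtl τ K η x - x‖ ≤ 1 / 2 := by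
  refine (pi_norm_le_iff_of_nonneg (by norm_num)).2 fun i => ?_
  have h2 := (abs_loc_sub_le (Φ := r0 K) hx i).trans (abs_r0_sub_le K x i)
  rw [Pi.sub_apply, Real.norm_eq_abs, gtl, mix_sub, abs_mul, abs_of_pos (by linarith only [h0, h1])]
  linarith only [h2, h0, abs_nonneg (loc η (r0 K) x i - x i), mul_nonneg_of_nonpos_of_nonpos (le_of_lt (Mathlib.Tactic.Linarith.sub_neg_of_lt h0)) (Mathlib.Tactic.Linarith.sub_nonpos_of_le (abs_nonneg (loc η (r0 K) x i - x i)))]

theorem norm_gtl_inv_sub_le (h0 : 0 < τ) (h1 : τ ≤ 1 / 16) (hη : ∀ x, 0 ≤ η x) (y : V m) :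
    ‖gtl τ K η (invFun (gta τ K) y) - y‖ ≤ 1 / 2 := by
  obtain ⟨w, rfl⟩ := (lh_gta (m := m) h0 h1 K).1.2 y
  rw [(lh_gta h0 h1 K).li]
  refine (pi_norm_le_iff_of_nonneg (by norm_num)).2 fun i => ?_
  have h2 : |loc η (r0 K) w i - r0 K w i| ≤ 1 / 2 :=
    (per2c_between (hη w)).trans (abs_r0_sub_le K w i)
  have e : (gtl τ K η w - gta τ K w) i = (1 - τ) * (loc η (r0 K) w i - r0 K w i) := by
    simp only [gtl, gta, mix, Pi.sub_apply, Pi.add_apply, Pi.smul_apply, smul_eq_mul]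
    ring
  rw [e, Real.norm_eq_abs, abs_mul, abs_of_pos (by linarith only [h0, h1])]
  linarith only [h2, h0, abs_nonneg (loc η (r0 K) w i - r0 K w i), mul_nonneg_of_nonpos_of_nonpos (le_of_lt (Mathlib.Tactic.Linarith.sub_neg_of_lt h0)) (Mathlib.Tactic.Linarith.sub_nonpos_of_le (abs_nonneg (loc η (r0 K) w i - r0 K w i)))]

theorem ll_gtl (h0 : 0 < τ) (h1 : τ ≤ 1 / 16) (hη : ∀ x y, |η x - η y| ≤ ‖x - y‖) {x : V m}
    {c : ℝ} (hc : 2 ≤ c) (h : LL (r0 K : V m → V m) x c) : LL (gtl τ K η) x c := by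
  have h2 : LL η x 1 := LL.of_forall (fun y z => by rw [one_mul]; exact hη y z) x
  exact (h.loc h2 zero_le_one (by linarith)).mix (by linarith) h0.le (by linarith)

theorem two_le_div_be {x : V m} (hb : 0 < be x) : 2 ≤ 2 / be x := by
  rw [le_div_iff₀ hb]
  linarith [be_le_half x]

theorem ll_gtl_be (h0 : 0 < τ) (h1 : τ ≤ 1 / 16) (hη : ∀ x y, |η x - η y| ≤ ‖x - y‖) (K : ℕ)
    {x : V m} (hb : 0 < be x) : LL (gtl τ K η) x (2 / be x) :=
  ll_gtl h0 h1 hη (two_le_div_be hb) (ll_r0_be K hb)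

theorem ll_gtl_core (h0 : 0 < τ) (h1 : τ ≤ 1 / 16) (hη : ∀ x y, |η x - η y| ≤ ‖x - y‖) (K : ℕ)
    (x : V m) : LL (gtl τ K η) x (2 ^ (K + 1)) :=
  ll_gtl h0 h1 hη (by
    rw [pow_succ]
    linarith only [per1b_one_le K]) (ll_r0 K x)

theorem ll_gtl_inv (h0 : 0 < τ) (h1 : τ ≤ 1 / 16) (hη : ∀ x y, |η x - η y| ≤ ‖x - y‖) (K : ℕ)
    (z : V m) : LL (fun z => gtl τ K η (invFun (gta τ K) z)) z (2 / τ) := by
  have h2 : LL η (invFun (mix τ (r0 K)) z) 1 :=
    LL.of_forall (fun y z => by rw [one_mul]; exact hη y z) _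
  have := (accr_r0 (m := m) K).ll_loc_inv (tp_r0 K) h0 (h1.trans (by norm_num)) zero_le_one
    (y := z) h2
  rwa [one_add_one_eq_two] at this

end Loc

end BEe
end
end

-- merged part: Pool.Agent.Work.MP_f0515e_an.Ev.State
section
-- merged part: Pool.Agent.Work.MP_f0515e_an.Ev.Meas
section
/-! Measure tools: the weight, cell averaging, counting, dominated convergence. -/

open Set Metric Filter Topology MeasureTheory Function BEv
open scoped ENNReal NNReal

noncomputable section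
namespace BEe

variable {m : ℕ}

theorem measurable_wt : Measurable (wt : V m → ℝ≥0∞) :=
  (ENNReal.measurable_ofReal.comp (tp_be (m := m)).continuous.measurable).inv.pow_const _

theorem meas1_box (p : V m) {t : ℝ} (ht : 0 ≤ t) (S : Finset (Fin (2 * m + 2))) :
    volume (Set.pi univ fun i => (if i ∈ S then {s : ℝ | dd s ≤ t} else univ) ∩
      Icc (p i - 1) (p i + 1)) ≤ 8 ^ (2 * m + 2) * ENNReal.ofReal t ^ S.card := by
  classical
  rw [volume_pi_pi]
  have h1 : ∀ i, volume ((if i ∈ S then {s : ℝ | dd s ≤ t} else univ) ∩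
      Icc (p i - 1) (p i + 1)) ≤ 8 * (if i ∈ S then ENNReal.ofReal t else 1) := by
    intro i
    split_ifs with hi
    · exact meas1_line (p i) ht
    · rw [univ_inter, Real.volume_Icc, show p i + 1 - (p i - 1) = 2 by ring, ENNReal.ofReal_ofNat]
      norm_num
  refine (Finset.prod_le_prod' fun i _ => h1 i).trans (le_of_eq ?_)
  rw [Finset.prod_mul_distrib, Finset.prod_const, Finset.prod_ite_mem, Finset.univ_inter,
    Finset.prod_const, Finset.card_univ, Fintype.card_fin]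

theorem volume_be_unit (m : ℕ) : ∃ C : ℝ, 0 ≤ C ∧ ∀ (p : V m) (t : ℝ), 0 ≤ t →
    volume ({x | be x ≤ t} ∩ closedBall p 1) ≤ ENNReal.ofReal (C * t ^ (m + 2)) := by
  classical
  let F : Finset (Finset (Fin (2 * m + 2))) := Finset.powersetCard (m + 2) Finset.univ
  refine ⟨F.card * 8 ^ (2 * m + 2), by positivity, fun p t ht => ?_⟩
  have hsub : {x | be x ≤ t} ∩ closedBall p 1 ⊆ ⋃ S ∈ F, (fun x : V m => x - hlf) ⁻¹'
      Set.pi univ fun i => (if i ∈ S then {s : ℝ | dd s ≤ t} else univ) ∩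
        Icc ((p - hlf : V m) i - 1) ((p - hlf : V m) i + 1) := by
    rintro x ⟨hx, hb⟩
    obtain ⟨S, hS, hS'⟩ := (be_le_iff ht).mp hx
    simp only [mem_iUnion]
    refine ⟨S, Finset.mem_powersetCard.mpr ⟨Finset.subset_univ S, hS⟩, fun i _ => ⟨?_, ?_⟩⟩
    · split_ifs with hi
      · exact hS' i hi
      · exact mem_univ _
    · have h1 : dist (x i) (p i) ≤ 1 := (dist_le_pi_dist x p i).trans hb
      rw [Real.dist_eq, abs_le] at h1
      simp only [Pi.sub_apply, mem_Icc]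
      exact ⟨by linarith only [h1, h1.1], by linarith [h1.2]⟩
  refine (measure_mono hsub).trans ((measure_biUnion_finset_le _ _).trans ?_)
  refine (Finset.sum_le_card_nsmul _ _ (8 ^ (2 * m + 2) * ENNReal.ofReal t ^ (m + 2))
    fun S hS => ?_).trans (le_of_eq ?_)
  · have h2 := meas1_box (p - hlf) ht S
    rw [(Finset.mem_powersetCard.mp hS).2] at h2
    simp only [sub_eq_add_neg] at h2 ⊢
    rwa [measure_preimage_add_right]
  · rw [nsmul_eq_mul, ENNReal.ofReal_mul (by positivity), ENNReal.ofReal_mul (by positivity),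
      ENNReal.ofReal_pow ht, ENNReal.ofReal_pow (by norm_num), ENNReal.ofReal_natCast,
      ENNReal.ofReal_ofNat, mul_assoc]

theorem meas1_wt_le (x : V m) : wt x ≤ ∑' k : ℕ,
    indicator {y : V m | be y ≤ (1 / 2) ^ k} (fun _ => ENNReal.ofReal ((2 ^ (k + 1)) ^ (m + 1))) x := by
  rcases (be_nonneg x).eq_or_lt with h0 | h0
  · have h1 : ∑' _ : ℕ, (1 : ℝ≥0∞) = ⊤ := ENNReal.tsum_const_eq_top_of_ne_zero one_ne_zero
    refine le_top.trans (h1.symm.le.trans (ENNReal.tsum_le_tsum fun k => ?_))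
    have h2 : x ∈ {y : V m | be y ≤ (1 / 2) ^ k} := by
      show be x ≤ _
      rw [← h0]
      positivity
    rw [indicator_of_mem h2, ← ENNReal.ofReal_one]
    exact ENNReal.ofReal_le_ofReal (one_le_pow₀ (one_le_pow₀ (by norm_num)))
  · obtain ⟨k, hk1, hk2⟩ := exists_nat_pow_near_of_lt_one h0
      ((be_le_half x).trans (by norm_num)) (by norm_num : (0 : ℝ) < 1 / 2) (by norm_num)
    refine le_trans ?_ (ENNReal.le_tsum k)
    rw [indicator_of_mem (show x ∈ {y : V m | be y ≤ (1 / 2) ^ k} from hk2),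
      ENNReal.ofReal_pow (by positivity)]
    unfold wt
    gcongr
    rw [← ENNReal.ofReal_inv_of_pos h0]
    refine ENNReal.ofReal_le_ofReal ?_
    rw [inv_le_comm₀ h0 (by positivity), ← inv_pow, ← one_div]
    exact hk1.le

theorem lintegral_wt_unit (m : ℕ) : ∃ C : ℝ≥0∞, C ≠ ⊤ ∧ ∀ p : V m,
    ∫⁻ x in closedBall p 1, wt x ≤ C := by
  obtain ⟨C, hC, h⟩ := volume_be_unit m
  have hs : Summable fun k : ℕ => C * 2 ^ (m + 1) * (1 / 2 : ℝ) ^ k :=
    summable_geometric_two.mul_left _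
  refine ⟨∑' k : ℕ, ENNReal.ofReal (C * 2 ^ (m + 1) * (1 / 2 : ℝ) ^ k), ?_, fun p => ?_⟩
  · rw [← ENNReal.ofReal_tsum_of_nonneg (fun k => by positivity) hs]
    exact ENNReal.ofReal_ne_top
  · have hm : ∀ k : ℕ, MeasurableSet {y : V m | be y ≤ (1 / 2) ^ k} := fun k =>
      measurableSet_le (tp_be (m := m)).continuous.measurable measurable_const
    refine (lintegral_mono fun x => meas1_wt_le x).trans ?_
    rw [lintegral_tsum fun k => (measurable_const.indicator (hm k)).aemeasurable]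
    refine ENNReal.tsum_le_tsum fun k => ?_
    rw [lintegral_indicator_const (hm k), Measure.restrict_apply (hm k)]
    refine (mul_le_mul_right (h p _ (by positivity)) _).trans (le_of_eq ?_)
    rw [← ENNReal.ofReal_mul (by positivity)]
    congr 1
    have h2 : ((2 : ℝ) ^ k) ^ (m + 1) * ((1 / 2) ^ k) ^ (m + 1) = 1 := by
      rw [← mul_pow, ← mul_pow]
      norm_num
    calc ((2 : ℝ) ^ (k + 1)) ^ (m + 1) * (C * ((1 / 2) ^ k) ^ (m + 2))
        = C * 2 ^ (m + 1) * (1 / 2) ^ k * ((2 ^ k) ^ (m + 1) * ((1 / 2) ^ k) ^ (m + 1)) := by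
          rw [pow_succ 2 k, mul_pow, pow_succ ((1 / 2 : ℝ) ^ k) (m + 1)]
          ring
      _ = C * 2 ^ (m + 1) * (1 / 2) ^ k := by rw [h2, mul_one]

theorem meas1_cover (p : V m) (R : ℝ) :
    ∃ F : Finset (V m), closedBall p R ⊆ ⋃ q ∈ F, closedBall q 1 := by
  obtain ⟨t, -, ht, hsub⟩ := finite_cover_balls_of_compact (isCompact_closedBall p R) zero_lt_one
  refine ⟨ht.toFinset, fun x hx => ?_⟩
  obtain ⟨q, hq, hxq⟩ := mem_iUnion₂.mp (hsub hx)
  exact mem_iUnion₂.mpr ⟨q, ht.mem_toFinset.mpr hq, ball_subset_closedBall hxq⟩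

theorem meas1_lintegral_biUnion (F : Finset (V m)) (s : V m → Set (V m)) (g : V m → ℝ≥0∞) :
    ∫⁻ x in ⋃ q ∈ F, s q, g x ≤ ∑ q ∈ F, ∫⁻ x in s q, g x := by
  classical
  induction F using Finset.induction_on with
  | empty => simp
  | insert a F ha ih =>
    rw [Finset.set_biUnion_insert, Finset.sum_insert ha]
    exact (lintegral_union_le _ _ _).trans (add_le_add le_rfl ih)

theorem lintegral_wt_ne_top (p : V m) (R : ℝ) : ∫⁻ x in closedBall p R, wt x ≠ ⊤ := by
  obtain ⟨C, hC, h⟩ := lintegral_wt_unit m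
  obtain ⟨F, hF⟩ := meas1_cover p R
  refine ne_top_of_le_ne_top ?_ ((lintegral_mono_set hF).trans
    ((meas1_lintegral_biUnion F _ _).trans (Finset.sum_le_sum fun q _ => h q)))
  exact ENNReal.sum_ne_top.mpr fun _ _ => hC

theorem volume_be_le (R : ℝ) : ∃ C : ℝ, 0 ≤ C ∧ ∀ t : ℝ, 0 ≤ t →
    volume ({x : V m | be x ≤ t} ∩ closedBall 0 R) ≤ ENNReal.ofReal (C * t ^ (m + 2)) := by
  obtain ⟨C, hC, h⟩ := volume_be_unit m
  obtain ⟨F, hF⟩ := meas1_cover (0 : V m) R
  refine ⟨F.card * C, by positivity, fun t ht => ?_⟩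
  have h2 : {x : V m | be x ≤ t} ∩ closedBall 0 R ⊆
      ⋃ q ∈ F, {x : V m | be x ≤ t} ∩ closedBall q 1 := by
    rintro x ⟨hx, hb⟩
    obtain ⟨q, hq, hxq⟩ := mem_iUnion₂.mp (hF hb)
    exact mem_iUnion₂.mpr ⟨q, hq, hx, hxq⟩
  refine (measure_mono h2).trans ((measure_biUnion_finset_le _ _).trans ?_)
  refine (Finset.sum_le_card_nsmul _ _ _ fun q _ => h q t ht).trans (le_of_eq ?_)
  rw [nsmul_eq_mul, mul_assoc, ENNReal.ofReal_mul (Nat.cast_nonneg _), ENNReal.ofReal_natCast]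

theorem ae_be_pos : ∀ᵐ x : V m, 0 < be x := by
  rw [ae_iff]
  have h1 : {x : V m | ¬0 < be x} ⊆ ⋃ n : ℕ, {x : V m | be x ≤ 0} ∩ closedBall 0 n := by
    intro x hx
    obtain ⟨n, hn⟩ := exists_nat_ge ‖x‖
    exact mem_iUnion.mpr ⟨n, not_lt.mp hx, mem_closedBall_zero_iff.mpr hn⟩
  refine measure_mono_null h1 (measure_iUnion_null fun n => ?_)
  obtain ⟨C, -, h⟩ := volume_be_le (m := m) n
  have h2 := h 0 le_rfl
  rw [zero_pow (Nat.succ_ne_zero (m + 1)), mul_zero, ENNReal.ofReal_zero] at h2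
  exact le_antisymm h2 bot_le

/-- Cell averaging of the weight. -/
theorem lintegral_mul_wt_le (m : ℕ) : ∃ C : ℝ≥0∞, C ≠ ⊤ ∧ ∀ (Z Z' : Set (V m))
    (F F' : V m → ℝ≥0∞), MeasurableSet Z → MeasurableSet Z' →
    (∀ x ∈ Z, ∀ y, ‖x - y‖ < 1 → y ∈ Z' ∧ F x ≤ F' y) →
    ∫⁻ x in Z, F x * wt x ≤ C * ∫⁻ y in Z', F' y := by
  obtain ⟨C, hC, hw⟩ := lintegral_wt_unit m
  refine ⟨C, hC, fun Z Z' F F' hZ hZ' h => ?_⟩
  have hm : Measurable fun x : V m => wt x := measurable_wt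
  have hcell : ∀ q : Fin (2 * m + 2) → ℤ, ∫⁻ x in meas1b_cell q, wt x ≤ C := by
    intro q
    refine le_trans ?_ (hw (fun i => (q i : ℝ)))
    refine lintegral_mono_set fun x hx => ?_
    rw [mem_closedBall, dist_eq_norm]
    exact (meas1b_dist hx (meas1b_corner q)).le
  rw [meas1b_inter Z, meas1b_inter Z', lintegral_iUnion (s := fun q => Z' ∩ meas1b_cell q)
    (fun q => hZ'.inter (meas1b_meas q))
    (fun q q' hq => (meas1b_disj hq).mono inter_subset_right inter_subset_right),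
    ← ENNReal.tsum_mul_left]
  refine (lintegral_iUnion_le _ _).trans (ENNReal.tsum_le_tsum fun q => ?_)
  obtain ⟨c, hc⟩ : ∃ c, c = ∫⁻ y in Z' ∩ meas1b_cell q, F' y := ⟨_, rfl⟩
  have hF : ∀ x ∈ Z ∩ meas1b_cell q, F x ≤ c := by
    intro x hx
    have : Z' ∩ meas1b_cell q = meas1b_cell q :=
      inter_eq_right.2 fun y hy => (h x hx.1 y (meas1b_dist hx.2 hy)).1
    rw [hc, this]
    exact meas1b_avg q fun y hy => (h x hx.1 y (meas1b_dist hx.2 hy)).2
  rw [← hc]
  calc ∫⁻ x in Z ∩ meas1b_cell q, F x * wt x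
      ≤ ∫⁻ x in Z ∩ meas1b_cell q, c * wt x :=
        setLIntegral_mono' (hZ.inter (meas1b_meas q)) fun x hx => mul_le_mul_left (hF x hx) _
    _ = c * ∫⁻ x in Z ∩ meas1b_cell q, wt x := lintegral_const_mul _ hm
    _ ≤ c * C := mul_le_mul_right ((lintegral_mono_set inter_subset_right).trans (hcell q)) _
    _ = C * c := mul_comm _ _

/-- A small net of the image of the skeleton. -/
theorem exists_net (m : ℕ) : ∃ C : ℝ≥0∞, C ≠ ⊤ ∧ ∀ u : V m → V m, TP u → ∀ A : Set (V m),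
    IsCompact A → ∃ F2 : Finset (V m), (∀ x ∈ A, mu x = 0 → ∃ p ∈ F2, ‖u x - p‖ ≤ 1) ∧
      (F2.card : ℝ≥0∞) ≤ C * ∫⁻ x in cthickening 3 A, (1 + om u 3 x) ^ (m + 1) := by
  classical
  obtain ⟨P, hP⟩ : ∃ P, P = Finset.powersetCard (m + 1) (Finset.univ : Finset (Fin (2 * m + 2))) :=
    ⟨_, rfl⟩
  refine ⟨P.card * 2 ^ (m + 1), ENNReal.mul_ne_top (ENNReal.natCast_ne_top _) (by simp),
    fun u hu A hA => ?_⟩
  obtain ⟨L, hL, hom⟩ := hu.om_bound
  have hfin : ∀ r x, om u r x ≠ ⊤ := fun r x => ne_top_of_le_ne_top hL (hom r x)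
  obtain ⟨Qs, hQs⟩ : ∃ Qs : Finset (Fin (2 * m + 2) → ℤ),
      ∀ q, q ∈ Qs ↔ (A ∩ meas1b_cell q).Nonempty :=
    ⟨(meas1b_finite hA).toFinset, fun q => by simp⟩
  obtain ⟨M, hM⟩ : ∃ M : (Fin (2 * m + 2) → ℤ) → ℕ,
      ∀ q, M q = ⌈(om u 2 fun i => (q i : ℝ)).toReal⌉₊ + 1 := ⟨_, fun _ => rfl⟩
  refine ⟨Qs.biUnion fun q => P.biUnion fun T =>
    (Fintype.piFinset fun i => if i ∈ T then Finset.range (M q) else {0}).image
      fun j => u fun i => (q i : ℝ) + (j i : ℝ) / M q, fun x hx hmu => ?_, ?_⟩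
  · obtain ⟨S, hS, hS'⟩ := (mu_le_iff le_rfl).1 hmu.le
    obtain ⟨q, hq⟩ : ∃ q, x ∈ meas1b_cell q := ⟨_, meas1b_floor x⟩
    have hq' := meas1b_mem.1 hq
    have hM0 : (0 : ℝ) < M q := by
      rw [hM]
      positivity
    have hM1 : (1 : ℝ) ≤ M q := by
      rw [hM]
      push_cast
      linarith only [Nat.cast_nonneg (α := ℝ) ⌈(om u 2 fun i => (q i : ℝ)).toReal⌉₊]
    have hMw : (om u 2 fun i => (q i : ℝ)).toReal ≤ M q := by
      rw [hM]
      push_cast
      linarith [Nat.le_ceil (om u 2 fun i => (q i : ℝ)).toReal]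
    have hnn : ∀ i, 0 ≤ (x i - q i) * M q := fun i => mul_nonneg (by linarith [(hq' i).1]) hM0.le
    have hd : ‖x - fun i => (q i : ℝ) + (⌊(x i - q i) * M q⌋₊ : ℝ) / M q‖ ≤ 1 / M q := by
      rw [pi_norm_le_iff_of_nonneg (by positivity)]
      intro i
      have e : x i - ((q i : ℝ) + (⌊(x i - q i) * M q⌋₊ : ℝ) / M q) =
          ((x i - q i) * M q - ⌊(x i - q i) * M q⌋₊) / M q := by
        field_simp
        ring
      have h1 := Nat.floor_le (hnn i)
      have h2 := Nat.lt_floor_add_one ((x i - q i) * M q)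
      rw [Pi.sub_apply, Real.norm_eq_abs, e, abs_of_nonneg (div_nonneg (by linarith only [h1]) hM0.le)]
      exact div_le_div_of_nonneg_right (by linarith only [h2]) hM0.le
    refine ⟨u fun i => (q i : ℝ) + (⌊(x i - q i) * M q⌋₊ : ℝ) / M q, ?_, ?_⟩
    · refine Finset.mem_biUnion.2 ⟨q, (hQs q).2 ⟨x, hx, hq⟩, Finset.mem_biUnion.2 ⟨Sᶜ, ?_,
        Finset.mem_image.2 ⟨fun i => ⌊(x i - q i) * M q⌋₊, ?_, rfl⟩⟩⟩
      · rw [hP, Finset.mem_powersetCard, Finset.card_compl, hS, Fintype.card_fin]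
        exact ⟨Finset.subset_univ _, by omega⟩
      · rw [Fintype.mem_piFinset]
        intro i
        split_ifs with hi
        · rw [Finset.mem_range, Nat.floor_lt (hnn i)]
          exact mul_lt_of_lt_one_left hM0 (by linarith only [hq', (hq' i).2])
        · obtain ⟨k, hk⟩ := dd_eq_zero_iff.1
            (le_antisymm (hS' i (by simpa using hi)) (dd_nonneg _))
          have : q i = k := by
            rw [meas1b_eq hq]
            simp [hk]
          simp [hk, this]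
    · have hx1 := meas1b_dist hq (meas1b_corner q)
      have hM2 : 1 / (M q : ℝ) ≤ 1 := (div_le_one hM0).2 hM1
      have hb1 : x ∈ ball (fun i => (q i : ℝ)) 2 := by
        rw [mem_ball, dist_eq_norm]
        linarith only [hx1]
      have hb2 : (fun i => (q i : ℝ) + (⌊(x i - q i) * M q⌋₊ : ℝ) / M q) ∈
          ball (fun i => (q i : ℝ)) 2 := by
        rw [mem_ball]
        have := dist_triangle_left (fun i => (q i : ℝ) + (⌊(x i - q i) * M q⌋₊ : ℝ) / M q)
          (fun i => (q i : ℝ)) x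
        rw [dist_eq_norm x, dist_eq_norm x] at this
        linarith only [hd, hx1, hM2, this]
      refine (norm_sub_le_om (hfin _ _) hb1 hb2).trans ?_
      calc _ ≤ (M q : ℝ) * (1 / M q) := mul_le_mul hMw hd (norm_nonneg _) hM0.le
        _ = 1 := by field_simp
  · have h1 : ∀ q, ((P.biUnion fun T =>
        (Fintype.piFinset fun i => if i ∈ T then Finset.range (M q) else {0}).image
          fun j => u fun i => (q i : ℝ) + (j i : ℝ) / M q).card) ≤ P.card * M q ^ (m + 1) := by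
      intro q
      refine Finset.card_biUnion_le_card_mul _ _ _ fun T hT => Finset.card_image_le.trans ?_
      rw [hP, Finset.mem_powersetCard] at hT
      rw [Fintype.card_piFinset]
      simp only [apply_ite Finset.card, Finset.card_range, Finset.card_singleton]
      rw [Finset.prod_ite_mem, Finset.univ_inter, Finset.prod_const, hT.2]
    have h2 : ∀ q, ((M q : ℝ≥0∞)) ^ (m + 1) ≤ 2 ^ (m + 1) * ∫⁻ x in meas1b_cell q, (1 + om u 3 x) ^ (m + 1) := by
      intro q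
      have h3 : (M q : ℝ≥0∞) ≤ 2 * (1 + om u 2 fun i => (q i : ℝ)) := by
        rw [← ENNReal.ofReal_toReal (hfin 2 fun i => (q i : ℝ)), hM]
        generalize hw : (om u 2 fun i => (q i : ℝ)).toReal = w
        have hw0 : 0 ≤ w := hw ▸ ENNReal.toReal_nonneg
        rw [← ENNReal.ofReal_natCast, ← ENNReal.ofReal_one, ← ENNReal.ofReal_add zero_le_one hw0,
          ← ENNReal.ofReal_ofNat 2, ← ENNReal.ofReal_mul (by norm_num)]
        refine ENNReal.ofReal_le_ofReal ?_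
        push_cast
        linarith [Nat.ceil_lt_add_one hw0]
      refine (pow_le_pow_left' h3 (m + 1)).trans ?_
      rw [mul_pow]
      refine mul_le_mul_right (meas1b_avg q fun y hy => ?_) _
      refine pow_le_pow_left' (add_le_add_right (om_mono u fun z hz => ?_) _) (m + 1)
      rw [mem_ball] at hz ⊢
      have := dist_triangle_right z y (fun i => (q i : ℝ))
      rw [dist_eq_norm y] at this
      linarith [meas1b_dist hy (meas1b_corner q)]
    have h4 : ∑ q ∈ Qs, ∫⁻ x in meas1b_cell q, (1 + om u 3 x) ^ (m + 1) ≤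
        ∫⁻ x in cthickening 3 A, (1 + om u 3 x) ^ (m + 1) := by
      rw [← lintegral_biUnion_finset (fun q _ q' _ h => meas1b_disj h) fun q _ => meas1b_meas q]
      refine lintegral_mono_set (iUnion₂_subset fun q hq y hy => ?_)
      obtain ⟨a, ha, ha'⟩ := (hQs q).1 hq
      refine mem_cthickening_of_dist_le y a 3 A ha ?_
      rw [dist_eq_norm]
      linarith [meas1b_dist hy ha']
    calc _ ≤ ((∑ q ∈ Qs, P.card * M q ^ (m + 1) : ℕ) : ℝ≥0∞) := by
          exact_mod_cast Finset.card_biUnion_le.trans (Finset.sum_le_sum fun q _ => h1 q)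
      _ = P.card * ∑ q ∈ Qs, (M q : ℝ≥0∞) ^ (m + 1) := by
          push_cast
          rw [Finset.mul_sum]
      _ ≤ P.card * ∑ q ∈ Qs, 2 ^ (m + 1) * ∫⁻ x in meas1b_cell q, (1 + om u 3 x) ^ (m + 1) :=
          mul_le_mul_right (Finset.sum_le_sum fun q _ => h2 q) _
      _ ≤ _ := by
          rw [← Finset.mul_sum, ← mul_assoc]
          exact mul_le_mul_right h4 _

/-- As the radius shrinks, fattened energies converge down to the energy. -/
theorem exists_fat_le {u : V m → V m} (hu : TP u) {A B : Set (V m)} (hA : IsCompact A)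
    (hB : MeasurableSet B) {ε : ℝ≥0∞} (hε : ε ≠ 0) :
    ∃ r > 0, ∫⁻ x in cthickening r A \ B, (1 + om u r x) ^ (m + 1) ≤ En u (A \ B) + ε := by
  obtain ⟨L, hL, hom⟩ := hu.om_bound
  by_cases hI : En u (A \ B) = ⊤
  · exact ⟨1, one_pos, by rw [hI, top_add]; exact le_top⟩
  have hm : ∀ r : ℝ, MeasurableSet (cthickening r A \ B) := fun r =>
    isClosed_cthickening.measurableSet.diff hB
  have h0 : Tendsto (fun n : ℕ => 1 / ((n : ℝ) + 1)) atTop (𝓝 0) :=
    tendsto_one_div_add_atTop_nhds_zero_nat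
  have h1 : ∀ n : ℕ, 1 / ((n : ℝ) + 1) ≤ 1 := fun n => by
    rw [div_le_one (by positivity)]
    linarith [n.cast_nonneg (α := ℝ)]
  have key := tendsto_lintegral_of_dominated_convergence (μ := volume)
    (F := fun (n : ℕ) => indicator (cthickening (1 / ((n : ℝ) + 1)) A \ B)
      fun x => (1 + om u (1 / ((n : ℝ) + 1)) x) ^ (m + 1))
    (f := indicator (A \ B) fun x => (1 + lip u x) ^ (m + 1))
    (indicator (cthickening 1 A) fun _ => (1 + L) ^ (m + 1))
    (fun n => (((measurable_om u _).const_add 1).pow_const (m + 1)).indicator (hm _))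
    (fun n => Eventually.of_forall fun x => by
      refine indicator_le' (fun y hy => ?_) (fun y _ => zero_le) x
      rw [indicator_of_mem (cthickening_mono (h1 n) A hy.1)]
      gcongr
      exact hom _ _)
    (by
      rw [lintegral_indicator_const isClosed_cthickening.measurableSet]
      exact ENNReal.mul_ne_top (ENNReal.pow_ne_top (ENNReal.add_ne_top.2 ⟨ENNReal.one_ne_top, hL⟩))
        (hA.cthickening (r := 1)).measure_lt_top.ne)
    (Eventually.of_forall fun x => by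
      by_cases hx : x ∈ A \ B
      · have e : ∀ n : ℕ, x ∈ cthickening (1 / ((n : ℝ) + 1)) A \ B := fun n =>
          ⟨self_subset_cthickening A hx.1, hx.2⟩
        simp only [indicator_of_mem (e _), indicator_of_mem hx]
        have a : Antitone fun n : ℕ => om u (1 / ((n : ℝ) + 1)) x := fun a b hab =>
          om_mono u (ball_subset_ball (Nat.one_div_le_one_div hab))
        exact ((ENNReal.continuous_pow (m + 1)).tendsto _).comp
          (tendsto_const_nhds.add (tendsto_atTop_iInf a))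
      · rw [indicator_of_notMem hx]
        refine tendsto_const_nhds.congr' ?_
        by_cases hb : x ∈ B
        · exact Eventually.of_forall fun n => (indicator_of_notMem (fun h => h.2 hb) _).symm
        have ha : x ∉ closure A := by
          rw [hA.isClosed.closure_eq]
          exact fun h => hx ⟨h, hb⟩
        have h2 := ENNReal.tendsto_ofReal h0
        rw [ENNReal.ofReal_zero] at h2
        filter_upwards [h2.eventually_lt_const (infEDist_pos_iff_notMem_closure.2 ha)] with n hn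
        exact (indicator_of_notMem (fun h => absurd (mem_cthickening_iff.1 h.1) (not_le.2 hn))
          _).symm)
  simp only [lintegral_indicator (hm _), lintegral_indicator (hA.measurableSet.diff hB)] at key
  obtain ⟨n, hn⟩ := (key.eventually_lt_const (ENNReal.lt_add_right hI hε)).exists
  exact ⟨_, by positivity, hn.le⟩

theorem En_ne_top {u : V m → V m} (hu : TP u) {A : Set (V m)} (hA : Bornology.IsBounded A) :
    En u A ≠ ⊤ := by
  obtain ⟨L, hL, h⟩ := hu.om_bound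
  have h1 : En u A ≤ ∫⁻ _ in A, (1 + L) ^ (m + 1) := by
    refine lintegral_mono fun x => ?_
    have := (lip_le_om u one_pos x).trans (h 1 x)
    gcongr
  rw [setLIntegral_const] at h1
  exact ne_top_of_le_ne_top (ENNReal.mul_ne_top
    (ENNReal.pow_ne_top (ENNReal.add_ne_top.2 ⟨ENNReal.one_ne_top, hL⟩)) hA.measure_lt_top.ne) h1

/-- The same, uniformly over all measurable pieces. -/
theorem exists_fat_inter {u : V m → V m} (hu : TP u) {A : Set (V m)} (hA : IsCompact A)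
    {ε : ℝ≥0∞} (hε : ε ≠ 0) : ∃ r > 0, ∀ B : Set (V m), MeasurableSet B →
      ∫⁻ x in cthickening r A ∩ B, (1 + om u r x) ^ (m + 1) ≤ En u (A ∩ B) + ε := by
  obtain ⟨r, hr, h⟩ := exists_fat_le hu hA MeasurableSet.empty hε
  rw [sdiff_empty, sdiff_empty] at h
  refine ⟨r, hr, fun B hB => ?_⟩
  have h1 : En u (A \ B) ≤ ∫⁻ x in cthickening r A \ B, (1 + om u r x) ^ (m + 1) := by
    refine (lintegral_mono_set (sdiff_subset_sdiff_left (self_subset_cthickening A))).trans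
      (lintegral_mono fun x => ?_)
    have := lip_le_om u hr x
    gcongr
  have h2 : En u (A \ B) ≠ ⊤ := En_ne_top hu (hA.isBounded.subset sdiff_subset)
  rw [← lintegral_inter_add_sdiff _ _ hB, En, ← lintegral_inter_add_sdiff _ A hB] at h
  refine (ENNReal.add_le_add_iff_right h2).1 ((add_le_add le_rfl h1).trans (h.trans (le_of_eq ?_)))
  unfold En
  ring

/-- Change of variables under a dilation. -/
theorem lintegral_scale {c : ℝ} (hc : 0 < c) (F : V m → ℝ≥0∞) {Z : Set (V m)}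
    (hZ : MeasurableSet Z) :
    ∫⁻ x in Z, F x =
      ENNReal.ofReal (c ^ (2 * m + 2)) * ∫⁻ x in {x : V m | c • x ∈ Z}, F (c • x) := by
  have he : MeasurableEmbedding fun x : V m => c • x := measurableEmbedding_const_smul₀ hc.ne'
  have h1 : ∫⁻ x in {x : V m | c • x ∈ Z}, F (c • x) =
      ∫⁻ y in Z, F y ∂(Measure.map (fun x : V m => c • x) volume) := by
    rw [he.restrict_map, he.lintegral_map]
    rfl
  have h2 : 0 < c ^ (2 * m + 2) := pow_pos hc _
  rw [h1, Measure.map_addHaar_smul volume hc.ne', Measure.restrict_smul, lintegral_smul_measure,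
    Module.finrank_fin_fun, smul_eq_mul, ← mul_assoc, ← ENNReal.ofReal_mul h2.le,
    abs_of_pos (inv_pos.2 h2), mul_inv_cancel₀ h2.ne', ENNReal.ofReal_one, one_mul]

end BEe
end
end

-- merged part: Pool.Agent.Work.MP_f0515e_an.Ev.State
section
/-! Projection, reflection, shear, and the basic properties of states. -/

open Set Metric Filter Topology MeasureTheory Function BEv
open scoped ENNReal NNReal

noncomputable section
namespace BEe

variable {m : ℕ} {v : V m} {σ : ℝ}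

theorem pj_add_ell (v z : V m) : pj v z + ell v z • v = z := sub_add_cancel _ _

theorem shear_ell_add (hv : v 0 ≠ 0) (y : V m) (t : ℝ) : ell v (y + t • v) = ell v y + t := by
  simp only [ell, Pi.add_apply, Pi.smul_apply, smul_eq_mul]
  field_simp

theorem shear_ell_pj (hv : v 0 ≠ 0) (y : V m) : ell v (pj v y) = 0 := by
  have h := shear_ell_add hv (pj v y) (ell v y)
  rw [pj_add_ell] at h
  linarith

theorem ell_pj_add (hv : v 0 ≠ 0) (y : V m) (t : ℝ) : ell v (pj v y + t • v) = t := by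
  rw [shear_ell_add hv, shear_ell_pj hv, zero_add]

theorem pj_pj_add (hv : v 0 ≠ 0) (y : V m) (t : ℝ) : pj v (pj v y + t • v) = pj v y := by
  rw [pj, ell_pj_add hv, add_sub_cancel_right]

theorem rf_eq (v z : V m) : rf v z = pj v z + (-ell v z) • v := by
  rw [rf, pj, two_mul (ell v z), add_smul, neg_smul]
  abel

theorem tp_ell (v : V m) : TP (ell v) := (TP.apply TP.id' 0).div_const (v 0)

theorem tp_pj (v : V m) : TP (pj v) := TP.id'.sub ((tp_ell v).smul_const v)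

theorem shear_lh {f g : V m → V m} (hf : TP f) (hg : TP g) (h1 : LeftInverse g f)
    (h2 : RightInverse g f) : LH f := by
  refine ⟨⟨h1.injective, h2.surjective⟩, hf, ?_⟩
  have : invFun f = g := funext fun y => by
    conv_lhs => rw [← h2 y]
    exact leftInverse_invFun h1.injective _
  rwa [this]

theorem lh_rf (hv : v 0 ≠ 0) : LH (rf v) := by
  have h1 : TP (rf v) := TP.id'.sub (((tp_ell v).const_mul 2).smul_const v)
  have h2 : LeftInverse (rf v) (rf v) := fun z => by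
    rw [rf_eq v z, rf_eq, pj_pj_add hv, ell_pj_add hv, neg_neg, pj_add_ell]
  exact shear_lh h1 h1 h2 h2

theorem pj_SS (hv : v 0 ≠ 0) (σ : ℝ) (φ : V m → ℝ) (z : V m) :
    pj v (SS v σ φ z) = pj v z := pj_pj_add hv _ _

theorem ell_SS (hv : v 0 ≠ 0) (σ : ℝ) (φ : V m → ℝ) (z : V m) :
    ell v (SS v σ φ z) = (sh σ (φ (pj v z), ell v z)).2 := ell_pj_add hv _ _

theorem lh_SS (hv : v 0 ≠ 0) (hσ : 0 < σ) {φ : V m → ℝ} (hφ : TP φ) : LH (SS v σ φ) := by
  have h0 : TP fun z => (φ (pj v z), ell v z) := (hφ.comp (tp_pj v)).prod (tp_ell v)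
  refine shear_lh (g := fun z => pj v z + (invFun (sh σ) (φ (pj v z), ell v z)).2 • v)
    ((tp_pj v).add (((shear_tp σ).comp h0).snd.smul_const v))
    ((tp_pj v).add (((lh_sh hσ).tpi.comp h0).snd.smul_const v)) (fun z => ?_) fun z => ?_
  · simp only
    rw [pj_SS hv, ell_SS hv, shear_inv hσ rfl, pj_add_ell]
  · simp only [SS]
    rw [pj_pj_add hv, ell_pj_add hv, shear_ri hσ, pj_add_ell]

theorem inv_SS_rf (hv : v 0 ≠ 0) (hσ : 0 < σ) {φ : V m → ℝ} (hφ : TP φ) (z : V m) :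
    invFun (SS v σ φ) (rf v (SS v σ φ z)) = pj v z + RR σ (φ (pj v z)) (ell v z) • v := by
  refine (lh_SS hv hσ hφ).inv_eq ?_
  rw [rf_eq, pj_SS hv, ell_SS hv, SS, pj_pj_add hv, ell_pj_add hv, sh_RR hσ]

theorem pj_add (hv : v 0 ≠ 0) (y : V m) (t : ℝ) : pj v (y + t • v) = pj v y := by
  rw [pj, pj, shear_ell_add hv, add_smul]
  abel

theorem inv_SS (hv : v 0 ≠ 0) (hσ : 0 < σ) {φ : V m → ℝ} (hφ : TP φ) (z : V m) (t : ℝ) :
    invFun (SS v σ φ) (pj v z + t • v) = pj v z + (invFun (sh σ) (φ (pj v z), t)).2 • v := by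
  refine (lh_SS hv hσ hφ).inv_eq ?_
  rw [SS, pj_pj_add hv, ell_pj_add hv, shear_ri hσ]

theorem sh_near {c t : ℝ} (hc : |c| ≤ σ) (ht : |t| ≤ 2 * σ) : (sh σ (c, t)).2 = t - c := by
  have h : |c| ≤ max (4 * σ - |t|) 0 / 2 := by
    have := le_max_left (4 * σ - |t|) 0
    linarith only [hc, ht, this]
  simp only [sh]
  rw [clamp_eq_self h]

theorem sh_expand (σ c t t' : ℝ) : |t - t'| ≤ 2 * |(sh σ (c, t)).2 - (sh σ (c, t')).2| := by
  have h1 := abs_clamp_sub_le c (max (4 * σ - |t|) 0 / 2) c (max (4 * σ - |t'|) 0 / 2)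
  have h2 := shear_b σ t t'
  rw [sub_self, abs_zero, max_eq_right (a := 0) (abs_nonneg _)] at h1
  simp only [sh]
  generalize clamp c (max (4 * σ - |t|) 0 / 2) = x at h1 ⊢
  generalize clamp c (max (4 * σ - |t'|) 0 / 2) = y at h1 ⊢
  have h3 : |t - t'| ≤ |t - x - (t' - y)| + |x - y| := by
    have := abs_add_le (t - x - (t' - y)) (x - y)
    rwa [show t - x - (t' - y) + (x - y) = t - t' by ring] at this
  linarith only [h2, h1, h3]

theorem sh_inv_lip (hσ : 0 < σ) (c t t' : ℝ) :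
    |(invFun (sh σ) (c, t)).2 - (invFun (sh σ) (c, t')).2| ≤ 2 * |t - t'| := by
  have h := sh_expand σ c (invFun (sh σ) (c, t)).2 (invFun (sh σ) (c, t')).2
  rwa [shear_ri hσ, shear_ri hσ] at h

namespace St
variable {s : St m}

theorem a_nonneg (h : Ok v s) (y : V m) : 0 ≤ s.a y :=
  le_min h.hσ.le (le_max_right _ _)

theorem a_le (s : St m) (y : V m) : s.a y ≤ s.σ := min_le_left _ _

theorem tp_a (h : Ok v s) : TP s.a := (TP.const s.σ).min (h.ha0.max (TP.const 0))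

theorem tp_f (h : Ok v s) : TP (f v s) :=
  ((tp_ell v).comp h.hG.tp).clamp ((tp_a h).comp ((tp_pj v).comp h.hG.tp))

theorem abs_f_le (h : Ok v s) (x : V m) : |f v s x| ≤ s.a (pj v (s.G x)) :=
  abs_clamp_le (a_nonneg h _)

theorem tp_Psi (h : Ok v s) : TP (fun p : V m × ℝ => Psi v s p.1 p.2) := by
  have h1 : TP (fun p : V m × ℝ => s.G p.1) := h.hG.tp.comp TP.id'.fst
  have h2 : TP (fun p : V m × ℝ => (p.2, ell v (s.G p.1))) := TP.id'.snd.prod ((tp_ell v).comp h1)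
  have h3 : TP (fun p : V m × ℝ => RR s.σ p.2 (ell v (s.G p.1))) := (tp_RR h.hσ).comp h2
  exact h.hH.tpi.comp (((tp_pj v).comp h1).add (h3.smul_const v))

theorem tp_u (h : Ok v s) : TP (u v s) := (tp_Psi h).comp (TP.id'.prod (tp_f h))

theorem lh_k (h : Ok v s) : LH (k v s) := h.hH.inv.comp ((lh_rf h.hv).comp h.hG)

theorem isCompact_U (h : Ok v s) : IsCompact (U v s) := by
  refine Metric.isCompact_of_isClosed_isBounded ?_ h.bdd
  exact (isClosed_le continuous_const (h.ha0.comp ((tp_pj v).comp h.hG.tp)).continuous).inter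
    (isClosed_le ((tp_ell v).comp h.hG.tp).abs.continuous continuous_const)

theorem I_subset_U (h : Ok v s) : s.I ⊆ U v s := fun x hx => by
  obtain ⟨-, h1, h2⟩ := h.onI x hx
  have h3 := s.a_le (pj v (s.G x))
  have h4 := h.hσ
  exact ⟨h1, by linarith⟩

theorem u_thick (h : Ok v s) {x : V m} (hx : |ell v (s.G x)| ≤ s.a (pj v (s.G x))) :
    u v s x = invFun s.H (s.G x) := by
  unfold u Psi f
  rw [clamp_eq_self hx, RR_self h.hσ (hx.trans (s.a_le _)), pj_add_ell]

theorem u_eq_self (h : Ok v s) {x : V m} (hx : x ∈ s.I) : u v s x = x := by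
  obtain ⟨h0, -, h2⟩ := h.onI x hx
  rw [u_thick h h2, ← h0, h.hH.li]

theorem Psi_eq_k (h : Ok v s) {x : V m} (hx : x ∉ U v s) {c : ℝ}
    (hc : |c| ≤ s.a (pj v (s.G x))) : Psi v s x c = k v s x := by
  unfold Psi k
  rw [rf_eq]
  rcases not_and_or.1 hx with h1 | h1
  · have h2 : s.a (pj v (s.G x)) = 0 := by
      unfold a
      rw [max_eq_right (not_le.1 h1).le, min_eq_right h.hσ.le]
    rw [h2, abs_nonpos_iff] at hc
    rw [hc, RR_zero h.hσ]
  · rw [RR_far h.hσ c (not_le.1 h1).le]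

theorem u_eq_k (h : Ok v s) {x : V m} (hx : x ∉ U v s) : u v s x = k v s x :=
  Psi_eq_k h hx (abs_f_le h x)

theorem mem_U_of_k (h : Ok v s) {x : V m} (hx : k v s x ∈ s.I) : x ∈ U v s := by
  obtain ⟨h0, h1, h2⟩ := h.onI _ hx
  have h3 : s.G (k v s x) = pj v (s.G x) + (-ell v (s.G x)) • v := by
    rw [← h0, ← rf_eq]
    exact h.hH.ri _
  rw [h3, pj_pj_add h.hv] at h1 h2
  rw [ell_pj_add h.hv, abs_neg] at h2
  have h4 := s.a_le (pj v (s.G x))
  have h5 := h.hσ
  exact ⟨h1, by linarith⟩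

theorem Fold_subset (h : Ok v s) : Fold v s ⊆ U v s := fun z hz => by
  by_contra hn
  exact hn (mem_U_of_k h (u_eq_k h hn ▸ hz.2))

theorem pj_G_Psi (h : Ok v s) {x : V m} {c : ℝ} (hx : Psi v s x c ∈ s.I) :
    pj v (s.G (Psi v s x c)) = pj v (s.G x) := by
  rw [← (h.onI _ hx).1]
  unfold Psi
  rw [h.hH.ri, pj_pj_add h.hv]

theorem norm_Psi_sub_le (h : Ok v s) {η : ℝ} (hη : Fib v s η) {x : V m} (hx : x ∈ U v s)
    (c : ℝ) : ‖Psi v s x c - x‖ ≤ η :=
  hη x hx _ (abs_RR_le h.hσ c hx.2)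

theorem norm_k_sub_le (h : Ok v s) {η : ℝ} (hη : Fib v s η) {x : V m} (hx : x ∈ U v s) :
    ‖k v s x - x‖ ≤ η := by
  unfold k
  rw [rf_eq]
  exact hη x hx _ (by rw [abs_neg]; exact hx.2)

section Scale
variable {c : ℝ}

theorem mem_U_sc (c : ℝ) (x : V m) : x ∈ U v (s.sc c) ↔ c • x ∈ U v s := Iff.rfl

theorem ok_sc (h : Ok v s) (hc : 0 < c) : Ok v (s.sc c) := by
  refine ⟨h.hv, h.hG.comp (LH.smul hc.ne'), h.hH.comp (LH.smul hc.ne'), h.hσ, h.ha0,
    h.hI.preimage (continuous_const_smul c), ?_, fun x hx => h.onI (c • x) hx⟩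
  obtain ⟨C, hC⟩ := isBounded_iff_forall_norm_le.1 h.bdd
  refine isBounded_iff_forall_norm_le.2 ⟨C / c, fun x hx => ?_⟩
  have h1 := hC (c • x) hx
  rw [norm_smul, Real.norm_of_nonneg hc.le] at h1
  rw [le_div_iff₀ hc, mul_comm]
  exact h1

theorem gam_sc (h : Gam v s) (c : ℝ) : Gam v (s.sc c) := fun x hx => h (c • x) hx

theorem state_inv_sc (h : Ok v s) (hc : 0 < c) (y : V m) :
    invFun (s.sc c).H y = c⁻¹ • invFun s.H y := by
  refine (ok_sc h hc).hH.inv_eq ?_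
  change s.H (c • c⁻¹ • invFun s.H y) = y
  rw [smul_inv_smul₀ hc.ne', h.hH.ri]

theorem k_sc (h : Ok v s) (hc : 0 < c) (x : V m) : k v (s.sc c) x = c⁻¹ • k v s (c • x) :=
  state_inv_sc h hc _

theorem u_sc (h : Ok v s) (hc : 0 < c) (x : V m) : u v (s.sc c) x = c⁻¹ • u v s (c • x) :=
  state_inv_sc h hc _

theorem fib_sc (h : Ok v s) (hc : 0 < c) {η : ℝ} (hη : Fib v s η) :
    Fib v (s.sc c) (η / c) := by
  intro z hz t ht
  have h1 := hη (c • z) hz t ht
  rw [state_inv_sc h hc]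
  have h2 : c⁻¹ • invFun s.H (pj v ((s.sc c).G z) + t • v) - z =
      c⁻¹ • (invFun s.H (pj v (s.G (c • z)) + t • v) - c • z) := by
    rw [smul_sub, inv_smul_smul₀ hc.ne']
    rfl
  rw [h2, norm_smul, Real.norm_of_nonneg (inv_nonneg.2 hc.le), div_eq_inv_mul]
  exact mul_le_mul_of_nonneg_left h1 (inv_nonneg.2 hc.le)

theorem mem_Fold_sc (h : Ok v s) (hc : 0 < c) (x : V m) :
    x ∈ Fold v (s.sc c) ↔ c • x ∈ Fold v s := by
  change (c • x ∉ s.I ∧ c • u v (s.sc c) x ∈ s.I) ↔ (c • x ∉ s.I ∧ u v s (c • x) ∈ s.I)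
  rw [u_sc h hc, smul_inv_smul₀ hc.ne']

end Scale

end St

end BEe
end
end
end

-- merged part: Pool.Agent.Work.MP_f0515e_an.Ev.PF2
section
-- merged part: Pool.Agent.Work.MP_f0515e_an.Ev.CoA
section
/-! The coarse step: cut-off functions, admissible levels and the virtual folded map. -/

open Set Metric Filter Topology MeasureTheory Function BEv
open scoped ENNReal NNReal

noncomputable section
namespace BEe

theorem med_nonneg (t : ℝ) : 0 ≤ med t := le_max_left _ _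

theorem med_le_one (t : ℝ) : med t ≤ 1 := max_le zero_le_one (min_le_right _ _)

theorem med_eq_zero {t : ℝ} (h : t ≤ 0) : med t = 0 := max_eq_left ((min_le_left _ _).trans h)

theorem med_eq_one {t : ℝ} (h : 1 ≤ t) : med t = 1 := by
  rw [med, min_eq_right h, max_eq_right zero_le_one]

theorem med_pos {t : ℝ} (h : 0 < t) : 0 < med t := lt_max_of_lt_right (lt_min h one_pos)

theorem coa_between {p q b : ℝ} (hb : 0 ≤ b) :
    (p ≤ p + clamp (q - p) b ∧ p + clamp (q - p) b ≤ q) ∨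
      (q ≤ p + clamp (q - p) b ∧ p + clamp (q - p) b ≤ p) := by
  unfold clamp
  rcases le_total p q with h | h
  · left
    rw [max_eq_right (le_min (by linarith) (by linarith))]
    exact ⟨by linarith [le_min (show 0 ≤ q - p by linarith) hb], by linarith [min_le_left (q - p) b]⟩
  · right
    rw [min_eq_left (by linarith)]
    exact ⟨by linarith [le_max_right (-b) (q - p)],
      by linarith [max_le (show -b ≤ 0 by linarith) (show q - p ≤ 0 by linarith)]⟩

namespace CP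

variable {m : ℕ} {v : V m} {s : St m} {P : CP m}

theorem tp_th (P : CP m) : TP P.th :=
  ((TP.const (12 : ℝ)).sub (TP.dcap P.F1 12)).min (TP.dcap P.F2 12)

theorem abs_th_sub_le (P : CP m) (x y : V m) : |P.th x - P.th y| ≤ ‖x - y‖ := by
  have h1 := abs_le.1 (abs_dcap_sub_le P.F1 12 x y)
  have h2 := abs_le.1 (abs_dcap_sub_le P.F2 12 x y)
  refine (abs_min_sub_min_le_max _ _ _ _).trans (max_le ?_ ?_)
  · exact abs_le.2 ⟨by linarith [h1.2], by linarith [h1.1]⟩
  · exact abs_le.2 h2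

theorem th_nonneg (P : CP m) (x : V m) : 0 ≤ P.th x :=
  le_min (sub_nonneg.2 (dcap_le_cap _ _ _)) (dcap_nonneg _ (by norm_num) _)

theorem exists_of_le_th {x : V m} {c : ℝ} (hc : 0 < c) (h : c ≤ P.th x) :
    ∃ p ∈ P.F1, ‖x - p‖ ≤ 12 - c := by
  have h1 : c ≤ 12 - dcap P.F1 12 x := h.trans (min_le_left _ _)
  obtain ⟨p, hp, he⟩ := exists_of_dcap_lt (S := P.F1) (M := 12) (x := x) (by linarith)
  exact ⟨p, hp, by linarith⟩

theorem th_le_of_mem (P : CP m) (x : V m) {p : V m} (hp : p ∈ P.F2) : P.th x ≤ ‖x - p‖ :=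
  (min_le_right _ _).trans (dcap_le 12 x hp)

theorem cases_of_th_le {x y : V m} (h : P.th x ≤ 8) (hxy : ‖x - y‖ < 1) :
    (∀ p ∈ P.F1, 3 < ‖y - p‖) ∨ ∃ p ∈ P.F2, ‖y - p‖ < 9 := by
  rcases min_le_iff.1 h with h1 | h1
  · refine Or.inl fun p hp => ?_
    have h2 := dcap_le 12 x hp
    have h3 : ‖x - p‖ ≤ ‖x - y‖ + ‖y - p‖ := norm_sub_le_norm_sub_add_norm_sub _ _ _
    linarith
  · obtain ⟨p, hp, he⟩ := exists_of_dcap_lt (S := P.F2) (M := 12) (x := x) (by linarith)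
    refine Or.inr ⟨p, hp, ?_⟩
    have h3 : ‖y - p‖ ≤ ‖y - x‖ + ‖x - p‖ := norm_sub_le_norm_sub_add_norm_sub _ _ _
    rw [norm_sub_rev y x] at h3
    linarith

theorem tp_zeta (P : CP m) : TP P.zeta :=
  ((TP.const (8 : ℝ)).sub P.tp_th).max (TP.const 0)

theorem abs_zeta_sub_le (P : CP m) (x y : V m) : |P.zeta x - P.zeta y| ≤ ‖x - y‖ := by
  have h1 := abs_le.1 (P.abs_th_sub_le x y)
  refine (abs_max_sub_max_le_abs _ _ _).trans ?_
  exact abs_le.2 ⟨by linarith [h1.2], by linarith [h1.1]⟩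

theorem tp_etaB (P : CP m) : TP P.etaB :=
  (TP.const (5 : ℝ)).sub (TP.dcap P.FU 5)

theorem abs_etaB_sub_le (P : CP m) (x y : V m) : |P.etaB x - P.etaB y| ≤ ‖x - y‖ := by
  have h1 := abs_le.1 (abs_dcap_sub_le P.FU 5 x y)
  unfold etaB
  exact abs_le.2 ⟨by linarith [h1.2], by linarith [h1.1]⟩

theorem lh_gB (P : CP m) (j : ℕ) : LH (P.gB j) :=
  lh_gtl (tj_pos j) (tj_le j) _ P.tp_etaB P.abs_etaB_sub_le

theorem norm_gB_sub_le (P : CP m) (j : ℕ) (x : V m) : ‖P.gB j x - x‖ ≤ 1 / 2 :=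
  norm_gtl_sub_le (tj_pos j) (tj_le j) (sub_nonneg.2 (dcap_le_cap _ _ x))

theorem gB_eq (P : CP m) (j : ℕ) {x : V m} (hx : dcap P.FU 5 x ≤ 4) :
    P.gB j x = gta (tj j) (Kj m j) x :=
  gtl_eq (by unfold etaB; linarith only [hx])

theorem gB_eq_self (P : CP m) (j : ℕ) {x : V m} (hx : ∀ p ∈ P.FU, 5 ≤ ‖x - p‖) :
    P.gB j x = x := by
  refine gtl_eq_self ?_
  have : dcap P.FU 5 x = 5 := le_antisymm (dcap_le_cap _ _ _) (le_cmin _ _ _ le_rfl hx)
  rw [etaB, this, sub_self]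

theorem lh_gz (P : CP m) (j : ℕ) : LH (gtl (tj j) (Kj m j) P.zeta) :=
  lh_gtl (tj_pos j) (tj_le j) _ P.tp_zeta P.abs_zeta_sub_le

theorem gz_eq_self (P : CP m) (j : ℕ) {x : V m} (hx : 8 ≤ P.th x) :
    gtl (tj j) (Kj m j) P.zeta x = x :=
  gtl_eq_self (max_eq_right (by linarith))

theorem lh_hi (P : CP m) (j : ℕ) : LH (P.hi j) :=
  (P.lh_gz j).comp (lh_gta (tj_pos j) (tj_le j) _).inv

theorem hi_gta (P : CP m) (j : ℕ) (x : V m) :
    P.hi j (gta (tj j) (Kj m j) x) = gtl (tj j) (Kj m j) P.zeta x := by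
  rw [hi, (lh_gta (tj_pos j) (tj_le j) _).li]

theorem hi_eq_self (P : CP m) (j : ℕ) {z : V m} (hz : P.th z ≤ 7) : P.hi j z = z := by
  have h1 := norm_gta_sub_le (tj_pos j) (tj_le j) (Kj m j) (invFun (gta (tj j) (Kj m j)) z)
  have h2 := (lh_gta (m := m) (tj_pos j) (tj_le j) (Kj m j)).ri z
  rw [h2] at h1
  have h3 := (abs_le.1 ((P.abs_th_sub_le z (invFun (gta (tj j) (Kj m j)) z)).trans h1)).1
  rw [hi, gtl_eq (le_max_of_le_left (by linarith only [hz, h3])), h2]

theorem norm_hi_sub_le (P : CP m) (j : ℕ) (y : V m) : ‖P.hi j y - y‖ ≤ 1 / 2 :=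
  norm_gtl_inv_sub_le (tj_pos j) (tj_le j) (fun _ => le_max_right _ _) y

theorem ll_hi (P : CP m) (j : ℕ) (y : V m) : LL (P.hi j) y (32 * 2 ^ j) := by
  refine (ll_gtl_inv (tj_pos j) (tj_le j) P.abs_zeta_sub_le (Kj m j) y).mono (le_of_eq ?_)
  rw [tj, one_div_pow, pow_add]
  field_simp
  norm_num

theorem mem_I_of_th (hP : Ok v s P) {x y : V m} (hx : 0 < P.th x) (hxy : ‖y - x‖ ≤ 8) :
    y ∈ s.I := by
  obtain ⟨p, hp, h⟩ := exists_of_le_th hx le_rfl
  refine hP.hF1 p hp ?_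
  rw [mem_closedBall, dist_eq_norm]
  have := norm_sub_le_norm_sub_add_norm_sub y x p
  linarith

theorem th_eq_zero (hP : Ok v s P) {x : V m} (hx : x ∉ s.I) : P.th x = 0 := by
  refine le_antisymm (not_lt.1 fun h => hx (mem_I_of_th hP h ?_)) (P.th_nonneg x)
  rw [sub_self, norm_zero]
  norm_num

theorem gB_eq_of_mem (hP : Ok v s P) (j : ℕ) {x z : V m} (hz : z ∈ St.U v s) (hx : ‖x - z‖ ≤ 3) :
    P.gB j x = gta (tj j) (Kj m j) x := by
  obtain ⟨p, hp, h1⟩ := hP.net z hz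
  have h2 := norm_sub_le_norm_sub_add_norm_sub x z p
  exact P.gB_eq j ((dcap_le 5 x hp).trans (by linarith))

theorem tp_B (hP : Ok v s P) : TP (B s P) :=
  (((TP.const 0).max (((TP.const 3).sub hP.tchi).min (TP.const 1))).const_mul _).add
    (((TP.const 0).max (((TP.const 2).sub hP.tchi).min (TP.const 1))).const_mul _)

theorem B_nonneg (hs : St.Ok v s) (hP : Ok v s P) (y : V m) : 0 ≤ B s P y :=
  add_nonneg (mul_nonneg hP.b00.le (med_nonneg _))
    (mul_nonneg (by linarith [hs.hσ]) (med_nonneg _))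

theorem B_eq_zero {y : V m} (h : 3 ≤ P.chi y) : B s P y = 0 := by
  rw [B, med_eq_zero (by linarith), med_eq_zero (by linarith)]
  ring

theorem B_pos (hs : St.Ok v s) (hP : Ok v s P) {y : V m} (h : P.chi y < 3) : 0 < B s P y :=
  add_pos_of_pos_of_nonneg (mul_pos hP.b00 (med_pos (by linarith)))
    (mul_nonneg (by linarith [hs.hσ]) (med_nonneg _))

theorem B_le (hP : Ok v s P) {y : V m} (h : 2 ≤ P.chi y) : B s P y ≤ P.b0 := by
  rw [B, med_eq_zero (t := 2 - _) (by linarith), mul_zero, add_zero]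
  exact mul_le_of_le_one_right hP.b00.le (med_le_one _)

theorem lt_B (hs : St.Ok v s) (hP : Ok v s P) {y : V m} (h : P.chi y ≤ 1) :
    2 * s.σ < B s P y := by
  rw [B, med_eq_one (by linarith), med_eq_one (by linarith)]
  linarith [hP.b00, hs.hσ]

theorem tp_adm (hs : St.Ok v s) (hP : Ok v s P) {E : Type} [NormedAddCommGroup E] [NormedSpace ℝ E]
    {y : E → V m} {t : E → ℝ} (hy : TP y) (ht : TP t) : TP (fun e => adm s P (y e) (t e)) :=
  (hP.tφ.comp hy).add (((ht.clamp ((St.tp_a hs).comp hy)).sub (hP.tφ.comp hy)).clamp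
    ((tp_B hP).comp hy))

theorem abs_adm_le (hs : St.Ok v s) (hP : Ok v s P) (y : V m) (t : ℝ) : |adm s P y t| ≤ s.a y := by
  have h1 := abs_le.1 (hP.φle y)
  have h2 := abs_le.1 (abs_clamp_le (c := t) (St.a_nonneg hs y))
  rcases coa_between (p := P.φ0 y) (q := clamp t (s.a y)) (B_nonneg hs hP y) with h | h <;>
    exact abs_le.2 ⟨by unfold adm; linarith [h.1], by unfold adm; linarith [h.2]⟩

theorem abs_adm_sub (hs : St.Ok v s) (hP : Ok v s P) (y : V m) (t : ℝ) :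
    |adm s P y t - P.φ0 y| ≤ B s P y := by
  rw [adm, add_sub_cancel_left]
  exact abs_clamp_le (B_nonneg hs hP y)

theorem adm_eq {y : V m} {t : ℝ} (h1 : |t| ≤ s.a y) (h : |t - P.φ0 y| ≤ B s P y) :
    adm s P y t = t := by
  rw [adm, clamp_eq_self h1, clamp_eq_self h, add_sub_cancel]

theorem adm_far {y : V m} (h : 3 ≤ P.chi y) (t : ℝ) : adm s P y t = P.φ0 y := by
  rw [adm, B_eq_zero h, clamp_zero, add_zero]

theorem tp_a0 (hs : St.Ok v s) (hP : Ok v s P) : TP (a0 v s P) :=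
  ((P.tp_th.comp (hs.hG.tpi.comp (TP.id'.add (hP.tφ.smul_const v)))).sub (TP.const 2)).min
    (hP.tchi.sub (TP.const 2))

theorem tp_a1 (hs : St.Ok v s) (hP : Ok v s P) : TP (a1 v s P) :=
  (TP.const _).min ((tp_a0 hs hP).max (TP.const 0))

theorem a1_le (y : V m) : a1 v s P y ≤ P.σ := min_le_left _ _

theorem tp_Xi (hs : St.Ok v s) (hP : Ok v s P) {E : Type} [NormedAddCommGroup E] [NormedSpace ℝ E]
    {z : E → V m} {c : E → ℝ} (hz : TP z) (hc : TP c) : TP (fun e => Xi v s P (z e) (c e)) := by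
  have h1 : TP fun e => s.G (z e) := hs.hG.tp.comp hz
  have h2 : TP fun e => pj v (s.G (z e)) := (tp_pj v).comp h1
  have h3 : TP fun e => (sh s.σ (c e, ell v (s.G (z e)))).2 :=
    ((shear_tp s.σ).comp (hc.prod ((tp_ell v).comp h1))).snd
  have h4 := (tp_RR hP.σ0).comp ((h3.clamp ((tp_a1 hs hP).comp h2)).prod h3)
  exact hs.hH.tpi.comp (h2.add (((lh_sh hs.hσ).tpi.comp (hc.prod h4)).snd.smul_const v))

theorem tp_Th (hs : St.Ok v s) (hP : Ok v s P) : TP (Th v s P) :=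
  tp_Xi hs hP TP.id' (tp_adm hs hP ((tp_pj v).comp hs.hG.tp) (St.tp_f hs))

theorem tp_Phi (hs : St.Ok v s) (hP : Ok v s P) (j : ℕ) : TP (Phi v s P j) := by
  have h1 : TP fun p : V m × ℝ => P.gB j p.1 := (P.lh_gB j).tp.comp TP.id'.fst
  exact (P.lh_hi j).tp.comp (tp_Xi hs hP h1
    (tp_adm hs hP ((tp_pj v).comp (hs.hG.tp.comp h1)) TP.id'.snd))

theorem tp_us (hs : St.Ok v s) (hP : Ok v s P) (j : ℕ) : TP (us v s P j) :=
  (P.lh_hi j).tp.comp ((tp_Th hs hP).comp (P.lh_gB j).tp)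

/-- The thin slab of the next state lies deep in `I`. -/
theorem one_le_th (hs : St.Ok v s) (hP : Ok v s P) {z : V m} {t : ℝ}
    (h0 : 0 ≤ a0 v s P (pj v (s.G z)))
    (h1 : |(sh s.σ (adm s P (pj v (s.G z)) t, ell v (s.G z))).2| ≤ 4 * P.σ) : 1 ≤ P.th z := by
  obtain ⟨h2, h3⟩ := le_min_iff.1 h0
  set y := pj v (s.G z) with hy
  have h4 := (abs_adm_sub hs hP y t).trans (B_le hP (by linarith))
  have h5 := sh_expand s.σ (adm s P y t) (ell v (s.G z)) (adm s P y t)
  rw [sh_self hs.hσ ((abs_adm_le hs hP y t).trans (s.a_le y)), sub_zero] at h5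
  have h6 := hP.sG y (ell v (s.G z)) (P.φ0 y) (by
    have := abs_sub_le (ell v (s.G z)) (adm s P y t) (P.φ0 y)
    linarith)
  rw [hy, pj_add_ell, hs.hG.li] at h6
  have h7 := (abs_le.1 ((P.abs_th_sub_le _ _).trans h6)).1
  linarith

theorem Xi_eq_Psi (hP : Ok v s P) {z : V m} {c : ℝ}
    (h : a0 v s P (pj v (s.G z)) ≤ 0 ∨ 4 * P.σ ≤ |(sh s.σ (c, ell v (s.G z))).2|) :
    Xi v s P z c = St.Psi v s z c := by
  have e : RR P.σ (clamp (sh s.σ (c, ell v (s.G z))).2 (a1 v s P (pj v (s.G z))))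
      (sh s.σ (c, ell v (s.G z))).2 = -(sh s.σ (c, ell v (s.G z))).2 := by
    rcases h with h | h
    · rw [a1, max_eq_right h, min_eq_right hP.σ0.le, clamp_zero, RR_zero hP.σ0]
    · exact RR_far hP.σ0 _ h
  rw [Xi, e]
  rfl

theorem Xi_thick (hs : St.Ok v s) (hP : Ok v s P) {z : V m} {c : ℝ} (hz : z ∈ s.I)
    (h : |(sh s.σ (c, ell v (s.G z))).2| ≤ a1 v s P (pj v (s.G z))) : Xi v s P z c = z := by
  rw [Xi, clamp_eq_self h, RR_self hP.σ0 (h.trans (a1_le _)), shear_inv hs.hσ rfl, pj_add_ell,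
    ← (hs.onI z hz).1, hs.hH.li]

theorem Xi_off (hs : St.Ok v s) (hP : Ok v s P) {z : V m} (hz : z ∉ s.I) (t : ℝ) :
    Xi v s P z (adm s P (pj v (s.G z)) t) = St.Psi v s z (adm s P (pj v (s.G z)) t) := by
  refine Xi_eq_Psi hP (by_contra fun hn => ?_)
  obtain ⟨h1, h2⟩ := not_or.1 hn
  have h3 := one_le_th hs hP (not_le.1 h1).le (not_le.1 h2).le
  rw [th_eq_zero hP hz] at h3
  linarith

theorem Xi_off_U (hs : St.Ok v s) (hP : Ok v s P) {z : V m} (hz : z ∉ St.U v s) (t : ℝ) :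
    Xi v s P z (adm s P (pj v (s.G z)) t) = St.k v s z := by
  rw [Xi_off hs hP (fun h => hz (St.I_subset_U hs h)), St.Psi_eq_k hs hz (abs_adm_le hs hP _ _)]

theorem Th_off (hs : St.Ok v s) (hP : Ok v s P) {z : V m} (hz : z ∉ St.U v s) :
    Th v s P z = St.u v s z := by
  rw [Th, Xi_off_U hs hP hz, St.u_eq_k hs hz]

theorem f_eq (hs : St.Ok v s) {z : V m} (hz : z ∈ s.I) : St.f v s z = ell v (s.G z) :=
  clamp_eq_self (hs.onI z hz).2.2

theorem a1_nonneg (hP : Ok v s P) (y : V m) : 0 ≤ a1 v s P y :=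
  le_min hP.σ0.le (le_max_right _ _)

theorem Th_skel (hs : St.Ok v s) (hP : Ok v s P) {x : V m} (hx : mu x = 0) :
    Th v s P x = St.u v s x := by
  by_cases hU : x ∈ St.U v s
  swap
  · exact Th_off hs hP hU
  have e : adm s P (pj v (s.G x)) (St.f v s x) = St.f v s x := by
    refine adm_eq (St.abs_f_le hs x) ?_
    rcases le_total 1 (P.chi (pj v (s.G x))) with h | h
    · rw [hP.φeq x hU hx h, sub_self, abs_zero]
      exact B_nonneg hs hP _
    · have h1 := (St.abs_f_le hs x).trans (s.a_le _)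
      have h2 := (hP.φle (pj v (s.G x))).trans (s.a_le _)
      exact (abs_sub _ _).trans (by linarith [lt_B hs hP h])
  by_cases hI : x ∈ s.I
  · rw [Th, e, St.u_eq_self hs hI]
    refine Xi_thick hs hP hI ?_
    rw [f_eq hs hI, sh_self hs.hσ ((hs.onI x hI).2.2.trans (s.a_le _)), abs_zero]
    exact a1_nonneg hP _
  · rw [Th, Xi_off hs hP hI, e]
    rfl

theorem isOpen_O (hs : St.Ok v s) (hP : Ok v s P) : IsOpen (O v s P) := by
  have h1 : TP fun z => pj v (s.G z) := (tp_pj v).comp hs.hG.tp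
  have h2 : Continuous fun z => |ell v (s.G z) - P.φ0 (pj v (s.G z))| :=
    (((tp_ell v).comp hs.hG.tp).sub (hP.tφ.comp h1)).abs.continuous
  exact (hs.hI.inter (isOpen_lt h2 ((tp_B hP).comp h1).continuous)).union
    (hs.hI.inter (isOpen_lt h2 ((tp_a1 hs hP).comp h1).continuous))

theorem O_subset {z : V m} (hz : z ∈ O v s P) : z ∈ s.I := hz.elim And.left And.left

theorem Th_O (hs : St.Ok v s) (hP : Ok v s P) {z : V m} (hz : z ∈ O v s P) : Th v s P z = z := by
  have hI := O_subset hz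
  have h1 := (hs.onI z hI).2.2
  refine Xi_thick hs hP hI ?_
  rw [f_eq hs hI]
  rcases hz with h | h
  · rw [adm_eq h1 h.2.le, sh_self hs.hσ (h1.trans (s.a_le _)), abs_zero]
    exact a1_nonneg hP _
  · rw [sh_near ((abs_adm_le hs hP _ _).trans (s.a_le _))
      ((h1.trans (s.a_le _)).trans (by linarith [hs.hσ])), adm, clamp_eq_self h1]
    refine le_trans ?_ h.2.le
    rcases coa_between (p := P.φ0 (pj v (s.G z))) (q := ell v (s.G z))
      (B_nonneg hs hP (pj v (s.G z))) with h2 | h2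
    · rw [abs_of_nonneg (by linarith [h2.2]), abs_of_nonneg (by linarith [h2.1, h2.2])]
      linarith [h2.1]
    · rw [abs_of_nonpos (by linarith [h2.1]), abs_of_nonpos (by linarith [h2.1, h2.2])]
      linarith [h2.2]

theorem mem_O (hs : St.Ok v s) (hP : Ok v s P) {x : V m} (hx : mu x = 0) (h2 : 2 < P.th x) :
    x ∈ O v s P := by
  have hI : x ∈ s.I := mem_I_of_th hP (lt_trans two_pos h2) (by simp)
  have hU := St.I_subset_U hs hI
  by_cases h1 : 1 ≤ P.chi (pj v (s.G x))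
  · have e : ell v (s.G x) - P.φ0 (pj v (s.G x)) = 0 := by
      rw [hP.φeq x hU hx h1, f_eq hs hI, sub_self]
    rcases lt_or_ge (P.chi (pj v (s.G x))) 3 with h | h
    · exact Or.inl ⟨hI, by rw [e, abs_zero]; exact B_pos hs hP h⟩
    · refine Or.inr ⟨hI, ?_⟩
      rw [e, abs_zero]
      refine lt_min hP.σ0 (lt_max_of_lt_left (lt_min ?_ (by linarith)))
      rw [← sub_eq_zero.1 e, pj_add_ell, hs.hG.li]
      linarith
  · have h3 := (hs.onI x hI).2.2.trans (s.a_le _)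
    have h4 := (hP.φle (pj v (s.G x))).trans (s.a_le _)
    exact Or.inl ⟨hI, (abs_sub _ _).trans_lt (by linarith [lt_B hs hP (not_le.1 h1).le])⟩

theorem th_u_le (hs : St.Ok v s) {Z : Set (V m)} (hZ : Prot v s P Z) {x : V m} (hxZ : x ∈ Z)
    (hx : mu x = 0) (h2 : P.th x ≤ 2) : P.th (St.u v s x) ≤ 2 := by
  by_cases hI : x ∈ s.I
  · rwa [St.u_eq_self hs hI]
  · exact (hZ x hxZ hx hI).trans one_le_two

/-- Near the skeleton, `Th` is the identity or lands in the shallow zone. -/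
theorem dichotomy (hs : St.Ok v s) (hP : Ok v s P) {Z : Set (V m)} (hc : IsCompact Z)
    (hZ : Prot v s P Z) : ∃ s1 : ℝ, 0 < s1 ∧ ∀ z ∈ Z, mu z < s1 →
      z ∈ O v s P ∨ P.th (Th v s P z) < 3 := by
  have hW : IsOpen {z | z ∈ O v s P ∨ P.th (Th v s P z) < 3} :=
    (isOpen_O hs hP).union (isOpen_lt (P.tp_th.comp (tp_Th hs hP)).continuous continuous_const)
  have h0 : ∀ z ∈ Z, mu z = 0 → z ∈ O v s P ∨ P.th (Th v s P z) < 3 := fun z hz hmu => by
    rcases le_or_gt (P.th z) 2 with h2 | h2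
    · rw [Th_skel hs hP hmu]
      exact Or.inr ((th_u_le hs hZ hz hmu h2).trans_lt (by norm_num))
    · exact Or.inl (mem_O hs hP hmu h2)
  rcases (Z \ {z | z ∈ O v s P ∨ P.th (Th v s P z) < 3}).eq_empty_or_nonempty with he | hne
  · exact ⟨1, one_pos, fun z hz _ => sdiff_eq_empty.1 he hz⟩
  · obtain ⟨z0, hz0, hmin⟩ := (hc.diff hW).exists_isMinOn hne tp_mu.continuous.continuousOn
    refine ⟨mu z0, lt_of_le_of_ne (mu_nonneg z0) fun e => hz0.2 (h0 z0 hz0.1 e.symm),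
      fun z hz hlt => ?_⟩
    by_contra hn
    exact hlt.not_ge (hmin ⟨hz, hn⟩)

end CP
end BEe
end
end

-- merged part: Pool.Agent.Work.MP_f0515e_an.Ev.CoB
section
/-! The new state. -/

open Set Metric Filter Topology MeasureTheory Function BEv
open scoped ENNReal NNReal

noncomputable section
namespace BEe
namespace CP

variable {m : ℕ} {v : V m} {s : St m} {P : CP m} {j : ℕ} {φ : V m → ℝ} {q : V m → V m}
  {Z : Set (V m)}

/-- Properties of the output of the fine lemma. -/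
structure FOk (v : V m) (s : St m) (P : CP m) (j : ℕ) (φ : V m → ℝ) (q : V m → V m)
    (Z : Set (V m)) : Prop where
  tφ : TP φ
  lq : LH q
  cl : IsClosed Z
  sub : Nz v s P j ⊆ Z
  near : ∀ x ∈ Z, ∃ x' ∈ Nz v s P j, ‖x - x'‖ ≤ 1
  off : ∀ x, x ∉ Z → q x = x
  mv : ∀ x, ‖q x - x‖ ≤ 1 / 2

theorem cob_tp (hs : St.Ok v s) (hP : Ok v s P) (hF : FOk v s P j φ q Z) :
    TP fun y => adm s P y (φ y) := tp_adm hs hP TP.id' hF.tφ

theorem cob_mv (hF : FOk v s P j φ q Z) (x : V m) : ‖P.gB j (q x) - x‖ ≤ 1 := by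
  have h1 := P.norm_gB_sub_le j (q x)
  have h2 := hF.mv x
  have h3 := norm_sub_le_norm_sub_add_norm_sub (P.gB j (q x)) (q x) x
  linarith only [h1, h2, h3]

theorem cob_lhG (hs : St.Ok v s) (hP : Ok v s P) (hF : FOk v s P j φ q Z) :
    LH (new v s P j φ q Z).G :=
  (lh_SS hs.hv hs.hσ (cob_tp hs hP hF)).comp (hs.hG.comp ((P.lh_gB j).comp hF.lq))

theorem cob_lhH (hs : St.Ok v s) (hP : Ok v s P) (hF : FOk v s P j φ q Z) :
    LH (new v s P j φ q Z).H :=
  (lh_SS hs.hv hs.hσ (cob_tp hs hP hF)).comp (hs.hH.comp (P.lh_hi j).inv)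

theorem cob_inv (hs : St.Ok v s) (hP : Ok v s P) (hF : FOk v s P j φ q Z) (w : V m) :
    invFun (new v s P j φ q Z).H w =
      P.hi j (invFun s.H (invFun (SS v s.σ fun y => adm s P y (φ y)) w)) := by
  refine (cob_lhH hs hP hF).inv_eq ?_
  simp only [new]
  rw [(P.lh_hi j).li, hs.hH.ri, (lh_SS hs.hv hs.hσ (cob_tp hs hP hF)).ri]

theorem cob_pj (hs : St.Ok v s) (x : V m) :
    pj v ((new v s P j φ q Z).G x) = pj v (s.G (P.gB j (q x))) :=
  pj_SS hs.hv s.σ (fun y => adm s P y (φ y)) (s.G (P.gB j (q x)))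

theorem cob_ell (hs : St.Ok v s) (x : V m) : ell v ((new v s P j φ q Z).G x) =
    (sh s.σ (adm s P (pj v (s.G (P.gB j (q x)))) (φ (pj v (s.G (P.gB j (q x))))),
      ell v (s.G (P.gB j (q x))))).2 :=
  ell_SS hs.hv s.σ (fun y => adm s P y (φ y)) (s.G (P.gB j (q x)))

theorem u_new (hs : St.Ok v s) (hP : Ok v s P) (hF : FOk v s P j φ q Z) (x : V m) :
    St.u v (new v s P j φ q Z) x = Phi v s P j (q x, φ (pj v (s.G (P.gB j (q x))))) := by
  rw [St.u, St.Psi, St.f, cob_inv hs hP hF, cob_pj hs, cob_ell hs,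
    inv_SS hs.hv hs.hσ (cob_tp hs hP hF)]
  rfl

theorem k_new (hs : St.Ok v s) (hP : Ok v s P) (hF : FOk v s P j φ q Z) (x : V m) :
    St.k v (new v s P j φ q Z) x = P.hi j (St.Psi v s (P.gB j (q x))
      (adm s P (pj v (s.G (P.gB j (q x)))) (φ (pj v (s.G (P.gB j (q x))))))) := by
  rw [St.k, cob_inv hs hP hF]
  exact congrArg (fun w => P.hi j (invFun s.H w))
    (inv_SS_rf hs.hv hs.hσ (cob_tp hs hP hF) (s.G (P.gB j (q x))))

/-- Off the zone `Nz` the level plays no role. -/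
theorem Phi_off (hs : St.Ok v s) (hP : Ok v s P) {x : V m} (hx : x ∉ Nz v s P j) (t : ℝ) :
    Phi v s P j (x, t) = us v s P j x := by
  rcases not_and_or.1 hx with h | h
  · rw [Phi, us, Th, Xi_off_U hs hP h, Xi_off_U hs hP h]
  · rw [Phi, us, Th, adm_far (not_le.1 h).le, adm_far (not_le.1 h).le]

theorem u_new_off (hs : St.Ok v s) (hP : Ok v s P) (hF : FOk v s P j φ q Z) {x : V m}
    (hx : x ∉ Z) : St.u v (new v s P j φ q Z) x = us v s P j x := by
  rw [u_new hs hP hF, hF.off x hx, Phi_off hs hP fun h => hx (hF.sub h)]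

theorem cob_th (hs : St.Ok v s) (hP : Ok v s P) {x : V m}
    (hx : x ∈ St.U v (new v s P j φ q Z)) : 1 ≤ P.th (P.gB j (q x)) := by
  obtain ⟨h1, h2⟩ := hx
  rw [cob_pj hs] at h1
  rw [cob_ell hs] at h2
  exact one_le_th hs hP h1 h2

theorem cob_mem_I (hs : St.Ok v s) (hP : Ok v s P) {x : V m}
    (hx : x ∈ St.U v (new v s P j φ q Z)) : P.gB j (q x) ∈ s.I :=
  mem_I_of_th hP (one_pos.trans_le (cob_th hs hP hx)) (by simp)

theorem U_new_subset (hs : St.Ok v s) (hP : Ok v s P) (hF : FOk v s P j φ q Z) {x : V m}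
    (hx : x ∈ St.U v (new v s P j φ q Z)) : ∃ p ∈ P.F1, ‖x - p‖ ≤ 12 := by
  obtain ⟨p, hp, h1⟩ := exists_of_le_th one_pos (cob_th hs hP hx)
  refine ⟨p, hp, ?_⟩
  have h2 := cob_mv hF x
  rw [norm_sub_rev] at h2
  have h3 := norm_sub_le_norm_sub_add_norm_sub x (P.gB j (q x)) p
  linarith

theorem isOpen_Is (hs : St.Ok v s) (hP : Ok v s P) (j : ℕ) : IsOpen (Is v s P j) :=
  (isOpen_lt continuous_const P.tp_th.continuous).inter
    ((isOpen_O hs hP).preimage (P.lh_gB j).tp.continuous)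

theorem isClosed_Fos (hs : St.Ok v s) (hP : Ok v s P) (j : ℕ) : IsClosed (Fos v s P j) :=
  ((isOpen_O hs hP).preimage (P.lh_gB j).tp.continuous).isClosed_compl.inter
    (isClosed_le continuous_const (P.tp_th.comp (tp_us hs hP j)).continuous)

theorem isClosed_Nz (hs : St.Ok v s) (hP : Ok v s P) (j : ℕ) : IsClosed (Nz v s P j) :=
  ((St.isCompact_U hs).isClosed.preimage (P.lh_gB j).tp.continuous).inter (isClosed_le
    (hP.tchi.comp ((tp_pj v).comp (hs.hG.tp.comp (P.lh_gB j).tp))).continuous continuous_const)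

theorem cob_gB (hs : St.Ok v s) (hP : Ok v s P) {x : V m} (hx : P.gB j x ∈ s.I) :
    P.gB j x = gta (tj j) (Kj m j) x :=
  gB_eq_of_mem hP j (St.I_subset_U hs hx) (by
    rw [norm_sub_rev]
    linarith only [P.norm_gB_sub_le j x])

theorem us_O (hs : St.Ok v s) (hP : Ok v s P) {x : V m} (hx : P.gB j x ∈ O v s P) :
    us v s P j x = gtl (tj j) (Kj m j) P.zeta x := by
  rw [us, Th_O hs hP hx, cob_gB hs hP (O_subset hx), hi_gta]

theorem ok_new (hs : St.Ok v s) (hP : Ok v s P) (hF : FOk v s P j φ q Z) :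
    St.Ok v (new v s P j φ q Z) := by
  refine ⟨hs.hv, cob_lhG hs hP hF, cob_lhH hs hP hF, hP.σ0, tp_a0 hs hP,
    (isOpen_Is hs hP j).sdiff hF.cl, ?_, ?_⟩
  · refine ((Bornology.isBounded_biUnion_finset P.F1 (f := fun p => closedBall p 12)).2
      fun p _ => isBounded_closedBall).subset fun x hx => ?_
    obtain ⟨p, hp, h1⟩ := U_new_subset hs hP hF hx
    exact mem_iUnion₂.2 ⟨p, hp, by rwa [mem_closedBall, dist_eq_norm]⟩
  · rintro x ⟨⟨h8, hO⟩, hZ⟩
    have hI := O_subset hO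
    have h1 : 3 ≤ P.chi (pj v (s.G (P.gB j x))) :=
      (not_le.1 fun h => hZ (hF.sub ⟨St.I_subset_U hs hI, h⟩)).le
    have h2 : P.gB j x ∈ Ob v s P := hO.resolve_left fun h => by
      have h3 := h.2
      rw [B_eq_zero h1] at h3
      exact absurd h3 (not_lt.2 (abs_nonneg _))
    have h3 : invFun (P.hi j) x = P.gB j x :=
      (P.lh_hi j).inv_eq (by rw [cob_gB hs hP hI, hi_gta, P.gz_eq_self j h8.le])
    rw [cob_pj hs, cob_ell hs, hF.off x hZ, adm_far h1, sh_near ((hP.φle _).trans (s.a_le _))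
      (((hs.onI _ hI).2.2.trans (s.a_le _)).trans (by linarith [hs.hσ]))]
    refine ⟨?_, ?_, h2.2.le⟩
    · simp only [new]
      rw [h3, hF.off x hZ, (hs.onI _ hI).1]
    · have h4 : 0 < max (a0 v s P (pj v (s.G (P.gB j x)))) 0 :=
        ((abs_nonneg _).trans_lt h2.2).trans_le (min_le_right _ _)
      rcases lt_max_iff.1 h4 with h5 | h5
      · exact h5.le
      · exact absurd h5 (lt_irrefl _)

theorem gam_new (hs : St.Ok v s) (hΓ : St.Gam v s) (hP : Ok v s P) :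
    St.Gam v (new v s P j φ q Z) := by
  intro x hx
  have h2 := cob_mem_I hs hP hx
  rw [cob_pj hs, hΓ _ (St.I_subset_U hs h2), cob_gB hs hP h2]
  rfl

theorem cob_hi_k (hs : St.Ok v s) (hP : Ok v s P) (j : ℕ) {x : V m} (hx : x ∉ St.U v s) :
    P.hi j (St.k v s x) = St.k v s x := by
  refine P.hi_eq_self j ?_
  rw [th_eq_zero hP (fun h => hx (St.mem_U_of_k hs h))]
  norm_num

theorem us_off (hs : St.Ok v s) (hP : Ok v s P) {x : V m} (hx : P.gB j x ∉ St.U v s) :
    us v s P j x = St.u v s (P.gB j x) := by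
  rw [us, Th_off hs hP hx, St.u_eq_k hs hx, cob_hi_k hs hP j hx]

theorem new_off (hs : St.Ok v s) (hP : Ok v s P) (hF : FOk v s P j φ q Z) {x : V m}
    (hx : ∀ y ∈ St.U v s, 5 ≤ ‖x - y‖) : St.k v (new v s P j φ q Z) x = St.k v s x ∧
      St.u v (new v s P j φ q Z) x = St.u v s x := by
  have h0 : x ∉ Z := fun h => by
    obtain ⟨x', h1, h2⟩ := hF.near x h
    have h3 := hx _ h1.1
    have h4 := P.norm_gB_sub_le j x'
    rw [norm_sub_rev] at h4
    have h5 := norm_sub_le_norm_sub_add_norm_sub x x' (P.gB j x')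
    linarith only [h2, h3, h4, h5]
  have h1 : P.gB j x = x := P.gB_eq_self j fun p hp => hx p (hP.hFU p hp)
  have h2 : x ∉ St.U v s := fun h => by
    have := hx x h
    norm_num at this
  constructor
  · rw [k_new hs hP hF, hF.off x h0, h1, St.Psi_eq_k hs h2 (abs_adm_le hs hP _ _),
      cob_hi_k hs hP j h2]
  · rw [u_new_off hs hP hF h0, us_off hs hP (by rwa [h1]), h1]

theorem norm_k_new_sub (hs : St.Ok v s) (hP : Ok v s P) (hF : FOk v s P j φ q Z) {η L : ℝ}
    (hη0 : 0 ≤ η) (hη : St.Fib v s η) (hL0 : 0 ≤ L)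
    (hL : ∀ x y, ‖St.k v s x - St.k v s y‖ ≤ L * ‖x - y‖) (x : V m) :
    ‖St.k v (new v s P j φ q Z) x - St.k v s x‖ ≤ 2 * η + L + 1 := by
  rw [k_new hs hP hF]
  have h0 := cob_mv hF x
  have hc := abs_adm_le hs hP (pj v (s.G (P.gB j (q x)))) (φ (pj v (s.G (P.gB j (q x)))))
  generalize adm s P (pj v (s.G (P.gB j (q x)))) (φ (pj v (s.G (P.gB j (q x))))) = c at hc ⊢
  generalize P.gB j (q x) = w at h0 hc ⊢
  have h1 := P.norm_hi_sub_le j (St.Psi v s w c)
  have h2 : ‖St.Psi v s w c - St.k v s w‖ ≤ 2 * η := by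
    by_cases h : w ∈ St.U v s
    · have h3 := St.norm_Psi_sub_le hs hη h c
      have h4 := St.norm_k_sub_le hs hη h
      rw [norm_sub_rev] at h4
      have h5 := norm_sub_le_norm_sub_add_norm_sub (St.Psi v s w c) w (St.k v s w)
      linarith only [h3, h4, h5]
    · rw [St.Psi_eq_k hs h hc, sub_self, norm_zero]
      linarith
  have h3 : ‖St.k v s w - St.k v s x‖ ≤ L := (hL w x).trans (by linarith only [hL0, h0, mul_nonneg_of_nonpos_of_nonpos (Mathlib.Tactic.Linarith.sub_nonpos_of_le hL0) (Mathlib.Tactic.Linarith.sub_nonpos_of_le h0)])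
  have h4 := norm_sub_le_norm_sub_add_norm_sub (P.hi j (St.Psi v s w c)) (St.Psi v s w c)
    (St.k v s x)
  have h5 := norm_sub_le_norm_sub_add_norm_sub (St.Psi v s w c) (St.k v s w) (St.k v s x)
  linarith only [h1, h2, h3, h4, h5]

theorem fib_new (hs : St.Ok v s) (hP : Ok v s P) (hF : FOk v s P j φ q Z) :
    St.Fib v (new v s P j φ q Z) 3 := by
  intro x hx t ht
  have h2 := cob_mem_I hs hP hx
  have h0 := cob_mv hF x
  have h1 := hx.2
  rw [cob_ell hs] at h1
  rw [cob_inv hs hP hF, cob_pj hs, inv_SS hs.hv hs.hσ (cob_tp hs hP hF)]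
  generalize adm s P (pj v (s.G (P.gB j (q x)))) (φ (pj v (s.G (P.gB j (q x))))) = c at h1 ⊢
  generalize P.gB j (q x) = z at h0 h1 h2 ⊢
  have h3 := sh_inv_lip hs.hσ c t (sh s.σ (c, ell v (s.G z))).2
  rw [shear_inv (t := ell v (s.G z)) hs.hσ rfl] at h3
  have ht' : |t| ≤ 4 * P.σ := ht
  have h1' : |(sh s.σ (c, ell v (s.G z))).2| ≤ 4 * P.σ := h1
  have h4 := hP.sH (pj v (s.G z)) _ _ (h3.trans (by
    have := abs_sub t (sh s.σ (c, ell v (s.G z))).2
    linarith))
  rw [pj_add_ell, hs.hH.inv_eq (hs.onI z h2).1] at h4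
  generalize invFun s.H (pj v (s.G z) + (invFun (sh s.σ) (c, t)).2 • v) = y at h4 ⊢
  have h5 := P.norm_hi_sub_le j y
  have h6 := norm_sub_le_norm_sub_add_norm_sub (P.hi j y) y x
  have h7 := norm_sub_le_norm_sub_add_norm_sub y z x
  linarith only [h0, h4, h5, h6, h7]

theorem Fold_new_subset (hs : St.Ok v s) (hP : Ok v s P) (hF : FOk v s P j φ q Z) {z : V m}
    (hz : z ∈ St.Fold v (new v s P j φ q Z)) :
    z ∈ (Fos v s P j ∪ Z) ∩ {x | ∃ p ∈ P.F1, ‖x - p‖ ≤ 12} := by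
  refine ⟨or_iff_not_imp_right.2 fun hZ => ?_,
    U_new_subset hs hP hF (St.Fold_subset (ok_new hs hP hF) hz)⟩
  obtain ⟨hn, hu⟩ := hz
  rw [u_new_off hs hP hF hZ] at hu
  refine ⟨fun hO => hn ?_, hu.1.1.le⟩
  have h4 := P.gz_eq_self j hu.1.1.le
  have h5 : us v s P j z = z := (P.lh_gz j).inj (h4.trans (us_O hs hP hO))
  rwa [h5] at hu

end CP
end BEe
end
end

-- merged part: Pool.Agent.Work.MP_f0515e_an.Ev.Dct
section
/-! Dominated convergence along the sequence of contractions. -/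

open Set Metric Filter Topology MeasureTheory Function BEv
open scoped ENNReal NNReal

noncomputable section
namespace BEe

variable {m : ℕ}

theorem pow_le_wt {f : V m → V m} {x : V m} {c C : ℝ} (hb : 0 < be x) (h : LL f x c)
    (hc : 0 ≤ c) (hC : 1 + c ≤ C / be x) :
    (1 + lip f x) ^ (m + 1) ≤ ENNReal.ofReal C ^ (m + 1) * wt x := by
  have h1 : 1 + lip f x ≤ ENNReal.ofReal C * (ENNReal.ofReal (be x))⁻¹ := by
    rw [← div_eq_mul_inv, ← ENNReal.ofReal_div_of_pos hb]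
    refine le_trans ?_ (ENNReal.ofReal_le_ofReal hC)
    rw [ENNReal.ofReal_add zero_le_one hc, ENNReal.ofReal_one]
    exact add_le_add le_rfl h.lip_le
  rw [wt, ← mul_pow]
  exact pow_le_pow_left₀ zero_le h1 _

theorem ll_om {u : V m → V m} (hu : TP u) {x y : V m} (hy : ‖y - x‖ < 2) :
    LL u y (om u 2 x).toReal := by
  obtain ⟨L, hL, hom⟩ := hu.om_bound
  exact LL.of_nhds (t := ball x 2) (isOpen_ball.mem_nhds (mem_ball_iff_norm.2 hy))
    fun y hy z hz => norm_sub_le_om (ne_top_of_le_ne_top hL (hom _ _)) hy hz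

theorem pow_le_om {u f : V m → V m} (hu : TP u) {x : V m} {c : ℝ} (hb : 0 < be x) (h : LL f x c)
    (hc : 0 ≤ c) (hC : 1 + c ≤ 9 * (1 + (om u 2 x).toReal) / be x) :
    (1 + lip f x) ^ (m + 1) ≤ (9 * (1 + om u 2 x)) ^ (m + 1) * wt x := by
  obtain ⟨L, hL, hom⟩ := hu.om_bound
  have h1 : om u 2 x ≠ ⊤ := ne_top_of_le_ne_top hL (hom _ _)
  have h2 := pow_le_wt hb h hc hC
  rwa [ENNReal.ofReal_mul (by norm_num), ENNReal.ofReal_add zero_le_one ENNReal.toReal_nonneg,
    ENNReal.ofReal_one, ENNReal.ofReal_toReal h1, ENNReal.ofReal_ofNat] at h2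

theorem dct_core (R C : ℝ) (hC : 0 ≤ C) : Tendsto (fun j : ℕ =>
    ENNReal.ofReal (1 + C * 2 ^ j * 2 ^ Kj m j) ^ (m + 1) *
      volume ({x : V m | be x ≤ dl (Kj m j)} ∩ closedBall 0 R)) atTop (𝓝 0) := by
  obtain ⟨C1, hC1, h⟩ := volume_be_le (m := m) R
  have h1 : Tendsto (fun j : ℕ => ENNReal.ofReal ((1 + C) ^ (m + 1) * C1 * (1 / 2) ^ j)) atTop
      (𝓝 (ENNReal.ofReal ((1 + C) ^ (m + 1) * C1 * 0))) :=
    ENNReal.tendsto_ofReal ((tendsto_pow_atTop_nhds_zero_of_lt_one (r := (1 / 2 : ℝ))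
      (by norm_num) (by norm_num)).const_mul _)
  rw [mul_zero, ENNReal.ofReal_zero] at h1
  refine tendsto_of_tendsto_of_tendsto_of_le_of_le tendsto_const_nhds h1 (fun _ => zero_le)
    fun j => ?_
  refine (mul_le_mul_right (h _ (dl_pos _).le) _).trans ?_
  rw [← ENNReal.ofReal_pow (by positivity), ← ENNReal.ofReal_mul (by positivity)]
  refine ENNReal.ofReal_le_ofReal ?_
  have e1 : (1 : ℝ) ≤ 2 ^ j * 2 ^ Kj m j :=
    one_le_mul_of_one_le_of_one_le (per1b_one_le j) (per1b_one_le _)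
  have e2 : 1 + C * 2 ^ j * 2 ^ Kj m j ≤ (1 + C) * (2 ^ j * 2 ^ Kj m j) := by nlinarith
  have e3 : dl (Kj m j) ≤ 1 / 2 ^ Kj m j :=
    one_div_le_one_div_of_le (by positivity) (per1b_pow_le (Nat.le_succ _))
  have e4 : ((2 : ℝ) ^ j * 2 ^ Kj m j) ^ (m + 1) * (1 / 2 ^ Kj m j) ^ (m + 2) = (1 / 2) ^ j := by
    have e5 : (2 : ℝ) ^ Kj m j = (2 ^ j) ^ (m + 1) * 2 ^ j := by
      rw [Kj, ← pow_succ, ← pow_mul, mul_comm]
    rw [mul_pow, pow_succ (1 / (2 : ℝ) ^ Kj m j) (m + 1), ← mul_assoc, mul_assoc ((2 ^ j) ^ _),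
      ← mul_pow, mul_one_div_cancel (by positivity), one_pow, mul_one, e5, one_div_pow]
    field_simp
  calc (1 + C * 2 ^ j * 2 ^ Kj m j) ^ (m + 1) * (C1 * dl (Kj m j) ^ (m + 2))
      ≤ ((1 + C) * (2 ^ j * 2 ^ Kj m j)) ^ (m + 1) * (C1 * (1 / 2 ^ Kj m j) ^ (m + 2)) := by
        have := (dl_pos (Kj m j)).le
        gcongr
    _ = (1 + C) ^ (m + 1) * C1 * (1 / 2) ^ j := by
        rw [mul_pow, ← e4]
        ring

theorem contr {W : ℕ → V m → V m} {Z : ℕ → Set (V m)} {G : ℕ → V m → ℝ≥0∞} {Y : Set (V m)}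
    (hY : MeasurableSet Y) (hYb : Bornology.IsBounded Y) (hZ : ∀ j, MeasurableSet (Z j))
    (hG : ∀ j, Measurable (G j)) {C : ℝ} (hC : 0 ≤ C)
    (hdom : ∀ᶠ j in atTop, ∀ x ∈ Y, dl (Kj m j) < be x → LL (W j) x (C / be x))
    (hcore : ∀ᶠ j in atTop, ∀ x ∈ Y, LL (W j) x (C * 2 ^ j * 2 ^ Kj m j))
    (hpt : ∀ᵐ x, x ∈ Y → ∀ᶠ j in atTop, x ∈ Z j → (1 + lip (W j) x) ^ (m + 1) ≤ G j x)
    {ε : ℝ≥0∞} (hε : ε ≠ 0) : ∀ᶠ j in atTop, ∀ A : Set (V m), MeasurableSet A →
      En (W j) (Y ∩ Z j ∩ A) ≤ (∫⁻ x in Y ∩ Z j ∩ A, G j x) + ε := by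
  obtain ⟨R, hR⟩ := hYb.subset_closedBall (0 : V m)
  set F : ℕ → V m → ℝ≥0∞ := fun j x => (1 + lip (W j) x) ^ (m + 1) with hF
  have hFm : ∀ j, Measurable (F j) := fun j => ((measurable_lip _).const_add _).pow_const _
  set w : V m → ℝ≥0∞ := fun x => ENNReal.ofReal (1 + C) ^ (m + 1) * wt x with hw
  have hwm : Measurable w := measurable_wt.const_mul _
  have hfin : ∫⁻ x in Y, w x ≠ ⊤ := by
    rw [hw, lintegral_const_mul _ measurable_wt]
    exact ENNReal.mul_ne_top (ENNReal.pow_ne_top ENNReal.ofReal_ne_top)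
      (ne_top_of_le_ne_top (lintegral_wt_ne_top 0 R) (lintegral_mono_set hR))
  set B : ℕ → Set (V m) := fun j => Z j ∩ {x | G j x < F j x} with hB
  have hBm : ∀ j, MeasurableSet (B j) := fun j => (hZ j).inter (measurableSet_lt (hG j) (hFm j))
  have hlim : Tendsto (fun j => ∫⁻ x in Y, indicator (B j) w x) atTop
      (𝓝 (∫⁻ _x in Y, (0 : ℝ≥0∞))) := by
    refine tendsto_lintegral_of_dominated_convergence w (fun j => hwm.indicator (hBm j))
      (fun j => Eventually.of_forall fun x => indicator_le_self _ _ x) hfin ?_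
    rw [ae_restrict_iff' hY]
    filter_upwards [hpt] with x hx hxY
    refine tendsto_const_nhds.congr' ?_
    filter_upwards [hx hxY] with j hj
    refine (indicator_of_notMem (fun h => ?_) _).symm
    exact absurd (hj h.1) (not_le.2 h.2)
  rw [lintegral_zero] at hlim
  have hsum := hlim.add (dct_core (m := m) R C hC)
  rw [add_zero] at hsum
  filter_upwards [hsum.eventually (eventually_le_nhds (pos_iff_ne_zero.2 hε)), hdom, hcore]
    with j h1 h2 h3 A hA
  have hc : MeasurableSet {x : V m | be x ≤ dl (Kj m j)} :=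
    measurableSet_le tp_be.continuous.measurable measurable_const
  have hm : MeasurableSet (Y ∩ Z j ∩ A) := (hY.inter (hZ j)).inter hA
  set c : ℝ≥0∞ := ENNReal.ofReal (1 + C * 2 ^ j * 2 ^ Kj m j) ^ (m + 1) with hcd
  have hpw : ∀ x ∈ Y ∩ Z j ∩ A, F j x ≤ G j x + (indicator (B j) w x +
      indicator {x : V m | be x ≤ dl (Kj m j)} (fun _ => c) x) := by
    intro x hx
    by_cases hxA : x ∈ {x : V m | be x ≤ dl (Kj m j)}
    · rw [indicator_of_mem hxA]
      refine le_add_left (le_add_left (pow_le_pow_left' ?_ _))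
      rw [ENNReal.ofReal_add zero_le_one (by positivity), ENNReal.ofReal_one]
      exact add_le_add le_rfl (h3 x hx.1.1).lip_le
    · by_cases hxB : x ∈ B j
      · rw [indicator_of_mem hxB]
        have hb := (dl_pos _).trans (not_le.1 hxA)
        refine le_add_left (le_add_right (pow_le_wt hb (h2 x hx.1.1 (not_le.1 hxA))
          (by positivity) ?_))
        rw [add_div, add_le_add_iff_right, le_div_iff₀ hb]
        linarith only [be_le_half x]
      · exact le_add_right (not_lt.1 fun h => hxB ⟨hx.1.2, h⟩)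
  calc ∫⁻ x in Y ∩ Z j ∩ A, F j x
      ≤ ∫⁻ x in Y ∩ Z j ∩ A, G j x + (indicator (B j) w x +
          indicator {x : V m | be x ≤ dl (Kj m j)} (fun _ => c) x) := setLIntegral_mono' hm hpw
    _ = (∫⁻ x in Y ∩ Z j ∩ A, G j x) + ((∫⁻ x in Y ∩ Z j ∩ A, indicator (B j) w x) +
          ∫⁻ x in Y ∩ Z j ∩ A, indicator {x : V m | be x ≤ dl (Kj m j)} (fun _ => c) x) := by
        rw [lintegral_add_left (hG j), lintegral_add_left (hwm.indicator (hBm j))]
    _ ≤ _ := by
        refine add_le_add le_rfl (le_trans (add_le_add (lintegral_mono_set fun x hx => hx.1.1) ?_) h1)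
        rw [lintegral_indicator_const hc, Measure.restrict_apply hc]
        exact mul_le_mul_right (measure_mono fun x hx => mem_inter hx.1 (hR hx.2.1.1)) _

end BEe
end
end

-- merged part: Pool.Agent.Work.MP_f0515e_an.Ev.PF
section
/-! Weight carried by the fibres of the retraction over small balls.

Plan for `pf0_le`.  Write `al i = dd (x i - 1 / 2)`, `b = be x`.  For every `x` there is `T` with
`T.card = m + 1`, `al i ≤ b` on `T` and `b ≤ al i` off `T` (`card_lt_be`, `be_le_iff`,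
`Finset.exists_subsuperset_card_eq`).  Cover the set by the pieces `Z T k` (`k i` an integer in
`Icc (⌊a i⌋ - 2) (⌊a i⌋ + 1)`, namely `round (x i - 1 / 2)`; use `norm_r0_sub_le`) given by the two
conditions of `PF0`, the conditions on `T` above and `|x i - 1 / 2 - k i| ≤ 1 / 2` for `i ∈ T`.  On a
piece `b` is the minimum of the `al i`, `i ∉ T` (one of the `m + 2` indices of `be_le_iff` is outside
`T`), so it only depends on the coordinates off `T`.  `pf_slope` (from `per2b_slope` when the value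
at `d'` is below `1 / 2`; in general take the `k` with `2 ^ k * c ≤ 1 / 2 < 2 ^ (k + 1) * c`, or
pass to the limit `d'' → d'` from below, where `per1b_le_term` gives a value below `1 / 2`) and
`oext_eq`, `r0_apply` give `|x i - y i| ≤ 4 * b * |r0 K x i - r0 K y i| ≤ 8 * b * t` for `i ∈ T`
(see `BEv.per2b_fibre`).  Conclude with `meas2_fubini` (`R = 1`, `r = 8 * b * t`), as in
`BEv.fibre_le` of `Meas2.lean`. -/

open Set Metric Filter Topology MeasureTheory Function BEv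
open scoped ENNReal NNReal

noncomputable section
namespace BEe

variable {m : ℕ}

theorem pf_meas0 (K : ℕ) (a : V m) (t : ℝ) :
    MeasurableSet {x : V m | dl K < be x ∧ ‖r0 K x - a‖ ≤ t} := by
  have a1 : MeasurableSet {x : V m | dl K < be x} :=
    (isOpen_lt continuous_const tp_be.continuous).measurableSet
  have a2 : MeasurableSet {x : V m | ‖r0 K x - a‖ ≤ t} :=
    (isClosed_le ((tp_r0 K).continuous.sub continuous_const).norm continuous_const).measurableSet
  exact a1.inter a2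

theorem measurable_PF0 (K : ℕ) (a : V m) (t : ℝ) : Measurable (PF0 K a t) :=
  measurable_wt.indicator (pf_meas0 K a t)

theorem pf_slope {K : ℕ} {c d d' : ℝ} (hc : dl K ≤ c) (hc1 : c ≤ 1 / 2) (hd0 : 0 ≤ d)
    (hd : d ≤ d') (hd' : d' ≤ c) : d' - d ≤ 4 * c * (per2b_psi K c d' - per2b_psi K c d) := by
  rcases lt_or_ge (per2b_psi K c d') (1 / 2) with h | h
  · exact per2b_slope hc hd h
  have hc0 : 0 < c := (dl_pos K).trans_le hc
  rcases Nat.eq_zero_or_pos K with rfl | hK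
  · have h1 : per2b_psi 0 c d ≤ 2 ^ 0 * d := per1b_le_pow _ _ 0 c d
    have h2 : c = 1 / 2 := le_antisymm hc1 (by simpa [dl] using hc)
    rw [pow_zero, one_mul] at h1
    generalize per2b_psi 0 c d = p at h1
    generalize per2b_psi 0 c d' = p' at h
    rw [h2] at hd' ⊢
    linarith only [hd, hd', h1, h]
  · obtain ⟨j, hj, k1, k2⟩ := meas2_shell (ρ := 1 / 2) (t := c) (by norm_num) K hK
      (by rw [div_div, ← pow_succ']; exact hc) hc1
    have h1 : per2b_psi K c d ≤ 2 ^ j * d + max (1 / 2 - 2 ^ j * c) 0 :=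
      per1b_le_term _ _ hj c d
    have hp : (0 : ℝ) < 2 ^ j := by positivity
    rw [div_le_iff₀ (by positivity), pow_succ] at k1
    rw [le_div_iff₀ hp] at k2
    rw [max_eq_left (by linarith only [k2])] at h1
    have h3 : 2 ^ j * (c - d) ≤ per2b_psi K c d' - per2b_psi K c d := by linarith only [h, h1]
    have h4 := mul_le_mul_of_nonneg_left h3 (show 0 ≤ 4 * c by linarith only [hc0])
    have h5 := mul_le_mul_of_nonneg_right (show 1 ≤ 4 * c * 2 ^ j by linarith only [k1])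
      (show 0 ≤ c - d by linarith only [hd, hd'])
    linarith only [hd', h4, h5]

theorem pf_fibre0 {K : ℕ} {x y : V m} (hx : dl K ≤ be x) (hxy : be x = be y)
    {i : Fin (2 * m + 2)} {k : ℤ} (kx : |x i - 1 / 2 - k| ≤ be x)
    (ky : |y i - 1 / 2 - k| ≤ be x) (h : y i ≤ x i) :
    x i - y i ≤ 4 * be x * (r0 K x i - r0 K y i) := by
  have z := (per2b_adm K (be x)).1
  have hb := be_le_half x
  rw [r0_apply, r0_apply, ← hxy, oext_eq (per2b_adm K _) (kx.trans hb),
    oext_eq (per2b_adm K _) (ky.trans hb)]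
  obtain ⟨x1, x2⟩ := abs_le.1 kx
  obtain ⟨y1, y2⟩ := abs_le.1 ky
  split_ifs with a b b
  · have := pf_slope hx hb (show 0 ≤ y i - 1 / 2 - k by linarith only [b])
      (show y i - 1 / 2 - k ≤ x i - 1 / 2 - k by linarith only [h]) x2
    linarith only [this]
  · have e1 := pf_slope hx hb le_rfl (show 0 ≤ x i - 1 / 2 - k by linarith only [a]) x2
    have e2 := pf_slope hx hb le_rfl (show 0 ≤ k - (y i - 1 / 2) by linarith only [b]) (by linarith only [y1])
    rw [z] at e1 e2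
    linarith only [e1, e2]
  · linarith only [h, a, b]
  · have := pf_slope hx hb (show 0 ≤ k - (x i - 1 / 2) by linarith only [a])
      (show k - (x i - 1 / 2) ≤ k - (y i - 1 / 2) by linarith only [h]) (by linarith only [y1])
    linarith only [this]

theorem pf_fibre {K : ℕ} {x y a : V m} {t : ℝ} (hx : dl K ≤ be x) (hxy : be x = be y)
    {i : Fin (2 * m + 2)} {k : ℤ} (kx : |x i - 1 / 2 - k| ≤ be x)
    (ky : |y i - 1 / 2 - k| ≤ be y) (ax : ‖r0 K x - a‖ ≤ t) (ay : ‖r0 K y - a‖ ≤ t) :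
    |y i - x i| ≤ 8 * be x * t := by
  have k1 : |r0 K x i - a i| ≤ t := (norm_le_pi_norm (r0 K x - a) i).trans ax
  have k2 : |r0 K y i - a i| ≤ t := (norm_le_pi_norm (r0 K y - a) i).trans ay
  obtain ⟨x1, x2⟩ := abs_le.1 k1
  obtain ⟨y1, y2⟩ := abs_le.1 k2
  have hb := be_nonneg x
  rcases le_total (y i) (x i) with h | h
  · have h1 := pf_fibre0 hx hxy kx (hxy ▸ ky) h
    have h2 := mul_le_mul_of_nonneg_left (show r0 K x i - r0 K y i ≤ 2 * t by linarith only [x2, y1])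
      (show 0 ≤ 4 * be x by linarith only [hb])
    rw [abs_of_nonpos (by linarith only [h])]
    linarith only [h1, h2]
  · have h1 := pf_fibre0 (hxy ▸ hx) hxy.symm ky (hxy ▸ kx) h
    have h2 := mul_le_mul_of_nonneg_left (show r0 K y i - r0 K x i ≤ 2 * t by linarith only [x1, y2])
      (show 0 ≤ 4 * be x by linarith only [hb])
    rw [← hxy] at h1
    rw [abs_of_nonneg (by linarith only [h])]
    linarith only [h1, h2]

/-- One piece of the fibre. -/
def pf_Z (K : ℕ) (a : V m) (t : ℝ) (T : Finset (Fin (2 * m + 2))) (k : Fin (2 * m + 2) → ℤ) :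
    Set (V m) :=
  {x | (dl K < be x ∧ ‖r0 K x - a‖ ≤ t) ∧ (∀ i ∈ T, |x i - 1 / 2 - k i| ≤ be x) ∧
    ∀ i, i ∉ T → be x ≤ dd (x i - 1 / 2)}

theorem pf_Z_meas (K : ℕ) (a : V m) (t : ℝ) (T : Finset (Fin (2 * m + 2)))
    (k : Fin (2 * m + 2) → ℤ) : MeasurableSet (pf_Z K a t T k) := by
  have a3 : IsClosed {x : V m | ∀ i ∈ T, |x i - 1 / 2 - k i| ≤ be x} := by
    simp only [ofPred_forall]
    exact isClosed_iInter fun i => isClosed_iInter fun _ =>
      isClosed_le (by fun_prop) tp_be.continuous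
  have a4 : IsClosed {x : V m | ∀ i, i ∉ T → be x ≤ dd (x i - 1 / 2)} := by
    simp only [ofPred_forall]
    exact isClosed_iInter fun i => isClosed_iInter fun _ =>
      isClosed_le tp_be.continuous (tp_dd.continuous.comp (by fun_prop))
  exact (pf_meas0 K a t).inter (a3.measurableSet.inter a4.measurableSet)

theorem pf_be_le {T : Finset (Fin (2 * m + 2))} (hT : T.card = m + 1) {x y : V m}
    (hx : ∀ i, i ∉ T → be x ≤ dd (x i - 1 / 2)) (hxy : ∀ i, i ∉ T → y i = x i) :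
    be x ≤ be y := by
  obtain ⟨S, hS, hS'⟩ := (be_le_iff (be_nonneg y)).mp (le_refl (be y))
  obtain ⟨j, hjS, hjT⟩ : ∃ j ∈ S, j ∉ T :=
    Finset.exists_mem_notMem_of_card_lt_card (by omega)
  have h4 := hS' j hjS
  rw [hxy j hjT] at h4
  exact (hx j hjT).trans h4

theorem pf_near {K : ℕ} {a x : V m} {t : ℝ} (ht : t ≤ 1 / 4) (hx : ‖r0 K x - a‖ ≤ t)
    (i : Fin (2 * m + 2)) : |x i - a i| ≤ 3 / 4 := by
  have k1 : |r0 K x i - a i| ≤ t := (norm_le_pi_norm (r0 K x - a) i).trans hx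
  have k2 := abs_r0_sub_le K x i
  rw [abs_le] at k1 k2 ⊢
  constructor <;> linarith only [ht, k1, k2, k1.1, k1.2, k2.1, k2.2]

theorem pf_piece (K : ℕ) (a : V m) {t : ℝ} (ht0 : 0 ≤ t) (ht : t ≤ 1 / 4)
    {T : Finset (Fin (2 * m + 2))} (hT : T.card = m + 1) (k : Fin (2 * m + 2) → ℤ) :
    ∫⁻ x, indicator (pf_Z K a t T k) wt x ≤ ENNReal.ofReal (32 ^ (m + 1) * t ^ (m + 1)) := by
  have hmem : ∀ x, indicator (pf_Z K a t T k) wt x ≠ 0 → x ∈ pf_Z K a t T k :=
    fun x hx => mem_of_indicator_ne_zero hx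
  refine (meas2_fubini T (measurable_wt.indicator (pf_Z_meas K a t T k)) a (R := 1)
    (by norm_num) (ENNReal.ofReal ((16 * t) ^ (m + 1))) ?_ ?_).trans_eq ?_
  · intro x hx i _
    exact (pf_near ht (hmem x hx).1.2 i).trans (by norm_num)
  · intro x hx
    have hx' := hmem x hx
    have hb : 0 < be x := (dl_pos K).trans hx'.1.1
    refine ⟨8 * be x * t, by positivity, (ENNReal.ofReal (be x))⁻¹ ^ (m + 1), ?_,
      fun y hy hyx => ?_⟩
    · rw [hT, ← ENNReal.ofReal_inv_of_pos hb, ← ENNReal.ofReal_pow (by positivity),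
        ← ENNReal.ofReal_mul (by positivity), ← mul_pow]
      refine le_of_eq ?_
      congr 2
      field_simp
      ring
    · have hy' := hmem y hy
      have hbe : be x = be y :=
        le_antisymm (pf_be_le hT hx'.2.2 hyx) (pf_be_le hT hy'.2.2 fun i hi => (hyx i hi).symm)
      refine ⟨?_, fun i hi => ?_⟩
      · rw [indicator_of_mem hy', hbe]
        exact le_rfl
      · exact pf_fibre hx'.1.1.le hbe (hx'.2.1 i hi) (hy'.2.1 i hi) hx'.1.2 hy'.1.2
  · rw [← ENNReal.ofReal_mul (by positivity), hT, Fintype.card_fin,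
      show 2 * m + 2 - (m + 1) = m + 1 by omega]
    congr 1
    rw [← mul_pow, ← mul_pow]
    congr 1
    ring

theorem pf_cover {K : ℕ} {a x : V m} {t : ℝ} (ht : t ≤ 1 / 4)
    (hx : dl K < be x ∧ ‖r0 K x - a‖ ≤ t) :
    ∃ p ∈ Finset.powersetCard (m + 1) (Finset.univ : Finset (Fin (2 * m + 2))) ×ˢ
      Fintype.piFinset (fun i => Finset.Icc (⌊a i⌋ - 2) (⌊a i⌋ + 1)),
      x ∈ pf_Z K a t p.1 p.2 := by
  obtain ⟨S, hS, hS'⟩ := (be_le_iff (be_nonneg x)).mp (le_refl (be x))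
  have h1 : (Finset.univ.filter fun i => dd (x i - 1 / 2) < be x) ⊆
      Finset.univ.filter fun i => dd (x i - 1 / 2) ≤ be x := by
    intro i hi
    rw [Finset.mem_filter] at hi ⊢
    exact ⟨hi.1, hi.2.le⟩
  have h2 : S ⊆ Finset.univ.filter fun i => dd (x i - 1 / 2) ≤ be x := fun i hi =>
    Finset.mem_filter.2 ⟨Finset.mem_univ _, hS' i hi⟩
  have h3 := Finset.card_le_card h2
  obtain ⟨T, hT1, hT2, hT⟩ := Finset.exists_subsuperset_card_eq h1 (card_lt_be x) (by omega)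
  refine ⟨(T, fun i => round (x i - 1 / 2)), Finset.mem_product.2 ⟨Finset.mem_powersetCard.2
    ⟨Finset.subset_univ _, hT⟩, Fintype.mem_piFinset.2 fun i => ?_⟩, hx, fun i hi => ?_,
    fun i hi => ?_⟩
  · obtain ⟨k1, k2⟩ := abs_le.1 (pf_near ht hx.2 i)
    obtain ⟨k3, k4⟩ := abs_le.1 (abs_sub_round (x i - 1 / 2))
    have k5 := Int.floor_le (a i)
    have k6 := Int.lt_floor_add_one (a i)
    have k7 : ((⌊a i⌋ - 2 : ℤ) : ℝ) ≤ round (x i - 1 / 2) := by
      push_cast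
      linarith only [k1, k4, k5]
    have k8 : ((round (x i - 1 / 2) : ℤ) : ℝ) < ((⌊a i⌋ + 2 : ℤ) : ℝ) := by
      push_cast
      linarith only [k2, k3, k6]
    have k9 := Int.cast_le.1 k7
    have k10 := Int.cast_lt.1 k8
    exact Finset.mem_Icc.2 ⟨k9, show round (x i - 1 / 2) ≤ _ by omega⟩
  · exact (Finset.mem_filter.1 (hT2 hi)).2
  · by_contra hc
    exact hi (hT1 (Finset.mem_filter.2 ⟨Finset.mem_univ _, not_le.1 hc⟩))

theorem pf0_le (m : ℕ) : ∃ C : ℝ, 0 ≤ C ∧ ∀ (K : ℕ) (a : V m) (t : ℝ), 0 ≤ t → t ≤ 1 / 4 →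
    ∫⁻ x, PF0 K a t x ≤ ENNReal.ofReal (C * t ^ (m + 1)) := by
  refine ⟨((2 * m + 2).choose (m + 1) * 4 ^ (2 * m + 2) : ℕ) * 32 ^ (m + 1), by positivity,
    fun K a t ht0 ht => ?_⟩
  set P := Finset.powersetCard (m + 1) (Finset.univ : Finset (Fin (2 * m + 2))) ×ˢ
      Fintype.piFinset (fun i => Finset.Icc (⌊a i⌋ - 2) (⌊a i⌋ + 1)) with hP
  have hcard : P.card = (2 * m + 2).choose (m + 1) * 4 ^ (2 * m + 2) := by
    have e : ∀ i, (Finset.Icc (⌊a i⌋ - 2) (⌊a i⌋ + 1)).card = 4 := by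
      intro i
      rw [Int.card_Icc, show ⌊a i⌋ + 1 + 1 - (⌊a i⌋ - 2) = 4 by ring]
      rfl
    rw [hP, Finset.card_product, Finset.card_powersetCard, Finset.card_univ, Fintype.card_fin,
      Fintype.card_piFinset]
    simp only [e, Finset.prod_const, Finset.card_univ, Fintype.card_fin]
  have h1 : ∀ x, PF0 K a t x ≤ ∑ p ∈ P, indicator (pf_Z K a t p.1 p.2) wt x := by
    intro x
    unfold PF0
    by_cases hx : x ∈ {x : V m | dl K < be x ∧ ‖r0 K x - a‖ ≤ t}
    · obtain ⟨p, hp, hxp⟩ := pf_cover ht hx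
      rw [indicator_of_mem hx, ← indicator_of_mem hxp wt]
      exact Finset.single_le_sum (f := fun p : Finset (Fin (2 * m + 2)) × (Fin (2 * m + 2) → ℤ) =>
        indicator (pf_Z K a t p.1 p.2) wt x) (fun _ _ => zero_le) hp
    · rw [indicator_of_notMem hx]
      exact zero_le
  refine (lintegral_mono h1).trans ?_
  rw [lintegral_finsetSum _ fun p _ => measurable_wt.indicator (pf_Z_meas K a t p.1 p.2)]
  refine (Finset.sum_le_sum fun p hp => pf_piece K a ht0 ht
    (Finset.mem_powersetCard.1 (Finset.mem_product.1 hp).1).2 p.2).trans ?_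
  rw [Finset.sum_const, hcard, nsmul_eq_mul, ← ENNReal.ofReal_natCast,
    ← ENNReal.ofReal_mul (by positivity), mul_assoc]

end BEe
end
end

-- merged part: Pool.Agent.Work.MP_f0515e_an.Ev.CoC
section
/-! Energy of the virtual folded map. -/

open Set Metric Filter Topology MeasureTheory Function BEv
open scoped ENNReal NNReal

noncomputable section
namespace BEe
namespace CP

variable {m : ℕ} {v : V m} {s : St m} {P : CP m}

theorem coc_far (hP : Ok v s P) (j : ℕ) {x : V m} (hx : 2 < dcap P.FU 5 x) :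
    P.gB j x ∉ St.U v s := by
  intro h
  obtain ⟨p, hp, h2⟩ := hP.net _ h
  have h3 := dcap_le 5 x hp
  have h4 := P.norm_gB_sub_le j x
  rw [norm_sub_rev] at h4
  have h5 := norm_sub_le_norm_sub_add_norm_sub x (P.gB j x) p
  linarith only [hx, h2, h3, h4, h5]

theorem coc_far' (hs : St.Ok v s) (hP : Ok v s P) (j : ℕ) {x : V m} (hx : 2 < dcap P.FU 5 x) :
    us v s P j =ᶠ[𝓝 x] fun y => St.u v s (P.gB j y) := by
  filter_upwards [(TP.dcap P.FU 5).continuous.continuousAt.eventually (lt_mem_nhds hx)] with y hy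
  exact us_off hs hP (coc_far hP j hy)

theorem coc_O (hs : St.Ok v s) (hP : Ok v s P) (j : ℕ) {x : V m} (hx : P.gB j x ∈ O v s P) :
    us v s P j =ᶠ[𝓝 x] gtl (tj j) (Kj m j) P.zeta := by
  filter_upwards [(P.lh_gB j).tp.continuous.continuousAt.eventually
    ((isOpen_O hs hP).mem_nhds hx)] with y hy
  exact us_O hs hP hy

theorem coc_shal (hs : St.Ok v s) (hP : Ok v s P) (j : ℕ) {x : V m}
    (hx : P.th (Th v s P (P.gB j x)) < 3) :
    us v s P j =ᶠ[𝓝 x] fun y => Th v s P (P.gB j y) := by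
  filter_upwards [((P.tp_th.comp (tp_Th hs hP)).comp
    (P.lh_gB j).tp).continuous.continuousAt.eventually (gt_mem_nhds hx)] with y hy
  exact P.hi_eq_self j (by linarith [show P.th (Th v s P (P.gB j y)) < 3 from hy])

theorem ll_gB (P : CP m) (j : ℕ) {x : V m} (hb : 0 < be x) : LL (P.gB j) x (2 / be x) :=
  ll_gtl_be (tj_pos j) (tj_le j) P.abs_etaB_sub_le _ hb

theorem ll_gz (P : CP m) (j : ℕ) {x : V m} (hb : 0 < be x) :
    LL (gtl (tj j) (Kj m j) P.zeta) x (2 / be x) :=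
  ll_gtl_be (tj_pos j) (tj_le j) P.abs_zeta_sub_le _ hb

theorem dom (hs : St.Ok v s) (hP : Ok v s P) {Z : Set (V m)} (hc : IsCompact Z)
    (hZ : Prot v s P Z) : ∃ C : ℝ, 0 ≤ C ∧
      (∀ᶠ j in atTop, ∀ x, closedBall x 1 ⊆ Z → dl (Kj m j) < be x →
        LL (us v s P j) x (C / be x)) ∧
      ∀ j x, LL (us v s P j) x (C * 2 ^ j * 2 ^ Kj m j) := by
  obtain ⟨s1, hs1, hdi⟩ := dichotomy hs hP hc hZ
  obtain ⟨Lu, hLu, hu⟩ := (St.tp_u hs).exists_bound
  obtain ⟨Lt, hLt, ht⟩ := (tp_Th hs hP).exists_bound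
  refine ⟨2 * Lu + 64 * Lt, by linarith, ?_, fun j x => ?_⟩
  · filter_upwards [tendsto_tj.eventually (gt_mem_nhds hs1)] with j hj x hx hb
    have hb0 := (dl_pos _).trans hb
    have hg := P.ll_gB j hb0
    have key : ∀ c : ℝ, c ≤ Lu + 32 * Lt → c * (2 / be x) ≤ (2 * Lu + 64 * Lt) / be x := by
      intro c hc
      rw [← mul_div_assoc]
      exact div_le_div_of_nonneg_right (by linarith) hb0.le
    by_cases hfar : 2 < dcap P.FU 5 x
    · exact (((LL.of_forall hu _).comp hg (by linarith)).congr (coc_far' hs hP j hfar)).mono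
        (key _ (by linarith))
    have ex : P.gB j x = gta (tj j) (Kj m j) x := P.gB_eq j (by linarith [not_lt.1 hfar])
    have hZ' : P.gB j x ∈ Z :=
      hx (mem_closedBall_iff_norm.2 (by linarith [P.norm_gB_sub_le j x]))
    have hmu : mu (P.gB j x) < s1 := by
      rw [ex]
      linarith [mu_gta_le (tj_pos j) hb.le, tj_pos j]
    rcases hdi _ hZ' hmu with h | h
    · refine ((P.ll_gz j hb0).congr (coc_O hs hP j h)).mono ?_
      have := key 1 (by linarith)
      rwa [one_mul] at this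
    · exact (((LL.of_forall ht _).comp hg (by linarith)).congr (coc_shal hs hP j h)).mono
        (key _ (by linarith))
  · have hg := ll_gtl_core (tj_pos j) (tj_le j) P.abs_etaB_sub_le (Kj m j) x
    have h1 := LL.comp (f := fun y => Th v s P (P.gB j y)) (P.ll_hi j _)
      ((LL.of_forall ht _).comp hg (by linarith)) (by positivity)
    refine LL.mono h1 ?_
    have h2 : (0 : ℝ) ≤ 2 ^ j * 2 ^ Kj m j := by positivity
    rw [pow_succ]
    linarith only [h2, hLu, mul_nonneg_of_nonpos_of_nonpos (Mathlib.Tactic.Linarith.sub_nonpos_of_le hLu) (Mathlib.Tactic.Linarith.sub_nonpos_of_le h2)]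

theorem pointwise (hs : St.Ok v s) (hP : Ok v s P) {L : ℝ} (hL1 : 1 ≤ L)
    (hL : ∀ x y, ‖St.u v s x - St.u v s y‖ ≤ L * ‖x - y‖) {Dc : Finset (V m)} {t : ℝ}
    (hcov : ∀ x ∈ St.U v s, mu x = 0 → P.chi (pj v (s.G x)) ≤ 3 → ∃ a ∈ Dc, ‖x - a‖ ≤ t)
    {Z : Set (V m)} (hZ : Prot v s P Z) : ∀ᵐ x, closedBall x 1 ⊆ Z → ∀ᶠ j in atTop,
      (x ∉ Is v s P j → (1 + lip (us v s P j) x) ^ (m + 1) ≤ Main v s P x) ∧
      x ∉ Fos v s P j ∧
      (x ∈ Nz v s P j → (1 + lip (us v s P j) x) ^ (m + 1) ≤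
        ENNReal.ofReal (4 * L) ^ (m + 1) * ∑ a ∈ Dc, PF0 (Kj m j) a t x) := by
  have hTh := tp_Th hs hP
  filter_upwards [ae_be_pos, ae_all_iff.2 fun K1 => TP.ae_tangential hTh (tp_r0 (m := m) K1)]
    with x hb hT hxZ
  have hbh := be_le_half x
  have hw : 0 ≤ (om (St.u v s) 2 x).toReal := ENNReal.toReal_nonneg
  have hmain : ∀ (j : ℕ) (c : ℝ), LL (us v s P j) x c → 0 ≤ c → P.th x ≤ 8 →
      1 + c ≤ 9 * (1 + (om (St.u v s) 2 x).toReal) / be x →
      (1 + lip (us v s P j) x) ^ (m + 1) ≤ Main v s P x := by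
    intro j c h1 h2 h3 h4
    rw [Main, indicator_of_mem (show x ∈ {x | P.th x ≤ 8} from h3)]
    exact pow_le_om (St.tp_u hs) hb h1 h2 h4
  by_cases hfar : 2 < dcap P.FU 5 x
  · have hxI : x ∉ s.I := fun hx => by
      obtain ⟨p, hp, hxp⟩ := hP.net x (St.I_subset_U hs hx)
      linarith only [hb, hbh, hfar, hxp, hp, dcap_le 5 x hp]
    refine Eventually.of_forall fun j => ⟨fun _ => ?_, fun hx => ?_,
      fun hx => absurd hx.1 (coc_far hP j hfar)⟩
    · have e1 : ‖P.gB j x - x‖ < 2 := by linarith only [hb, hbh, P.norm_gB_sub_le j x]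
      refine hmain j _ (((ll_om (St.tp_u hs) e1).comp (P.ll_gB j hb) hw).congr
        (coc_far' hs hP j hfar)) (by positivity) (by rw [th_eq_zero hP hxI]; norm_num) ?_
      rw [le_div_iff₀ hb]
      field_simp
      linarith
    · have h1 := coc_far hP j hfar
      have h2 := hx.2
      rw [us_off hs hP h1, St.u_eq_k hs h1, th_eq_zero hP fun h => h1 (St.mem_U_of_k hs h)] at h2
      norm_num at h2
  have hnear : ∀ᶠ y in 𝓝 x, ∀ j, P.gB j y = gta (tj j) (Kj m j) y := by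
    filter_upwards [(TP.dcap P.FU 5).continuous.continuousAt.eventually
      (gt_mem_nhds (show dcap P.FU 5 x < 4 by linarith [not_lt.1 hfar]))] with y hy j
    exact P.gB_eq j hy.le
  obtain ⟨K1, hK1⟩ := exists_dl_lt hb
  have hmu : ∀ᶠ y in 𝓝 x, mu (r0 K1 y) = 0 :=
    (tp_be.continuous.continuousAt.eventually (lt_mem_nhds hK1)).mono fun y hy => mu_r0 hy.le
  have hmu0 := hmu.self_of_nhds
  have hlim : Tendsto (fun j => P.gB j x) atTop (𝓝 (r0 K1 x)) :=
    (tendsto_gta hK1.le).congr fun j => (hnear.self_of_nhds j).symm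
  have hx0 := norm_r0_sub_le K1 x
  have hrr := ll_r0_be K1 hb
  have hN : ∀ᶠ j in atTop, ∀ c, LL (us v s P j) x c → 0 ≤ c → 1 + c ≤ 4 * L / be x →
      x ∈ Nz v s P j → (1 + lip (us v s P j) x) ^ (m + 1) ≤
        ENNReal.ofReal (4 * L) ^ (m + 1) * ∑ a ∈ Dc, PF0 (Kj m j) a t x := by
    have hcl : IsClosed {z | z ∈ St.U v s ∧ P.chi (pj v (s.G z)) ≤ 3} :=
      (St.isCompact_U hs).isClosed.inter
        (isClosed_le (hP.tchi.comp ((tp_pj v).comp hs.hG.tp)).continuous continuous_const)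
    by_cases h : r0 K1 x ∈ {z | z ∈ St.U v s ∧ P.chi (pj v (s.G z)) ≤ 3}
    · obtain ⟨a, ha, h1⟩ := hcov _ h.1 hmu0 h.2
      filter_upwards [eventually_le_Kj m K1] with j hj c h2 h3 h4 _
      refine (pow_le_wt hb h2 h3 h4).trans (mul_le_mul_right (le_trans (le_of_eq ?_)
        (Finset.single_le_sum (f := fun a => PF0 (Kj m j) a t x) (fun _ _ => zero_le) ha)) _)
      rw [PF0, indicator_of_mem]
      exact ⟨(dl_anti hj).trans_lt hK1, by rwa [r0_nested hj hK1.le]⟩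
    · filter_upwards [hlim.eventually (hcl.isOpen_compl.mem_nhds h)] with j hj c _ _ _ h5
      exact absurd h5 hj
  by_cases h2 : P.th (r0 K1 x) ≤ 2
  · have e1 : ∀ᶠ y in 𝓝 x, Th v s P (r0 K1 y) = St.u v s (r0 K1 y) :=
      hmu.mono fun y hy => Th_skel hs hP hy
    have htan : ∀ᶠ j in atTop, ∀ c, LL (fun y => St.u v s (r0 K1 y)) x c →
        LL (fun y => Th v s P (P.gB j y)) x (c + 1) := by
      obtain ⟨L', hL', e, he, hT⟩ := hT K1
      filter_upwards [ll_gta_sub_r0 hK1 (c := 1 / (L' + 1)) (by positivity),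
        hlim.eventually (ball_mem_nhds _ he)] with j e2 e3 c hc
      refine (hT (P.gB j) c _ (hc.congr e1) (e2.congr (hnear.mono fun y hy => by simp only [hy]))
        (mem_ball_iff_norm.1 e3)).mono ?_
      rw [mul_one_div, add_le_add_iff_left, div_le_one (by positivity)]
      linarith only [hb, hbh]
    have e3 : P.th (Th v s P (r0 K1 x)) < 3 := by
      rw [e1.self_of_nhds]
      linarith only [hb, hbh, hs, hZ, hxZ, hx0, hmu0, h2, th_u_le hs hZ (hxZ (mem_closedBall_iff_norm.2 (by linarith))) hmu0 h2]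
    filter_upwards [htan, hN, (((P.tp_th.comp hTh).continuous.tendsto _).comp hlim).eventually
      (gt_mem_nhds e3)] with j k1 k2 k3
    have e4 := coc_shal hs hP j k3
    refine ⟨fun _ => ?_, fun hx => ?_, k2 _ ((k1 _ ((LL.of_forall hL _).comp hrr
      (by linarith only [hL1, hb, hbh]))).congr e4) (by positivity) ?_⟩
    · refine hmain j _ ((k1 _ ((ll_om (St.tp_u hs) (show ‖r0 K1 x - x‖ < 2 by linarith only [hb, hbh, hx0])).comp hrr
        hw)).congr e4) (by positivity) ?_ ?_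
      · linarith only [hb, hbh, h2, hx0, (abs_le.1 ((P.abs_th_sub_le _ _).trans hx0)).1]
      · rw [le_div_iff₀ hb]
        field_simp
        linarith only [hb, hbh, hw]
    · have e5 := hx.2
      rw [e4.self_of_nhds] at e5
      exact absurd (show P.th (Th v s P (P.gB j x)) < 3 from k3) (by linarith only [hb, hbh, e5])
    · rw [le_div_iff₀ hb]
      field_simp
      linarith only [hL1, hb, hbh]
  filter_upwards [hN, hlim.eventually ((isOpen_O hs hP).mem_nhds
    (mem_O hs hP hmu0 (not_le.1 h2)))] with j k1 k2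
  have e1 := (P.ll_gz j hb).congr (coc_O hs hP j k2)
  refine ⟨fun hx => hmain j _ e1 (by positivity) (not_lt.1 fun h8 => hx ⟨h8, k2⟩) ?_,
    fun hx => hx.1 k2, k1 _ e1 (by positivity) ?_⟩
  · rw [le_div_iff₀ hb]
    field_simp
    linarith only [hb, hbh, hw]
  · rw [le_div_iff₀ hb]
    field_simp
    linarith only [hL1, hb, hbh]

theorem measurable_Main : Measurable (Main v s P) := by
  refine Measurable.indicator ?_ (measurableSet_le P.tp_th.continuous.measurable measurable_const)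
  exact ((((measurable_om _ _).const_add _).const_mul _).pow_const _).mul measurable_wt

theorem integrated (hs : St.Ok v s) (hP : Ok v s P) {L : ℝ} (hL1 : 1 ≤ L)
    (hL : ∀ x y, ‖St.u v s x - St.u v s y‖ ≤ L * ‖x - y‖) {Dc : Finset (V m)} {t : ℝ}
    (hcov : ∀ x ∈ St.U v s, mu x = 0 → P.chi (pj v (s.G x)) ≤ 3 → ∃ a ∈ Dc, ‖x - a‖ ≤ t)
    {Z : Set (V m)} (hc : IsCompact Z) (hZ : Prot v s P Z) {Y : Set (V m)} (hY : MeasurableSet Y)
    (hYZ : ∀ x ∈ Y, closedBall x 1 ⊆ Z) {ε : ℝ≥0∞} (hε : ε ≠ 0) : ∀ᶠ j in atTop,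
      En (us v s P j) (Y \ Is v s P j) ≤ (∫⁻ x in Y, Main v s P x) + ε ∧
      En (us v s P j) (Y ∩ Fos v s P j) ≤ ε ∧
      En (us v s P j) (Y ∩ Nz v s P j) ≤
        ENNReal.ofReal (4 * L) ^ (m + 1) * (∑ a ∈ Dc, ∫⁻ x, PF0 (Kj m j) a t x) + ε := by
  obtain ⟨C, hC, hdom, hcore⟩ := dom hs hP hc hZ
  have hpt := pointwise hs hP hL1 hL hcov hZ
  have hYb : Bornology.IsBounded Y :=
    hc.isBounded.subset fun x hx => hYZ x hx (mem_closedBall_self zero_le_one)
  have hd : ∀ᶠ j in atTop, ∀ x ∈ Y, dl (Kj m j) < be x → LL (us v s P j) x (C / be x) :=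
    hdom.mono fun j hj x hx => hj x (hYZ x hx)
  have hco : ∀ᶠ j in atTop, ∀ x ∈ Y, LL (us v s P j) x (C * 2 ^ j * 2 ^ Kj m j) :=
    Eventually.of_forall fun j x _ => hcore j x
  have hm : ∀ j, Measurable fun x => ∑ a ∈ Dc, PF0 (Kj m j) a t x := fun j =>
    Finset.measurable_sum _ fun a _ => measurable_PF0 _ a t
  filter_upwards [contr (Z := fun j => (Is v s P j)ᶜ) (G := fun _ => Main v s P) hY hYb
      (fun j => (isOpen_Is hs hP j).measurableSet.compl) (fun _ => measurable_Main) hC hd hco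
      (hpt.mono fun x hx hxY => (hx (hYZ x hxY)).mono fun j hj => hj.1) hε,
    contr (Z := Fos v s P) (G := fun _ _ => 0) hY hYb
      (fun j => (isClosed_Fos hs hP j).measurableSet) (fun _ => measurable_const) hC hd hco
      (hpt.mono fun x hx hxY => (hx (hYZ x hxY)).mono fun j hj h => absurd h hj.2.1) hε,
    contr (Z := Nz v s P) (G := fun j x => ENNReal.ofReal (4 * L) ^ (m + 1) *
        ∑ a ∈ Dc, PF0 (Kj m j) a t x) hY hYb
      (fun j => (isClosed_Nz hs hP j).measurableSet) (fun j => (hm j).const_mul _) hC hd hco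
      (hpt.mono fun x hx hxY => (hx (hYZ x hxY)).mono fun j hj => hj.2.2) hε] with j k1 k2 k3
  have k4 := k1 univ MeasurableSet.univ
  have k5 := k2 univ MeasurableSet.univ
  have k6 := k3 univ MeasurableSet.univ
  rw [inter_univ] at k4 k5 k6
  refine ⟨k4.trans (add_le_add (lintegral_mono_set inter_subset_left) le_rfl), ?_,
    k6.trans (add_le_add ((setLIntegral_le_lintegral _ _).trans (le_of_eq ?_)) le_rfl)⟩
  · rwa [lintegral_zero, zero_add] at k5
  · rw [lintegral_const_mul _ (hm j), lintegral_finsetSum _ fun a _ => measurable_PF0 _ a t]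

end CP
end BEe
end
end

-- merged part: Pool.Agent.Work.MP_f0515e_an.Ev.PF2
section
/-! Logarithmic profiles are cheap.

Plan for `pfw_le`: with `r = ‖r0 K x - a‖`, if `r ≤ ρ / 2 ^ N` then `pb = 8 * 2 ^ N / (N * ρ)`,
otherwise `meas2_shell` gives `j < N` with `r ≤ ρ / 2 ^ j` and `pb ≤ 16 * 2 ^ j / (N * ρ)`; bound
`(1 + pb) ^ (m + 1) ≤ 2 ^ (m + 1) * (1 + pb ^ (m + 1))` and sum `pf0_le` over `j ≤ N`
(`N + 1 ≤ 2 * N` terms of size `C * (16 / N) ^ (m + 1)`), as in `BEv.meas2_point`,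
`BEv.exists_PFw_le`. -/

open Set Metric Filter Topology MeasureTheory Function BEv
open scoped ENNReal NNReal

noncomputable section
namespace BEe

variable {m : ℕ}

theorem measurable_PFw (K : ℕ) (a : V m) (ρ : ℝ) (N : ℕ) : Measurable (PFw K a ρ N) := by
  have hc : Continuous fun x : V m => ‖r0 K x - a‖ :=
    ((tp_r0 K).continuous.sub continuous_const).norm
  have h1 : Measurable fun x : V m => pb ρ N ‖r0 K x - a‖ :=
    measurable_const.div (measurable_const.mul (hc.measurable.max measurable_const))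
  refine Measurable.indicator
    (((h1.const_add 1).ennreal_ofReal.pow_const (m + 1)).mul measurable_wt) ?_
  exact (isOpen_lt continuous_const tp_be.continuous).measurableSet.inter
    (isClosed_le hc continuous_const).measurableSet

theorem pf2_shell {ρ t : ℝ} {N : ℕ} (hρ : 0 < ρ) (hN : 1 ≤ N) (ht : t ≤ ρ) :
    0 ≤ pb ρ N t ∧ ∃ j < N + 1, t ≤ ρ / 2 ^ j ∧ pb ρ N t ≤ 16 * 2 ^ j / (N * ρ) := by
  have hN' : (0 : ℝ) < N := by exact_mod_cast hN
  have h0 : 0 < max t (ρ / 2 ^ N) := lt_max_of_lt_right (by positivity)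
  refine ⟨div_nonneg (by norm_num) (by positivity), ?_⟩
  obtain ⟨j, hj, k1, k2⟩ : ∃ j < N + 1, t ≤ ρ / 2 ^ j ∧ ρ / 2 ^ (j + 1) ≤ max t (ρ / 2 ^ N) := by
    rcases le_total t (ρ / 2 ^ N) with h | h
    · exact ⟨N, by omega, h, le_max_of_le_right (div_le_div_of_nonneg_left hρ.le (by positivity)
        (pow_le_pow_right₀ (by norm_num) (by omega)))⟩
    · obtain ⟨j, hj, k1, k2⟩ := meas2_shell hρ N hN h ht
      exact ⟨j, by omega, k2, le_max_of_le_left k1⟩
  refine ⟨j, hj, k1, (div_le_div_of_nonneg_left (by norm_num) (by positivity)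
    (mul_le_mul_of_nonneg_left k2 hN'.le)).trans (le_of_eq ?_)⟩
  field_simp
  ring

theorem pf2_point {K : ℕ} {ρ : ℝ} {N : ℕ} (hN : 1 ≤ N) (hρ : 0 < ρ) (a x : V m) :
    PFw K a ρ N x ≤ ENNReal.ofReal (2 ^ m) * (PF0 K a ρ x +
      ∑ j ∈ Finset.range (N + 1), ENNReal.ofReal ((16 * 2 ^ j / (N * ρ)) ^ (m + 1)) *
        PF0 K a (ρ / 2 ^ j) x) := by
  have hN' : (0 : ℝ) < N := by exact_mod_cast hN
  unfold PFw
  by_cases hx : x ∈ {x : V m | dl K < be x ∧ ‖r0 K x - a‖ ≤ ρ}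
  swap
  · rw [indicator_of_notMem hx]
    exact zero_le
  obtain ⟨hl0, j, hj, k1, hl⟩ := pf2_shell hρ hN hx.2
  have e0 : PF0 K a ρ x = wt x := indicator_of_mem hx _
  have e1 : PF0 K a (ρ / 2 ^ j) x = wt x := indicator_of_mem (by exact ⟨hx.1, k1⟩) _
  rw [indicator_of_mem hx, e0]
  generalize pb ρ N ‖r0 K x - a‖ = l at hl0 hl
  have k3 : (1 + l) ^ (m + 1) ≤ 2 ^ m * (1 + (16 * 2 ^ j / (N * ρ)) ^ (m + 1)) := by
    refine (add_pow_le zero_le_one hl0 (m + 1)).trans ?_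
    rw [one_pow, Nat.add_sub_cancel]
    gcongr
  calc ENNReal.ofReal (1 + l) ^ (m + 1) * wt x
      ≤ ENNReal.ofReal (2 ^ m * (1 + (16 * 2 ^ j / (N * ρ)) ^ (m + 1))) * wt x := by
        rw [← ENNReal.ofReal_pow (by positivity)]
        exact mul_le_mul_left (ENNReal.ofReal_le_ofReal k3) _
    _ = ENNReal.ofReal (2 ^ m) * (wt x + ENNReal.ofReal ((16 * 2 ^ j / (N * ρ)) ^ (m + 1)) *
          PF0 K a (ρ / 2 ^ j) x) := by
        rw [e1, ENNReal.ofReal_mul (by positivity),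
          ENNReal.ofReal_add zero_le_one (by positivity), ENNReal.ofReal_one]
        ring
    _ ≤ _ := by
        refine mul_le_mul_right (add_le_add_right ?_ _) _
        exact Finset.single_le_sum (f := fun j =>
          ENNReal.ofReal ((16 * 2 ^ j / (N * ρ)) ^ (m + 1)) * PF0 K a (ρ / 2 ^ j) x)
          (fun _ _ => zero_le) (Finset.mem_range.mpr hj)

theorem pfw_le (m : ℕ) : ∃ C : ℝ, 0 ≤ C ∧ ∀ (K : ℕ) (a : V m) (ρ : ℝ) (N : ℕ), 0 < ρ →
    ρ ≤ 1 / 4 → 1 ≤ N →
      ∫⁻ x, PFw K a ρ N x ≤ ENNReal.ofReal (C * (ρ ^ (m + 1) + 1 / (N : ℝ) ^ m)) := by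
  obtain ⟨C, hC, hF⟩ := pf0_le m
  refine ⟨2 ^ m * (C + 2 * (C * 16 ^ (m + 1))), by positivity, fun K a ρ N hρ hρ1 hN => ?_⟩
  have hN1 : (1 : ℝ) ≤ N := by exact_mod_cast hN
  refine (lintegral_mono fun x => pf2_point hN hρ a x).trans ?_
  rw [lintegral_const_mul' _ _ ENNReal.ofReal_ne_top, lintegral_add_left (measurable_PF0 K a ρ),
    lintegral_finsetSum _ fun j _ => (measurable_PF0 K a _).const_mul _]
  have k1 : ∀ j ∈ Finset.range (N + 1),
      ∫⁻ x, ENNReal.ofReal ((16 * 2 ^ j / (N * ρ)) ^ (m + 1)) * PF0 K a (ρ / 2 ^ j) x ≤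
        ENNReal.ofReal (C * 16 ^ (m + 1) / N ^ (m + 1)) := by
    intro j _
    have h2 : (1 : ℝ) ≤ 2 ^ j := one_le_pow₀ (by norm_num)
    rw [lintegral_const_mul' _ _ ENNReal.ofReal_ne_top]
    refine (mul_le_mul_right (hF K a (ρ / 2 ^ j) (by positivity)
      ((div_le_self hρ.le h2).trans hρ1)) _).trans ?_
    rw [← ENNReal.ofReal_mul (by positivity)]
    refine ENNReal.ofReal_le_ofReal (le_of_eq ?_)
    have h3 : (16 * 2 ^ j / (N * ρ)) * (ρ / 2 ^ j) = 16 / N := by field_simp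
    rw [mul_left_comm, ← mul_pow, h3, div_pow, ← mul_div_assoc]
  refine (mul_le_mul_right (add_le_add (hF K a ρ hρ.le hρ1) (Finset.sum_le_sum k1)) _).trans ?_
  rw [Finset.sum_const, Finset.card_range, nsmul_eq_mul, ← ENNReal.ofReal_natCast,
    ← ENNReal.ofReal_mul (by positivity), ← ENNReal.ofReal_add (by positivity) (by positivity),
    ← ENNReal.ofReal_mul (by positivity), mul_assoc (2 ^ m : ℝ)]
  refine ENNReal.ofReal_le_ofReal (mul_le_mul_of_nonneg_left ?_ (by positivity))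
  have k2 : ((N + 1 : ℕ) : ℝ) * (C * 16 ^ (m + 1) / N ^ (m + 1)) ≤
      2 * (C * 16 ^ (m + 1)) * (1 / (N : ℝ) ^ m) := by
    refine (mul_le_mul_of_nonneg_right (by push_cast; linarith only [hN1] : ((N + 1 : ℕ) : ℝ) ≤ 2 * N)
      (by positivity)).trans (le_of_eq ?_)
    field_simp
    ring
  have k3 : 0 ≤ C * (1 / (N : ℝ) ^ m) := by positivity
  have k4 : 0 ≤ 2 * (C * 16 ^ (m + 1)) * ρ ^ (m + 1) := by positivity
  linarith only [k2, k3, k4]

end BEe
end
end
end
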