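import Pool.Agent.Work.MP_f0515e_an.Ev.GP3

/-! The step at a fine mesh. -/

open Set Metric Filter Topology MeasureTheory Function BEv
open scoped ENNReal NNReal

noncomputable section
namespace BEe

variable {m : ℕ}

theorem step_En_sc {c : ℝ} (hc : 0 < c) (f : V m → V m) {Z : Set (V m)} (hZ : MeasurableSet Z) :
    En f Z = ENNReal.ofReal (c ^ (2 * m + 2)) *
      En (fun x => c⁻¹ • f (c • x)) {x | c • x ∈ Z} := by
  unfold En
  rw [lintegral_scale hc _ hZ]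
  congr 1
  refine lintegral_congr fun x => ?_
  rw [lip_scale f hc]

theorem step_om_sc {c : ℝ} (hc : 0 < c) (f : V m → V m) (r : ℝ) {Z : Set (V m)}
    (hZ : MeasurableSet Z) :
    ∫⁻ x in Z, (1 + om f (c * r) x) ^ (m + 1) = ENNReal.ofReal (c ^ (2 * m + 2)) *
      ∫⁻ x in {x | c • x ∈ Z}, (1 + om (fun x => c⁻¹ • f (c • x)) r x) ^ (m + 1) := by
  rw [lintegral_scale hc _ hZ]
  congr 1
  refine lintegral_congr fun x => ?_
  rw [om_scale f hc]

theorem step_vol_sc {c : ℝ} (hc : 0 < c) {Z : Set (V m)} (hZ : MeasurableSet Z) :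
    volume Z = ENNReal.ofReal (c ^ (2 * m + 2)) * volume {x : V m | c • x ∈ Z} := by
  have h := lintegral_scale hc (fun _ => 1) hZ
  rwa [setLIntegral_one, setLIntegral_one] at h

theorem step_vol_le_En (f : V m → V m) (Z : Set (V m)) : volume Z ≤ En f Z := by
  rw [← setLIntegral_one]
  exact lintegral_mono fun x => one_le_pow₀ le_self_add

theorem step_compact {c : ℝ} (hc : 0 < c) {A : Set (V m)} (hA : IsCompact A) :
    IsCompact {x : V m | c • x ∈ A} :=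
  (Homeomorph.smulOfNeZero c hc.ne').isCompact_preimage.2 hA

theorem step_dist {c : ℝ} (hc : 0 < c) (x y : V m) : dist (c • x) (c • y) = c * dist x y := by
  rw [dist_smul₀, Real.norm_of_nonneg hc.le]

theorem step_cth {c : ℝ} (hc : 0 < c) {A : Set (V m)} (hA : IsCompact A) {r R : ℝ} (hr : 0 ≤ r)
    (h : c * r ≤ R) {x : V m} (hx : x ∈ cthickening r {y : V m | c • y ∈ A}) :
    c • x ∈ cthickening R A := by
  rw [(step_compact hc hA).cthickening_eq_biUnion_closedBall hr] at hx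
  obtain ⟨y, hy, hxy⟩ := mem_iUnion₂.1 hx
  refine mem_cthickening_of_dist_le _ (c • y) _ _ hy ?_
  rw [step_dist hc]
  exact (mul_le_mul_of_nonneg_left (mem_closedBall.1 hxy) hc.le).trans h

theorem step_balls (F : Finset (V m)) :
    volume (⋃ p ∈ F, ball p 9) ≤ F.card * ENNReal.ofReal (18 ^ (2 * m + 2)) := by
  refine (measure_biUnion_finset_le F _).trans (le_of_eq ?_)
  rw [Finset.sum_congr rfl fun p _ => Real.volume_pi_ball p (by norm_num : (0 : ℝ) < 9),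
    Finset.sum_const, nsmul_eq_mul, Fintype.card_fin]
  norm_num

theorem step_om_id {f : V m → V m} {r : ℝ} {x : V m} (h : ∀ y ∈ ball x r, f y = y) :
    (1 + om f r x) ^ (m + 1) ≤ 2 ^ (m + 1) := by
  have h1 : om f r x ≤ ENNReal.ofReal 1 :=
    om_le fun y hy z hz => by rw [h y hy, h z hz, one_mul]
  rw [ENNReal.ofReal_one] at h1
  refine pow_le_pow_left' ?_ (m + 1)
  exact (add_le_add le_rfl h1).trans one_add_one_eq_two.le

theorem step_En_id {f : V m → V m} {I Z : Set (V m)} (hI : IsOpen I) (hZ : MeasurableSet Z)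
    (hZI : Z ⊆ I) (h : ∀ y ∈ I, f y = y) : En f Z ≤ 2 ^ (m + 1) * volume Z := by
  rw [← setLIntegral_const]
  refine setLIntegral_mono' hZ fun x hx => ?_
  obtain ⟨r, hr, hb⟩ := Metric.isOpen_iff.1 hI x (hZI hx)
  refine le_trans (pow_le_pow_left' (add_le_add le_rfl (lip_le_om f hr x)) (m + 1)) ?_
  exact step_om_id fun y hy => h y (hb hy)

theorem step_mesh (a : ℝ) {b : ℝ} (hb : 0 < b) :
    ∀ᶠ j : ℕ in atTop, (1 / 2 : ℝ) ^ j * a ≤ b := by
  have h : Tendsto (fun j : ℕ => (1 / 2 : ℝ) ^ j * a) atTop (𝓝 (0 * a)) :=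
    (tendsto_pow_atTop_nhds_zero_of_lt_one (by norm_num) (by norm_num)).mul_const a
  rw [zero_mul] at h
  exact h.eventually (eventually_le_nhds hb)

theorem step_arith {C0 D P X Y e ε : ℝ≥0∞} (he : (C0 * (P + 1 + D) + 2) * e ≤ ε) :
    C0 * (Y + P * e + e + D * (X + e)) + e + e ≤ C0 * (1 + D) * Y + C0 * (1 + D) * X + ε := by
  refine le_trans ?_ (add_le_add le_rfl he)
  have h : C0 * (1 + D) * Y + C0 * (1 + D) * X + (C0 * (P + 1 + D) + 2) * e =
      C0 * (Y + P * e + e + D * (X + e)) + e + e + (C0 * D * Y + C0 * X) := by ring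
  rw [h]
  exact le_self_add

theorem step (hm : 2 ≤ m) : ∃ C : ℝ≥0∞, C ≠ ⊤ ∧ ∀ v : V m,
    (∀ Γ, IsW Γ → GP v Γ) →
    ∀ s : St m, St.Ok v s → St.Gam v s → IsW s.Γ → ∀ η : ℝ, 0 ≤ η → St.Fib v s η →
    ∀ Fo W : Set (V m), IsCompact Fo → IsOpen W → St.U v s ⊆ W → ∀ ε : ℝ≥0∞, ε ≠ 0 →
    ∀ t : ℝ, 0 < t →
    ∃ (s' : St m) (Fo' : Set (V m)), St.Ok v s' ∧ St.Gam v s' ∧ IsW s'.Γ ∧
      St.U v s' ⊆ s.I ∧ (∀ x, x ∉ W → St.k v s' x = St.k v s x) ∧
      (∀ x, ‖St.k v s' x - St.k v s x‖ ≤ 2 * η + t) ∧ St.Fib v s' t ∧ IsCompact Fo' ∧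
      St.Fold v s' ⊆ Fo' ∧ En (St.u v s') Fo' ≤ ε ∧
      En (St.u v s') (St.U v s' \ s'.I) ≤ C * En (St.u v s) Fo + ε ∧
      volume (s.I \ s'.I) ≤ C * En (St.u v s) Fo + ε ∧
      (St.Fold v s ⊆ Fo → ∀ B : Set (V m), MeasurableSet B →
        En (St.u v s') (B \ St.U v s') ≤ En (St.u v s) (B \ St.U v s) +
          C * En (St.u v s) (St.U v s \ s.I) + C * En (St.u v s) Fo + ε) := by
  obtain ⟨C0, hC0, hunit⟩ := unit_step hm
  obtain ⟨Cn, hCn, hnet⟩ := exists_net m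
  obtain ⟨D, hD⟩ : ∃ D : ℝ≥0∞, D = 2 ^ (m + 1) * (ENNReal.ofReal (18 ^ (2 * m + 2)) * Cn) := ⟨_, rfl⟩
  have hP : (2 : ℝ≥0∞) ^ (m + 1) ≠ ⊤ := ENNReal.pow_ne_top ENNReal.ofNat_ne_top
  have hP1 : (1 : ℝ≥0∞) ≤ 2 ^ (m + 1) := one_le_pow₀ one_le_two
  have hDt : D ≠ ⊤ := hD ▸ ENNReal.mul_ne_top hP (ENNReal.mul_ne_top ENNReal.ofReal_ne_top hCn)
  refine ⟨C0 * (1 + D), ENNReal.mul_ne_top hC0 (ENNReal.add_ne_top.2 ⟨ENNReal.one_ne_top, hDt⟩),
    ?_⟩
  rintro v hGP s hs hΓ hl η hη hFib Fo W hFo hW hUW ε hε t ht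
  -- the error budget
  have hE : C0 * (2 ^ (m + 1) + 1 + D) + 2 ≠ ⊤ := ENNReal.add_ne_top.2 ⟨ENNReal.mul_ne_top hC0
    (ENNReal.add_ne_top.2 ⟨ENNReal.add_ne_top.2 ⟨hP, ENNReal.one_ne_top⟩, hDt⟩),
    ENNReal.ofNat_ne_top⟩
  obtain ⟨e, he0, he⟩ : ∃ e : ℝ≥0∞, e ≠ 0 ∧ (C0 * (2 ^ (m + 1) + 1 + D) + 2) * e ≤ ε := by
    obtain ⟨e, he0, he⟩ := ENNReal.exists_nnreal_pos_mul_lt hE hε
    exact ⟨e, ENNReal.coe_ne_zero.2 he0.ne', by rw [mul_comm]; exact he.le⟩
  have hU := St.isCompact_U hs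
  have hIU := St.I_subset_U hs
  obtain ⟨K1, hK1I, hK1, hvol⟩ := hs.hI.measurableSet.exists_isCompact_sdiff_lt (μ := volume)
    (ne_top_of_le_ne_top hU.measure_lt_top.ne (measure_mono hIU)) he0
  obtain ⟨r1, hr1, hfat1⟩ := exists_fat_le (St.tp_u hs) hU hK1.measurableSet he0
  obtain ⟨r2, hr2, hfat2⟩ := exists_fat_le (St.tp_u hs) hFo MeasurableSet.empty he0
  rw [sdiff_empty, sdiff_empty] at hfat2
  obtain ⟨r3, hr3, hcW⟩ := hU.exists_cthickening_subset_open hW hUW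
  obtain ⟨r4, hr4, hcI⟩ := hK1.exists_cthickening_subset_open hs.hI hK1I
  obtain ⟨L, hL, hLk⟩ := (St.lh_k hs).tp.exists_bound
  obtain ⟨j, hj1, hj2, hj3, hj4, hj5, hj6, hj7⟩ := ((step_mesh 7 hr1).and
    ((step_mesh 3 hr2).and
    ((step_mesh 5 hr3).and
    ((step_mesh 20 hr4).and
    ((step_mesh (L + 1) ht).and
    ((step_mesh 3 ht).and
    (step_mesh 1 one_pos))))))).exists
  have hq := rq_half_pow j
  obtain ⟨c, hcj⟩ : ∃ c : ℝ, c = (1 / 2 : ℝ) ^ j := ⟨_, rfl⟩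
  have hc : 0 < c := hcj ▸ pow_pos (by norm_num) j
  rw [← hcj] at hj1 hj2 hj3 hj4 hj5 hj6 hj7 hq
  have hci : 0 < c⁻¹ := inv_pos.2 hc
  obtain ⟨κ, hκ⟩ : ∃ κ : ℝ≥0∞, κ = ENNReal.ofReal (c ^ (2 * m + 2)) := ⟨_, rfl⟩
  have hκ1 : κ ≤ 1 := hκ ▸ ENNReal.ofReal_le_one.2 (pow_le_one₀ hc.le (by linarith))
  have hκe : ∀ a : ℝ≥0∞, κ * a ≤ a := fun a => mul_le_of_le_one_left' hκ1
  -- the rescaled state
  have hs1 := St.ok_sc hs hc
  have hu1 : St.u v (s.sc c) = fun x => c⁻¹ • St.u v s (c • x) := funext (St.u_sc hs hc)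
  obtain ⟨T1, hT1, hT1f, hT1c⟩ := finite_cover_balls_of_compact (step_compact hc hK1) one_pos
  have hF1 : ∀ p ∈ hT1f.toFinset, closedBall p 20 ⊆ (s.sc c).I := by
    intro p hp y hy
    refine hcI (mem_cthickening_of_dist_le _ (c • p) _ _ (hT1 (hT1f.mem_toFinset.1 hp)) ?_)
    rw [step_dist hc]
    exact (mul_le_mul_of_nonneg_left (mem_closedBall.1 hy) hc.le).trans hj4
  have hF1c : ∀ x : V m, c • x ∈ K1 → ∃ p ∈ hT1f.toFinset, ‖x - p‖ < 1 := by
    intro x hx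
    obtain ⟨p, hp, hxp⟩ := mem_iUnion₂.1 (hT1c hx)
    exact ⟨p, hT1f.mem_toFinset.2 hp, by rwa [mem_ball, dist_eq_norm] at hxp⟩
  generalize hT1f.toFinset = F1 at hF1 hF1c
  obtain ⟨F2, hF2, hcard⟩ := hnet _ (St.tp_u hs1) _ (step_compact hc hFo)
  have hLk1 : ∀ x y, ‖St.k v (s.sc c) x - St.k v (s.sc c) y‖ ≤ L * ‖x - y‖ := by
    intro x y
    rw [St.k_sc hs hc, St.k_sc hs hc, ← smul_sub, norm_smul, Real.norm_of_nonneg hci.le]
    have h1 := hLk (c • x) (c • y)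
    rw [← smul_sub, norm_smul, Real.norm_of_nonneg hc.le] at h1
    rw [inv_mul_le_iff₀ hc]
    linarith
  have hW2 : IsW (s.sc c).Γ := hl.comp (isW_smul hq hc.ne')
  obtain ⟨s1, Fo1, ho, hg, hw, hb, hfar, hk, hf, hcF, hFF, hEF, hE1, hE2⟩ :=
    hunit v hGP (s.sc c) hs1 (St.gam_sc hΓ c) hW2 F1 F2 hF1 (η / c) L (div_nonneg hη hc.le)
      (St.fib_sc hs hc hFib) (by linarith) hLk1 e he0
  have hs' := St.ok_sc ho hci
  have hu' : (fun x => c⁻¹ • St.u v (s1.sc c⁻¹) (c • x)) = St.u v s1 := by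
    funext x
    rw [St.u_sc ho hci, inv_inv, inv_smul_smul₀ hc.ne', inv_smul_smul₀ hc.ne']
  have hEn : ∀ Z : Set (V m), MeasurableSet Z → ∀ Z1 : Set (V m), (∀ x, c • x ∈ Z → x ∈ Z1) →
      En (St.u v (s1.sc c⁻¹)) Z ≤ κ * En (St.u v s1) Z1 := by
    intro Z hZ Z1 hZ1
    rw [step_En_sc hc _ hZ, hu', ← hκ]
    exact mul_le_mul_right (step_En_mono _ hZ1) κ
  have hI' : ∀ x : V m, c • x ∈ (s1.sc c⁻¹).I ↔ x ∈ s1.I := by
    intro x
    change c⁻¹ • c • x ∈ s1.I ↔ _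
    rw [inv_smul_smul₀ hc.ne']
  -- the balls around the second net
  have hballs : 2 ^ (m + 1) * (κ * volume (⋃ p ∈ F2, ball p 9)) ≤ D * (En (St.u v s) Fo + e) := by
    have h1 : κ * ∫⁻ x in cthickening 3 {x : V m | c • x ∈ Fo},
        (1 + om (St.u v (s.sc c)) 3 x) ^ (m + 1) ≤ En (St.u v s) Fo + e := by
      refine le_trans ?_ hfat2
      refine le_trans ?_ (lintegral_mono fun x => pow_le_pow_left' (add_le_add le_rfl
        (om_mono (St.u v s) (ball_subset_ball hj2 : ball x (c * 3) ⊆ ball x r2))) (m + 1))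
      rw [step_om_sc hc _ 3 isClosed_cthickening.measurableSet, ← hκ, hu1]
      exact mul_le_mul_right (lintegral_mono_set fun x hx =>
        step_cth hc hFo (by norm_num) hj2 hx) κ
    calc 2 ^ (m + 1) * (κ * volume (⋃ p ∈ F2, ball p 9))
        ≤ 2 ^ (m + 1) * (κ * ((Cn * ∫⁻ x in cthickening 3 {x : V m | c • x ∈ Fo},
            (1 + om (St.u v (s.sc c)) 3 x) ^ (m + 1)) * ENNReal.ofReal (18 ^ (2 * m + 2)))) :=
          mul_le_mul_right (mul_le_mul_right ((step_balls F2).trans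
            (mul_le_mul_left hcard _)) κ) _
      _ = D * (κ * ∫⁻ x in cthickening 3 {x : V m | c • x ∈ Fo},
            (1 + om (St.u v (s.sc c)) 3 x) ^ (m + 1)) := by rw [hD]; ring
      _ ≤ _ := mul_le_mul_right h1 D
  have hshal : ∀ y ∈ Shal F1 F2, c • y ∉ K1 ∨ y ∈ ⋃ p ∈ F2, ball p 9 := by
    rintro y (hy | ⟨p, hp, hy⟩)
    · refine Or.inl fun hK => ?_
      obtain ⟨p, hp, hyp⟩ := hF1c y hK
      linarith [hy p hp]
    · exact Or.inr (mem_iUnion₂.2 ⟨p, hp, by rwa [mem_ball, dist_eq_norm]⟩)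
  have hmIK : MeasurableSet (s.I \ K1) := hs.hI.measurableSet.diff hK1.measurableSet
  have hmain : κ * En (St.u v s1) ({x | ∃ p ∈ F1, ‖x - p‖ ≤ 12} \ s1.I) ≤
      C0 * (0 + 2 ^ (m + 1) * e + e + D * (En (St.u v s) Fo + e)) + e := by
    have h1 : κ * volume ({y | ∃ p ∈ F1, ‖y - p‖ < 13} ∩ Shal F1 F2) ≤
        e + D * (En (St.u v s) Fo + e) := by
      have h2 : {y | ∃ p ∈ F1, ‖y - p‖ < 13} ∩ Shal F1 F2 ⊆
          {x : V m | c • x ∈ s.I \ K1} ∪ ⋃ p ∈ F2, ball p 9 := by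
        rintro y ⟨⟨p, hp, hyp⟩, hy⟩
        rcases hshal y hy with h | h
        · refine Or.inl ⟨hF1 p hp ?_, h⟩
          rw [mem_closedBall, dist_eq_norm]
          linarith
        · exact Or.inr h
      refine (mul_le_mul_right ((measure_mono h2).trans (measure_union_le _ _)) κ).trans ?_
      rw [mul_add]
      refine add_le_add ?_ (le_trans (le_mul_of_one_le_left' hP1) hballs)
      rw [hκ, ← step_vol_sc hc hmIK]
      exact hvol.le
    refine (mul_le_mul_right hE1 κ).trans ?_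
    rw [mul_add, mul_left_comm]
    refine add_le_add (mul_le_mul_right (h1.trans ?_) C0) (hκe e)
    exact add_le_add le_add_self le_rfl
  have hfin := step_arith (X := En (St.u v s) Fo) (Y := 0) he
  rw [mul_zero, zero_add (C0 * (1 + D) * _)] at hfin
  have hee : e ≤ ε := by
    refine le_trans ?_ he
    exact le_mul_of_one_le_left' (le_add_left one_le_two)
  refine ⟨s1.sc c⁻¹, {x | c⁻¹ • x ∈ Fo1}, hs', St.gam_sc hg _,
    hw.comp (isW_smul hq.inv hci.ne'), ?_, ?_, ?_, ?_,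
    step_compact hci hcF, fun x hx => hFF ((St.mem_Fold_sc ho hci x).1 hx), ?_, ?_, ?_, ?_⟩
  · intro x hx
    obtain ⟨p, hp, hxp⟩ := hb _ ((St.mem_U_sc c⁻¹ x).1 hx)
    have h1 : c • c⁻¹ • x ∈ s.I := hF1 p hp (by
      rw [mem_closedBall, dist_eq_norm]
      linarith)
    rwa [smul_inv_smul₀ hc.ne'] at h1
  · intro x hx
    have h1 : ∀ y ∈ St.U v (s.sc c), 5 ≤ ‖c⁻¹ • x - y‖ := by
      intro y hy
      by_contra hn
      refine hx (hcW (mem_cthickening_of_dist_le _ (c • y) _ _ hy ?_))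
      have h2 := step_dist hc (c⁻¹ • x) y
      rw [smul_inv_smul₀ hc.ne'] at h2
      rw [h2, dist_eq_norm]
      exact (mul_le_mul_of_nonneg_left (not_le.1 hn).le hc.le).trans hj3
    rw [St.k_sc ho hci, (hfar _ h1).1, St.k_sc hs hc, inv_inv, smul_inv_smul₀ hc.ne',
      smul_inv_smul₀ hc.ne']
  · intro x
    have h1 := hk (c⁻¹ • x)
    rw [St.k_sc hs hc, smul_inv_smul₀ hc.ne'] at h1
    have h2 : St.k v (s1.sc c⁻¹) x - St.k v s x =
        c • (St.k v s1 (c⁻¹ • x) - c⁻¹ • St.k v s x) := by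
      rw [St.k_sc ho hci, inv_inv, smul_sub, smul_inv_smul₀ hc.ne']
    rw [h2, norm_smul, Real.norm_of_nonneg hc.le]
    refine (mul_le_mul_of_nonneg_left h1 hc.le).trans ?_
    have h3 : c * (2 * (η / c) + L + 1) = 2 * η + c * (L + 1) := by field_simp; ring
    linarith
  · intro z hz τ hτ
    refine (St.fib_sc ho hci hf z hz τ hτ).trans ?_
    rw [div_inv_eq_mul, mul_comm]
    exact hj6
  · refine (hEn _ (step_compact hci hcF).measurableSet Fo1 fun x hx => ?_).trans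
      ((hκe _).trans (hEF.trans hee))
    have h1 : c⁻¹ • c • x ∈ Fo1 := hx
    rwa [inv_smul_smul₀ hc.ne'] at h1
  · refine (hEn _ ((St.isCompact_U hs').measurableSet.diff hs'.hI.measurableSet) _
      fun x hx => ?_).trans (hmain.trans (le_self_add.trans hfin))
    refine ⟨hb x ?_, fun h => hx.2 ((hI' x).2 h)⟩
    have h1 := (St.mem_U_sc c⁻¹ _).1 hx.1
    rwa [inv_smul_smul₀ hc.ne'] at h1
  · have h1 : s.I \ (s1.sc c⁻¹).I ⊆ (K1 \ (s1.sc c⁻¹).I) ∪ (s.I \ K1) := by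
      intro x hx
      by_cases h : x ∈ K1
      · exact Or.inl ⟨h, hx.2⟩
      · exact Or.inr ⟨hx.1, h⟩
    refine ((measure_mono h1).trans (measure_union_le _ _)).trans (le_trans ?_ hfin)
    refine add_le_add ((step_vol_le_En (St.u v (s1.sc c⁻¹)) _).trans ?_) hvol.le
    refine (hEn _ (hK1.measurableSet.diff hs'.hI.measurableSet) _ fun x hx => ?_).trans hmain
    obtain ⟨p, hp, hxp⟩ := hF1c x hx.1
    exact ⟨⟨p, hp, by linarith⟩, fun h => hx.2 ((hI' x).2 h)⟩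
  · intro hFold B hB
    have hE3 := hE2 fun x hx h0 => hF2 x (hFold ((St.mem_Fold_sc hs hc x).1 hx)) h0
    obtain ⟨T, hT⟩ : ∃ T : Set (V m), T = {x | c⁻¹ • x ∈ cthickening 6 (St.U v (s.sc c))} :=
      ⟨_, rfl⟩
    have hTc : IsClosed T := hT ▸ isClosed_cthickening.preimage (continuous_const_smul c⁻¹)
    have h1 : B \ St.U v (s1.sc c⁻¹) ⊆ (B \ T) ∪ (T \ (s1.sc c⁻¹).I) := by
      intro x hx
      by_cases h : x ∈ T
      · exact Or.inr ⟨h, fun hI => hx.2 (St.I_subset_U hs' hI)⟩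
      · exact Or.inl ⟨hx.1, h⟩
    have h2 : En (St.u v (s1.sc c⁻¹)) (B \ T) ≤ En (St.u v s) (B \ St.U v s) := by
      rw [step_En_congr (g := St.u v s) hTc.isOpen_compl (hB.diff hTc.measurableSet)
        (fun x hx => hx.2) ?_]
      · refine step_En_mono _ fun x hx => ⟨hx.1, fun hxU => hx.2 ?_⟩
        rw [hT]
        refine self_subset_cthickening _ ?_
        rw [St.mem_U_sc, smul_inv_smul₀ hc.ne']
        exact hxU
      · intro x hx
        have h3 : ∀ y ∈ St.U v (s.sc c), 5 ≤ ‖c⁻¹ • x - y‖ := by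
          intro y hy
          by_contra hn
          refine hx ?_
          rw [hT]
          refine mem_cthickening_of_dist_le _ y _ _ hy ?_
          rw [dist_eq_norm]
          linarith [not_le.1 hn]
        rw [St.u_sc ho hci, (hfar _ h3).2, St.u_sc hs hc, inv_inv, smul_inv_smul₀ hc.ne',
          smul_inv_smul₀ hc.ne']
    have h4 : κ * ∫⁻ y in {x : V m | c • x ∈ cthickening r1 (St.U v s) \ K1},
        (1 + om (St.u v (s.sc c)) 3 y) ^ (m + 1) ≤
        En (St.u v s) (St.U v s \ s.I) + 2 ^ (m + 1) * e + e := by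
      rw [hκ, hu1, ← step_om_sc hc _ 3
        (isClosed_cthickening.measurableSet.diff hK1.measurableSet)]
      refine le_trans (lintegral_mono fun x => pow_le_pow_left' (add_le_add le_rfl
        (om_mono (St.u v s) (ball_subset_ball (by linarith) : ball x (c * 3) ⊆ ball x r1))) (m + 1)) ?_
      refine hfat1.trans (add_le_add ?_ le_rfl)
      refine (step_En_union _ (A := St.U v s \ s.I) (B := s.I \ K1) fun x hx => ?_).trans
        (add_le_add le_rfl ?_)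
      · by_cases h : x ∈ s.I
        · exact Or.inr ⟨h, hx.2⟩
        · exact Or.inl ⟨hx.1, h⟩
      · exact (step_En_id hs.hI hmIK sdiff_subset fun y hy => St.u_eq_self hs hy).trans
          (mul_le_mul_right hvol.le _)
    have hmB : MeasurableSet ({x : V m | c • x ∈ K1} ∩ ⋃ p ∈ F2, ball p 9) :=
      (step_compact hc hK1).measurableSet.inter
        (isOpen_biUnion fun p _ => isOpen_ball).measurableSet
    have h5 : κ * ∫⁻ y in {x : V m | c • x ∈ K1} ∩ ⋃ p ∈ F2, ball p 9,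
        (1 + om (St.u v (s.sc c)) 3 y) ^ (m + 1) ≤ D * (En (St.u v s) Fo + e) := by
      refine le_trans ?_ hballs
      rw [mul_left_comm]
      refine mul_le_mul_right ?_ κ
      refine le_trans ?_ (mul_le_mul_right (measure_mono
        (inter_subset_right (s := {x : V m | c • x ∈ K1}))) _)
      rw [← setLIntegral_const]
      refine setLIntegral_mono' hmB fun x hx => step_om_id fun y hy => St.u_eq_self hs1 ?_
      obtain ⟨p, hp, hxp⟩ := hF1c x hx.1
      refine hF1 p hp ?_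
      rw [mem_closedBall]
      have h6 := dist_triangle y x p
      rw [mem_ball] at hy
      rw [← dist_eq_norm] at hxp
      linarith
    have h6 : cthickening 7 (St.U v (s.sc c)) ∩ Shal F1 F2 ⊆
        {x : V m | c • x ∈ cthickening r1 (St.U v s) \ K1} ∪
          ({x : V m | c • x ∈ K1} ∩ ⋃ p ∈ F2, ball p 9) := by
      rintro y ⟨hy, hy'⟩
      by_cases h : c • y ∈ K1
      · exact Or.inr ⟨h, (hshal y hy').resolve_left (not_not.2 h)⟩
      · exact Or.inl ⟨step_cth hc hU (by norm_num) hj1 hy, h⟩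
    have h7 : En (St.u v (s1.sc c⁻¹)) (T \ (s1.sc c⁻¹).I) ≤
        C0 * (En (St.u v s) (St.U v s \ s.I) + 2 ^ (m + 1) * e + e + D * (En (St.u v s) Fo + e)) + e := by
      refine (hEn _ (hTc.measurableSet.diff hs'.hI.measurableSet)
        (cthickening 6 (St.U v (s.sc c)) \ s1.I) fun x hx => ?_).trans ?_
      · refine ⟨?_, fun h => hx.2 ((hI' x).2 h)⟩
        have h8 := hx.1
        rw [hT, mem_ofPred_eq, inv_smul_smul₀ hc.ne'] at h8
        exact h8
      · refine (mul_le_mul_right hE3 κ).trans ?_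
        rw [mul_add, mul_left_comm]
        refine add_le_add (mul_le_mul_right ?_ C0) (hκe e)
        refine (mul_le_mul_right ((lintegral_mono_set h6).trans (lintegral_union_le _ _ _)) κ).trans ?_
        rw [mul_add]
        exact add_le_add h4 h5
    refine (step_En_union _ h1).trans ?_
    rw [add_assoc, add_assoc, ← add_assoc (C0 * (1 + D) * _)]
    exact add_le_add h2 (h7.trans (le_self_add.trans (step_arith he)))

end BEe
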